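import Pool.Agent.Lib.MP_629a14_nt.PhiTrunc
import Pool.Agent.Lib.MP_629a14_nt.Fc.Wt

/-! Comparison of distribution functions over two families which are close. -/

set_option autoImplicit false

namespace Pool.Agent.Lib.MP_629a14_nt.Ts

open Finset Filter Topology Pool.Agent.Lib.MP_629a14_nt Pool.Agent.Lib.MP_629a14_nt.Rob
  Pool.Agent.Lib.MP_629a14_nt.En Pool.Agent.Lib.MP_629a14_nt.Fc

private theorem card_sum {k : ℕ} (E : Finset (Fin k)) [DecidablePred (· ∈ E)] :
    (E.card : ℝ) = ∑ i, if i ∈ E then (1 : ℝ) else 0 := by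
  rw [sum_boole]
  congr 2
  ext i
  simp

theorem ramp_law (X δ : ℝ) (hδ : 0 < δ) : ∃ c0 : ℝ, 0 < c0 ∧
    ∀ (N k m : ℕ) (a : Fin k → ℕ) (b : Fin m → ℕ), 0 < k → 0 < m → (∀ i, a i ∈ Icc 1 N) →
    (∀ j, b j ∈ Icc 1 N) → Close c0 a b → ∀ (G : ℕ → ℝ) (F : ℕ → ℂ), Wi N F X →
    (((univ : Finset (Fin k)).filter (fun i => δ < ‖(G (a i) : ℂ) - F (a i)‖)).card : ℝ) ≤ δ * k →
    (((univ : Finset (Fin m)).filter (fun j => δ < ‖(G (b j) : ℂ) - F (b j)‖)).card : ℝ) ≤ δ * m →
    ∀ x : ℝ, (((univ : Finset (Fin m)).filter (fun j => G (b j) ≤ x)).card : ℝ) / m ≤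
      (((univ : Finset (Fin k)).filter (fun i => G (a i) ≤ x + 3 * δ)).card : ℝ) / k + 5 * δ := by
  classical
  obtain ⟨Y, hY⟩ : ∃ Y : ℝ, Y = 2 * X + 4 * δ := ⟨_, rfl⟩
  obtain ⟨p, hp⟩ := exists_ramp_poly δ Y δ hδ
  obtain ⟨c0, hc0⟩ : ∃ c0 : ℝ, c0 = δ / (|pn p Y| + 1) := ⟨_, rfl⟩
  have hc00 : 0 < c0 := by rw [hc0]; positivity
  refine ⟨c0, hc00, fun N k m a b hk hm ha hb hcl G F hF hEa hEb x => ?_⟩
  have hX : 0 ≤ X := hF.nonneg
  have hk0 : (0 : ℝ) < k := by exact_mod_cast hk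
  have hm0 : (0 : ℝ) < m := by exact_mod_cast hm
  obtain ⟨Ea, hEa'⟩ : ∃ Ea : Finset (Fin k), Ea = (univ : Finset (Fin k)).filter
    (fun i => δ < ‖(G (a i) : ℂ) - F (a i)‖) := ⟨_, rfl⟩
  obtain ⟨Eb, hEb'⟩ : ∃ Eb : Finset (Fin m), Eb = (univ : Finset (Fin m)).filter
    (fun j => δ < ‖(G (b j) : ℂ) - F (b j)‖) := ⟨_, rfl⟩
  rw [← hEa'] at hEa
  rw [← hEb'] at hEb
  have hFa : ∀ i, |(F (a i)).re| ≤ X := fun i => (Complex.abs_re_le_norm _).trans (hF.norm_le (ha i))
  have hFb : ∀ j, |(F (b j)).re| ≤ X := fun j => (Complex.abs_re_le_norm _).trans (hF.norm_le (hb j))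
  have hGa : ∀ i, i ∉ Ea → |G (a i) - (F (a i)).re| ≤ δ := by
    intro i hi
    rw [hEa', mem_filter] at hi
    push Not at hi
    have h1 := hi (mem_univ _)
    have h2 := (Complex.abs_re_le_norm ((G (a i) : ℂ) - F (a i))).trans h1
    simpa using h2
  have hGb : ∀ j, j ∉ Eb → |G (b j) - (F (b j)).re| ≤ δ := by
    intro j hj
    rw [hEb', mem_filter] at hj
    push Not at hj
    have h1 := hj (mem_univ _)
    have h2 := (Complex.abs_re_le_norm ((G (b j) : ℂ) - F (b j))).trans h1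
    simpa using h2
  have hle : ∀ x : ℝ, (((univ : Finset (Fin m)).filter (fun j => G (b j) ≤ x)).card : ℝ) ≤ m := by
    intro x
    have h := card_filter_le (univ : Finset (Fin m)) (fun j => G (b j) ≤ x)
    rw [card_univ, Fintype.card_fin] at h
    exact_mod_cast h
  -- large `x`
  by_cases hx1 : X + δ ≤ x
  · have h1 : (univ : Finset (Fin k)) ⊆
        (univ : Finset (Fin k)).filter (fun i => G (a i) ≤ x + 3 * δ) ∪ Ea := by
      intro i _
      rw [mem_union, mem_filter]
      by_cases hi : i ∈ Ea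
      · exact Or.inr hi
      · left
        refine ⟨mem_univ _, ?_⟩
        have h2 := (abs_le.1 (hGa i hi)).2
        have h3 := (abs_le.1 (hFa i)).2
        linarith
    have h2 := (card_le_card h1).trans (card_union_le _ _)
    rw [card_univ, Fintype.card_fin] at h2
    have h3 : (k : ℝ) ≤ (((univ : Finset (Fin k)).filter (fun i => G (a i) ≤ x + 3 * δ)).card : ℝ) +
        Ea.card := by exact_mod_cast h2
    have h4 : 1 - δ ≤ (((univ : Finset (Fin k)).filter (fun i => G (a i) ≤ x + 3 * δ)).card : ℝ) /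
        k := by
      rw [le_div_iff₀ hk0]
      linarith
    have h5 : (((univ : Finset (Fin m)).filter (fun j => G (b j) ≤ x)).card : ℝ) / m ≤ 1 := by
      rw [div_le_one hm0]
      exact hle x
    linarith
  push Not at hx1
  -- small `x`
  by_cases hx2 : x < -(X + δ)
  · have h1 : (univ : Finset (Fin m)).filter (fun j => G (b j) ≤ x) ⊆ Eb := by
      intro j hj
      rw [mem_filter] at hj
      by_contra hj'
      have h2 := (abs_le.1 (hGb j hj')).1
      have h3 := (abs_le.1 (hFb j)).1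
      linarith [hj.2]
    have h2 : (((univ : Finset (Fin m)).filter (fun j => G (b j) ≤ x)).card : ℝ) ≤ δ * m := by
      refine le_trans ?_ hEb
      exact_mod_cast card_le_card h1
    have h3 : (((univ : Finset (Fin m)).filter (fun j => G (b j) ≤ x)).card : ℝ) / m ≤ δ := by
      rw [div_le_iff₀ hm0]
      exact h2
    have h4 : 0 ≤ (((univ : Finset (Fin k)).filter (fun i => G (a i) ≤ x + 3 * δ)).card : ℝ) / k := by
      positivity
    linarith
  push Not at hx2
  -- the main case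
  obtain ⟨y, hy⟩ : ∃ y : ℕ → ℝ, y = fun n => (F n).re - x := ⟨_, rfl⟩
  have hyW : Wi N (fun n => (y n : ℂ)) Y := by
    have h1 := (hF.re.sub (Wi.const (N := N) (x : ℂ)))
    have h2 : ‖(x : ℂ)‖ ≤ X + δ := by
      rw [Complex.norm_real, Real.norm_eq_abs, abs_le]
      constructor <;> linarith
    refine (h1.congr fun n _ => ?_).mono (by rw [hY]; linarith)
    rw [hy]
    push_cast
    rfl
  obtain ⟨w, hwdef⟩ : ∃ w : ℕ → ℝ, w = wt b := ⟨_, rfl⟩
  obtain ⟨w', hw'def⟩ : ∃ w' : ℕ → ℝ, w' = wt a := ⟨_, rfl⟩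
  have hw : IsWt N w := by rw [hwdef]; exact isWt b hm hb
  have hw' : IsWt N w' := by rw [hw'def]; exact isWt a hk ha
  have hu : ∀ t : ℝ, ‖∑ n ∈ Icc 1 N, ((w n - w' n : ℝ) : ℂ) * ee (t * n)‖ ≤ c0 := by
    rw [hwdef, hw'def]
    exact close_wt hcl ha hb
  have hcmp := mean_compare hw hw' hu (x := y) (x1 := y) (e := fun _ => 0) (X := Y) (θ := 0)
    (a := δ) (ε := δ) hδ hp hyW (fun n _ => by simp) (by simp) (by simp)
  rw [hwdef, hw'def, wt_sum b hb, wt_sum a ha] at hcmp
  have hpn : pn p Y * c0 ≤ δ := by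
    rw [hc0]
    have h1 : pn p Y ≤ |pn p Y| + 1 := (le_abs_self _).trans (by linarith)
    calc pn p Y * (δ / (|pn p Y| + 1)) ≤ (|pn p Y| + 1) * (δ / (|pn p Y| + 1)) := by gcongr
      _ = δ := by field_simp
  have hcmp2 := (abs_le.1 hcmp).2
  have e1 : (((univ : Finset (Fin m)).filter (fun j => G (b j) ≤ x)).card : ℝ) ≤
      ∑ j, ramp δ (y (b j)) + δ * m := by
    have h1 : (((univ : Finset (Fin m)).filter (fun j => G (b j) ≤ x)).card : ℝ) ≤
        ∑ j, ramp δ (y (b j)) + Eb.card := by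
      rw [card_filter, card_sum Eb, ← sum_add_distrib]
      push_cast
      refine sum_le_sum fun j _ => ?_
      have hr := ramp_nonneg δ (y (b j))
      by_cases h2 : G (b j) ≤ x
      · rw [if_pos h2]
        by_cases h3 : j ∈ Eb
        · rw [if_pos h3]
          linarith
        · have h4 := (abs_le.1 (hGb j h3)).1
          have h5 : y (b j) ≤ δ := by
            rw [hy]
            linarith
          rw [ramp_eq_one hδ h5, if_neg h3]
          norm_num
      · rw [if_neg h2]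
        split_ifs <;> linarith
    linarith
  have e2 : ∑ i, ramp δ (y (a i)) ≤
      (((univ : Finset (Fin k)).filter (fun i => G (a i) ≤ x + 3 * δ)).card : ℝ) + δ * k := by
    have h1 : ∑ i, ramp δ (y (a i)) ≤
        (((univ : Finset (Fin k)).filter (fun i => G (a i) ≤ x + 3 * δ)).card : ℝ) + Ea.card := by
      rw [card_filter, card_sum Ea]
      push_cast
      rw [← sum_add_distrib]
      refine sum_le_sum fun i _ => ?_
      have hr := ramp_le_one δ (y (a i))
      by_cases h3 : i ∈ Ea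
      · rw [if_pos h3]
        split_ifs <;> linarith
      · rw [if_neg h3]
        by_cases h5 : y (a i) < 2 * δ
        · have h4 := (abs_le.1 (hGa i h3)).2
          have h6 : G (a i) ≤ x + 3 * δ := by
            have h7 : (F (a i)).re - x < 2 * δ := by rw [hy] at h5; exact h5
            linarith
          rw [if_pos h6]
          linarith
        · rw [ramp_eq_zero hδ (not_lt.1 h5)]
          split_ifs <;> norm_num
    linarith
  have e3 : (((univ : Finset (Fin m)).filter (fun j => G (b j) ≤ x)).card : ℝ) / m ≤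
      (∑ j, ramp δ (y (b j))) / m + δ := by
    rw [div_add' _ _ _ hm0.ne']
    exact div_le_div_of_nonneg_right e1 hm0.le
  have e4 : (∑ i, ramp δ (y (a i))) / k ≤
      (((univ : Finset (Fin k)).filter (fun i => G (a i) ≤ x + 3 * δ)).card : ℝ) / k + δ := by
    rw [div_add' _ _ _ hk0.ne']
    exact div_le_div_of_nonneg_right e2 hk0.le
  have e5 : 2 * ((0 : ℝ) / δ) = 0 := by simp
  rw [e5] at hcmp2
  linarith

end Pool.Agent.Lib.MP_629a14_nt.Ts
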