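import Pool.Agent.Lib.MP_629a14_nt.Ts.Enum
import Pool.Agent.Lib.MP_629a14_nt.Ts.Ramp
import Pool.Agent.Lib.MP_629a14_nt.Spc.Struct
import Pool.Agent.Lib.MP_629a14_nt.Kp.PfClass

/-! The distribution functions of the normalised numbers of representations over an equidistributed
tame sequence of sets and over the whole class. -/

set_option autoImplicit false

namespace Pool.Agent.Lib.MP_629a14_nt.Ts

open Finset Filter Topology Pool.Agent.Lib.MP_629a14_nt Pool.Agent.Lib.MP_629a14_nt.Rob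
  Pool.Agent.Lib.MP_629a14_nt.En Pool.Agent.Lib.MP_629a14_nt.Fc

theorem cx_wi {T : ℕ} {F : ℕ → ℂ} (h : Spc.Cx T F) (N : ℕ) : Wi N F ((T : ℝ) * T) := by
  obtain ⟨ι, i1, z, θ, h1, h2, h3⟩ := h
  refine ⟨ι, i1, z, θ, fun n _ => h3 n, ?_⟩
  calc ∑ i, ‖z i‖ ≤ ∑ _i : ι, (T : ℝ) := sum_le_sum fun i _ => h2 i
    _ = Fintype.card ι * T := by rw [sum_const, card_univ, nsmul_eq_mul]
    _ ≤ T * T := by gcongr

theorem cls_mem {W c N n : ℕ} (h : n ∈ cls W c N) : 1 ≤ n ∧ n ≤ N := by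
  unfold cls at h
  exact mem_Icc.1 (mem_filter.1 h).1

/-- The class has at least `N / (2 W)` elements. -/
theorem cls_card {W : ℕ} (hW : 1 ≤ W) (c : ℕ) : ∀ᶠ N : ℕ in atTop, 1 ≤ N ∧
    (N : ℝ) / (2 * W) ≤ ((cls W c N).card : ℝ) := by
  have h := (Kp.class_card hW c).eventually (lt_mem_nhds (show (1 / 2 : ℝ) < 1 by norm_num))
  filter_upwards [h, eventually_ge_atTop 1] with N hN hN1
  refine ⟨hN1, ?_⟩
  have hNr : (0 : ℝ) < N := by exact_mod_cast hN1
  have hWr : (0 : ℝ) < W := by exact_mod_cast hW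
  have h1 : (1 / 2 : ℝ) < (W : ℝ) / N * (cls W c N).card := hN
  have h2 : ((cls W c N).card : ℝ) = ((W : ℝ) / N * (cls W c N).card) * (N / W) := by field_simp
  rw [h2]
  calc (N : ℝ) / (2 * W) = 1 / 2 * (N / W) := by field_simp
    _ ≤ _ := mul_le_mul_of_nonneg_right h1.le (by positivity)

theorem cls_pos {W : ℕ} (hW : 1 ≤ W) (c : ℕ) : ∀ᶠ N : ℕ in atTop, 0 < (cls W c N).card := by
  filter_upwards [cls_card hW c] with N hN
  have hNr : (0 : ℝ) < N := by exact_mod_cast hN.1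
  have hWr : (0 : ℝ) < W := by exact_mod_cast hW
  have h1 : (0 : ℝ) < (cls W c N).card := lt_of_lt_of_le (by positivity) hN.2
  exact_mod_cast h1

open Classical in
theorem law {W c : ℕ} (hW : 1 ≤ W) {S : ℕ → Finset ℕ} (hE : Equi W c S) (hT : Tm S) (k : ℕ)
    (δ : ℝ) (hδ : 0 < δ) : ∀ᶠ N : ℕ in atTop, ∀ A B : Fin k → Finset ℕ,
      (∀ i, ∀ p ∈ A i, p.Prime) → (∀ i, ∀ p ∈ B i, p.Prime) → ∀ x : ℝ,
      (((S N).filter (fun n => ∑ i, RR (A i) (B i) n ≤ x)).card : ℝ) / (S N).card ≤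
        (((cls W c N).filter (fun n => ∑ i, RR (A i) (B i) n ≤ x + δ)).card : ℝ) /
          (cls W c N).card + δ := by
  obtain ⟨s, hs, K, hK⟩ := hT
  have hWr : (0 : ℝ) < W := by exact_mod_cast hW
  obtain ⟨K', hK'⟩ : ∃ K' : ℝ, K' = max K (6 * W) := ⟨_, rfl⟩
  have hK'0 : 0 ≤ K' := by
    rw [hK']
    exact le_max_of_le_right (by positivity)
  obtain ⟨d, hd⟩ : ∃ d : ℝ, d = δ / 5 := ⟨_, rfl⟩
  have hd0 : 0 < d := by rw [hd]; positivity
  obtain ⟨ε, hε⟩ : ∃ ε : ℝ, ε = d / (k + 1) := ⟨_, rfl⟩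
  have hε0 : 0 < ε := by rw [hε]; positivity
  have hkε : k * ε ≤ d := by
    rw [hε, mul_div_assoc', div_le_iff₀ (by positivity)]
    nlinarith
  obtain ⟨T, c1, hc1, N1, h1⟩ := Spc.struct s hs K' ε hK'0 hε0
  obtain ⟨c2, hc2, h2⟩ := ramp_law ((k : ℝ) * (T * T)) d hd0
  have hEc := hE.2 c2 hc2
  filter_upwards [hEc, hK c1 hc1, cls_card hW c, cls_pos hW c, eventually_ge_atTop N1]
    with N hN1 hN2 hN3 hN4 hN5 A B hA hB x
  obtain ⟨hne, hclose⟩ := hN1
  have hNr : (1 : ℝ) ≤ N := by exact_mod_cast hN3.1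
  have hSm : ∀ n ∈ S N, 1 ≤ n ∧ n ≤ N := fun n hn => cls_mem (hE.1 N hn)
  have hη0 : 0 ≤ c1 / (Real.log N) ^ 2 := by positivity
  -- the two families
  have hspS : Spc.Spec s K' (c1 / (Real.log N) ^ 2) N (S N).card (en (S N)) :=
    spec_en hs hSm (hN2.trans (by rw [hK']; exact le_max_left _ _))
  have hcne : (cls W c N).Nonempty := card_pos.1 hN4
  have hspC : Spc.Spec s K' (c1 / (Real.log N) ^ 2) N (cls W c N).card (en (cls W c N)) := by
    refine spec_of_card hs (fun n hn => cls_mem hn) hcne ?_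
    rw [hK']
    refine le_trans ?_ (le_max_right _ _)
    have h3 : (0 : ℝ) < (cls W c N).card := by exact_mod_cast hN4
    rw [div_le_iff₀ h3]
    calc (2 * (N : ℝ) + 1) ≤ 3 * N := by linarith
      _ = 6 * W * (N / (2 * W)) := by
          field_simp
          norm_num
      _ ≤ 6 * W * (cls W c N).card := mul_le_mul_of_nonneg_left hN3.2 (by positivity)
  choose F hF hF' using fun i : Fin k => h1 N hN5 (A i) (B i) (hA i) (hB i)
  obtain ⟨G, hG⟩ : ∃ G : ℕ → ℝ, G = fun n => ∑ i, RR (A i) (B i) n := ⟨_, rfl⟩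
  obtain ⟨H, hH⟩ : ∃ H : ℕ → ℂ, H = fun n => ∑ i, F i n := ⟨_, rfl⟩
  have hHW : Wi N H ((k : ℝ) * (T * T)) := by
    have h3 := Wi.sum (N := N) (univ : Finset (Fin k)) F (fun _ => (T : ℝ) * T)
      (fun i _ => cx_wi (hF i) N)
    rw [hH]
    refine h3.mono (le_of_eq ?_)
    rw [sum_const, card_univ, Fintype.card_fin, nsmul_eq_mul]
  -- exceptional indices
  have hexc : ∀ (m : ℕ) (b : Fin m → ℕ), Spc.Spec s K' (c1 / (Real.log N) ^ 2) N m b →
      (((univ : Finset (Fin m)).filter (fun j => d < ‖(G (b j) : ℂ) - H (b j)‖)).card : ℝ) ≤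
        d * m := by
    intro m b hb
    have h3 : (univ : Finset (Fin m)).filter (fun j => d < ‖(G (b j) : ℂ) - H (b j)‖) ⊆
        (univ : Finset (Fin k)).biUnion (fun i => (univ : Finset (Fin m)).filter
          (fun j => ε < ‖(RR (A i) (B i) (b j) : ℂ) - F i (b j)‖)) := by
      intro j hj
      rw [mem_filter] at hj
      by_contra hcon
      rw [mem_biUnion] at hcon
      push Not at hcon
      have h4 : ∀ i, ‖(RR (A i) (B i) (b j) : ℂ) - F i (b j)‖ ≤ ε := by
        intro i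
        have h5 := hcon i (mem_univ _)
        rw [mem_filter] at h5
        push Not at h5
        exact h5 (mem_univ _)
      have h6 : (G (b j) : ℂ) - H (b j) =
          ∑ i, ((RR (A i) (B i) (b j) : ℂ) - F i (b j)) := by
        rw [hG, hH, sum_sub_distrib]
        push_cast
        rfl
      have h7 : ‖(G (b j) : ℂ) - H (b j)‖ ≤ d := by
        rw [h6]
        refine (norm_sum_le _ _).trans ((sum_le_sum fun i _ => h4 i).trans ?_)
        rw [sum_const, card_univ, Fintype.card_fin, nsmul_eq_mul]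
        exact hkε
      exact absurd hj.2 (not_lt.2 h7)
    have h4 : (((univ : Finset (Fin m)).filter
        (fun j => d < ‖(G (b j) : ℂ) - H (b j)‖)).card : ℝ) ≤
        ∑ i : Fin k, (((univ : Finset (Fin m)).filter
          (fun j => ε < ‖(RR (A i) (B i) (b j) : ℂ) - F i (b j)‖)).card : ℝ) := by
      exact_mod_cast (card_le_card h3).trans card_biUnion_le
    refine h4.trans ((sum_le_sum fun i _ => hF' i m _ b hη0 le_rfl hb).trans ?_)
    rw [sum_const, card_univ, Fintype.card_fin, nsmul_eq_mul, ← mul_assoc]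
    exact mul_le_mul_of_nonneg_right hkε (Nat.cast_nonneg _)
  have hcl : Close c2 (en (cls W c N)) (en (S N)) := by
    intro t
    have h3 := hclose t
    rw [← bh_en, ← bh_en] at h3
    exact h3
  have h3 := h2 N (cls W c N).card (S N).card (en (cls W c N)) (en (S N)) hN4 hne.card_pos
    (fun i => mem_Icc.2 (cls_mem (en_mem _ i))) (fun j => mem_Icc.2 (hSm _ (en_mem _ j))) hcl G H
    hHW (hexc _ _ hspC) (hexc _ _ hspS) x
  rw [card_en (S N) (fun n => G n ≤ x), card_en (cls W c N) (fun n => G n ≤ x + 3 * d)] at h3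
  have h4 : (((cls W c N).filter (fun n => G n ≤ x + 3 * d)).card : ℝ) / (cls W c N).card ≤
      (((cls W c N).filter (fun n => G n ≤ x + δ)).card : ℝ) / (cls W c N).card := by
    refine div_le_div_of_nonneg_right (Nat.cast_le.2 (card_le_card fun n hn => ?_))
      (Nat.cast_nonneg _)
    rw [mem_filter] at hn ⊢
    exact ⟨hn.1, by linarith [hn.2]⟩
  have h5 : 5 * d = δ := by rw [hd]; ring
  rw [hG] at h3 h4
  linarith

open Classical in
/-- The form used for lower bounds: many elements of the class with a large value give many elements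
of `S N` with a large value. -/
theorem law_ge {W c : ℕ} (hW : 1 ≤ W) {S : ℕ → Finset ℕ} (hE : Equi W c S) (hT : Tm S) (k : ℕ)
    (δ : ℝ) (hδ : 0 < δ) : ∀ᶠ N : ℕ in atTop, ∀ A B : Fin k → Finset ℕ,
      (∀ i, ∀ p ∈ A i, p.Prime) → (∀ i, ∀ p ∈ B i, p.Prime) → ∀ x : ℝ,
      (((cls W c N).filter (fun n => x + δ < ∑ i, RR (A i) (B i) n)).card : ℝ) /
          (cls W c N).card - δ ≤
        (((S N).filter (fun n => x < ∑ i, RR (A i) (B i) n)).card : ℝ) / (S N).card := by
  filter_upwards [law hW hE hT k δ hδ, cls_pos hW c, hE.2 1 one_pos] with N hN hN1 hN2 A B hA hB x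
  have h1 := hN A B hA hB x
  have hc0 : (0 : ℝ) < (cls W c N).card := by exact_mod_cast hN1
  have hs0 : (0 : ℝ) < (S N).card := by exact_mod_cast hN2.1.card_pos
  have key : ∀ (U : Finset ℕ) (g : ℕ → ℝ) (y : ℝ), (0 : ℝ) < U.card →
      ((U.filter (fun n => y < g n)).card : ℝ) / U.card =
        1 - ((U.filter (fun n => g n ≤ y)).card : ℝ) / U.card := by
    intro U g y hU
    rw [eq_sub_iff_add_eq, ← add_div, div_eq_one_iff_eq hU.ne']
    have h2 := card_filter_add_card_filter_not (s := U) (fun n => g n ≤ y)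
    simp only [not_le] at h2
    rw [← h2]
    push_cast
    ring
  rw [key _ _ _ hc0, key _ _ _ hs0]
  linarith

end Pool.Agent.Lib.MP_629a14_nt.Ts
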