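import Pool.Agent.Lib.MP_629a14_nt.Ts.ColUp
import Pool.Agent.Lib.MP_629a14_nt.Ml.TFin
import Pool.Agent.Lib.MP_629a14_nt.Mp.Cnt
import Pool.Agent.Lib.MP_629a14_nt.Ts.Law

/-! Many monochromatic sums in tame equidistributed sequences of finite sets. -/

set_option autoImplicit false

namespace Pool.Agent.Lib.MP_629a14_nt.Ts

open Finset Filter Topology Pool.Agent.Lib.MP_629a14_nt Pool.Agent.Lib.MP_629a14_nt.Rob
open Pool.Agent.Lib.MP_629a14_nt.Fc (RR)

private noncomputable def twf (p : ℕ) : ℝ :=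
  if p.Prime ∧ 2 < p then 1 - 1 / ((p : ℝ) - 1) ^ 2 else 1

private theorem twf_small {p : ℕ} (hp : 2 < p) : 1 / ((p : ℝ) - 1) ^ 2 ≤ 1 / 4 := by
  have h3 : (3 : ℝ) ≤ p := by exact_mod_cast hp
  refine one_div_le_one_div_of_le (by norm_num) ?_
  nlinarith

private theorem twf_pos (p : ℕ) : 0 < twf p := by
  unfold twf
  split_ifs with h
  · have := twf_small h.2
    linarith
  · exact one_pos

private theorem twf_le_one (p : ℕ) : twf p ≤ 1 := by
  unfold twf
  split_ifs with h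
  · have : 0 ≤ 1 / ((p : ℝ) - 1) ^ 2 := by positivity
    linarith
  · exact le_rfl

private theorem twf_summable : Summable fun p => Real.log (twf p) := by
  have hs : Summable fun n : ℕ => 8 * (1 / (n : ℝ) ^ 2) :=
    (Real.summable_one_div_nat_pow.mpr (by norm_num)).mul_left 8
  refine Summable.of_norm_bounded hs fun p => ?_
  unfold twf
  split_ifs with h
  · have h3 : (3 : ℝ) ≤ p := by exact_mod_cast h.2
    have hsm := twf_small h.2
    set x : ℝ := 1 / ((p : ℝ) - 1) ^ 2 with hx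
    have hx0 : 0 ≤ x := by positivity
    have h1 : 0 < 1 - x := by linarith
    have hneg : Real.log (1 - x) ≤ 0 := Real.log_nonpos h1.le (by linarith)
    rw [Real.norm_eq_abs, abs_of_nonpos hneg]
    have h2 : -Real.log (1 - x) ≤ 2 * x := by
      rw [← Real.log_inv]
      have h4 := Real.log_le_sub_one_of_pos (inv_pos.mpr h1)
      have h5 : (1 - x)⁻¹ - 1 ≤ 2 * x := by
        rw [sub_le_iff_le_add, inv_le_iff_one_le_mul₀ h1]
        nlinarith
      linarith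
    have h6 : x ≤ 4 * (1 / (p : ℝ) ^ 2) := by
      rw [hx, mul_one_div, div_le_div_iff₀ (by nlinarith) (by positivity)]
      nlinarith
    linarith
  · rw [Real.log_one, norm_zero]
    positivity

private theorem tw_le (F : Finset ℕ) : En.tw ≤ ∏ p ∈ F, twf p := by
  have hm : Multipliable twf := Real.multipliable_of_summable_log twf_pos twf_summable
  have h : HasProd twf En.tw := hm.hasProd
  refine le_of_tendsto h (eventually_atTop.2 ⟨F, fun G hG => ?_⟩)
  rw [← prod_sdiff hG]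
  refine mul_le_of_le_one_left (prod_nonneg fun p _ => (twf_pos p).le) ?_
  exact prod_le_one (fun p _ => (twf_pos p).le) fun p _ => twf_le_one p

private theorem HL_le (n : ℕ) (hn : 1 ≤ n) : En.HL n ≤ 2 * Col.size n := by
  have h1 : En.sing n ≤ 2 * ((n : ℝ) / n.totient) := by
    rw [SigLow.ratio_eq n hn]
    unfold En.sing
    set F := n.primeFactors.filter (fun p => 2 < p) with hF
    have h2 := tw_le F
    have h3 : ∏ p ∈ F, twf p = ∏ p ∈ F, (1 - 1 / ((p : ℝ) - 1) ^ 2) := by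
      refine prod_congr rfl fun p hp => ?_
      rw [hF, mem_filter] at hp
      unfold twf
      rw [if_pos ⟨Nat.prime_of_mem_primeFactors hp.1, hp.2⟩]
    rw [h3] at h2
    have hpr : ∀ p ∈ F, (3 : ℝ) ≤ p := by
      intro p hp
      rw [hF, mem_filter] at hp
      exact_mod_cast hp.2
    have h4 : 0 ≤ ∏ p ∈ F, (((p : ℝ) - 1) / ((p : ℝ) - 2)) :=
      prod_nonneg fun p hp => div_nonneg (by linarith [hpr p hp]) (by linarith [hpr p hp])
    have h5 : (∏ p ∈ F, (1 - 1 / ((p : ℝ) - 1) ^ 2)) * ∏ p ∈ F, (((p : ℝ) - 1) / ((p : ℝ) - 2)) =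
        ∏ p ∈ F, ((p : ℝ) / ((p : ℝ) - 1)) := by
      rw [← prod_mul_distrib]
      refine prod_congr rfl fun p hp => ?_
      have h6 := hpr p hp
      have h7 : (p : ℝ) - 1 ≠ 0 := by linarith
      have h8 : (p : ℝ) - 2 ≠ 0 := by linarith
      field_simp
      ring
    have h6 : ∏ p ∈ F, ((p : ℝ) / ((p : ℝ) - 1)) ≤ ∏ p ∈ n.primeFactors, ((p : ℝ) / ((p : ℝ) - 1)) := by
      refine prod_le_prod_of_subset_of_one_le (filter_subset _ _) (fun p hp => ?_) fun p hp _ => ?_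
      · have h7 := hpr p hp
        exact div_nonneg (by linarith) (by linarith)
      · have h7 : (2 : ℝ) ≤ p := by exact_mod_cast (Nat.prime_of_mem_primeFactors hp).two_le
        rw [one_le_div (by linarith)]
        linarith
    calc 2 * En.tw * ∏ p ∈ F, (((p : ℝ) - 1) / ((p : ℝ) - 2))
        = 2 * (En.tw * ∏ p ∈ F, (((p : ℝ) - 1) / ((p : ℝ) - 2))) := by ring
      _ ≤ 2 * ((∏ p ∈ F, (1 - 1 / ((p : ℝ) - 1) ^ 2)) *
          ∏ p ∈ F, (((p : ℝ) - 1) / ((p : ℝ) - 2))) := by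
          refine mul_le_mul_of_nonneg_left ?_ (by norm_num)
          exact mul_le_mul_of_nonneg_right h2 h4
      _ ≤ _ := by
          rw [h5]
          exact mul_le_mul_of_nonneg_left h6 (by norm_num)
  unfold En.HL Col.size
  have h2 : 2 * ((n : ℝ) ^ 2 / ((n.totient : ℝ) * Real.log n ^ 2)) =
      2 * ((n : ℝ) / n.totient) * (n / (Real.log n) ^ 2) := by
    rw [mul_assoc, div_mul_div_comm, sq]
  rw [h2]
  exact mul_le_mul_of_nonneg_right h1 (by positivity)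

private theorem lawp {W c : ℕ} (hW : 1 ≤ W) {S : ℕ → Finset ℕ} (hE : Equi W c S) (hT : Tm S)
    (k : ℕ) (δ : ℝ) (hδ : 0 < δ) : ∀ᶠ N : ℕ in atTop,
  ∀ A B : Fin k → Finset ℕ, (∀ i, ∀ p ∈ A i, p.Prime) → (∀ i, ∀ p ∈ B i, p.Prime) → ∀ x : ℝ,
    prop (S N) {n | ∑ i, RR (A i) (B i) n ≤ x} ≤
      prop (cls W c N) {n | ∑ i, RR (A i) (B i) n ≤ x + δ} + δ := by
  filter_upwards [law hW hE hT k δ hδ] with N hN A B hA hB x
  rw [prop_eq, prop_eq]
  exact hN A B hA hB x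

theorem prop_compl {S : Finset ℕ} (hS : S.Nonempty) (T : Set ℕ) : prop S Tᶜ = 1 - prop S T := by
  have hc : (0 : ℝ) < S.card := by exact_mod_cast hS.card_pos
  unfold prop
  rw [eq_sub_iff_add_eq, ← add_div, div_eq_one_iff_eq hc.ne']
  have h1 : {n : ℕ | n ∈ S ∧ n ∈ Tᶜ} = (S : Set ℕ) \ T := by
    ext n
    rw [Set.mem_ofPred_eq, Set.mem_sdiff, Set.mem_compl_iff, mem_coe]
  have h2 : {n : ℕ | n ∈ S ∧ n ∈ T} = (S : Set ℕ) ∩ T := by
    ext n
    rw [Set.mem_ofPred_eq, Set.mem_inter_iff, mem_coe]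
  rw [h1, h2, ← Nat.cast_add, add_comm, Set.ncard_inter_add_ncard_sdiff_eq_ncard _ _ S.finite_toSet,
    Set.ncard_coe_finset]

private noncomputable def Aset (A : Set ℕ) (N : ℕ) : Finset ℕ := by
  classical exact (Icc 1 N).filter (fun p => p.Prime ∧ p ∈ A)

private theorem mem_Aset {A : Set ℕ} {N p : ℕ} :
    p ∈ Aset A N ↔ (1 ≤ p ∧ p ≤ N) ∧ p.Prime ∧ p ∈ A := by
  classical
  unfold Aset
  rw [mem_filter, mem_Icc]

private theorem rep_Aset (A : Set ℕ) {N n : ℕ} (hn : n ≤ N) :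
    repAB (Aset A N) (Aset A N) n = Sm.repsIn A A n := by
  classical
  unfold repAB Sm.repsIn
  symm
  refine card_bij (fun p _ => (p, n - p)) ?_ ?_ ?_
  · intro p hp
    rw [mem_filter, mem_range] at hp
    obtain ⟨h1, h2, h3, h4, h5⟩ := hp
    rw [mem_filter, mem_product, mem_Aset, mem_Aset]
    exact ⟨⟨⟨⟨h2.one_le, by omega⟩, h2, h4⟩, ⟨h3.one_le, by omega⟩, h3, h5⟩, by
      show p + (n - p) = n
      omega⟩
  · intro p _ q _ h
    exact (Prod.mk.inj h).1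
  · rintro ⟨a, b⟩ hab
    rw [mem_filter, mem_product, mem_Aset, mem_Aset] at hab
    obtain ⟨⟨⟨h1, h2, h3⟩, h4, h5, h6⟩, h7⟩ := hab
    have h7' : a + b = n := h7
    refine ⟨a, ?_, ?_⟩
    · rw [mem_filter, mem_range]
      have hb : n - a = b := by omega
      rw [hb]
      exact ⟨by omega, h2, h5, h3, h6⟩
    · have hb : n - a = b := by omega
      rw [hb]

private theorem size_pos (n : ℕ) (hn : 2 ≤ n) : 0 < Col.size n := by
  unfold Col.size
  have h1 : (2 : ℝ) ≤ n := by exact_mod_cast hn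
  have h2 : 0 < Real.log n := Real.log_pos (by linarith)
  have h3 : 0 < (n.totient : ℝ) := by
    have := Nat.totient_pos.2 (by omega : 0 < n)
    exact_mod_cast this
  positivity

private theorem size_eq (n : ℕ) : Col.size n = Kp.R.Mp.size n := rfl

private theorem mem_cls_even {N n : ℕ} (h : n ∈ cls 2 0 N) : 2 ≤ n ∧ n ≤ N ∧ Even n := by
  rw [mem_cls] at h
  obtain ⟨⟨h1, h2⟩, h3⟩ := h
  have h4 : n % 2 = 0 := h3
  exact ⟨by omega, h2, Nat.even_iff.2 h4⟩

/-- A lower bound for the proportion of the `n` with many representations is inherited by all tame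
equidistributed sequences of sets of even numbers. -/
theorem transfer (k : ℕ) (κ : ℝ) (hκ : 0 < κ) : ∃ c : ℝ, 0 < c ∧ ∀ S : ℕ → Finset ℕ, Equi 2 0 S →
    Tm S → ∀ δ : ℝ, 0 < δ → ∀ᶠ N : ℕ in atTop, ∀ (A : Fin k → Set ℕ) (θ : ℝ),
      θ ≤ prop (cls 2 0 N) {n | κ * Col.size n ≤ ∑ i, (Sm.repsIn (A i) (A i) n : ℝ)} →
      θ - δ ≤ prop (S N) {n | ∃ i, c * Col.size n ≤ (Sm.repsIn (A i) (A i) n : ℝ)} := by
  obtain ⟨c₁, hc₁, hHL⟩ := Kp.R.Mp.HL_ge
  refine ⟨κ / 4 * c₁ / (k + 1), by positivity, fun S hE hT δ hδ => ?_⟩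
  filter_upwards [lawp (by norm_num) hE hT k (min δ (κ / 8)) (by positivity), hE.2 1 one_pos,
    eventually_ge_atTop 2] with N hN hne hN2 A θ hθ
  have hclne : (cls 2 0 N).Nonempty := cls_nonempty (by norm_num) 0 N hN2
  have h1 := hN (fun i => Aset (A i) N) (fun i => Aset (A i) N)
    (fun i p hp => (mem_Aset.1 hp).2.1) (fun i p hp => (mem_Aset.1 hp).2.1) (κ / 4)
  have hRR : ∀ n ∈ cls 2 0 N, ∑ i, RR (Aset (A i) N) (Aset (A i) N) n =
      (∑ i, (Sm.repsIn (A i) (A i) n : ℝ)) / En.HL n := by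
    intro n hn
    rw [sum_div]
    refine sum_congr rfl fun i _ => ?_
    unfold Fc.RR
    rw [rep_Aset (A i) (mem_cls_even hn).2.1]
  have hHLpos : ∀ n ∈ cls 2 0 N, 0 < En.HL n := by
    intro n hn
    obtain ⟨h2, -, h3⟩ := mem_cls_even hn
    have := hHL n h2 h3
    rw [← size_eq] at this
    exact lt_of_lt_of_le (mul_pos hc₁ (size_pos n h2)) this
  have h2 : prop (cls 2 0 N) {n | ∑ i, RR (Aset (A i) N) (Aset (A i) N) n ≤
      κ / 4 + min δ (κ / 8)} ≤ 1 - θ := by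
    have h3 := prop_compl hclne
      {n | κ * Col.size n ≤ ∑ i, (Sm.repsIn (A i) (A i) n : ℝ)}
    have h4 : prop (cls 2 0 N) {n | ∑ i, RR (Aset (A i) N) (Aset (A i) N) n ≤
        κ / 4 + min δ (κ / 8)} ≤
        prop (cls 2 0 N) {n | κ * Col.size n ≤ ∑ i, (Sm.repsIn (A i) (A i) n : ℝ)}ᶜ := by
      refine prop_mono _ fun n hn h5 => ?_
      rw [Set.mem_ofPred_eq, hRR n hn, div_le_iff₀ (hHLpos n hn)] at h5
      rw [Set.mem_compl_iff, Set.mem_ofPred_eq, not_le]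
      obtain ⟨h6, -, h7⟩ := mem_cls_even hn
      have h8 := HL_le n (by omega)
      have h9 : κ / 4 + min δ (κ / 8) ≤ κ * (3 / 8) := by
        have := min_le_right δ (κ / 8)
        linarith
      have h10 := hHLpos n hn
      have h11 := size_pos n h6
      calc ∑ i, (Sm.repsIn (A i) (A i) n : ℝ) ≤ (κ / 4 + min δ (κ / 8)) * En.HL n := h5
        _ ≤ κ * (3 / 8) * En.HL n := mul_le_mul_of_nonneg_right h9 h10.le
        _ ≤ κ * (3 / 8) * (2 * Col.size n) := mul_le_mul_of_nonneg_left h8 (by positivity)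
        _ < κ * Col.size n := by nlinarith [mul_pos hκ h11]
    linarith
  have h3 := prop_compl hne.1 {n | ∑ i, RR (Aset (A i) N) (Aset (A i) N) n ≤ κ / 4}
  have h4 : prop (S N) {n | ∑ i, RR (Aset (A i) N) (Aset (A i) N) n ≤ κ / 4}ᶜ ≤
      prop (S N) {n | ∃ i, κ / 4 * c₁ / (k + 1) * Col.size n ≤ (Sm.repsIn (A i) (A i) n : ℝ)} := by
    refine prop_mono _ fun n hn h5 => ?_
    have hn' := hE.1 N hn
    rw [Set.mem_compl_iff, Set.mem_ofPred_eq, hRR n hn', not_le, lt_div_iff₀ (hHLpos n hn')] at h5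
    rw [Set.mem_ofPred_eq]
    by_contra hcon
    push Not at hcon
    obtain ⟨h6, -, h7⟩ := mem_cls_even hn'
    have h8 := hHL n h6 h7
    rw [← size_eq] at h8
    have h9 : ∑ i, (Sm.repsIn (A i) (A i) n : ℝ) ≤
        ∑ _i : Fin k, κ / 4 * c₁ / (k + 1) * Col.size n := sum_le_sum fun i _ => (hcon i).le
    rw [sum_const, card_univ, Fintype.card_fin, nsmul_eq_mul] at h9
    have h10 := size_pos n h6
    have h11 : (k : ℝ) * (κ / 4 * c₁ / (k + 1) * Col.size n) ≤ κ / 4 * c₁ * Col.size n := by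
      have h12 : (k : ℝ) * (κ / 4 * c₁ / (k + 1) * Col.size n) =
          (k / (k + 1)) * (κ / 4 * c₁ * Col.size n) := by
        field_simp
      rw [h12]
      refine mul_le_of_le_one_left (by positivity) ?_
      rw [div_le_one (by positivity)]
      linarith
    have h12 : κ / 4 * (c₁ * Col.size n) ≤ κ / 4 * En.HL n :=
      mul_le_mul_of_nonneg_left h8 (by positivity)
    linarith
  have h5 := min_le_left δ (κ / 8)
  linarith

theorem card_cls_le (N : ℕ) : ((cls 2 0 N).card : ℝ) ≤ (N : ℝ) / 2 := by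
  have h1 : (cls 2 0 N).card ≤ N / 2 := by
    have h2 : (cls 2 0 N).card ≤ (Icc 1 (N / 2)).card := by
      refine card_le_card_of_injOn (fun n => n / 2) ?_ ?_
      · intro n hn
        obtain ⟨h3, h4, m, h5⟩ := mem_cls_even (mem_coe.1 hn)
        rw [mem_coe, mem_Icc]
        show 1 ≤ n / 2 ∧ n / 2 ≤ N / 2
        omega
      · intro n hn m hm h
        obtain ⟨-, -, a, ha⟩ := mem_cls_even (mem_coe.1 hn)
        obtain ⟨-, -, b, hb⟩ := mem_cls_even (mem_coe.1 hm)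
        have h' : n / 2 = m / 2 := h
        omega
    rwa [Nat.card_Icc, Nat.add_sub_cancel] at h2
  have h2 : ((N / 2 : ℕ) : ℝ) ≤ (N : ℝ) / 2 := by
    have := @Nat.cast_div_le ℝ _ _ _ N 2
    exact_mod_cast this
  exact (Nat.cast_le.2 h1).trans h2

/-- From counts to proportions. -/
private theorem prop_ge (N : ℕ) (hN : 2 ≤ N) (F : Finset ℕ) (T : Set ℕ) (x : ℝ)
    (hF : ∀ n ∈ F, n ∈ Icc 1 N ∧ Even n ∧ n ∈ T) (h : x / 2 * N ≤ (F.card : ℝ)) :
    x ≤ prop (cls 2 0 N) T := by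
  classical
  have hpos : (0 : ℝ) < (cls 2 0 N).card := by
    exact_mod_cast (cls_nonempty (by norm_num) 0 N hN).card_pos
  rw [prop_eq', le_div_iff₀ hpos]
  have h1 : (F.card : ℝ) ≤ (((cls 2 0 N).filter (fun n => n ∈ T)).card : ℝ) := by
    refine Nat.cast_le.2 (card_le_card fun n hn => ?_)
    obtain ⟨h1, h2, h3⟩ := hF n hn
    rw [mem_filter, mem_cls]
    exact ⟨⟨mem_Icc.1 h1, Nat.even_iff.1 h2⟩, h3⟩
  have h2 := card_cls_le N
  rcases le_or_gt x 0 with hx | hx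
  · exact (mul_nonpos_of_nonpos_of_nonneg hx hpos.le).trans (Nat.cast_nonneg _)
  · have h3 := mul_le_mul_of_nonneg_left h2 hx.le
    have h4 : x * ((cls 2 0 N).card : ℝ) ≤ (F.card : ℝ) := by linarith
    exact h4.trans h1

private theorem mono_sum (k : ℕ) (χ : ℕ → Fin k) (n : ℕ) :
    Ml.mono χ n = ∑ i, Sm.repsIn (χ ⁻¹' {i}) (χ ⁻¹' {i}) n := by
  classical
  unfold Ml.mono Sm.repsIn
  rw [← Finset.card_biUnion]
  · congr 1
    ext p
    simp only [Finset.mem_filter, Finset.mem_biUnion, Finset.mem_univ, true_and, Finset.mem_range,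
      Set.mem_preimage, Set.mem_singleton_iff]
    constructor
    · rintro ⟨h1, h2, h3, h4⟩
      exact ⟨χ p, h1, h2, h3, rfl, h4.symm⟩
    · rintro ⟨i, h1, h2, h3, h4, h5⟩
      exact ⟨h1, h2, h3, h4.trans h5.symm⟩
  · intro i _ j _ hij
    rw [Function.onFun, Finset.disjoint_left]
    intro p hp hq
    simp only [Finset.mem_filter, Set.mem_preimage, Set.mem_singleton_iff] at hp hq
    exact hij (hp.2.2.2.1.symm.trans hq.2.2.2.1)

/-- Many monochromatic sums: the bound `c / log k`. -/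
theorem low_log : ∃ c : ℝ, 0 < c ∧ ∀ k : ℕ, 2 ≤ k → ∃ c' : ℝ, 0 < c' ∧ ∀ S : ℕ → Finset ℕ,
    Equi 2 0 S → Tm S → ∀ᶠ N : ℕ in atTop, ∀ χ : ℕ → Fin k,
      c / Real.log k ≤ prop (S N)
        {n | ∃ i, c' * Col.size n ≤ (Sm.repsIn (χ ⁻¹' {i}) (χ ⁻¹' {i}) n : ℝ)} := by
  classical
  obtain ⟨c, hc, hden⟩ := Ml.den_lower
  refine ⟨c / 32, by positivity, fun k hk => ?_⟩
  have hk1 : (1 : ℝ) < k := by exact_mod_cast (by omega : 1 < k)
  have hlog : 0 < Real.log k := Real.log_pos hk1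
  obtain ⟨c₂, hc₂, N₀, h⟩ := Ml.mono_lower k hk
  obtain ⟨c', hc', htr⟩ := transfer k c₂ hc₂
  refine ⟨c', hc', fun S hE hT => ?_⟩
  filter_upwards [htr S hE hT (c / 32 / Real.log k) (by positivity),
    eventually_ge_atTop (max N₀ 2)] with N hN hN2 χ
  have hN3 : N₀ ≤ N := le_trans (le_max_left _ _) hN2
  have hN4 : 2 ≤ N := le_trans (le_max_right _ _) hN2
  have h1 := h N hN3 χ
  have h2 := hN (fun i => χ ⁻¹' {i}) (c / Real.log k / 16) ?_
  · refine le_trans (le_of_eq ?_) h2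
    ring
  · refine prop_ge N hN4 _ _ _ (fun n hn => ?_) (le_trans ?_ h1)
    · obtain ⟨h5, h6, h7⟩ := mem_filter.1 hn
      refine ⟨h5, h6, ?_⟩
      rw [Set.mem_ofPred_eq]
      rw [mono_sum] at h7
      push_cast at h7
      exact h7
    · have h3 := hden k hk
      have h4 : c / Real.log k / 16 / 2 * (N : ℝ) = c / Real.log k / 32 * N := by ring
      rw [h4]
      refine mul_le_mul_of_nonneg_right ?_ (Nat.cast_nonneg _)
      linarith

/-- Many sums of two primes of the same set: the bound by the sum of the squares of the densities. -/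
theorem low_sq (k : ℕ) (ε : ℝ) (hε : 0 < ε) : ∃ c : ℝ, 0 < c ∧ ∀ S : ℕ → Finset ℕ, Equi 2 0 S →
    Tm S → ∀ᶠ N : ℕ in atTop, ∀ A : Fin k → Set ℕ, (∀ i j, i ≠ j → Disjoint (A i) (A j)) →
      ∑ i, ((cntB (A i) (N / 2) : ℝ) / cntB Set.univ (N / 2)) ^ 2 - ε ≤ prop (S N)
        {n | ∃ i, c * Col.size n ≤ (Sm.repsIn (A i) (A i) n : ℝ)} := by
  classical
  obtain ⟨c₂, hc₂, N₀, h⟩ := Col.mono k (ε / 4) (by positivity)
  obtain ⟨c, hc, htr⟩ := transfer k c₂ hc₂
  refine ⟨c, hc, fun S hE hT => ?_⟩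
  filter_upwards [htr S hE hT (ε / 2) (by positivity),
    eventually_ge_atTop (max N₀ 2)] with N hN hN2 A hA
  have hN3 : N₀ ≤ N := le_trans (le_max_left _ _) hN2
  have hN4 : 2 ≤ N := le_trans (le_max_right _ _) hN2
  have h1 := h N hN3 A hA
  have h2 := hN A (∑ i, ((cntB (A i) (N / 2) : ℝ) / cntB Set.univ (N / 2)) ^ 2 - ε / 2) ?_
  · linarith
  · refine prop_ge N hN4 _ _ _ (fun n hn => ?_) (le_trans (le_of_eq ?_) h1)
    · obtain ⟨h5, h6, i, hi⟩ := mem_filter.1 hn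
      refine ⟨h5, h6, ?_⟩
      rw [Set.mem_ofPred_eq]
      exact hi.trans (single_le_sum (f := fun i => (Sm.repsIn (A i) (A i) n : ℝ))
        (fun _ _ => Nat.cast_nonneg _) (mem_univ i))
    · ring

private theorem cnt_Aset (B : Set ℕ) (M : ℕ) : cntB B M = (Aset B M).card := by
  classical
  unfold cntB Aset
  rfl

private theorem cnt_sum (k : ℕ) (χ : ℕ → Fin k) (M : ℕ) :
    ∑ i, cntB (χ ⁻¹' {i}) M = cntB Set.univ M := by
  classical
  rw [cnt_Aset, Finset.card_eq_sum_card_fiberwise (f := χ) (t := (univ : Finset (Fin k)))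
    (fun x _ => by simp)]
  refine Finset.sum_congr rfl fun i _ => ?_
  rw [cnt_Aset]
  congr 1
  ext p
  rw [mem_filter, mem_Aset, mem_Aset, Set.mem_preimage, Set.mem_singleton_iff]
  constructor
  · rintro ⟨h1, h2, h3⟩
    exact ⟨⟨h1, h2, Set.mem_univ _⟩, h3⟩
  · rintro ⟨⟨h1, h2, -⟩, h3⟩
    exact ⟨h1, h2, h3⟩

/-- Many monochromatic sums: the bound `1 / k`. -/
theorem low_k (k : ℕ) (hk : 1 ≤ k) (ε : ℝ) (hε : 0 < ε) : ∃ c : ℝ, 0 < c ∧ ∀ S : ℕ → Finset ℕ,
    Equi 2 0 S → Tm S → ∀ᶠ N : ℕ in atTop, ∀ χ : ℕ → Fin k, 1 / (k : ℝ) - ε ≤ prop (S N)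
        {n | ∃ i, c * Col.size n ≤ (Sm.repsIn (χ ⁻¹' {i}) (χ ⁻¹' {i}) n : ℝ)} := by
  obtain ⟨c, hc, h⟩ := low_sq k ε hε
  refine ⟨c, hc, fun S hE hT => ?_⟩
  filter_upwards [h S hE hT, eventually_ge_atTop 4] with N hN hN4 χ
  have h1 := hN (fun i => χ ⁻¹' {i}) (by
    intro i j hij
    rw [Set.disjoint_left]
    intro p hp hq
    exact hij (hp.symm.trans hq))
  refine le_trans ?_ h1
  have hsum := cnt_sum k χ (N / 2)
  have hpos : 0 < cntB Set.univ (N / 2) := by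
    rw [cnt_Aset, card_pos]
    refine ⟨2, ?_⟩
    rw [mem_Aset]
    exact ⟨by omega, Nat.prime_two, Set.mem_univ _⟩
  have hk' : (1 : ℝ) ≤ k := by exact_mod_cast hk
  have hpos' : (0 : ℝ) < cntB Set.univ (N / 2) := by exact_mod_cast hpos
  have hs : ∑ i, ((cntB (χ ⁻¹' {i}) (N / 2) : ℝ) / cntB Set.univ (N / 2)) = 1 := by
    rw [← Finset.sum_div, ← Nat.cast_sum, hsum]
    exact div_self hpos'.ne'
  have := sq_sum_le_card_mul_sum_sq (s := (univ : Finset (Fin k)))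
    (f := fun i => ((cntB (χ ⁻¹' {i}) (N / 2) : ℝ) / cntB Set.univ (N / 2)))
  rw [hs, Finset.card_univ, Fintype.card_fin] at this
  have h2 : 1 / (k : ℝ) ≤ ∑ i, ((cntB (χ ⁻¹' {i}) (N / 2) : ℝ) / cntB Set.univ (N / 2)) ^ 2 := by
    rw [div_le_iff₀ (by linarith)]
    linarith
  linarith

end Pool.Agent.Lib.MP_629a14_nt.Ts
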