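import Pool.Agent.Lib.MP_629a14_nt.Ts.Defs

/-! Proportions and their lower limits. -/

set_option autoImplicit false

namespace Pool.Agent.Lib.MP_629a14_nt.Ts

open Finset Filter Topology Pool.Agent.Lib.MP_629a14_nt

theorem prop_eq (S : Finset ℕ) (P : ℕ → Prop) [DecidablePred P] :
    prop S {n | P n} = ((S.filter P).card : ℝ) / S.card := by
  unfold prop
  have h : {n : ℕ | n ∈ S ∧ n ∈ {n | P n}} = ((S.filter P : Finset ℕ) : Set ℕ) := by
    ext n
    simp only [Set.mem_ofPred_eq, coe_filter]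
  rw [h, Set.ncard_coe_finset]

open Classical in
theorem prop_eq' (S : Finset ℕ) (T : Set ℕ) :
    prop S T = ((S.filter (fun n => n ∈ T)).card : ℝ) / S.card :=
  prop_eq S (fun n => n ∈ T)

theorem prop_nonneg (S : Finset ℕ) (T : Set ℕ) : 0 ≤ prop S T := by
  unfold prop
  positivity

theorem prop_le_one (S : Finset ℕ) (T : Set ℕ) : prop S T ≤ 1 := by
  classical
  rw [prop_eq']
  refine div_le_one_of_le₀ ?_ (Nat.cast_nonneg _)
  exact_mod_cast card_filter_le _ _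

theorem prop_mono (S : Finset ℕ) {T T' : Set ℕ} (h : ∀ n ∈ S, n ∈ T → n ∈ T') :
    prop S T ≤ prop S T' := by
  classical
  rw [prop_eq', prop_eq']
  refine div_le_div_of_nonneg_right ?_ (Nat.cast_nonneg _)
  refine Nat.cast_le.2 (card_le_card fun n hn => ?_)
  rw [mem_filter] at hn ⊢
  exact ⟨hn.1, h n hn.1 hn.2⟩

theorem prop_union (S : Finset ℕ) (T T' : Set ℕ) : prop S (T ∪ T') ≤ prop S T + prop S T' := by
  unfold prop
  rw [← add_div]
  refine div_le_div_of_nonneg_right ?_ (Nat.cast_nonneg _)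
  have h : {n : ℕ | n ∈ S ∧ n ∈ T ∪ T'} = {n : ℕ | n ∈ S ∧ n ∈ T} ∪ {n : ℕ | n ∈ S ∧ n ∈ T'} := by
    ext n
    simp only [Set.mem_ofPred_eq, Set.mem_union]
    tauto
  rw [h]
  exact_mod_cast Set.ncard_union_le _ _

theorem share_bdd (S : ℕ → Finset ℕ) (T : Set ℕ) : (atTop : Filter ℕ).IsBoundedUnder (· ≥ ·)
    (fun N : ℕ => prop (S N) T) := isBoundedUnder_of ⟨0, fun _ => prop_nonneg _ _⟩

theorem share_cobdd (S : ℕ → Finset ℕ) (T : Set ℕ) : (atTop : Filter ℕ).IsCoboundedUnder (· ≥ ·)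
    (fun N : ℕ => prop (S N) T) :=
  IsBoundedUnder.isCoboundedUnder_ge (isBoundedUnder_of ⟨1, fun _ => prop_le_one _ _⟩)

theorem share_ge {S : ℕ → Finset ℕ} {T : Set ℕ} {d : ℝ}
    (h : ∀ ε : ℝ, 0 < ε → ∀ᶠ N : ℕ in atTop, d - ε ≤ prop (S N) T) : d ≤ share S T := by
  refine le_of_forall_pos_le_add fun ε hε => ?_
  have h1 : d - ε ≤ share S T := le_liminf_of_le (share_cobdd S T) (h ε hε)
  linarith

theorem share_le {S : ℕ → Finset ℕ} {T : Set ℕ} {d : ℝ}
    (h : ∀ ε : ℝ, 0 < ε → ∀ᶠ N : ℕ in atTop, prop (S N) T ≤ d + ε) : share S T ≤ d := by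
  refine le_of_forall_pos_le_add fun ε hε => ?_
  exact liminf_le_of_frequently_le (h ε hε).frequently (share_bdd S T)

theorem share_mono {S : ℕ → Finset ℕ} {T T' : Set ℕ}
    (h : ∀ᶠ N : ℕ in atTop, ∀ n ∈ S N, n ∈ T → n ∈ T') : share S T ≤ share S T' := by
  refine liminf_le_liminf ?_ (share_bdd S T) (share_cobdd S T')
  filter_upwards [h] with N hN
  exact prop_mono _ hN

theorem share_nonneg (S : ℕ → Finset ℕ) (T : Set ℕ) : 0 ≤ share S T :=
  share_ge fun ε hε => Eventually.of_forall fun N => by linarith [prop_nonneg (S N) T]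

theorem share_le_one (S : ℕ → Finset ℕ) (T : Set ℕ) : share S T ≤ 1 :=
  share_le fun ε hε => Eventually.of_forall fun N => by linarith [prop_le_one (S N) T]

end Pool.Agent.Lib.MP_629a14_nt.Ts
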