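import Pool.Agent.Lib.MP_629a14_nt.Ts.Mem
import Pool.Agent.Lib.MP_629a14_nt.Ts.Share
import Pool.Agent.Lib.MP_629a14_nt.Ml.UpCol
import Pool.Agent.Lib.MP_629a14_nt.Col.Up

/-! Colourings with few monochromatic sums in an equidistributed sequence of finite sets. -/

set_option autoImplicit false

namespace Pool.Agent.Lib.MP_629a14_nt.Ts

open Finset Filter Topology Pool.Agent.Lib.MP_629a14_nt Pool.Agent.Lib.MP_629a14_nt.Rob

theorem prop_le_card (S : Finset ℕ) (T : Set ℕ) (F : Finset ℕ) (h : ∀ n ∈ S, n ∈ T → n ∈ F) :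
    prop S T ≤ (F.card : ℝ) / S.card := by
  unfold prop
  refine div_le_div_of_nonneg_right ?_ (Nat.cast_nonneg _)
  refine Nat.cast_le.2 ?_
  rw [← Set.ncard_coe_finset F]
  exact Set.ncard_le_ncard (fun n hn => h n hn.1 hn.2) F.finite_toSet

theorem prop_one (S : Finset ℕ) (T : Set ℕ)
    (h : ∀ x ∈ S, x ∈ T → ∀ y ∈ S, y ∈ T → x = y) : prop S T ≤ 1 / S.card := by
  unfold prop
  refine div_le_div_of_nonneg_right ?_ (Nat.cast_nonneg _)
  refine Nat.cast_le_one.2 ?_
  rw [Set.ncard_le_one (S.finite_toSet.subset fun n hn => hn.1)]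
  exact fun x hx y hy => h x hx.1 hx.2 y hy.1 hy.2

private theorem class_four (q : ℕ) (hq : 0 < q) (a : ℕ) (S : Finset ℕ) :
    ((prop S {n | n ≡ a [MOD q]} : ℝ) : ℂ) =
      (∑ j ∈ range q, ee (-((j : ℝ) / q * a)) * mu S ((j : ℝ) / q)) / q := by
  classical
  have hqC : (q : ℂ) ≠ 0 := by exact_mod_cast hq.ne'
  rw [prop_eq]
  have h1 : ∑ j ∈ range q, ee (-((j : ℝ) / q * a)) * mu S ((j : ℝ) / q) =
      (∑ n ∈ S, ∑ j ∈ range q, ee ((j : ℝ) * ((((n : ℤ) - (a : ℤ) : ℤ) : ℝ) / q))) / S.card := by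
    rw [sum_comm, sum_div]
    refine sum_congr rfl fun j _ => ?_
    unfold mu
    rw [mul_div_assoc', mul_sum]
    congr 1
    refine sum_congr rfl fun n _ => ?_
    rw [← ee_add]
    congr 1
    push_cast
    ring
  have h2 : ∀ n ∈ S, ∑ j ∈ range q, ee ((j : ℝ) * ((((n : ℤ) - (a : ℤ) : ℤ) : ℝ) / q)) =
      if n ≡ a [MOD q] then (q : ℂ) else 0 := by
    intro n _
    rw [sum_ee_range q hq]
    have h3 : (q : ℤ) ∣ (n : ℤ) - a ↔ n ≡ a [MOD q] := by
      rw [← Int.modEq_iff_dvd]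
      constructor
      · intro h
        exact ((Int.natCast_modEq_iff).1 h).symm
      · intro h
        exact (Int.natCast_modEq_iff).2 h.symm
    simp only [h3]
  rw [h1, sum_congr rfl h2, ← sum_filter, sum_const, nsmul_eq_mul]
  push_cast
  field_simp

/-- The proportions in a residue class differ by at most the distance of the exponential means. -/
theorem class_diff (q : ℕ) (hq : 0 < q) (a : ℕ) (S C : Finset ℕ) (ε : ℝ)
    (h : ∀ t : ℝ, ‖mu S t - mu C t‖ ≤ ε) :
    |prop S {n | n ≡ a [MOD q]} - prop C {n | n ≡ a [MOD q]}| ≤ ε := by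
  have hqR : (0 : ℝ) < q := by exact_mod_cast hq
  have h1 : (((prop S {n | n ≡ a [MOD q]} - prop C {n | n ≡ a [MOD q]} : ℝ)) : ℂ) =
      (∑ j ∈ range q, ee (-((j : ℝ) / q * a)) * (mu S ((j : ℝ) / q) - mu C ((j : ℝ) / q))) / q := by
    push_cast
    rw [class_four q hq, class_four q hq, ← sub_div, ← sum_sub_distrib]
    congr 1
    exact sum_congr rfl fun j _ => by ring
  rw [← Real.norm_eq_abs, ← Complex.norm_real, h1, norm_div, Complex.norm_natCast, div_le_iff₀ hqR]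
  refine (norm_sum_le _ _).trans ?_
  have h2 : ∀ j ∈ range q, ‖ee (-((j : ℝ) / q * a)) *
      (mu S ((j : ℝ) / q) - mu C ((j : ℝ) / q))‖ ≤ ε := by
    intro j _
    rw [norm_mul, norm_ee, one_mul]
    exact h _
  refine (sum_le_sum h2).trans (le_of_eq ?_)
  rw [sum_const, card_range, nsmul_eq_mul, mul_comm]

open Classical in
private theorem prop_split (q : ℕ) (hq : 0 < q) (T : Set ℕ)
    (hT : ∀ n m : ℕ, n ≡ m [MOD q] → n ∈ T → m ∈ T) (S : Finset ℕ) :
    prop S T = ∑ a ∈ (range q).filter (fun a => a ∈ T), prop S {n | n ≡ a [MOD q]} := by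
  simp only [prop_eq']
  rw [← sum_div]
  congr 1
  rw [← Nat.cast_sum, card_eq_sum_card_fiberwise (f := fun n => n % q)
    (t := (range q).filter (fun a => a ∈ T))]
  · congr 1
    refine sum_congr rfl fun a ha => ?_
    rw [mem_filter, mem_range] at ha
    congr 1
    ext n
    simp only [mem_filter, Set.mem_ofPred_eq]
    constructor
    · rintro ⟨⟨h1, h2⟩, h3⟩
      refine ⟨h1, ?_⟩
      unfold Nat.ModEq
      rw [h3, Nat.mod_eq_of_lt ha.1]
    · rintro ⟨h1, h2⟩
      have h3 : n % q = a := by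
        have := h2
        unfold Nat.ModEq at this
        rw [this, Nat.mod_eq_of_lt ha.1]
      exact ⟨⟨h1, hT a n h2.symm ha.2⟩, h3⟩
  · intro n hn
    rw [mem_coe, mem_filter] at hn
    rw [mem_coe, mem_filter, mem_range]
    exact ⟨Nat.mod_lt n hq, hT n (n % q) (Nat.mod_modEq n q).symm hn.2⟩

/-- Periodic sets have asymptotically the same proportions. -/
theorem per_diff {W c : ℕ} {S : ℕ → Finset ℕ} (hE : Equi W c S) (q : ℕ) (hq : 0 < q) (T : Set ℕ)
    (hT : ∀ n m : ℕ, n ≡ m [MOD q] → n ∈ T → m ∈ T) (ε : ℝ) (hε : 0 < ε) :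
    ∀ᶠ N : ℕ in atTop, |prop (S N) T - prop (cls W c N) T| ≤ ε := by
  classical
  have hqR : (0 : ℝ) < q := by exact_mod_cast hq
  filter_upwards [hE.2 (ε / q) (by positivity)] with N hN
  rw [prop_split q hq T hT, prop_split q hq T hT, ← sum_sub_distrib]
  refine (abs_sum_le_sum_abs _ _).trans ?_
  refine (sum_le_sum fun a _ => class_diff q hq a (S N) (cls W c N) _ hN.2).trans ?_
  rw [sum_const, nsmul_eq_mul]
  have h1 : ∀ F : Finset ℕ, F ⊆ range q → (F.card : ℝ) * (ε / q) ≤ ε := by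
    intro F hF
    have h2 := card_le_card hF
    rw [card_range] at h2
    have h3 : (F.card : ℝ) ≤ q := Nat.cast_le.2 h2
    calc (F.card : ℝ) * (ε / q) ≤ q * (ε / q) :=
          mul_le_mul_of_nonneg_right h3 (by positivity)
      _ = ε := by field_simp
  exact h1 _ (filter_subset _ _)

/-- Finite sets are negligible. -/
theorem fin_small {W c : ℕ} (hW : 0 < W) {S : ℕ → Finset ℕ} (hE : Equi W c S) (E : Finset ℕ)
    (ε : ℝ) (hε : 0 < ε) : ∀ᶠ N : ℕ in atTop, prop (S N) {n | n ∈ E} ≤ ε := by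
  classical
  have hpt : ∀ a : ℕ, ∀ δ : ℝ, 0 < δ → ∀ᶠ N : ℕ in atTop, prop (S N) {n | n = a} ≤ δ := by
    intro a δ hδ
    obtain ⟨N₁, hN₁⟩ := exists_nat_gt ((2 / δ + 1) * W)
    filter_upwards [hE.2 (δ / 2) (by positivity), eventually_ge_atTop N₁] with N hN hN2
    have hWR : (0 : ℝ) < W := by exact_mod_cast hW
    have h1 := class_diff (2 * N + 1) (by omega) a (S N) (cls W c N) _ hN.2
    have h2 : prop (S N) {n | n = a} ≤ prop (S N) {n | n ≡ a [MOD (2 * N + 1)]} :=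
      prop_mono _ fun n _ hn => by
        rw [Set.mem_ofPred_eq] at hn ⊢
        rw [hn]
    have h3 : prop (cls W c N) {n | n ≡ a [MOD (2 * N + 1)]} ≤ δ / 2 := by
      have h5 := card_cls_ge (W := W) hW c N
      have h6 : 2 / δ < (N : ℝ) / W - 1 := by
        rw [lt_sub_iff_add_lt, lt_div_iff₀ hWR]
        have : (N₁ : ℝ) ≤ N := by exact_mod_cast hN2
        linarith
      have h7 : (0 : ℝ) < (cls W c N).card := by
        have : 0 < 2 / δ := by positivity
        linarith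
      have h8 : (1 : ℝ) ≤ δ / 2 * (cls W c N).card := by
        have h9 : δ / 2 * (2 / δ) = 1 := by field_simp
        rw [← h9]
        exact mul_le_mul_of_nonneg_left (by linarith) (by positivity)
      refine (prop_one (cls W c N) _ fun x hx hx2 y hy hy2 => ?_).trans ?_
      · have hx1 := mem_Icc.1 (mem_filter.1 hx).1
        have hy1 := mem_Icc.1 (mem_filter.1 hy).1
        have hx3 : x ≡ a [MOD 2 * N + 1] := hx2
        have hy3 : y ≡ a [MOD 2 * N + 1] := hy2
        have hxy := hx3.trans hy3.symm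
        unfold Nat.ModEq at hxy
        rw [Nat.mod_eq_of_lt (by omega), Nat.mod_eq_of_lt (by omega)] at hxy
        exact hxy
      · rw [div_le_iff₀ h7]
        exact h8
    have h4 := (abs_le.1 h1).2
    linarith
  induction E using Finset.induction_on generalizing ε with
  | empty =>
    refine Eventually.of_forall fun N => ?_
    have h0 : prop (S N) {n | n ∈ (∅ : Finset ℕ)} = 0 := by
      unfold prop
      have : {n : ℕ | n ∈ S N ∧ n ∈ {n | n ∈ (∅ : Finset ℕ)}} = ∅ := by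
        ext n
        simp
      rw [this, Set.ncard_empty]
      simp
    rw [h0]
    exact hε.le
  | insert a E ha ih =>
    filter_upwards [ih (ε / 2) (by positivity), hpt a (ε / 2) (by positivity)] with N h1 h2
    have h3 : {n : ℕ | n ∈ insert a E} = {n | n = a} ∪ {n | n ∈ E} := by
      ext n
      rw [Set.mem_ofPred_eq, Set.mem_union, Set.mem_ofPred_eq, Set.mem_ofPred_eq, mem_insert]
    rw [h3]
    refine (prop_union _ _ _).trans ?_
    linarith

/-- The sums of two primes of the same colour. -/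
def Mo {k : ℕ} (χ : ℕ → Fin k) : Set ℕ :=
  {n | ∃ a b : ℕ, a.Prime ∧ b.Prime ∧ a + b = n ∧ χ a = χ b}

private theorem halves (p a b : ℕ) (hp : p.Prime) (h3 : 3 ≤ p) (ha : ¬ p ∣ a) (hb : ¬ p ∣ b)
    (h : 2 * (a % p) < p ↔ 2 * (b % p) < p) : ¬ p ∣ a + b := by
  intro hd
  have ha' : a % p ≠ 0 := fun h => ha (Nat.dvd_of_mod_eq_zero h)
  have hb' : b % p ≠ 0 := fun h => hb (Nat.dvd_of_mod_eq_zero h)
  have hal := Nat.mod_lt a hp.pos
  have hbl := Nat.mod_lt b hp.pos
  have hodd : p % 2 = 1 := by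
    rcases hp.eq_two_or_odd with h5 | h5
    · omega
    · exact h5
  have hs : (a % p + b % p) % p = 0 := by
    rw [← Nat.add_mod]
    exact Nat.mod_eq_zero_of_dvd hd
  have hs2 : p ∣ a % p + b % p := Nat.dvd_of_mod_eq_zero hs
  obtain ⟨k, hk⟩ := hs2
  have hk1 : k = 1 := by
    have hk0 : k ≠ 0 := by
      rintro rfl
      omega
    have hk2 : k < 2 := by
      by_contra hcon
      have : p * 2 ≤ p * k := Nat.mul_le_mul_left p (by omega)
      omega
    omega
  rw [hk1, mul_one] at hk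
  by_cases hc : 2 * (a % p) < p
  · have := h.1 hc
    omega
  · have : ¬ 2 * (b % p) < p := fun h' => hc (h.2 h')
    omega

/-- The even sums of two primes of the same colour, for the colouring by the class modulo `4` and by the
halves of the residues modulo the primes of `P`. -/
theorem mo_sub (P : Finset ℕ) (hP : ∀ p ∈ P, p.Prime ∧ 3 ≤ p) {k : ℕ} (χ : ℕ → Fin k)
    (hχ : ∀ a b : ℕ, χ a = χ b →
      ((a % 4 = 1 ↔ b % 4 = 1) ∧ ∀ p ∈ P, (2 * (a % p) < p ↔ 2 * (b % p) < p)))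
    (n : ℕ) (hn : n ∈ Mo χ) (he : Even n) :
    n ∈ insert 4 (P.image (fun p => 2 * p)) ∨ (n % 4 = 2 ∧ ∀ p ∈ P, ¬ p ∣ n) := by
  obtain ⟨a, b, ha, hb, hab, hc⟩ := hn
  obtain ⟨h4, hp⟩ := hχ a b hc
  have he2 : n % 2 = 0 := Nat.even_iff.1 he
  rw [mem_insert, mem_image]
  by_cases hn4 : n = 4
  · exact Or.inl (Or.inl hn4)
  by_cases hex : ∃ p ∈ P, 2 * p = n
  · exact Or.inl (Or.inr hex)
  refine Or.inr ⟨?_, fun p hpP hd => ?_⟩
  · rcases ha.eq_two_or_odd with h5 | h5
    · rcases hb.eq_two_or_odd with h6 | h6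
      · omega
      · omega
    · rcases hb.eq_two_or_odd with h6 | h6
      · omega
      · omega
  · obtain ⟨hpp, hp3⟩ := hP p hpP
    rw [← hab] at hd
    by_cases hpa : p ∣ a
    · have hpb : p ∣ b := (Nat.dvd_add_right hpa).1 hd
      have e1 : p = a := (Nat.prime_dvd_prime_iff_eq hpp ha).1 hpa
      have e2 : p = b := (Nat.prime_dvd_prime_iff_eq hpp hb).1 hpb
      exact hex ⟨p, hpP, by omega⟩
    · have hpb : ¬ p ∣ b := fun h => hpa ((Nat.dvd_add_left h).1 hd)
      exact halves p a b hpp hp3 hpa hpb (hp p hpP) hd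

/-- Few monochromatic sums. -/
theorem up_prop (P : Finset ℕ) (hP : ∀ p ∈ P, p.Prime ∧ 3 ≤ p) {k : ℕ} (hk : 2 ^ (P.card + 1) ≤ k) :
    ∃ χ : ℕ → Fin k, ∀ S : ℕ → Finset ℕ, Equi 2 0 S → ∀ ε : ℝ, 0 < ε → ∀ᶠ N : ℕ in atTop,
      prop (S N) (Mo χ) ≤ (1 / 2) * ∏ p ∈ P, (1 - 1 / (p : ℝ)) + ε := by
  classical
  obtain ⟨χ₀, hχ₀⟩ := Col.up_col P
  obtain ⟨C, hC⟩ := Col.up_count P hP
  refine ⟨fun a => Fin.castLE hk (χ₀ a), fun S hE ε hε => ?_⟩
  have hχ : ∀ a b : ℕ, Fin.castLE hk (χ₀ a) = Fin.castLE hk (χ₀ b) →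
      ((a % 4 = 1 ↔ b % 4 = 1) ∧ ∀ p ∈ P, (2 * (a % p) < p ↔ 2 * (b % p) < p)) := by
    intro a b hab
    exact hχ₀ a b (Fin.castLE_injective hk hab)
  set T : Set ℕ := {n | n % 4 = 2 ∧ ∀ p ∈ P, ¬ p ∣ n} with hT
  set E : Finset ℕ := insert 4 (P.image (fun p => 2 * p)) with hEdef
  set Q : ℕ := 4 * ∏ p ∈ P, p with hQ
  have hQ0 : 0 < Q := Nat.mul_pos (by norm_num) (prod_pos fun p hp => (hP p hp).1.pos)
  have hper : ∀ n m : ℕ, n ≡ m [MOD Q] → n ∈ T → m ∈ T := by
    intro n m hnm hn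
    rw [hT, Set.mem_ofPred_eq] at hn ⊢
    refine ⟨?_, fun p hp hd => ?_⟩
    · have h1 : n ≡ m [MOD 4] := hnm.of_dvd (Dvd.intro _ rfl)
      unfold Nat.ModEq at h1
      omega
    · have h1 : n ≡ m [MOD p] := hnm.of_dvd ((dvd_prod_of_mem (fun p => p) hp).mul_left 4)
      exact hn.2 p hp ((Nat.ModEq.dvd_iff h1 dvd_rfl).2 hd)
  set δ : ℝ := (1 / 2) * ∏ p ∈ P, (1 - 1 / (p : ℝ)) with hδ
  have hδ0 : 0 ≤ δ := by
    refine mul_nonneg (by norm_num) (prod_nonneg fun p hp => ?_)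
    have h3 : (3 : ℝ) ≤ p := by exact_mod_cast (hP p hp).2
    rw [sub_nonneg, div_le_one (by linarith)]
    linarith
  obtain ⟨N₁, hN₁⟩ := exists_nat_gt ((δ + ε / 3 + |C|) * 6 / ε + 4)
  filter_upwards [per_diff hE Q hQ0 T hper (ε / 3) (by positivity),
    fin_small (by norm_num) hE E (ε / 3) (by positivity), eventually_ge_atTop N₁] with N h1 h2 h3
  have h4 : prop (S N) (Mo fun a => Fin.castLE hk (χ₀ a)) ≤ prop (S N) ({n | n ∈ E} ∪ T) := by
    refine prop_mono _ fun n hn hn2 => ?_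
    have hn3 := hE.1 N hn
    have hn4 : n ≡ 0 [MOD 2] := (mem_filter.1 hn3).2
    have hn5 : Even n := by
      rw [Nat.even_iff]
      exact hn4
    exact mo_sub P hP _ hχ n hn2 hn5
  have h5 := prop_union (S N) {n | n ∈ E} T
  have h6 : prop (cls 2 0 N) T ≤ δ + ε / 3 := by
    have hcard := card_cls_ge (W := 2) (by norm_num) 0 N
    have hNR : (N₁ : ℝ) ≤ N := Nat.cast_le.2 h3
    have hC0 : 0 ≤ |C| := abs_nonneg _
    have hCC : C ≤ |C| := le_abs_self _
    have hq : 0 ≤ (δ + ε / 3 + |C|) * 6 / ε := by positivity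
    have hpos : (0 : ℝ) < (cls 2 0 N).card := by
      have : (4 : ℝ) < N := by linarith
      push_cast at hcard
      linarith
    have h7 := prop_le_card (cls 2 0 N) T
      ((Icc 1 N).filter (fun n => n % 4 = 2 ∧ ∀ p ∈ P, ¬ p ∣ n)) fun n hn hn2 => by
        rw [mem_filter]
        exact ⟨(mem_filter.1 hn).1, hn2⟩
    refine h7.trans ?_
    rw [div_le_iff₀ hpos]
    have h8 := hC N
    have h9 : (1 / 4) * (∏ p ∈ P, (1 - 1 / (p : ℝ))) * N + C = δ * (N / 2) + C := by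
      rw [hδ]
      ring
    rw [h9] at h8
    refine h8.trans ?_
    have h10 : (δ + ε / 3) * ((N : ℝ) / 2 - 1) ≤ (δ + ε / 3) * (cls 2 0 N).card := by
      refine mul_le_mul_of_nonneg_left ?_ (by positivity)
      push_cast at hcard
      exact hcard
    refine le_trans ?_ h10
    have h11 : (δ + ε / 3 + |C|) * 6 / ε < N := by linarith
    rw [div_lt_iff₀ hε] at h11
    nlinarith
  have h7 := (abs_le.1 h1).2
  linarith

private theorem mert_k : ∃ C : ℝ, 0 < C ∧ ∀ k : ℕ, 2 ≤ k → ∃ P : Finset ℕ,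
    (∀ p ∈ P, p.Prime ∧ 3 ≤ p) ∧ 2 ^ (P.card + 1) ≤ k ∧
      (1 / 2) * ∏ p ∈ P, (1 - 1 / (p : ℝ)) < C / Real.log (Real.log (k + 2)) := by
  obtain ⟨B0, hB0⟩ := Rob.mert_three.bddAbove_range
  set B : ℝ := max B0 0 with hB
  have hBn : 0 ≤ B := le_max_right _ _
  have hmert : ∀ y : ℕ, Real.log y * ∏ p ∈ (Icc 1 y).filter Nat.Prime, (1 - 1 / (p : ℝ)) ≤ B :=
    fun y => (hB0 ⟨y, rfl⟩).trans (le_max_left _ _)
  refine ⟨2 * B + 1, by linarith, ?_⟩
  intro k hk
  have hkr : (2 : ℝ) ≤ k := by exact_mod_cast hk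
  have hl1 : 1 < Real.log (k + 2) := by
    rw [Real.lt_log_iff_exp_lt (by linarith)]
    have := Real.exp_one_lt_d9
    linarith
  have hll : 0 < Real.log (Real.log (k + 2)) := Real.log_pos hl1
  set y := Nat.log 2 k with hy
  have hy1 : 1 ≤ y := by
    exact Nat.log_pos (by norm_num) hk
  set P : Finset ℕ := (Icc 3 y).filter Nat.Prime with hP
  have hPp : ∀ p ∈ P, p.Prime ∧ 3 ≤ p := by
    intro p hp
    rw [hP, mem_filter, mem_Icc] at hp
    exact ⟨hp.2, hp.1.1⟩
  have hPc : 2 ^ (P.card + 1) ≤ k := by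
    have h1 : P.card + 1 ≤ y := by
      have h2 : P.card ≤ (Icc 3 y).card := card_filter_le _ _
      rw [Nat.card_Icc] at h2
      omega
    calc 2 ^ (P.card + 1) ≤ 2 ^ y := Nat.pow_le_pow_right (by norm_num) h1
      _ ≤ k := Nat.pow_log_le_self 2 (by omega)
  refine ⟨P, hPp, hPc, ?_⟩
  by_cases hy2 : 2 ≤ y
  · have hyr : (2 : ℝ) ≤ y := by exact_mod_cast hy2
    have hly : 0 < Real.log y := Real.log_pos (by linarith)
    have h2 : ∏ p ∈ (Icc 1 y).filter Nat.Prime, (1 - 1 / (p : ℝ)) =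
        (1 / 2) * ∏ p ∈ P, (1 - 1 / (p : ℝ)) := by
      have h3 : (Icc 1 y).filter Nat.Prime = insert 2 P := by
        ext p
        rw [mem_insert, hP, mem_filter, mem_filter, mem_Icc, mem_Icc]
        constructor
        · rintro ⟨⟨h4, h5⟩, h6⟩
          have := h6.two_le
          by_cases h7 : p = 2
          · exact Or.inl h7
          · exact Or.inr ⟨⟨by omega, h5⟩, h6⟩
        · rintro (h4 | ⟨⟨h4, h5⟩, h6⟩)
          · rw [h4]
            exact ⟨⟨by norm_num, hy2⟩, Nat.prime_two⟩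
          · exact ⟨⟨by omega, h5⟩, h6⟩
      have h4 : 2 ∉ P := by
        rw [hP, mem_filter, mem_Icc]
        omega
      rw [h3, prod_insert h4]
      norm_num
    have hlog : Real.log (Real.log (k + 2)) ≤ 2 * Real.log y := by
      have h1 : k < 2 ^ (y + 1) := Nat.lt_pow_succ_log_self (by norm_num) k
      have h2 : (k : ℝ) + 2 ≤ 2 ^ (y + 2) := by
        have h3 : k + 2 ≤ 2 ^ (y + 2) := by
          have h4 : 2 ^ (y + 2) = 2 * 2 ^ (y + 1) := by ring
          have h5 : 1 ≤ 2 ^ (y + 1) := Nat.one_le_two_pow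
          omega
        exact_mod_cast h3
      have h3 : Real.log (k + 2) ≤ (y : ℝ) ^ 2 := by
        have h4 := Real.log_le_log (by linarith) h2
        rw [Real.log_pow] at h4
        push_cast at h4
        have h5 := Real.log_two_lt_d9
        have h6 : ((y : ℝ) + 2) * Real.log 2 ≤ (y + 2) * 1 :=
          mul_le_mul_of_nonneg_left (by linarith) (by linarith)
        nlinarith
      have h4 := Real.log_le_log (by linarith) h3
      rw [Real.log_pow] at h4
      exact_mod_cast h4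
    have h3 := hmert y
    rw [h2] at h3
    rw [lt_div_iff₀ hll]
    have h0 : 0 ≤ (1 / 2) * ∏ p ∈ P, (1 - 1 / (p : ℝ)) := by
      refine mul_nonneg (by norm_num) (prod_nonneg fun p hp => ?_)
      have h3 : (3 : ℝ) ≤ p := by exact_mod_cast (hPp p hp).2
      rw [sub_nonneg, div_le_one (by linarith)]
      linarith
    have h4 := mul_le_mul_of_nonneg_left hlog h0
    nlinarith
  · have hk3 : k ≤ 3 := by
      have h1 : k < 2 ^ (y + 1) := Nat.lt_pow_succ_log_self (by norm_num) k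
      have h2 : 2 ^ (y + 1) ≤ 2 ^ 2 := Nat.pow_le_pow_right (by norm_num) (by omega)
      omega
    have hkr3 : (k : ℝ) ≤ 3 := by exact_mod_cast hk3
    have hP0 : P = ∅ := by
      rw [hP, filter_eq_empty_iff]
      intro p hp
      rw [mem_Icc] at hp
      omega
    rw [hP0, prod_empty]
    have hle : Real.log (Real.log (k + 2)) ≤ 1 := by
      have e1 : Real.log (k + 2) ≤ Real.exp 1 := by
        have e2 : Real.log ((k : ℝ) + 2) ≤ Real.log 8 := Real.log_le_log (by linarith) (by linarith)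
        have e3 : Real.log 8 = 3 * Real.log 2 := by
          rw [show (8 : ℝ) = 2 ^ 3 by norm_num, Real.log_pow]
          norm_num
        have e4 := Real.log_two_lt_d9
        have e5 := Real.exp_one_gt_d9
        linarith
      have e2 := Real.log_le_log (by linarith) e1
      rwa [Real.log_exp] at e2
    rw [lt_div_iff₀ hll]
    linarith

/-- For every `k ≥ 2` one colouring has few monochromatic sums in all equidistributed sequences. -/
theorem up_log : ∃ C : ℝ, 0 < C ∧ ∀ k : ℕ, 2 ≤ k → ∃ χ : ℕ → Fin k, ∀ S : ℕ → Finset ℕ,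
    Equi 2 0 S → ∀ᶠ N : ℕ in atTop, prop (S N) (Mo χ) ≤ C / Real.log (Real.log (k + 2)) := by
  obtain ⟨C, hC, h⟩ := mert_k
  refine ⟨C, hC, fun k hk => ?_⟩
  obtain ⟨P, hP, hPk, hPC⟩ := h k hk
  obtain ⟨χ, hχ⟩ := up_prop P hP hPk
  refine ⟨χ, fun S hE => ?_⟩
  filter_upwards [hχ S hE _ (sub_pos.2 hPC)] with N hN
  linarith

end Pool.Agent.Lib.MP_629a14_nt.Ts
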