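import Pool.Agent.Lib.MP_629a14_nt.Fourier

/-! Sequences of finite sets which are equidistributed in a residue class, and tame sequences. -/

set_option autoImplicit false

namespace Pool.Agent.Lib.MP_629a14_nt.Ts

open Finset Filter Topology Pool.Agent.Lib.MP_629a14_nt

/-- The `n ≡ c (mod W)` in `[1, N]`. -/
def cls (W c N : ℕ) : Finset ℕ := (Icc 1 N).filter (fun n => n ≡ c [MOD W])

/-- The mean of `e(t n)` over `S`. -/
noncomputable def mu (S : Finset ℕ) (t : ℝ) : ℂ := (∑ n ∈ S, ee (t * n)) / (S.card : ℂ)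

/-- The sets `S N` lie in the class `c` modulo `W` and have the same exponential means as the whole
class, up to `o(1)`. -/
def Equi (W c : ℕ) (S : ℕ → Finset ℕ) : Prop :=
  (∀ N : ℕ, S N ⊆ cls W c N) ∧ ∀ ε : ℝ, 0 < ε → ∀ᶠ N : ℕ in atTop, (S N).Nonempty ∧
    ∀ t : ℝ, ‖mu (S N) t - mu (cls W c N) t‖ ≤ ε

/-- Few large Fourier coefficients. -/
def Tm (S : ℕ → Finset ℕ) : Prop :=
  ∃ s : ℕ, 1 ≤ s ∧ ∃ K : ℝ, ∀ η : ℝ, 0 < η → ∀ᶠ N : ℕ in atTop,
    ∑ h ∈ (range (2 * N + 1)).filter (fun h : ℕ =>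
      η / Real.log N ^ 2 < ‖mu (S N) ((h : ℝ) / (2 * N + 1))‖),
      ‖mu (S N) ((h : ℝ) / (2 * N + 1))‖ ^ (2 * s) ≤ K

/-- The proportion of the elements of the finite set `S` which lie in `T`. -/
noncomputable def prop (S : Finset ℕ) (T : Set ℕ) : ℝ :=
  (Set.ncard {n : ℕ | n ∈ S ∧ n ∈ T} : ℝ) / S.card

/-- The lower limit of the proportion. -/
noncomputable def share (S : ℕ → Finset ℕ) (T : Set ℕ) : ℝ :=
  liminf (fun N : ℕ => prop (S N) T) atTop

end Pool.Agent.Lib.MP_629a14_nt.Ts
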