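import Pool.Agent.Lib.MP_629a14_nt.Ts.Defs
import Pool.Agent.Lib.MP_629a14_nt.Spc.Defs

/-! A finite set as a family. -/

set_option autoImplicit false

namespace Pool.Agent.Lib.MP_629a14_nt.Ts

open Finset Filter Topology Pool.Agent.Lib.MP_629a14_nt Pool.Agent.Lib.MP_629a14_nt.Rob
  Pool.Agent.Lib.MP_629a14_nt.En Pool.Agent.Lib.MP_629a14_nt.Fc

/-- The members of a finite set as a family. -/
noncomputable def en (S : Finset ℕ) : Fin S.card → ℕ := fun i => (S.equivFin.symm i : ℕ)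

theorem en_mem (S : Finset ℕ) (i : Fin S.card) : en S i ∈ S := (S.equivFin.symm i).2

theorem sum_en {M : Type*} [AddCommMonoid M] (S : Finset ℕ) (f : ℕ → M) :
    ∑ i, f (en S i) = ∑ n ∈ S, f n := by
  unfold en
  rw [← sum_coe_sort S f]
  exact Equiv.sum_comp S.equivFin.symm (fun x => f (x : ℕ))

theorem card_en (S : Finset ℕ) (P : ℕ → Prop) [DecidablePred P] :
    ((univ : Finset (Fin S.card)).filter (fun i => P (en S i))).card = (S.filter P).card := by
  rw [card_filter, card_filter]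
  exact sum_en S (fun n => if P n then 1 else 0)

theorem bh_en (S : Finset ℕ) (t : ℝ) : Spc.bh (en S) t = mu S t := by
  unfold Spc.bh mu
  rw [sum_en S (fun n => ee (n * t))]
  congr 1
  exact sum_congr rfl fun n _ => by rw [mul_comm]

theorem mu_neg (S : Finset ℕ) (t : ℝ) : ‖mu S (-t)‖ = ‖mu S t‖ := by
  rw [← bh_en, ← bh_en, Spc.bh_neg]

theorem mu_norm_le (S : Finset ℕ) (t : ℝ) : ‖mu S t‖ ≤ 1 := by
  unfold mu
  rw [norm_div, Complex.norm_natCast]
  refine div_le_one_of_le₀ ?_ (Nat.cast_nonneg _)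
  refine (norm_sum_le _ _).trans ?_
  refine (sum_le_card_nsmul S _ 1 fun n _ => ?_).trans (by simp)
  rw [norm_ee]

theorem spec_en {s : ℕ} (hs : 1 ≤ s) {K η : ℝ} {N : ℕ} {S : Finset ℕ}
    (hS : ∀ n ∈ S, 1 ≤ n ∧ n ≤ N) (h : ∑ h ∈ (range (2 * N + 1)).filter (fun h : ℕ =>
      η < ‖mu S ((h : ℝ) / (2 * N + 1))‖), ‖mu S ((h : ℝ) / (2 * N + 1))‖ ^ (2 * s) ≤ K) :
    Spc.Spec s K η N S.card (en S) := by
  refine ⟨fun j => hS _ (en_mem S j), le_trans (le_of_eq ?_) h⟩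
  rw [sum_filter]
  refine sum_congr rfl fun l _ => ?_
  have e : fr N l = -((l : ℝ) / (2 * N + 1)) := by
    unfold fr
    push_cast
    rfl
  unfold Spc.big
  rw [e, bh_en, mu_neg]
  split_ifs
  · rfl
  · rw [zero_pow (by omega)]

/-- Parseval. -/
theorem mu_sq (S : Finset ℕ) {N : ℕ} (hS : ∀ n ∈ S, n ≤ N) (h0 : S.Nonempty) :
    ∑ h ∈ range (2 * N + 1), ‖mu S ((h : ℝ) / (2 * N + 1))‖ ^ 2 = (2 * N + 1) / (S.card : ℝ) := by
  have h1 := parseval_set S hS
  have hc : (0 : ℝ) < S.card := by exact_mod_cast h0.card_pos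
  have h2 : ∀ h ∈ range (2 * N + 1), ‖mu S ((h : ℝ) / (2 * N + 1))‖ ^ 2 =
      ‖∑ a ∈ S, ee (a * (-((h : ℝ) / (2 * N + 1 : ℕ))))‖ ^ 2 / (S.card : ℝ) ^ 2 := by
    intro h _
    rw [← mu_neg]
    unfold mu
    rw [norm_div, Complex.norm_natCast, div_pow]
    congr 3
    refine sum_congr rfl fun n _ => ?_
    congr 1
    push_cast
    ring
  rw [sum_congr rfl h2, ← sum_div, h1]
  push_cast
  field_simp

/-- The whole family satisfies `Spec` with every `s` and `η`. -/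
theorem spec_of_card {s : ℕ} (hs : 1 ≤ s) {K η : ℝ} {N : ℕ} {S : Finset ℕ}
    (hS : ∀ n ∈ S, 1 ≤ n ∧ n ≤ N) (h0 : S.Nonempty) (h : (2 * N + 1) / (S.card : ℝ) ≤ K) :
    Spc.Spec s K η N S.card (en S) := by
  refine spec_en hs hS ?_
  have h1 := mu_sq S (fun n hn => (hS n hn).2) h0
  refine le_trans ?_ (h1.le.trans h)
  refine (sum_le_sum_of_subset_of_nonneg (filter_subset _ _) fun _ _ _ => by positivity).trans ?_
  refine sum_le_sum fun l _ => ?_
  exact pow_le_pow_of_le_one (norm_nonneg _) (mu_norm_le _ _) (by omega)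

end Pool.Agent.Lib.MP_629a14_nt.Ts
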