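import Pool.Agent.Lib.MP_629a14_nt.Ts.IntA

/-! Joint equidistribution in intervals and residue classes; trigonometric polynomials which
approximate the indicator function of an interval and a class. -/

set_option autoImplicit false

namespace Pool.Agent.Lib.MP_629a14_nt.Ts

open Finset Filter Topology Pool.Agent.Lib.MP_629a14_nt

/-- Few elements of a set which is close to the class lie over a cell of the grid. -/
theorem cell {W c : ℕ} (hW : 1 ≤ W) {N K : ℕ} (hK : 1 ≤ K) (hN : 1 ≤ N)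
    (hcard : (N : ℝ) / (2 * W) ≤ ((cls W c N).card : ℝ)) {U : Finset ℕ}
    (hU : ∀ n ∈ U, 1 ≤ n ∧ n ≤ N) (hne : U.Nonempty) {β : ℝ}
    (hβ : ∀ t, ‖mu U t - mu (cls W c N) t‖ ≤ β) {d V : ℝ}
    {p : ℕ → Polynomial ℝ} (hp : ∀ i : ℕ, ∀ x ∈ Set.Icc (0 : ℝ) 1,
      |(p i).eval x - st K ((i : ℝ) - 1) x| ≤ d)
    (hV : ∀ i < K + 3, Wi N (fun n => (((p i).eval ((n : ℝ) / N) : ℝ) : ℂ)) V) {i : ℕ}
    (hi : i ≤ K) :
    ((U.filter (fun n : ℕ => i * N ≤ K * n ∧ K * n ≤ (i + 1) * N)).card : ℝ) ≤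
      (6 / K + 2 * W / N + 4 * d + 2 * V * β) * U.card := by
  have hWr : (0 : ℝ) < W := by exact_mod_cast hW
  have hKr : (0 : ℝ) < K := by exact_mod_cast hK
  have hNr : (0 : ℝ) < N := by exact_mod_cast hN
  have hUr : (0 : ℝ) < U.card := by exact_mod_cast hne.card_pos
  obtain ⟨C, hC⟩ : ∃ C : Finset ℕ, C = cls W c N := ⟨_, rfl⟩
  have hCm : ∀ n ∈ C, 1 ≤ n ∧ n ≤ N := fun n hn => by
    rw [hC] at hn
    unfold cls at hn
    exact mem_Icc.1 (mem_filter.1 hn).1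
  rw [← hC] at hcard hβ
  have hCr : (0 : ℝ) < C.card := lt_of_lt_of_le (by positivity) hcard
  obtain ⟨v, hv⟩ : ∃ v : ℕ → ℝ, v = fun n : ℕ => st K ((i : ℝ) - 1) ((n : ℝ) / N) -
    st K ((i : ℝ) + 1) ((n : ℝ) / N) := ⟨_, rfl⟩
  obtain ⟨P, hP⟩ : ∃ P : ℕ → ℝ, P = fun n : ℕ => (p i).eval ((n : ℝ) / N) -
    (p (i + 2)).eval ((n : ℝ) / N) := ⟨_, rfl⟩
  have hPW : Wi N (fun n => ((P n : ℝ) : ℂ)) (V + V) := by
    rw [hP]
    refine ((hV i (by omega)).sub (hV (i + 2) (by omega))).congr fun n _ => ?_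
    push_cast
    rfl
  have hx : ∀ n, 1 ≤ n ∧ n ≤ N → (n : ℝ) / N ∈ Set.Icc (0 : ℝ) 1 := fun n hn =>
    ⟨by positivity, div_le_one_of_le₀ (by exact_mod_cast hn.2) hNr.le⟩
  have hvP : ∀ n, 1 ≤ n ∧ n ≤ N → |P n - v n| ≤ 2 * d := by
    intro n hn
    have h1 := hp i _ (hx n hn)
    have h2 := hp (i + 2) _ (hx n hn)
    have h3 : ((i + 2 : ℕ) : ℝ) - 1 = (i : ℝ) + 1 := by
      push_cast
      ring
    rw [h3] at h2
    rw [hP, hv]
    rw [abs_le] at h1 h2 ⊢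
    constructor <;> simp only <;> linarith [h1.1, h1.2, h2.1, h2.2]
  have hv0 : ∀ n, 0 ≤ v n := fun n => by
    rw [hv]
    exact sub_nonneg.2 (st_anti (by linarith))
  have hv1 : ∀ n : ℕ, v n ≤ 1 := fun n => by
    rw [hv]
    have h1 := st_le_one K ((i : ℝ) - 1) ((n : ℝ) / N)
    have h2 := st_nonneg K ((i : ℝ) + 1) ((n : ℝ) / N)
    simp only
    linarith
  -- the mean over `U`
  have h1 : ((U.filter (fun n : ℕ => i * N ≤ K * n ∧ K * n ≤ (i + 1) * N)).card : ℝ) ≤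
      ∑ n ∈ U, v n := by
    rw [card_eq_sum_ones, Nat.cast_sum]
    refine le_trans ?_ (sum_le_sum_of_subset_of_nonneg
      (filter_subset (fun n : ℕ => i * N ≤ K * n ∧ K * n ≤ (i + 1) * N) U) fun n _ _ => hv0 n)
    refine sum_le_sum fun n hn => ?_
    obtain ⟨h2, h3⟩ := (mem_filter.1 hn).2
    have h4 : (i : ℝ) * N ≤ K * n := by exact_mod_cast h2
    have h5 : (K : ℝ) * n ≤ (i + 1) * N := by exact_mod_cast h3
    have h6 : (i : ℝ) ≤ K * ((n : ℝ) / N) := by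
      rw [← mul_div_assoc, le_div_iff₀ hNr]
      exact h4
    have h7 : K * ((n : ℝ) / N) ≤ (i : ℝ) + 1 := by
      rw [← mul_div_assoc, div_le_iff₀ hNr]
      exact h5
    rw [hv]
    simp only
    rw [st_one (by linarith), st_zero (by linarith)]
    norm_num
  have h2 : (∑ n ∈ U, v n) / U.card ≤ (∑ n ∈ U, P n) / U.card + 2 * d := by
    rw [div_le_iff₀ hUr, add_mul, div_mul_cancel₀ _ hUr.ne']
    have : ∑ n ∈ U, v n ≤ ∑ n ∈ U, (P n + 2 * d) := sum_le_sum fun n hn => by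
      have := (abs_le.1 (hvP n (hU n hn))).1
      linarith
    refine this.trans (le_of_eq ?_)
    rw [sum_add_distrib, sum_const, nsmul_eq_mul]
    ring
  have h3 : (∑ n ∈ C, P n) / C.card ≤ (∑ n ∈ C, v n) / C.card + 2 * d := by
    rw [div_le_iff₀ hCr, add_mul, div_mul_cancel₀ _ hCr.ne']
    have : ∑ n ∈ C, P n ≤ ∑ n ∈ C, (v n + 2 * d) := sum_le_sum fun n hn => by
      have := (abs_le.1 (hvP n (hCm n hn))).2
      linarith
    refine this.trans (le_of_eq ?_)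
    rw [sum_add_distrib, sum_const, nsmul_eq_mul]
    ring
  have h4 : (∑ n ∈ U, P n) / U.card ≤ (∑ n ∈ C, P n) / C.card + 2 * V * β := by
    have h5 := mean_wi hU hCm hβ hPW
    have h6 : (∑ n ∈ U, ((P n : ℝ) : ℂ)) / (U.card : ℂ) - (∑ n ∈ C, ((P n : ℝ) : ℂ)) / (C.card : ℂ) =
        (((∑ n ∈ U, P n) / U.card - (∑ n ∈ C, P n) / C.card : ℝ) : ℂ) := by
      push_cast
      rfl
    rw [h6, Complex.norm_real, Real.norm_eq_abs] at h5
    have := (abs_le.1 h5).2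
    linarith
  -- the mean over the class
  have h5 : (∑ n ∈ C, v n) / C.card ≤ 6 / K + 2 * W / N := by
    have h6 : ∑ n ∈ C, v n ≤ ((C.filter (fun n : ℕ => ((i : ℝ) - 1) * N / K ≤ n ∧
        (n : ℝ) ≤ ((i : ℝ) + 2) * N / K)).card : ℝ) := by
      rw [card_eq_sum_ones, Nat.cast_sum, sum_filter]
      refine sum_le_sum fun n hn => ?_
      split_ifs with h7
      · push_cast
        exact hv1 n
      · rw [not_and_or, not_le, not_le] at h7
        refine le_of_eq ?_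
        rw [hv]
        simp only
        rcases h7 with h7 | h7
        · rw [lt_div_iff₀ hKr] at h7
          have h8 : K * ((n : ℝ) / N) ≤ (i : ℝ) - 1 := by
            rw [← mul_div_assoc, div_le_iff₀ hNr]
            linarith
          rw [st_zero h8, st_zero (by linarith), sub_zero]
        · rw [div_lt_iff₀ hKr] at h7
          have h8 : (i : ℝ) + 2 ≤ K * ((n : ℝ) / N) := by
            rw [← mul_div_assoc, le_div_iff₀ hNr]
            linarith
          rw [st_one (by linarith), st_one (by linarith), sub_self]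
    have h7 := cls_count hW c N (x := ((i : ℝ) - 1) * N / K) (y := ((i : ℝ) + 2) * N / K)
      (by
        refine div_le_div_of_nonneg_right ?_ hKr.le
        exact mul_le_mul_of_nonneg_right (by linarith) hNr.le)
    rw [← hC] at h7
    have h8 : (((i : ℝ) + 2) * N / K - ((i : ℝ) - 1) * N / K) / W + 1 = 3 * N / (K * W) + 1 := by
      field_simp
      ring
    rw [h8] at h7
    have h9 := h6.trans h7
    rw [div_le_iff₀ hCr]
    have h10 : 0 ≤ 6 / (K : ℝ) + 2 * W / N := by positivity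
    calc ∑ n ∈ C, v n ≤ 3 * N / (K * W) + 1 := h9
      _ = (6 / (K : ℝ) + 2 * W / N) * (N / (2 * W)) := by
          field_simp
          ring
      _ ≤ _ := mul_le_mul_of_nonneg_left hcard h10
  have h6 : (∑ n ∈ U, v n) / U.card ≤ 6 / K + 2 * W / N + 4 * d + 2 * V * β := by linarith
  rw [div_le_iff₀ hUr] at h6
  exact h1.trans h6

open Classical in
/-- R-a, first part, with a bound for the polynomial. -/
theorem int_poly' {W c : ℕ} (hW : 1 ≤ W) {S : ℕ → Finset ℕ} (hE : Equi W c S) (q : ℕ) (hq : 1 ≤ q)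
    (δ : ℝ) (hδ : 0 < δ) : ∃ V : ℝ, ∀ᶠ N : ℕ in atTop, ∀ M₁ M₂ b : ℕ, ∃ J : ℕ → ℂ, Wi N J V ∧
      (∀ n ∈ Icc 1 N, ‖J n‖ ≤ 4) ∧
      (((S N).filter (fun n => δ < ‖(if In M₁ M₂ q b n then (1 : ℂ) else 0) - J n‖)).card : ℝ) ≤
        δ * (S N).card ∧
      (((cls W c N).filter (fun n => δ < ‖(if In M₁ M₂ q b n then (1 : ℂ) else 0) - J n‖)).card
        : ℝ) ≤ δ * (cls W c N).card := by
  have hWr : (0 : ℝ) < W := by exact_mod_cast hW
  obtain ⟨d, hd⟩ : ∃ d : ℝ, d = min δ 1 / 24 := ⟨_, rfl⟩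
  have hm0 : 0 < min δ 1 := lt_min hδ one_pos
  have hd0 : 0 < d := by rw [hd]; positivity
  have hd1 : 24 * d ≤ δ := by
    rw [hd]
    linarith [min_le_left δ 1]
  have hd2 : 24 * d ≤ 1 := by
    rw [hd]
    linarith [min_le_right δ 1]
  obtain ⟨K, hK⟩ : ∃ K : ℕ, K = ⌈6 / d⌉₊ := ⟨_, rfl⟩
  have hK1 : 1 ≤ K := by
    rw [hK]
    exact Nat.ceil_pos.2 (by positivity)
  have hKr : (0 : ℝ) < K := by exact_mod_cast hK1
  have hK2 : 6 / (K : ℝ) ≤ d := by
    have h1 := Nat.le_ceil (6 / d)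
    rw [← hK, div_le_iff₀ hd0] at h1
    rw [div_le_iff₀ hKr]
    linarith
  obtain ⟨p, hp⟩ := st_poly K d hd0
  obtain ⟨V, hV⟩ : ∃ V : ℝ, V = ∑ i ∈ range (K + 3),
    ∑ k ∈ range ((p i).natDegree + 1), |(p i).coeff k| * 1 ^ k := ⟨_, rfl⟩
  have hV0 : 0 ≤ V := by
    rw [hV]
    positivity
  have hVi : ∀ N : ℕ, 1 ≤ N → ∀ i < K + 3,
      Wi N (fun n => (((p i).eval ((n : ℝ) / N) : ℝ) : ℂ)) V := by
    intro N hN i hi
    refine (Wi.poly (p i) (wi_lin N hN)).mono ?_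
    rw [hV]
    exact single_le_sum (f := fun i => ∑ k ∈ range ((p i).natDegree + 1),
      |(p i).coeff k| * 1 ^ k) (fun i _ => by positivity) (mem_range.2 hi)
  obtain ⟨β, hβ⟩ : ∃ β : ℝ, β = d / (2 * V + 1) := ⟨_, rfl⟩
  have hβ0 : 0 < β := by rw [hβ]; positivity
  have hβ1 : 2 * V * β ≤ d := by
    have h1 : (2 * V + 1) * β = d := by
      rw [hβ]
      field_simp
    nlinarith
  have hlim : ∀ᶠ N : ℕ in atTop, 2 * (W : ℝ) / N ≤ d := by
    have h1 := tendsto_const_div_atTop_nhds_zero_nat (2 * (W : ℝ))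
    filter_upwards [h1.eventually (gt_mem_nhds hd0)] with N hN
    exact hN.le
  have hcl : ∀ᶠ N : ℕ in atTop, 1 ≤ N ∧ (N : ℝ) / (2 * W) ≤ ((cls W c N).card : ℝ) := cls_card hW c
  refine ⟨V * (1 + V) * 1, ?_⟩
  filter_upwards [hE.2 β hβ0, hcl, hlim] with N hN1 hN2 hN3 M₁ M₂ b
  obtain ⟨hne, hclose⟩ := hN1
  obtain ⟨hN, hcard⟩ := hN2
  have hNr : (0 : ℝ) < N := by exact_mod_cast hN
  have hSm : ∀ n ∈ S N, 1 ≤ n ∧ n ≤ N := fun n hn => cls_mem (hE.1 N hn)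
  have hCm : ∀ n ∈ cls W c N, 1 ≤ n ∧ n ≤ N := fun n hn => cls_mem hn
  have hCne : (cls W c N).Nonempty := by
    refine card_pos.1 ?_
    have h1 : (0 : ℝ) < (cls W c N).card := lt_of_lt_of_le (by positivity) hcard
    exact_mod_cast h1
  obtain ⟨i, hi⟩ : ∃ i : ℕ, i = min (K * M₁ / N) K := ⟨_, rfl⟩
  obtain ⟨j, hj⟩ : ∃ j : ℕ, j = min (K * M₂ / N) K := ⟨_, rfl⟩
  have hiK : i ≤ K := by rw [hi]; exact min_le_right _ _
  have hjK : j ≤ K := by rw [hj]; exact min_le_right _ _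
  obtain ⟨P₁, hP₁⟩ : ∃ P : ℕ → ℝ, P = fun n : ℕ => (p (i + 1)).eval ((n : ℝ) / N) := ⟨_, rfl⟩
  obtain ⟨P₂, hP₂⟩ : ∃ P : ℕ → ℝ, P = fun n : ℕ => (p (j + 1)).eval ((n : ℝ) / N) := ⟨_, rfl⟩
  have hx : ∀ n, 1 ≤ n ∧ n ≤ N → (n : ℝ) / N ∈ Set.Icc (0 : ℝ) 1 := fun n hn =>
    ⟨by positivity, div_le_one_of_le₀ (by exact_mod_cast hn.2) hNr.le⟩
  have hs₁ : ∀ n, 1 ≤ n ∧ n ≤ N → |P₁ n - st K i ((n : ℝ) / N)| ≤ d := by
    intro n hn
    have h1 := hp (i + 1) _ (hx n hn)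
    rw [show ((i + 1 : ℕ) : ℝ) - 1 = i by push_cast; ring] at h1
    rw [hP₁]
    exact h1
  have hs₂ : ∀ n, 1 ≤ n ∧ n ≤ N → |P₂ n - st K j ((n : ℝ) / N)| ≤ d := by
    intro n hn
    have h1 := hp (j + 1) _ (hx n hn)
    rw [show ((j + 1 : ℕ) : ℝ) - 1 = j by push_cast; ring] at h1
    rw [hP₂]
    exact h1
  have hb₁ : ∀ n, 1 ≤ n ∧ n ≤ N → |P₁ n| ≤ 2 := by
    intro n hn
    have h1 := abs_le.1 (hs₁ n hn)
    have h2 := st_nonneg K i ((n : ℝ) / N)
    have h3 := st_le_one K i ((n : ℝ) / N)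
    rw [abs_le]
    constructor <;> linarith [h1.1, h1.2]
  have hb₂ : ∀ n, 1 ≤ n ∧ n ≤ N → |1 - P₂ n| ≤ 2 := by
    intro n hn
    have h1 := abs_le.1 (hs₂ n hn)
    have h2 := st_nonneg K j ((n : ℝ) / N)
    have h3 := st_le_one K j ((n : ℝ) / N)
    rw [abs_le]
    constructor <;> linarith [h1.1, h1.2]
  obtain ⟨χ, hχ⟩ : ∃ χ : ℕ → ℂ, χ = fun n => if n ≡ b [MOD q] then 1 else 0 := ⟨_, rfl⟩
  have hχ1 : ∀ n, ‖χ n‖ ≤ 1 := by
    intro n
    rw [hχ]
    simp only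
    split_ifs <;> simp
  refine ⟨fun n => ((P₁ n : ℝ) : ℂ) * (1 - ((P₂ n : ℝ) : ℂ)) * χ n, ?_, ?_, ?_⟩
  · have h1 := hVi N hN (i + 1) (by omega)
    have h2 := hVi N hN (j + 1) (by omega)
    have h3 := (h1.mul ((Wi.const (N := N) (1 : ℂ)).sub h2)).mul (wi_mod (N := N) hq b)
    rw [norm_one] at h3
    refine h3.congr fun n _ => ?_
    rw [hP₁, hP₂, hχ]
  · intro n hn
    have hn' := mem_Icc.1 hn
    rw [norm_mul, norm_mul]
    have h1 : ‖((P₁ n : ℝ) : ℂ)‖ ≤ 2 := by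
      rw [Complex.norm_real]
      exact hb₁ n hn'
    have h2 : ‖1 - ((P₂ n : ℝ) : ℂ)‖ ≤ 2 := by
      have h3 : 1 - ((P₂ n : ℝ) : ℂ) = ((1 - P₂ n : ℝ) : ℂ) := by push_cast; rfl
      rw [h3, Complex.norm_real]
      exact hb₂ n hn'
    calc ‖((P₁ n : ℝ) : ℂ)‖ * ‖1 - ((P₂ n : ℝ) : ℂ)‖ * ‖χ n‖ ≤ 2 * 2 * 1 :=
          mul_le_mul (mul_le_mul h1 h2 (norm_nonneg _) (by norm_num)) (hχ1 n) (norm_nonneg _)
            (by norm_num)
      _ = 4 := by norm_num
  · -- the approximation off the two cells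
    have happ : ∀ n, 1 ≤ n ∧ n ≤ N → ¬ (i * N ≤ K * n ∧ K * n ≤ (i + 1) * N) →
        ¬ (j * N ≤ K * n ∧ K * n ≤ (j + 1) * N) →
        ‖(if In M₁ M₂ q b n then (1 : ℂ) else 0) -
          ((P₁ n : ℝ) : ℂ) * (1 - ((P₂ n : ℝ) : ℂ)) * χ n‖ ≤ δ := by
      intro n hn g1 g2
      have hK0 : ∀ l : ℕ, K * n < l * N → st K l ((n : ℝ) / N) = 0 := by
        intro l hl
        refine st_zero ?_
        rw [← mul_div_assoc, div_le_iff₀ hNr]
        exact_mod_cast hl.le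
      have hK1 : ∀ l : ℕ, (l + 1) * N < K * n → st K l ((n : ℝ) / N) = 1 := by
        intro l hl
        refine st_one ?_
        rw [← mul_div_assoc, le_div_iff₀ hNr]
        exact_mod_cast hl.le
      have e1 : st K i ((n : ℝ) / N) = if M₁ ≤ n then 1 else 0 := by
        rw [not_and_or, not_le, not_le] at g1
        rcases g1 with g1 | g1
        · rw [hK0 i g1, if_neg]
          rw [hi] at g1
          have := grid_lt g1
          omega
        · rw [hK1 i g1, if_pos]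
          rw [hi] at g1
          have := grid_gt hN hn.2 g1
          omega
      have e2 : st K j ((n : ℝ) / N) = if M₂ < n then 1 else 0 := by
        rw [not_and_or, not_le, not_le] at g2
        rcases g2 with g2 | g2
        · rw [hK0 j g2, if_neg]
          rw [hj] at g2
          have := grid_lt g2
          omega
        · rw [hK1 j g2, if_pos]
          rw [hj] at g2
          exact grid_gt hN hn.2 g2
      have e3 : (if In M₁ M₂ q b n then (1 : ℂ) else 0) =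
          (((st K i ((n : ℝ) / N)) * (1 - st K j ((n : ℝ) / N)) : ℝ) : ℂ) * χ n := by
        rw [e1, e2, hχ]
        unfold In
        simp only
        by_cases k1 : M₁ ≤ n <;> by_cases k2 : M₂ < n <;> by_cases k3 : n ≡ b [MOD q] <;>
          simp [k1, k2, k3]
      have e4 : (((st K i ((n : ℝ) / N)) * (1 - st K j ((n : ℝ) / N)) : ℝ) : ℂ) * χ n -
          ((P₁ n : ℝ) : ℂ) * (1 - ((P₂ n : ℝ) : ℂ)) * χ n =
          (((st K i ((n : ℝ) / N)) * (1 - st K j ((n : ℝ) / N)) - P₁ n * (1 - P₂ n) : ℝ) : ℂ) *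
            χ n := by
        push_cast
        ring
      rw [e3, e4, norm_mul, Complex.norm_real, Real.norm_eq_abs]
      have h1 := abs_le.1 (hs₁ n hn)
      have h2 := hs₂ n hn
      have h3 := st_nonneg K i ((n : ℝ) / N)
      have h4 := st_le_one K i ((n : ℝ) / N)
      have h5 := st_nonneg K j ((n : ℝ) / N)
      have h6 := st_le_one K j ((n : ℝ) / N)
      have h7 : |(st K i ((n : ℝ) / N)) * (1 - st K j ((n : ℝ) / N)) - P₁ n * (1 - P₂ n)| ≤
          3 * d := by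
        have h8 : (st K i ((n : ℝ) / N)) * (1 - st K j ((n : ℝ) / N)) - P₁ n * (1 - P₂ n) =
            -((P₁ n - st K i ((n : ℝ) / N)) * (1 - st K j ((n : ℝ) / N))) +
              P₁ n * (P₂ n - st K j ((n : ℝ) / N)) := by ring
        rw [h8]
        refine (abs_add_le _ _).trans ?_
        rw [abs_neg, abs_mul, abs_mul]
        have h9 : |1 - st K j ((n : ℝ) / N)| ≤ 1 := by
          rw [abs_le]
          constructor <;> linarith
        have h10 : |P₁ n - st K i ((n : ℝ) / N)| * |1 - st K j ((n : ℝ) / N)| ≤ d * 1 :=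
          mul_le_mul (hs₁ n hn) h9 (abs_nonneg _) hd0.le
        have h11 : |P₁ n| * |P₂ n - st K j ((n : ℝ) / N)| ≤ 2 * d :=
          mul_le_mul (hb₁ n hn) h2 (abs_nonneg _) (by norm_num)
        linarith
      calc _ ≤ 3 * d * 1 := mul_le_mul h7 (hχ1 n) (norm_nonneg _) (by positivity)
        _ ≤ δ := by linarith
    have hcount : ∀ U : Finset ℕ, (∀ n ∈ U, 1 ≤ n ∧ n ≤ N) → U.Nonempty →
        (∀ t, ‖mu U t - mu (cls W c N) t‖ ≤ β) →
        ((U.filter (fun n => δ < ‖(if In M₁ M₂ q b n then (1 : ℂ) else 0) -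
          ((P₁ n : ℝ) : ℂ) * (1 - ((P₂ n : ℝ) : ℂ)) * χ n‖)).card : ℝ) ≤ δ * U.card := by
      intro U hU hUne hUβ
      have h1 := cell hW hK1 hN hcard hU hUne hUβ hp (hVi N hN) hiK
      have h2 := cell hW hK1 hN hcard hU hUne hUβ hp (hVi N hN) hjK
      have h3 : U.filter (fun n => δ < ‖(if In M₁ M₂ q b n then (1 : ℂ) else 0) -
          ((P₁ n : ℝ) : ℂ) * (1 - ((P₂ n : ℝ) : ℂ)) * χ n‖) ⊆
          U.filter (fun n : ℕ => i * N ≤ K * n ∧ K * n ≤ (i + 1) * N) ∪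
          U.filter (fun n : ℕ => j * N ≤ K * n ∧ K * n ≤ (j + 1) * N) := by
        intro n hn
        rw [mem_filter] at hn
        rw [mem_union, mem_filter, mem_filter]
        by_contra hcon
        rw [not_or] at hcon
        exact absurd (happ n (hU n hn.1) (fun g => hcon.1 ⟨hn.1, g⟩) (fun g => hcon.2 ⟨hn.1, g⟩))
          (not_le.2 hn.2)
      have h4 : ((U.filter (fun n => δ < ‖(if In M₁ M₂ q b n then (1 : ℂ) else 0) -
          ((P₁ n : ℝ) : ℂ) * (1 - ((P₂ n : ℝ) : ℂ)) * χ n‖)).card : ℝ) ≤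
          (U.filter (fun n : ℕ => i * N ≤ K * n ∧ K * n ≤ (i + 1) * N)).card +
          (U.filter (fun n : ℕ => j * N ≤ K * n ∧ K * n ≤ (j + 1) * N)).card := by
        exact_mod_cast (card_le_card h3).trans (card_union_le _ _)
      have h5 : (6 / (K : ℝ) + 2 * W / N + 4 * d + 2 * V * β) * U.card ≤ (7 * d) * U.card :=
        mul_le_mul_of_nonneg_right (by linarith) (Nat.cast_nonneg _)
      have h6 : 24 * d * U.card ≤ δ * U.card := mul_le_mul_of_nonneg_right hd1 (Nat.cast_nonneg _)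
      have h7 : 0 ≤ d * U.card := by positivity
      linarith
    refine ⟨hcount _ hSm hne hclose, hcount _ hCm hCne fun t => ?_⟩
    rw [sub_self, norm_zero]
    exact hβ0.le

open Classical in
/-- R-a, first part. For every interval and class there is a trigonometric polynomial of bounded
Wiener norm (the bound `V` does not depend on `N`, `M₁`, `M₂`, `b`) which approximates the indicator
function except on a small proportion of `S N` and of the whole class. -/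
theorem int_poly {W c : ℕ} (hW : 1 ≤ W) {S : ℕ → Finset ℕ} (hE : Equi W c S) (q : ℕ) (hq : 1 ≤ q)
    (δ : ℝ) (hδ : 0 < δ) : ∃ V : ℝ, ∀ᶠ N : ℕ in atTop, ∀ M₁ M₂ b : ℕ, ∃ J : ℕ → ℂ, Wi N J V ∧
      (((S N).filter (fun n => δ < ‖(if In M₁ M₂ q b n then (1 : ℂ) else 0) - J n‖)).card : ℝ) ≤
        δ * (S N).card ∧
      (((cls W c N).filter (fun n => δ < ‖(if In M₁ M₂ q b n then (1 : ℂ) else 0) - J n‖)).card
        : ℝ) ≤ δ * (cls W c N).card := by
  obtain ⟨V, hV⟩ := int_poly' hW hE q hq δ hδ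
  refine ⟨V, ?_⟩
  filter_upwards [hV] with N hN M₁ M₂ b
  obtain ⟨J, h1, _, h2, h3⟩ := hN M₁ M₂ b
  exact ⟨J, h1, h2, h3⟩

/-- R-a, second part. -/
theorem int_close {W c : ℕ} (hW : 1 ≤ W) {S : ℕ → Finset ℕ} (hE : Equi W c S) (q : ℕ)
    (hq : 1 ≤ q) (δ : ℝ) (hδ : 0 < δ) : ∀ᶠ N : ℕ in atTop, ∀ M₁ M₂ b : ℕ,
      |prop (S N) {n | In M₁ M₂ q b n} - prop (cls W c N) {n | In M₁ M₂ q b n}| ≤ δ := by
  classical
  obtain ⟨d, hd⟩ : ∃ d : ℝ, d = δ / 16 := ⟨_, rfl⟩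
  have hd0 : 0 < d := by rw [hd]; positivity
  obtain ⟨V, hV⟩ := int_poly' hW hE q hq d hd0
  obtain ⟨β, hβ⟩ : ∃ β : ℝ, β = d / (|V| + 1) := ⟨_, rfl⟩
  have hβ0 : 0 < β := by rw [hβ]; positivity
  have hβ1 : V * β ≤ d := by
    have h1 : (|V| + 1) * β = d := by
      rw [hβ]
      field_simp
    have h2 : V * β ≤ |V| * β := mul_le_mul_of_nonneg_right (le_abs_self V) hβ0.le
    nlinarith
  filter_upwards [hV, hE.2 β hβ0, cls_pos hW c] with N hN hN1 hN4 M₁ M₂ b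
  obtain ⟨J, hJ, hJ6, hJS, hJC⟩ := hN M₁ M₂ b
  obtain ⟨hne, hclose⟩ := hN1
  have hSm : ∀ n ∈ S N, 1 ≤ n ∧ n ≤ N := fun n hn => cls_mem (hE.1 N hn)
  have hCm : ∀ n ∈ cls W c N, 1 ≤ n ∧ n ≤ N := fun n hn => cls_mem hn
  have hmean := mean_wi hSm hCm hclose hJ
  have hU : ∀ U : Finset ℕ, (∀ n ∈ U, 1 ≤ n ∧ n ≤ N) → 0 < U.card →
      ((U.filter (fun n => d < ‖(if In M₁ M₂ q b n then (1 : ℂ) else 0) - J n‖)).card : ℝ) ≤
        d * U.card →
      ‖((prop U {n | In M₁ M₂ q b n} : ℝ) : ℂ) - (∑ n ∈ U, J n) / (U.card : ℂ)‖ ≤ 6 * d := by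
    intro U hUm hUc hUe
    have hUr : (0 : ℝ) < U.card := by exact_mod_cast hUc
    rw [prop_eq U (In M₁ M₂ q b)]
    have h1 : (((((U.filter (In M₁ M₂ q b)).card : ℝ) / U.card : ℝ)) : ℂ) =
        (∑ n ∈ U, (if In M₁ M₂ q b n then (1 : ℂ) else 0)) / (U.card : ℂ) := by
      rw [sum_boole]
      push_cast
      rfl
    rw [h1, ← sub_div, ← sum_sub_distrib, norm_div, Complex.norm_natCast, div_le_iff₀ hUr]
    refine (norm_sum_le _ _).trans ?_
    have h2 : ∀ n ∈ U, ‖(if In M₁ M₂ q b n then (1 : ℂ) else 0) - J n‖ ≤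
        d + 5 * (if d < ‖(if In M₁ M₂ q b n then (1 : ℂ) else 0) - J n‖ then (1 : ℝ) else 0) := by
      intro n hn
      split_ifs with h3 h4
      · have h5 := hJ6 n (mem_Icc.2 (hUm n hn))
        refine (norm_sub_le _ _).trans ?_
        rw [norm_one]
        linarith
      · push Not at h4
        linarith
      · have h5 := hJ6 n (mem_Icc.2 (hUm n hn))
        refine (norm_sub_le _ _).trans ?_
        rw [norm_zero]
        linarith
      · rename_i h4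
        push Not at h4
        linarith
    refine (sum_le_sum h2).trans ?_
    rw [sum_add_distrib, sum_const, nsmul_eq_mul, ← mul_sum, sum_boole]
    linarith
  have h1 := hU (S N) hSm hne.card_pos hJS
  have h2 := hU (cls W c N) hCm hN4 hJC
  have h3 : ‖((prop (S N) {n | In M₁ M₂ q b n} - prop (cls W c N) {n | In M₁ M₂ q b n} : ℝ) : ℂ)‖ ≤
      δ := by
    have h4 : ((prop (S N) {n | In M₁ M₂ q b n} - prop (cls W c N) {n | In M₁ M₂ q b n} : ℝ) : ℂ) =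
        (((prop (S N) {n | In M₁ M₂ q b n} : ℝ) : ℂ) - (∑ n ∈ S N, J n) / ((S N).card : ℂ)) -
        (((prop (cls W c N) {n | In M₁ M₂ q b n} : ℝ) : ℂ) -
          (∑ n ∈ cls W c N, J n) / ((cls W c N).card : ℂ)) +
        ((∑ n ∈ S N, J n) / ((S N).card : ℂ) - (∑ n ∈ cls W c N, J n) / ((cls W c N).card : ℂ)) := by
      push_cast
      ring
    rw [h4]
    refine (norm_add_le _ _).trans ?_
    have h5 := norm_sub_le (((prop (S N) {n | In M₁ M₂ q b n} : ℝ) : ℂ) -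
      (∑ n ∈ S N, J n) / ((S N).card : ℂ)) (((prop (cls W c N) {n | In M₁ M₂ q b n} : ℝ) : ℂ) -
          (∑ n ∈ cls W c N, J n) / ((cls W c N).card : ℂ))
    have h6 : 16 * d = δ := by rw [hd]; ring
    linarith
  rwa [Complex.norm_real, Real.norm_eq_abs] at h3

end Pool.Agent.Lib.MP_629a14_nt.Ts
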