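import Pool.Agent.Lib.MP_629a14_nt.Ts.RDefs
import Pool.Agent.Lib.MP_629a14_nt.Kp.Arc

/-! Tools for the joint equidistribution in intervals and residue classes. -/

set_option autoImplicit false

namespace Pool.Agent.Lib.MP_629a14_nt.Ts

open Finset Filter Topology Pool.Agent.Lib.MP_629a14_nt

/-- The indicator function of a residue class. -/
theorem wi_mod {N q : ℕ} (hq : 1 ≤ q) (b : ℕ) :
    Wi N (fun n => if n ≡ b [MOD q] then 1 else 0) 1 := by
  have hd0 : (q : ℂ) ≠ 0 := by exact_mod_cast (by omega : q ≠ 0)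
  have hd1 : (q : ℝ) ≠ 0 := by exact_mod_cast (by omega : q ≠ 0)
  have h := Wi.sum (N := N) (range q)
    (fun h n => ((1 / (q : ℂ)) * ee (((h : ℝ) / q) * (-(b : ℝ)))) * ee (((h : ℝ) / q) * n))
    (fun _ => 1 / (q : ℝ)) (by
      intro h _
      refine (Wi.char (N := N) ((1 / (q : ℂ)) * ee (((h : ℝ) / q) * (-(b : ℝ))))
        ((h : ℝ) / q)).mono (le_of_eq ?_)
      rw [norm_mul, norm_ee, mul_one, norm_div, norm_one, Complex.norm_natCast])
  rw [sum_const, card_range, nsmul_eq_mul, mul_one_div_cancel hd1] at h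
  refine h.congr fun n _ => ?_
  have h3 := Kp.detect q hq n b
  have h4 : ∀ h ∈ range q, ((1 / (q : ℂ)) * ee (((h : ℝ) / q) * (-(b : ℝ)))) *
      ee (((h : ℝ) / q) * n) = (1 / (q : ℂ)) * ee (((h : ℝ) / q) * ((n : ℝ) - b)) := by
    intro h _
    rw [mul_assoc, ← ee_add]
    congr 2
    ring
  rw [sum_congr rfl h4, ← mul_sum, h3]
  split_ifs
  · field_simp
  · simp

/-- Two sets with close exponential means have close means of trigonometric polynomials. -/
theorem mean_wi {U V : Finset ℕ} {N : ℕ} (hU : ∀ n ∈ U, 1 ≤ n ∧ n ≤ N)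
    (hV : ∀ n ∈ V, 1 ≤ n ∧ n ≤ N) {β : ℝ} (hβ : ∀ t, ‖mu U t - mu V t‖ ≤ β) {F : ℕ → ℂ} {X : ℝ}
    (hF : Wi N F X) :
    ‖(∑ n ∈ U, F n) / (U.card : ℂ) - (∑ n ∈ V, F n) / (V.card : ℂ)‖ ≤ X * β := by
  have hβ0 : 0 ≤ β := (norm_nonneg _).trans (hβ 0)
  obtain ⟨ι, i1, c, θ, h1, h2⟩ := hF
  have e : ∀ U : Finset ℕ, (∀ n ∈ U, 1 ≤ n ∧ n ≤ N) →
      (∑ n ∈ U, F n) / (U.card : ℂ) = ∑ i, c i * mu U (θ i) := by
    intro U hU
    rw [sum_congr rfl (fun n hn => h1 n (mem_Icc.2 (hU n hn))), sum_comm, sum_div]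
    refine sum_congr rfl fun i _ => ?_
    unfold mu
    rw [← mul_sum, mul_div_assoc]
  rw [e U hU, e V hV, ← sum_sub_distrib]
  refine (norm_sum_le _ _).trans ?_
  calc ∑ i, ‖c i * mu U (θ i) - c i * mu V (θ i)‖ ≤ ∑ i, ‖c i‖ * β := by
        refine sum_le_sum fun i _ => ?_
        rw [← mul_sub, norm_mul]
        exact mul_le_mul_of_nonneg_left (hβ _) (norm_nonneg _)
    _ = (∑ i, ‖c i‖) * β := by rw [sum_mul]
    _ ≤ X * β := mul_le_mul_of_nonneg_right h2 hβ0

/-- The number of elements of a class in an interval. -/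
theorem cls_count {W : ℕ} (hW : 1 ≤ W) (c N : ℕ) {x y : ℝ} (hxy : x ≤ y) :
    (((cls W c N).filter (fun n : ℕ => x ≤ n ∧ (n : ℝ) ≤ y)).card : ℝ) ≤ (y - x) / W + 1 := by
  have hWr : (0 : ℝ) < W := by exact_mod_cast hW
  have hd : 0 ≤ (y - x) / W := div_nonneg (by linarith) hWr.le
  obtain ⟨T, hT⟩ : ∃ T : Finset ℕ, T = (cls W c N).filter (fun n : ℕ => x ≤ n ∧ (n : ℝ) ≤ y) :=
    ⟨_, rfl⟩
  rw [← hT]
  by_cases hne : T.Nonempty
  swap
  · rw [not_nonempty_iff_eq_empty] at hne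
    rw [hne, card_empty, Nat.cast_zero]
    linarith
  obtain ⟨m, hm⟩ : ∃ m : ℕ, m = T.min' hne := ⟨_, rfl⟩
  have hmT : m ∈ T := by rw [hm]; exact T.min'_mem hne
  have hle : ∀ n ∈ T, m ≤ n := fun n hn => by rw [hm]; exact T.min'_le n hn
  have hmem : ∀ n ∈ T, n ≡ c [MOD W] ∧ x ≤ n ∧ (n : ℝ) ≤ y := by
    intro n hn
    rw [hT] at hn
    unfold cls at hn
    have h1 := mem_filter.1 hn
    exact ⟨(mem_filter.1 h1.1).2, h1.2⟩
  have hdv : ∀ n ∈ T, W * ((n - m) / W) = n - m := by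
    intro n hn
    refine Nat.mul_div_cancel' ?_
    exact (Nat.modEq_iff_dvd' (hle n hn)).1 ((hmem m hmT).1.trans (hmem n hn).1.symm)
  have h1 : T.card ≤ (range (⌊(y - x) / W⌋₊ + 1)).card := by
    refine card_le_card_of_injOn (fun n => (n - m) / W) ?_ ?_
    · intro n hn
      rw [mem_coe] at hn
      simp only [coe_range, Set.mem_Iio]
      rw [Nat.lt_succ_iff]
      refine Nat.le_floor ?_
      rw [le_div_iff₀ hWr]
      have h2 := hdv n hn
      have h3 : (((n - m) / W : ℕ) : ℝ) * W = (n : ℝ) - m := by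
        rw [mul_comm]
        rw [← Nat.cast_sub (hle n hn)]
        exact_mod_cast h2
      rw [h3]
      linarith [(hmem n hn).2.2, (hmem m hmT).2.1]
    · intro n hn n' hn' h
      rw [mem_coe] at hn hn'
      have h2 := hdv n hn
      have h3 := hdv n' hn'
      have h4 : (n - m) / W = (n' - m) / W := h
      rw [h4, h3] at h2
      have := hle n hn
      have := hle n' hn'
      omega
  rw [card_range] at h1
  have h2 : (T.card : ℝ) ≤ (⌊(y - x) / W⌋₊ : ℝ) + 1 := by exact_mod_cast h1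
  linarith [Nat.floor_le hd]

/-- A continuous step. -/
noncomputable def st (K : ℕ) (a x : ℝ) : ℝ := max 0 (min 1 (K * x - a))

theorem st_nonneg (K : ℕ) (a x : ℝ) : 0 ≤ st K a x := le_max_left _ _

theorem st_le_one (K : ℕ) (a x : ℝ) : st K a x ≤ 1 := max_le zero_le_one (min_le_left _ _)

theorem st_one {K : ℕ} {a x : ℝ} (h : a + 1 ≤ K * x) : st K a x = 1 := by
  unfold st
  rw [min_eq_left (by linarith), max_eq_right zero_le_one]

theorem st_zero {K : ℕ} {a x : ℝ} (h : K * x ≤ a) : st K a x = 0 := by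
  unfold st
  rw [min_eq_right (by linarith), max_eq_left (by linarith)]

theorem st_anti {K : ℕ} {a a' x : ℝ} (h : a ≤ a') : st K a' x ≤ st K a x := by
  unfold st
  exact max_le_max le_rfl (min_le_min le_rfl (by linarith))

theorem st_cont (K : ℕ) (a : ℝ) : Continuous (st K a) := by
  unfold st
  fun_prop

theorem st_poly (K : ℕ) (δ : ℝ) (hδ : 0 < δ) : ∃ p : ℕ → Polynomial ℝ, ∀ i : ℕ,
    ∀ x ∈ Set.Icc (0 : ℝ) 1, |(p i).eval x - st K ((i : ℝ) - 1) x| ≤ δ := by
  have h : ∀ i : ℕ, ∃ p : Polynomial ℝ, ∀ x ∈ Set.Icc (0 : ℝ) 1,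
      |p.eval x - st K ((i : ℝ) - 1) x| ≤ δ := fun i => by
    obtain ⟨p, hp⟩ := exists_polynomial_near_of_continuousOn 0 1 (st K ((i : ℝ) - 1))
      (st_cont K _).continuousOn δ hδ
    exact ⟨p, fun x hx => (hp x hx).le⟩
  choose p hp using h
  exact ⟨p, hp⟩

/-- The grid point below `M / N`. -/
theorem grid_lt {K M N n : ℕ} (h : K * n < min (K * M / N) K * N) : n < M := by
  have h1 : min (K * M / N) K * N ≤ K * M :=
    (Nat.mul_le_mul_right N (min_le_left _ _)).trans (Nat.div_mul_le_self _ _)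
  exact Nat.lt_of_mul_lt_mul_left (h.trans_le h1)

theorem grid_gt {K M N n : ℕ} (hN : 1 ≤ N) (hn : n ≤ N)
    (h : (min (K * M / N) K + 1) * N < K * n) : M < n := by
  have h1 : K * n ≤ K * N := Nat.mul_le_mul_left K hn
  have h2 : min (K * M / N) K + 1 < K := by
    have := h.trans_le h1
    exact Nat.lt_of_mul_lt_mul_right this
  have h3 : min (K * M / N) K = K * M / N := by omega
  rw [h3] at h
  have h4 : K * M < (K * M / N + 1) * N := by
    have := Nat.lt_div_mul_add (a := K * M) (b := N) (by omega)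
    rw [add_mul, one_mul]
    exact this
  exact Nat.lt_of_mul_lt_mul_left (h4.trans h)

end Pool.Agent.Lib.MP_629a14_nt.Ts
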