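import Pool.Agent.Lib.MP_629a14_nt.Ts.RDefs

/-! Means of a Lipschitz function over two finite sets with close distribution functions. -/

set_option autoImplicit false

namespace Pool.Agent.Lib.MP_629a14_nt.Ts

open Finset Filter Topology Pool.Agent.Lib.MP_629a14_nt

theorem lip_nonneg {C Λ : ℝ} (hC : 0 < C) {φ : ℝ → ℝ}
    (hφ : ∀ x ∈ Set.Icc 0 C, ∀ y ∈ Set.Icc 0 C, |φ x - φ y| ≤ Λ * |x - y|) : 0 ≤ Λ := by
  have h := hφ C ⟨hC.le, le_rfl⟩ 0 ⟨le_rfl, hC.le⟩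
  rw [sub_zero, abs_of_pos hC] at h
  have h1 : 0 ≤ Λ * C := (abs_nonneg _).trans h
  exact le_of_mul_le_mul_right (by rw [zero_mul]; exact h1) hC

/-- The layers of a Lipschitz function. -/
theorem lip_layer {C Λ δ : ℝ} (hC : 0 < C) (hδ : 0 < δ) {φ : ℝ → ℝ}
    (hφ : ∀ x ∈ Set.Icc 0 C, ∀ y ∈ Set.Icc 0 C, |φ x - φ y| ≤ Λ * |x - y|) {M : ℕ}
    (hM : C ≤ M * δ) {y : ℝ} (hy : 0 ≤ y) (hy' : y ≤ C) :
    |φ y - φ 0 - ∑ j ∈ range M, (φ (min ((j + 1 : ℕ) * δ) C) - φ (min (j * δ) C)) *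
      (if j * δ < y then (1 : ℝ) else 0)| ≤ Λ * δ := by
  have hΛ := lip_nonneg hC hφ
  obtain ⟨k, hk⟩ : ∃ k : ℕ, k = ⌈y / δ⌉₊ := ⟨_, rfl⟩
  have hkM : k ≤ M := by
    rw [hk, Nat.ceil_le, div_le_iff₀ hδ]
    linarith
  have hlt : ∀ j : ℕ, (j * δ < y) ↔ j < k := by
    intro j
    rw [hk, Nat.lt_ceil, lt_div_iff₀ hδ]
  have h1 : ∑ j ∈ range M, (φ (min ((j + 1 : ℕ) * δ) C) - φ (min (j * δ) C)) *
      (if j * δ < y then (1 : ℝ) else 0) =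
      ∑ j ∈ range k, (φ (min ((j + 1 : ℕ) * δ) C) - φ (min (j * δ) C)) := by
    have h2 : ∀ j ∈ range M, (φ (min ((j + 1 : ℕ) * δ) C) - φ (min (j * δ) C)) *
      (if j * δ < y then (1 : ℝ) else 0) =
        if j < k then (φ (min ((j + 1 : ℕ) * δ) C) - φ (min (j * δ) C)) else 0 := by
      intro j _
      simp only [hlt]
      split_ifs <;> ring
    rw [sum_congr rfl h2, ← sum_filter]
    refine sum_congr ?_ fun _ _ => rfl
    ext j
    simp only [mem_filter, mem_range]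
    omega
  have h3 := Finset.sum_range_sub (fun j : ℕ => φ (min (j * δ) C)) k
  rw [h1, h3]
  have h4 : φ (min ((0 : ℕ) * δ) C) = φ 0 := by
    rw [Nat.cast_zero, zero_mul, min_eq_left hC.le]
  rw [h4]
  have h5 : y ≤ k * δ := by
    rw [hk]
    have := Nat.le_ceil (y / δ)
    rwa [div_le_iff₀ hδ] at this
  have h6 : (k : ℝ) * δ < y + δ := by
    rw [hk]
    have := Nat.ceil_lt_add_one (div_nonneg hy hδ.le)
    have h7 : (⌈y / δ⌉₊ : ℝ) * δ < (y / δ + 1) * δ := mul_lt_mul_of_pos_right this hδ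
    have h8 : (y / δ + 1) * δ = y + δ := by field_simp
    linarith
  have h7 : y ≤ min (k * δ) C := le_min h5 hy'
  have h8 := hφ y ⟨hy, hy'⟩ (min (k * δ) C) ⟨hy.trans h7, min_le_right _ _⟩
  have h9 : φ y - φ 0 - (φ (min (k * δ) C) - φ 0) = φ y - φ (min (k * δ) C) := by ring
  rw [h9]
  refine h8.trans ?_
  rw [abs_sub_comm, abs_of_nonneg (by linarith)]
  refine mul_le_mul_of_nonneg_left ?_ hΛ
  have := min_le_left (k * δ) C
  linarith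

/-- The proportion of the `n` in `U` and `In` with `G n ≤ y`. -/
noncomputable def PP (U : Finset ℕ) (M₁ M₂ q b : ℕ) (G : ℕ → ℝ) (y : ℝ) : ℝ :=
  (((U.filter (In M₁ M₂ q b)).filter (fun n => G n ≤ y)).card : ℝ) / U.card

theorem PP_nonneg (U : Finset ℕ) (M₁ M₂ q b : ℕ) (G : ℕ → ℝ) (y : ℝ) :
    0 ≤ PP U M₁ M₂ q b G y := by
  unfold PP
  positivity

theorem PP_le_one (U : Finset ℕ) (M₁ M₂ q b : ℕ) (G : ℕ → ℝ) (y : ℝ) :
    PP U M₁ M₂ q b G y ≤ 1 := by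
  unfold PP
  refine div_le_one_of_le₀ ?_ (Nat.cast_nonneg _)
  exact_mod_cast (card_filter_le _ _).trans (card_filter_le _ _)

theorem PP_mono (U : Finset ℕ) (M₁ M₂ q b : ℕ) (G : ℕ → ℝ) {y y' : ℝ} (h : y ≤ y') :
    PP U M₁ M₂ q b G y ≤ PP U M₁ M₂ q b G y' := by
  unfold PP
  refine div_le_div_of_nonneg_right (Nat.cast_le.2 (card_le_card fun n hn => ?_))
    (Nat.cast_nonneg _)
  rw [mem_filter] at hn ⊢
  exact ⟨hn.1, hn.2.trans h⟩

/-- The mean as a combination of the values of the distribution function. -/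
theorem mf_layer {C Λ δ : ℝ} (hC : 0 < C) (hδ : 0 < δ) {φ : ℝ → ℝ}
    (hφ : ∀ x ∈ Set.Icc 0 C, ∀ y ∈ Set.Icc 0 C, |φ x - φ y| ≤ Λ * |x - y|) {M : ℕ}
    (hM : C ≤ M * δ) (U : Finset ℕ) (hU : U.Nonempty) (M₁ M₂ q b : ℕ) {G : ℕ → ℝ}
    (hG : ∀ n ∈ U, 0 ≤ G n ∧ G n ≤ C) :
    |mf U M₁ M₂ q b (fun n => φ (G n) - φ 0) -
      ∑ j ∈ range M, (φ (min ((j + 1 : ℕ) * δ) C) - φ (min (j * δ) C)) *
        (PP U M₁ M₂ q b G C - PP U M₁ M₂ q b G (j * δ))| ≤ Λ * δ := by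
  have hΛ := lip_nonneg hC hφ
  have hc : (0 : ℝ) < U.card := by exact_mod_cast hU.card_pos
  obtain ⟨V, hV⟩ : ∃ V : Finset ℕ, V = U.filter (In M₁ M₂ q b) := ⟨_, rfl⟩
  have hVU : V ⊆ U := by rw [hV]; exact filter_subset _ _
  have h1 : ∀ j : ℕ, PP U M₁ M₂ q b G C - PP U M₁ M₂ q b G (j * δ) =
      (∑ n ∈ V, (if j * δ < G n then (1 : ℝ) else 0)) / U.card := by
    intro j
    unfold PP
    rw [← hV, ← sub_div]
    congr 1
    have h2 : V.filter (fun n => G n ≤ C) = V := filter_true_of_mem fun n hn => (hG n (hVU hn)).2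
    rw [h2, sum_boole, sub_eq_iff_eq_add]
    have h3 := card_filter_add_card_filter_not (s := V) (fun n => j * δ < G n)
    simp only [not_lt] at h3
    exact_mod_cast h3.symm
  have h2 : ∑ j ∈ range M, (φ (min ((j + 1 : ℕ) * δ) C) - φ (min (j * δ) C)) *
        (PP U M₁ M₂ q b G C - PP U M₁ M₂ q b G (j * δ)) =
      (∑ n ∈ V, ∑ j ∈ range M, (φ (min ((j + 1 : ℕ) * δ) C) - φ (min (j * δ) C)) *
        (if j * δ < G n then (1 : ℝ) else 0)) / U.card := by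
    rw [sum_comm, sum_div]
    refine sum_congr rfl fun j _ => ?_
    rw [h1 j, ← mul_sum, mul_div_assoc]
  unfold mf
  rw [← hV, h2, ← sub_div, ← sum_sub_distrib, abs_div, abs_of_pos hc, div_le_iff₀ hc]
  refine (abs_sum_le_sum_abs _ _).trans ?_
  have h3 : ∀ n ∈ V, |φ (G n) - φ 0 - ∑ j ∈ range M,
      (φ (min ((j + 1 : ℕ) * δ) C) - φ (min (j * δ) C)) *
        (if j * δ < G n then (1 : ℝ) else 0)| ≤ Λ * δ := fun n hn =>
    lip_layer hC hδ hφ hM (hG n (hVU hn)).1 (hG n (hVU hn)).2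
  refine (sum_le_card_nsmul _ _ _ h3).trans ?_
  rw [nsmul_eq_mul, mul_comm]
  refine mul_le_mul_of_nonneg_left ?_ (by positivity)
  exact_mod_cast card_le_card hVU

/-- Two sets with close distribution functions. -/
theorem mf_close {C Λ δ : ℝ} (hC : 0 < C) (hδ : 0 < δ) (hδ1 : δ ≤ 1) {φ : ℝ → ℝ}
    (hφ : ∀ x ∈ Set.Icc 0 C, ∀ y ∈ Set.Icc 0 C, |φ x - φ y| ≤ Λ * |x - y|) (U V : Finset ℕ)
    (hU : U.Nonempty) (hV : V.Nonempty) (M₁ M₂ q b : ℕ) {G : ℕ → ℝ}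
    (hGU : ∀ n ∈ U, 0 ≤ G n ∧ G n ≤ C) (hGV : ∀ n ∈ V, 0 ≤ G n ∧ G n ≤ C)
    (h1 : ∀ y, PP U M₁ M₂ q b G y ≤ PP V M₁ M₂ q b G (y + δ) + δ)
    (h2 : ∀ y, PP V M₁ M₂ q b G y ≤ PP U M₁ M₂ q b G (y + δ) + δ) :
    |mf U M₁ M₂ q b (fun n => φ (G n) - φ 0) - mf V M₁ M₂ q b (fun n => φ (G n) - φ 0)| ≤
      Λ * ((2 * C + 6) * δ) := by
  have hΛ := lip_nonneg hC hφ
  obtain ⟨M, hM⟩ : ∃ M : ℕ, M = ⌈C / δ⌉₊ := ⟨_, rfl⟩
  have hM1 : C ≤ M * δ := by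
    rw [hM]
    have := Nat.le_ceil (C / δ)
    rwa [div_le_iff₀ hδ] at this
  have hM2 : (M : ℝ) * δ ≤ C + δ := by
    rw [hM]
    have := (Nat.ceil_lt_add_one (div_nonneg hC.le hδ.le)).le
    have h7 : (⌈C / δ⌉₊ : ℝ) * δ ≤ (C / δ + 1) * δ := mul_le_mul_of_nonneg_right this hδ.le
    have h8 : (C / δ + 1) * δ = C + δ := by field_simp
    linarith
  have e1 := mf_layer hC hδ hφ hM1 U hU M₁ M₂ q b hGU
  have e2 := mf_layer hC hδ hφ hM1 V hV M₁ M₂ q b hGV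
  -- the distribution functions at `C`
  have top : ∀ (W : Finset ℕ), (∀ n ∈ W, 0 ≤ G n ∧ G n ≤ C) →
      PP W M₁ M₂ q b G (C + δ) = PP W M₁ M₂ q b G C := by
    intro W hW
    unfold PP
    congr 3
    refine filter_congr fun n hn => ?_
    have := hW n (mem_filter.1 hn).1
    constructor <;> intro _ <;> linarith [this.2]
  have hC1 := h1 C
  have hC2 := h2 C
  rw [top V hGV] at hC1
  rw [top U hGU] at hC2
  have key : ∀ j : ℕ, |(PP U M₁ M₂ q b G C - PP U M₁ M₂ q b G (j * δ)) -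
      (PP V M₁ M₂ q b G C - PP V M₁ M₂ q b G (j * δ))| ≤
      (PP U M₁ M₂ q b G ((j + 1 : ℕ) * δ) - PP U M₁ M₂ q b G (j * δ)) +
      (PP V M₁ M₂ q b G ((j + 1 : ℕ) * δ) - PP V M₁ M₂ q b G (j * δ)) + 2 * δ := by
    intro j
    have g1 := h1 (j * δ)
    have g2 := h2 (j * δ)
    have g3 : (j : ℝ) * δ + δ = ((j + 1 : ℕ) : ℝ) * δ := by
      push_cast
      ring
    rw [g3] at g1 g2
    have g4 := PP_mono U M₁ M₂ q b G (show (j : ℝ) * δ ≤ ((j + 1 : ℕ) : ℝ) * δ by rw [← g3]; linarith)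
    have g5 := PP_mono V M₁ M₂ q b G (show (j : ℝ) * δ ≤ ((j + 1 : ℕ) : ℝ) * δ by rw [← g3]; linarith)
    rw [abs_le]
    constructor <;> linarith
  have hd : ∀ j : ℕ, |φ (min ((j + 1 : ℕ) * δ) C) - φ (min (j * δ) C)| ≤ Λ * δ := by
    intro j
    have g0 : (0 : ℝ) ≤ j * δ := by positivity
    have g1 : (0 : ℝ) ≤ ((j + 1 : ℕ) : ℝ) * δ := by positivity
    refine (hφ _ ⟨le_min g1 hC.le, min_le_right _ _⟩ _ ⟨le_min g0 hC.le, min_le_right _ _⟩).trans ?_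
    refine mul_le_mul_of_nonneg_left ?_ hΛ
    have g2 := abs_min_sub_min_le_max (((j + 1 : ℕ) : ℝ) * δ) C (j * δ) C
    refine g2.trans ?_
    rw [sub_self, abs_zero]
    refine max_le ?_ hδ.le
    have g3 : ((j + 1 : ℕ) : ℝ) * δ - j * δ = δ := by
      push_cast
      ring
    rw [g3, abs_of_pos hδ]
  have e3 : |∑ j ∈ range M, (φ (min ((j + 1 : ℕ) * δ) C) - φ (min (j * δ) C)) *
        (PP U M₁ M₂ q b G C - PP U M₁ M₂ q b G (j * δ)) -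
      ∑ j ∈ range M, (φ (min ((j + 1 : ℕ) * δ) C) - φ (min (j * δ) C)) *
        (PP V M₁ M₂ q b G C - PP V M₁ M₂ q b G (j * δ))| ≤ Λ * δ * (2 + 2 * (M * δ)) := by
    rw [← sum_sub_distrib]
    refine (abs_sum_le_sum_abs _ _).trans ?_
    have h3 : ∀ j ∈ range M, |(φ (min ((j + 1 : ℕ) * δ) C) - φ (min (j * δ) C)) *
        (PP U M₁ M₂ q b G C - PP U M₁ M₂ q b G (j * δ)) -
        (φ (min ((j + 1 : ℕ) * δ) C) - φ (min (j * δ) C)) *
        (PP V M₁ M₂ q b G C - PP V M₁ M₂ q b G (j * δ))| ≤ Λ * δ *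
        ((PP U M₁ M₂ q b G ((j + 1 : ℕ) * δ) - PP U M₁ M₂ q b G (j * δ)) +
        (PP V M₁ M₂ q b G ((j + 1 : ℕ) * δ) - PP V M₁ M₂ q b G (j * δ)) + 2 * δ) := by
      intro j _
      rw [← mul_sub, abs_mul]
      exact mul_le_mul (hd j) (key j) (abs_nonneg _) (by positivity)
    refine (sum_le_sum h3).trans ?_
    rw [← mul_sum, sum_add_distrib, sum_add_distrib,
      Finset.sum_range_sub (fun j : ℕ => PP U M₁ M₂ q b G (j * δ)),
      Finset.sum_range_sub (fun j : ℕ => PP V M₁ M₂ q b G (j * δ)), sum_const, card_range,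
      nsmul_eq_mul]
    refine mul_le_mul_of_nonneg_left ?_ (by positivity)
    have g1 := PP_le_one U M₁ M₂ q b G (M * δ)
    have g2 := PP_le_one V M₁ M₂ q b G (M * δ)
    have g3 := PP_nonneg U M₁ M₂ q b G ((0 : ℕ) * δ)
    have g4 := PP_nonneg V M₁ M₂ q b G ((0 : ℕ) * δ)
    linarith
  have e4 : Λ * δ * (2 + 2 * (M * δ)) ≤ Λ * ((2 * C + 4) * δ) := by
    have h3 : 2 + 2 * (M * δ) ≤ 2 * C + 4 := by linarith
    calc Λ * δ * (2 + 2 * (M * δ)) ≤ Λ * δ * (2 * C + 4) :=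
          mul_le_mul_of_nonneg_left h3 (by positivity)
      _ = _ := by ring
  rw [abs_le] at e1 e2 e3 ⊢
  constructor <;> linarith [e1.1, e1.2, e2.1, e2.2, e3.1, e3.2]

end Pool.Agent.Lib.MP_629a14_nt.Ts
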