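import Pool.Agent.Lib.MP_629a14_nt.Ts.Defs
import Pool.Agent.Lib.MP_629a14_nt.Mp.Defs
import Pool.Agent.Lib.MP_629a14_nt.Fc.TFun

/-! The normalised numbers of representations by the truncated sets. -/

set_option autoImplicit false

namespace Pool.Agent.Lib.MP_629a14_nt.Ts

open Finset Filter Topology Pool.Agent.Lib.MP_629a14_nt Pool.Agent.Lib.MP_629a14_nt.Rob
  Pool.Agent.Lib.MP_629a14_nt.En Pool.Agent.Lib.MP_629a14_nt.Fc
open Pool.Agent.Lib.MP_629a14_nt.Kp.R.Mp (size)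

open Classical in
/-- The primes up to `N` in `A`. -/
noncomputable def tru (A : Set ℕ) (N : ℕ) : Finset ℕ :=
  (range (N + 1)).filter (fun p => p.Prime ∧ p ∈ A)

theorem tru_prime (A : Set ℕ) (N : ℕ) : ∀ p ∈ tru A N, p.Prime := by
  classical
  intro p hp
  unfold tru at hp
  exact (mem_filter.1 hp).2.1

theorem rep_tru (A B : Set ℕ) {N n : ℕ} (hn : n ≤ N) :
    repAB (tru A N) (tru B N) n = Sm.repsIn A B n := by
  classical
  unfold repAB Sm.repsIn
  refine card_bij' (fun pq _ => pq.1) (fun p _ => (p, n - p)) ?_ ?_ ?_ ?_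
  · rintro ⟨p, q⟩ h
    rw [mem_filter, mem_product] at h
    obtain ⟨⟨h1, h2⟩, h3⟩ := h
    simp only [tru, mem_filter, mem_range] at h1 h2 h3 ⊢
    have h4 : n - p = q := by omega
    rw [h4]
    exact ⟨by omega, h1.2.1, h2.2.1, h1.2.2, h2.2.2⟩
  · intro p h
    rw [mem_filter, mem_range] at h
    obtain ⟨h1, h2, h3, h4, h5⟩ := h
    simp only [tru, mem_filter, mem_product, mem_range]
    exact ⟨⟨⟨by omega, h2, h4⟩, ⟨by omega, h3, h5⟩⟩, by omega⟩
  · rintro ⟨p, q⟩ h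
    rw [mem_filter, mem_product] at h
    have h3 := h.2
    simp only at h3 ⊢
    rw [Prod.mk.injEq]
    exact ⟨rfl, by omega⟩
  · intro p _
    rfl

theorem RR_tru (A B : Set ℕ) {N n : ℕ} (hn : n ≤ N) :
    RR (tru A N) (tru B N) n = (Sm.repsIn A B n : ℝ) / HL n := by
  unfold RR
  rw [rep_tru A B hn]

theorem prod_le_two (M : ℕ) : ∏ m ∈ Icc 3 (M + 3), (((m : ℝ) - 1) ^ 2 / (m * ((m : ℝ) - 2))) =
    2 * ((M : ℝ) + 2) / (M + 3) := by
  induction M with
  | zero => norm_num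
  | succ M ih =>
    rw [show M + 1 + 3 = M + 3 + 1 by ring, prod_Icc_succ_top (by omega), ih]
    push_cast
    have h1 : (M : ℝ) + 3 ≠ 0 := by positivity
    have h2 : (M : ℝ) + 1 + 3 ≠ 0 := by positivity
    have h3 : (M : ℝ) + 3 + 1 - 2 ≠ 0 := by
      have : (0 : ℝ) ≤ M := Nat.cast_nonneg M
      linarith
    field_simp
    ring

theorem prod_set_le (P : Finset ℕ) (hP : ∀ m ∈ P, 3 ≤ m) :
    ∏ m ∈ P, (((m : ℝ) - 1) ^ 2 / (m * ((m : ℝ) - 2))) ≤ 2 := by
  classical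
  obtain ⟨M, hM⟩ : ∃ M : ℕ, ∀ m ∈ P, m ≤ M + 3 :=
    ⟨P.sup id, fun m hm => (le_sup (f := id) hm).trans (by omega)⟩
  have hsub : P ⊆ Icc 3 (M + 3) := fun m hm => mem_Icc.2 ⟨hP m hm, hM m hm⟩
  have h1 : ∀ m ∈ Icc 3 (M + 3), 1 ≤ (((m : ℝ) - 1) ^ 2 / (m * ((m : ℝ) - 2))) := by
    intro m hm
    have h3 : (3 : ℝ) ≤ m := by exact_mod_cast (mem_Icc.1 hm).1
    rw [one_le_div (by nlinarith)]
    nlinarith
  have h2 := prod_le_two M
  have h3 : ∏ m ∈ P, (((m : ℝ) - 1) ^ 2 / (m * ((m : ℝ) - 2))) ≤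
      ∏ m ∈ Icc 3 (M + 3), (((m : ℝ) - 1) ^ 2 / (m * ((m : ℝ) - 2))) := by
    rw [← prod_sdiff hsub]
    refine le_mul_of_one_le_left ?_ ?_
    · exact prod_nonneg fun m hm => le_trans zero_le_one (h1 m (hsub hm))
    · have h4 := prod_le_prod (s := Icc 3 (M + 3) \ P) (f := fun _ => (1 : ℝ))
        (g := fun m : ℕ => (((m : ℝ) - 1) ^ 2 / (m * ((m : ℝ) - 2))))
        (fun _ _ => zero_le_one) (fun m hm => h1 m (mem_sdiff.1 hm).1)
      rwa [prod_const_one] at h4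
  rw [h2] at h3
  refine h3.trans ?_
  have : (0 : ℝ) ≤ M := Nat.cast_nonneg M
  rw [div_le_iff₀ (by linarith)]
  linarith

/-- The main factor of `HL n` is at most a constant times `n / φ(n)` for even `n`. -/
theorem HL_le {n : ℕ} (hn : 2 ≤ n) (he : Even n) : HL n ≤ 2 * tw * size n := by
  have h2 : 2 ∈ n.primeFactors := by
    rw [Nat.mem_primeFactors_of_ne_zero (by omega)]
    exact ⟨Nat.prime_two, he.two_dvd⟩
  have h3 : n.primeFactors.filter (fun p => 2 < p) = n.primeFactors.erase 2 := by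
    ext p
    rw [mem_filter, mem_erase]
    constructor
    · rintro ⟨hp, h⟩
      exact ⟨by omega, hp⟩
    · rintro ⟨h, hp⟩
      have := (Nat.prime_of_mem_primeFactors hp).two_le
      exact ⟨hp, by omega⟩
  have h4 : ∀ p ∈ n.primeFactors.erase 2, 3 ≤ p := by
    intro p hp
    have h5 := (Nat.prime_of_mem_primeFactors (mem_erase.1 hp).2).two_le
    have h6 := (mem_erase.1 hp).1
    omega
  have h5 : ∏ p ∈ n.primeFactors.erase 2, (((p : ℝ) - 1) / ((p : ℝ) - 2)) =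
      (∏ p ∈ n.primeFactors.erase 2, (((p : ℝ) - 1) ^ 2 / (p * ((p : ℝ) - 2)))) *
        ∏ p ∈ n.primeFactors.erase 2, ((p : ℝ) / ((p : ℝ) - 1)) := by
    rw [← prod_mul_distrib]
    refine prod_congr rfl fun p hp => ?_
    have h6 : (3 : ℝ) ≤ p := by exact_mod_cast h4 p hp
    have h7 : (p : ℝ) - 1 ≠ 0 := by linarith
    have h8 : (p : ℝ) - 2 ≠ 0 := by linarith
    have h9 : (p : ℝ) ≠ 0 := by linarith
    field_simp
  have h6 := Rob.SigLow.ratio_eq n (by omega)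
  rw [← mul_prod_erase _ _ h2] at h6
  have h7 : 0 ≤ ∏ p ∈ n.primeFactors.erase 2, ((p : ℝ) / ((p : ℝ) - 1)) := by
    refine prod_nonneg fun p hp => ?_
    have h8 : (3 : ℝ) ≤ p := by exact_mod_cast h4 p hp
    exact div_nonneg (by linarith) (by linarith)
  have h8 := prod_set_le _ h4
  have h9 : sing n ≤ 2 * tw * ((n : ℝ) / n.totient) := by
    unfold sing
    rw [h3, h5, h6]
    have h10 := tw_pos
    have h11 : ((2 : ℕ) : ℝ) / (((2 : ℕ) : ℝ) - 1) = 2 := by norm_num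
    rw [h11]
    exact mul_le_mul_of_nonneg_left (mul_le_mul_of_nonneg_right h8 h7) (by positivity)
  have h10 : size n = ((n : ℝ) / n.totient) * (n / (Real.log n) ^ 2) := by
    rw [size, div_mul_div_comm, sq]
  rw [h10, HL, ← mul_assoc]
  exact mul_le_mul_of_nonneg_right h9 (by positivity)

end Pool.Agent.Lib.MP_629a14_nt.Ts
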