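import Pool.Agent.Lib.MP_629a14_nt.Ts.Int
import Pool.Agent.Lib.MP_629a14_nt.Ts.Lay
import Pool.Agent.Lib.MP_629a14_nt.Ts.Trunc
import Pool.Agent.Lib.MP_629a14_nt.Kp.MeanD

/-! R-b. The laws of `(rho A B n, n / N, n mod q)` on `S N` and on the whole class are close. -/

set_option autoImplicit false

namespace Pool.Agent.Lib.MP_629a14_nt.Ts

open Finset Filter Topology Pool.Agent.Lib.MP_629a14_nt Pool.Agent.Lib.MP_629a14_nt.Rob
  Pool.Agent.Lib.MP_629a14_nt.En Pool.Agent.Lib.MP_629a14_nt.Fc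

theorem close_symm {k m : ℕ} {β : ℝ} {a : Fin k → ℕ} {b : Fin m → ℕ} (h : Close β a b) :
    Close β b a := by
  intro t
  rw [norm_sub_rev]
  exact h t

private theorem combine {f J F K0 : ℂ} {g : ℝ} {ε C : ℝ} (P : Prop) [Decidable P] (hε : 0 ≤ ε)
    (hε1 : ε ≤ 1) (hC : 0 ≤ C) (hg0 : 0 ≤ g) (hg : g ≤ C) (hK : K0 = ((C + 2 : ℝ) : ℂ))
    (h1 : ‖(g : ℂ) - F‖ ≤ ε) (h2 : ‖(if P then (1 : ℂ) else 0) - J‖ ≤ ε)
    (hf : f = F * J + K0 * (1 - J)) :
    ‖(((if P then g else C + 2 : ℝ)) : ℂ) - f‖ ≤ (2 * C + 6) * ε := by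
  have hF : ‖F‖ ≤ C + 1 := by
    have h3 : F = (g : ℂ) - ((g : ℂ) - F) := by ring
    rw [h3]
    refine (norm_sub_le _ _).trans ?_
    rw [Complex.norm_real, Real.norm_of_nonneg hg0]
    linarith
  have hK0 : ‖K0‖ = C + 2 := by
    rw [hK, Complex.norm_real, Real.norm_of_nonneg (by linarith)]
  by_cases hP : P
  · rw [if_pos hP] at h2 ⊢
    have h3 : (g : ℂ) - f = ((g : ℂ) - F) + (F - K0) * (1 - J) := by
      rw [hf]
      ring
    rw [h3]
    refine (norm_add_le _ _).trans ?_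
    rw [norm_mul]
    have h4 : ‖F - K0‖ ≤ 2 * C + 3 := by
      refine (norm_sub_le _ _).trans ?_
      linarith
    have h5 : ‖F - K0‖ * ‖1 - J‖ ≤ (2 * C + 3) * ε :=
      mul_le_mul h4 h2 (norm_nonneg _) (by linarith)
    nlinarith
  · rw [if_neg hP] at h2 ⊢
    rw [zero_sub, norm_neg] at h2
    have h3 : (((C + 2 : ℝ)) : ℂ) - f = (K0 - F) * J := by
      rw [hf, ← hK]
      ring
    rw [h3, norm_mul]
    have h4 : ‖K0 - F‖ ≤ 2 * C + 3 := by
      refine (norm_sub_le _ _).trans ?_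
      linarith
    have h5 : ‖K0 - F‖ * ‖J‖ ≤ (2 * C + 3) * ε :=
      mul_le_mul h4 h2 (norm_nonneg _) (by linarith)
    nlinarith

open Classical in
/-- The localised laws. -/
theorem law_in {W c : ℕ} (hW : 1 ≤ W) {S : ℕ → Finset ℕ} (hE : Equi W c S) (hT : Tm S) (q : ℕ)
    (hq : 1 ≤ q) {C : ℝ} (hC : 0 < C) (hCr : ∀ (A B : Set ℕ) (n : ℕ), Kp.rho A B n ≤ C) (δ : ℝ)
    (hδ : 0 < δ) (hδ1 : δ ≤ 1) : ∀ᶠ N : ℕ in atTop, ∀ A B : Set ℕ, ∀ M₁ M₂ b : ℕ, ∀ x : ℝ,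
      PP (S N) M₁ M₂ q b (Kp.rho A B) x ≤
        PP (cls W c N) M₁ M₂ q b (Kp.rho A B) (x + δ) + δ ∧
      PP (cls W c N) M₁ M₂ q b (Kp.rho A B) x ≤
        PP (S N) M₁ M₂ q b (Kp.rho A B) (x + δ) + δ := by
  obtain ⟨s, hs, K, hK⟩ := hT
  have hWr : (0 : ℝ) < W := by exact_mod_cast hW
  obtain ⟨K', hK'⟩ : ∃ K' : ℝ, K' = max K (6 * W) := ⟨_, rfl⟩
  have hK'0 : 0 ≤ K' := by
    rw [hK']
    exact le_max_of_le_right (by positivity)
  obtain ⟨d, hd⟩ : ∃ d : ℝ, d = δ / 5 := ⟨_, rfl⟩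
  have hd0 : 0 < d := by rw [hd]; positivity
  obtain ⟨ε, hε⟩ : ∃ ε : ℝ, ε = d / (2 * C + 6) := ⟨_, rfl⟩
  have hε0 : 0 < ε := by rw [hε]; positivity
  have hεd : (2 * C + 6) * ε = d := by
    rw [hε]
    field_simp
  have hε1 : ε ≤ 1 := by nlinarith
  have hε2 : ε ≤ d / 2 := by nlinarith
  obtain ⟨T, c1, hc1, N1, h1⟩ := Spc.struct s hs K' ε hK'0 hε0
  obtain ⟨V, hV⟩ := int_poly hW hE q hq ε hε0
  obtain ⟨c2, hc2, h2⟩ := ramp_law ((T : ℝ) * T * V + (C + 2) * (1 + V)) d hd0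
  have hEc := hE.2 c2 hc2
  filter_upwards [hEc, hK c1 hc1, cls_card hW c, cls_pos hW c, eventually_ge_atTop N1, hV]
    with N hN1 hN2 hN3 hN4 hN5 hN6 A B M₁ M₂ b
  obtain ⟨hne, hclose⟩ := hN1
  have hNr : (1 : ℝ) ≤ N := by exact_mod_cast hN3.1
  have hSm : ∀ n ∈ S N, 1 ≤ n ∧ n ≤ N := fun n hn => cls_mem (hE.1 N hn)
  have hη0 : 0 ≤ c1 / (Real.log N) ^ 2 := by positivity
  -- the two families
  have hspS : Spc.Spec s K' (c1 / (Real.log N) ^ 2) N (S N).card (en (S N)) :=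
    spec_en hs hSm (hN2.trans (by rw [hK']; exact le_max_left _ _))
  have hcne : (cls W c N).Nonempty := card_pos.1 hN4
  have hspC : Spc.Spec s K' (c1 / (Real.log N) ^ 2) N (cls W c N).card (en (cls W c N)) := by
    refine spec_of_card hs (fun n hn => cls_mem hn) hcne ?_
    rw [hK']
    refine le_trans ?_ (le_max_right _ _)
    have h3 : (0 : ℝ) < (cls W c N).card := by exact_mod_cast hN4
    rw [div_le_iff₀ h3]
    calc (2 * (N : ℝ) + 1) ≤ 3 * N := by linarith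
      _ = 6 * W * (N / (2 * W)) := by
          field_simp
          norm_num
      _ ≤ 6 * W * (cls W c N).card := mul_le_mul_of_nonneg_left hN3.2 (by positivity)
  obtain ⟨F, hF, hF'⟩ := h1 N hN5 (tru A N) (tru B N) (tru_prime A N) (tru_prime B N)
  obtain ⟨J, hJ, hJS, hJC⟩ := hN6 M₁ M₂ b
  obtain ⟨G, hG⟩ : ∃ G : ℕ → ℝ, G = fun n => if In M₁ M₂ q b n then Kp.rho A B n else C + 2 :=
    ⟨_, rfl⟩
  obtain ⟨H, hH⟩ : ∃ H : ℕ → ℂ, H = fun n => F n * J n + ((C + 2 : ℝ) : ℂ) * (1 - J n) := ⟨_, rfl⟩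
  have hHW : Wi N H ((T : ℝ) * T * V + (C + 2) * (1 + V)) := by
    have h3 := ((cx_wi hF N).mul hJ).add
      (((Wi.const (N := N) (1 : ℂ)).sub hJ).smul ((C + 2 : ℝ) : ℂ))
    rw [norm_one, Complex.norm_real, Real.norm_of_nonneg (by linarith)] at h3
    rw [hH]
    exact h3
  have hrho : ∀ n ∈ Icc 1 N, Kp.rho A B n = RR (tru A N) (tru B N) n := by
    intro n hn
    rw [RR_tru A B (mem_Icc.1 hn).2]
    rfl
  -- exceptional indices
  have hexc : ∀ (U : Finset ℕ), (∀ n ∈ U, 1 ≤ n ∧ n ≤ N) →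
      Spc.Spec s K' (c1 / (Real.log N) ^ 2) N U.card (en U) →
      ((U.filter (fun n => ε < ‖(if In M₁ M₂ q b n then (1 : ℂ) else 0) - J n‖)).card : ℝ) ≤
        ε * U.card →
      (((univ : Finset (Fin U.card)).filter
        (fun j => d < ‖(G (en U j) : ℂ) - H (en U j)‖)).card : ℝ) ≤ d * U.card := by
    intro U hU hspU hJU
    have h3 := hF' U.card _ (en U) hη0 le_rfl hspU
    rw [card_en U (fun n => ε < ‖(RR (tru A N) (tru B N) n : ℂ) - F n‖)] at h3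
    rw [card_en U (fun n => d < ‖(G n : ℂ) - H n‖)]
    have h4 : U.filter (fun n => d < ‖(G n : ℂ) - H n‖) ⊆
        U.filter (fun n => ε < ‖(RR (tru A N) (tru B N) n : ℂ) - F n‖) ∪
        U.filter (fun n => ε < ‖(if In M₁ M₂ q b n then (1 : ℂ) else 0) - J n‖) := by
      intro n hn
      rw [mem_filter] at hn
      by_contra hcon
      rw [mem_union, mem_filter, mem_filter] at hcon
      push Not at hcon
      have h5 := hcon.1 hn.1
      have h6 := hcon.2 hn.1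
      have h7 := hrho n (mem_Icc.2 (hU n hn.1))
      rw [← h7] at h5
      have h8 : 0 ≤ Kp.rho A B n := by
        rw [h7]
        exact RR_nonneg _ _ n
      have h9 := combine (f := H n) (J := J n) (F := F n) (K0 := ((C + 2 : ℝ) : ℂ))
        (g := Kp.rho A B n) (In M₁ M₂ q b n) hε0.le hε1 hC.le h8 (hCr A B n) rfl h5 h6
        (by rw [hH])
      rw [hεd] at h9
      have h10 : (G n : ℂ) = (((if In M₁ M₂ q b n then Kp.rho A B n else C + 2 : ℝ)) : ℂ) := by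
        rw [hG]
      rw [← h10] at h9
      exact absurd hn.2 (not_lt.2 h9)
    have h5 : ((U.filter (fun n => d < ‖(G n : ℂ) - H n‖)).card : ℝ) ≤
        ((U.filter (fun n => ε < ‖(RR (tru A N) (tru B N) n : ℂ) - F n‖)).card : ℝ) +
        ((U.filter (fun n => ε < ‖(if In M₁ M₂ q b n then (1 : ℂ) else 0) - J n‖)).card : ℝ) := by
      exact_mod_cast (card_le_card h4).trans (card_union_le _ _)
    have h6 : (0 : ℝ) ≤ U.card := Nat.cast_nonneg _
    nlinarith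
  have hcl : Close c2 (en (cls W c N)) (en (S N)) := by
    intro t
    have h3 := hclose t
    rw [← bh_en, ← bh_en] at h3
    exact h3
  have mC : ∀ i, en (cls W c N) i ∈ Icc 1 N := fun i => mem_Icc.2 (cls_mem (en_mem _ i))
  have mS : ∀ j, en (S N) j ∈ Icc 1 N := fun j => mem_Icc.2 (hSm _ (en_mem _ j))
  have xC := hexc (cls W c N) (fun n hn => cls_mem hn) hspC hJC
  have xS := hexc (S N) hSm hspS hJS
  have r1 := h2 N _ _ (en (cls W c N)) (en (S N)) hN4 hne.card_pos mC mS hcl G H hHW xC xS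
  have r2 := h2 N _ _ (en (S N)) (en (cls W c N)) hne.card_pos hN4 mS mC (close_symm hcl) G H hHW
    xS xC
  have h3d : 3 * d ≤ 1 := by rw [hd]; linarith
  -- the distribution function of `G`
  have hPP : ∀ (U : Finset ℕ) (y : ℝ), y < C + 2 →
      ((((univ : Finset (Fin U.card)).filter (fun j => G (en U j) ≤ y)).card : ℝ) / U.card) =
        PP U M₁ M₂ q b (Kp.rho A B) y := by
    intro U y hy
    rw [card_en U (fun n => G n ≤ y)]
    unfold PP
    congr 2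
    rw [filter_filter]
    congr 1
    ext n
    rw [mem_filter, mem_filter]
    refine and_congr_right fun _ => ?_
    rw [hG]
    by_cases h : In M₁ M₂ q b n
    · simp only [if_pos h]
      exact ⟨fun h' => ⟨h, h'⟩, fun h' => h'.2⟩
    · simp only [if_neg h]
      exact ⟨fun h' => by linarith, fun h' => absurd h'.1 h⟩
  have fin : ∀ (U V : Finset ℕ), (∀ x : ℝ,
      ((((univ : Finset (Fin V.card)).filter (fun j => G (en V j) ≤ x)).card : ℝ) / V.card) ≤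
      ((((univ : Finset (Fin U.card)).filter (fun j => G (en U j) ≤ x + 3 * d)).card : ℝ) /
        U.card) + 5 * d) → ∀ x : ℝ, PP V M₁ M₂ q b (Kp.rho A B) x ≤
        PP U M₁ M₂ q b (Kp.rho A B) (x + δ) + δ := by
    intro U V h x
    have h5 : 5 * d = δ := by rw [hd]; ring
    have h3 : 3 * d ≤ δ := by linarith
    by_cases hx : x ≤ C
    · have h4 := h x
      rw [hPP V x (by linarith), hPP U (x + 3 * d) (by linarith)] at h4
      have h6 := PP_mono U M₁ M₂ q b (Kp.rho A B) (show x + 3 * d ≤ x + δ by linarith)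
      linarith
    · push Not at hx
      have h4 := h C
      rw [hPP V C (by linarith), hPP U (C + 3 * d) (by linarith)] at h4
      have h6 := PP_mono U M₁ M₂ q b (Kp.rho A B) (show C + 3 * d ≤ x + δ by linarith)
      have h7 : PP V M₁ M₂ q b (Kp.rho A B) x ≤ PP V M₁ M₂ q b (Kp.rho A B) C := by
        unfold PP
        refine div_le_div_of_nonneg_right (Nat.cast_le.2 (card_le_card fun n hn => ?_))
          (Nat.cast_nonneg _)
        rw [mem_filter] at hn ⊢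
        exact ⟨hn.1, hCr A B n⟩
      linarith
  exact fun x => ⟨fin _ _ r1 x, fin _ _ r2 x⟩

/-- The means of a Lipschitz function of the normalised number of representations. -/
theorem rho_close {W c : ℕ} (hW : 1 ≤ W) {S : ℕ → Finset ℕ} (hE : Equi W c S) (hT : Tm S) (q : ℕ)
    (hq : 1 ≤ q) {C : ℝ} (hC : 0 < C) (hCr : ∀ (A B : Set ℕ) (n : ℕ), Kp.rho A B n ≤ C) (ε : ℝ)
    (hε : 0 < ε) : ∀ᶠ N : ℕ in atTop, ∀ A B : Set ℕ, ∀ (φ : ℝ → ℝ) (Λ : ℝ),
      (∀ x ∈ Set.Icc 0 C, ∀ y ∈ Set.Icc 0 C, |φ x - φ y| ≤ Λ * |x - y|) → ∀ M₁ M₂ b : ℕ,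
      |mf (S N) M₁ M₂ q b (fun n => φ (Kp.rho A B n) - φ 0) -
        mf (cls W c N) M₁ M₂ q b (fun n => φ (Kp.rho A B n) - φ 0)| ≤ Λ * ε := by
  obtain ⟨δ, hδ⟩ : ∃ δ : ℝ, δ = min 1 (ε / (2 * C + 6)) := ⟨_, rfl⟩
  have hδ0 : 0 < δ := by rw [hδ]; positivity
  have hδ1 : δ ≤ 1 := by rw [hδ]; exact min_le_left _ _
  have hδ2 : (2 * C + 6) * δ ≤ ε := by
    have h : δ ≤ ε / (2 * C + 6) := by rw [hδ]; exact min_le_right _ _
    rw [le_div_iff₀ (by positivity)] at h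
    linarith
  filter_upwards [law_in hW hE hT q hq hC hCr δ hδ0 hδ1, cls_pos hW c, hE.2 1 one_pos]
    with N h1 h2 h3 A B φ Λ hφ M₁ M₂ b
  have hΛ := lip_nonneg hC hφ
  have hG : ∀ (U : Finset ℕ), ∀ n ∈ U, 0 ≤ Kp.rho A B n ∧ Kp.rho A B n ≤ C :=
    fun U n _ => ⟨Kp.rho_nonneg A B n, hCr A B n⟩
  refine (mf_close hC hδ0 hδ1 hφ (S N) (cls W c N) h3.1 (card_pos.1 h2) M₁ M₂ q b (hG _) (hG _)
    (fun y => (h1 A B M₁ M₂ b y).1) (fun y => (h1 A B M₁ M₂ b y).2)).trans ?_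
  exact mul_le_mul_of_nonneg_left hδ2 hΛ

end Pool.Agent.Lib.MP_629a14_nt.Ts
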