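import Pool.Agent.Lib.MP_629a14_nt.Ts.Law
import Pool.Agent.Lib.MP_629a14_nt.Ts.Trunc
import Pool.Agent.Lib.MP_629a14_nt.Ts.Share
import Pool.Agent.Lib.MP_629a14_nt.Mp.Fin

/-! The lower bound of Mann's theorem relative to an equidistributed tame sequence. -/

set_option autoImplicit false

namespace Pool.Agent.Lib.MP_629a14_nt.Ts

open Finset Filter Topology Pool.Agent.Lib.MP_629a14_nt Pool.Agent.Lib.MP_629a14_nt.Rob
  Pool.Agent.Lib.MP_629a14_nt.En Pool.Agent.Lib.MP_629a14_nt.Fc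
open Pool.Agent.Lib.MP_629a14_nt.Kp.R Pool.Agent.Lib.MP_629a14_nt.Kp.R.Mp
open Pool.Agent.Lib.MP_629a14_nt.Mp (RM)

private theorem frac_aux {W a b m ε : ℝ} (hW : 0 < W) (hε : 0 < ε) (hm : m ≤ 1) (hm0 : ε / 2 < m)
    (ha : 0 < a) (hb : 0 < b) (h : W / a * b < 1 + ε / 4) :
    m - ε / 2 ≤ (m / W - ε / (4 * W)) * a / b := by
  rw [le_div_iff₀ hb]
  have h1 : b < (1 + ε / 4) * (a / W) := by
    have h2 : b = (W / a * b) * (a / W) := by field_simp
    rw [h2]
    exact mul_lt_mul_of_pos_right h (by positivity)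
  have h2 : (m / W - ε / (4 * W)) * a = (m - ε / 4) * (a / W) := by
    field_simp
  rw [h2]
  have h3 : 0 < a / W := by positivity
  calc (m - ε / 2) * b ≤ (m - ε / 2) * ((1 + ε / 4) * (a / W)) :=
        mul_le_mul_of_nonneg_left h1.le (by linarith)
    _ = ((m - ε / 2) * (1 + ε / 4)) * (a / W) := by ring
    _ ≤ (m - ε / 4) * (a / W) := by
        refine mul_le_mul_of_nonneg_right ?_ h3.le
        nlinarith

theorem size_pos {n : ℕ} (hn : 2 ≤ n) : 0 < size n := by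
  unfold size
  have h5 : 0 < Real.log n := Real.log_pos (by exact_mod_cast hn)
  have h6 : 0 < n.totient := Nat.totient_pos.2 (by omega)
  have h7 : (0 : ℝ) < n.totient := by exact_mod_cast h6
  have h8 : (0 : ℝ) < n := by exact_mod_cast (by omega : 0 < n)
  positivity

theorem HL_pos {n : ℕ} (hn : 2 ≤ n) : 0 < HL n := by
  have h2 := sing_ge n
  have h3 := tw_pos
  have h4 : (1 : ℝ) < n := by exact_mod_cast (by omega : 1 < n)
  have h5 := Real.log_pos h4
  unfold HL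
  have h6 : 0 < sing n := by linarith
  positivity

/-- The lower bound, uniformly in the sequence `S`. -/
theorem mann_low {W c : ℕ} {u v : ℕ → ℝ} (hRM : RM) (hW : 1 ≤ W) (h2 : 2 ∣ W) (hc : 2 ∣ c)
    (hu : ∀ r, r < W → r.Coprime W → 0 ≤ u r ∧ u r ≤ 1)
    (hv : ∀ r, r < W → r.Coprime W → 0 ≤ v r ∧ v r ≤ 1) (ε : ℝ) (hε : 0 < ε) :
    ∃ κ : ℝ, 0 < κ ∧ ∀ S : ℕ → Finset ℕ, Equi W c S → Tm S → ∀ A B : Set ℕ, Low A W u →
      Low B W v → ∀ᶠ N : ℕ in atTop, best W c u v - ε ≤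
        prop (S N) {n | κ * size n ≤ Sm.repsIn A B n} := by
  classical
  by_cases hb0 : best W c u v ≤ ε / 2
  · exact ⟨1, one_pos, fun S _ _ A B _ _ => Eventually.of_forall fun N => by
      linarith [prop_nonneg (S N) {n | 1 * size n ≤ Sm.repsIn A B n}]⟩
  push Not at hb0
  have h0 : {m : ℝ | ∃ r ∈ Kp.adm W c, 0 < u r ∧ 0 < v ((c + W - r) % W) ∧
      m = min 1 (u r + v ((c + W - r) % W))}.Nonempty := by
    by_contra h
    rw [Set.not_nonempty_iff_eq_empty] at h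
    have h1 : best W c u v = 0 := by
      unfold best
      rw [h, Real.sSup_empty]
    linarith
  obtain ⟨r, hr, hur, hvr, hm⟩ := h0.csSup_mem (best_fin W c u v)
  obtain ⟨m, hmdef⟩ : ∃ m : ℝ, m = best W c u v := ⟨_, rfl⟩
  have hm' : m = min 1 (u r + v ((c + W - r) % W)) := by
    rw [hmdef]
    exact hm
  have hm1 : m ≤ 1 := by rw [hm']; exact min_le_left _ _
  rw [← hmdef] at hb0 ⊢
  have hWr : (0 : ℝ) < W := by exact_mod_cast hW
  obtain ⟨κ, hκ, hlow⟩ := low hRM hW h2 hc hu hv hr hur hvr (ε / (4 * W)) (by positivity)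
  rw [← hm'] at hlow
  obtain ⟨c₁, hc₁, hHL⟩ := HL_ge
  have htw := tw_pos
  obtain ⟨κ₁, hκ₁⟩ : ∃ κ₁ : ℝ, κ₁ = κ / (2 * tw) := ⟨_, rfl⟩
  have hκ₁0 : 0 < κ₁ := by rw [hκ₁]; positivity
  obtain ⟨δ, hδ⟩ : ∃ δ : ℝ, δ = min (ε / 4) (κ₁ / 4) := ⟨_, rfl⟩
  have hδ0 : 0 < δ := by rw [hδ]; positivity
  have hδ1 : δ ≤ ε / 4 := by rw [hδ]; exact min_le_left _ _
  have hδ2 : δ ≤ κ₁ / 4 := by rw [hδ]; exact min_le_right _ _
  refine ⟨κ₁ / 2 * c₁, by positivity, fun S hE hT A B hA hB => ?_⟩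
  obtain ⟨N₀, hN₀⟩ := hlow A B hA hB
  have hcard := (Kp.class_card hW c).eventually
    (gt_mem_nhds (show (1 : ℝ) < 1 + ε / 4 by linarith))
  have hcard2 := (Kp.class_card hW c).eventually (lt_mem_nhds (show (0 : ℝ) < 1 by norm_num))
  filter_upwards [law_ge hW hE hT 1 δ hδ0, hcard, hcard2, eventually_ge_atTop (max N₀ 1)]
    with N hlaw hc1 hc2 hN
  have hN1 : N₀ ≤ N := (le_max_left _ _).trans hN
  have hN2 : 1 ≤ N := (le_max_right _ _).trans hN
  have hNr : (0 : ℝ) < N := by exact_mod_cast hN2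
  have hcl : (0 : ℝ) < (cls W c N).card := by
    by_contra h
    have h1 : ((cls W c N).card : ℝ) = 0 := le_antisymm (not_lt.1 h) (Nat.cast_nonneg _)
    have h3 : (((Icc 1 N).filter (fun m => m ≡ c [MOD W])).card : ℝ) = 0 := h1
    rw [h3, mul_zero] at hc2
    exact lt_irrefl _ hc2
  have hev : ∀ n ∈ cls W c N, 2 ≤ n ∧ n ≤ N ∧ Even n := by
    intro n hn
    unfold cls at hn
    rw [mem_filter, mem_Icc] at hn
    have h3 : 2 ∣ n := (hn.2.of_dvd h2).dvd_iff (dvd_refl 2) |>.2 hc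
    exact ⟨by omega, hn.1.2, even_iff_two_dvd.2 h3⟩
  have h1 := hlaw (fun _ => tru A N) (fun _ => tru B N) (fun _ => tru_prime A N)
    (fun _ => tru_prime B N) (κ₁ / 2)
  simp only [univ_unique, sum_singleton] at h1
  -- the class
  have e1 : (m / W - ε / (4 * W)) * N ≤ (((cls W c N).filter (fun n => κ₁ / 2 + δ <
      RR (tru A N) (tru B N) n)).card : ℝ) := by
    refine (hN₀ N hN1).trans (Nat.cast_le.2 (card_le_card fun n hn => ?_))
    rw [mem_filter] at hn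
    have hnc : n ∈ cls W c N := by
      unfold cls
      rw [mem_filter]
      exact ⟨hn.1, hn.2.1⟩
    obtain ⟨g1, g2, g3⟩ := hev n hnc
    rw [mem_filter]
    refine ⟨hnc, ?_⟩
    rw [RR_tru A B g2, lt_div_iff₀ (HL_pos g1)]
    have g4 := HL_le g1 g3
    have g5 := size_pos g1
    calc (κ₁ / 2 + δ) * HL n ≤ (κ₁ / 2 + δ) * (2 * tw * size n) :=
          mul_le_mul_of_nonneg_left g4 (by positivity)
      _ < κ₁ * (2 * tw * size n) := by
          refine mul_lt_mul_of_pos_right (by linarith) (by positivity)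
      _ = κ * size n := by
          rw [hκ₁]
          field_simp
      _ ≤ _ := hn.2.2
  have e2 : m - ε / 2 ≤ (((cls W c N).filter (fun n => κ₁ / 2 + δ <
      RR (tru A N) (tru B N) n)).card : ℝ) / (cls W c N).card :=
    (frac_aux hWr hε hm1 hb0 hNr hcl hc1).trans (div_le_div_of_nonneg_right e1 hcl.le)
  -- the sequence
  have e3 : (((S N).filter (fun n => κ₁ / 2 < RR (tru A N) (tru B N) n)).card : ℝ) / (S N).card ≤
      prop (S N) {n | κ₁ / 2 * c₁ * size n ≤ Sm.repsIn A B n} := by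
    rw [prop_eq]
    refine div_le_div_of_nonneg_right (Nat.cast_le.2 (card_le_card fun n hn => ?_))
      (Nat.cast_nonneg _)
    rw [mem_filter] at hn ⊢
    refine ⟨hn.1, ?_⟩
    obtain ⟨g1, g2, g3⟩ := hev n (hE.1 N hn.1)
    have g4 := hn.2
    rw [RR_tru A B g2, lt_div_iff₀ (HL_pos g1)] at g4
    calc κ₁ / 2 * c₁ * size n = κ₁ / 2 * (c₁ * size n) := by ring
      _ ≤ κ₁ / 2 * HL n := mul_le_mul_of_nonneg_left (hHL n g1 g3) (by positivity)
      _ ≤ _ := g4.le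
  linarith

end Pool.Agent.Lib.MP_629a14_nt.Ts
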