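import Pool.Agent.Lib.MP_629a14_nt.Ts.Per
import Pool.Agent.Lib.MP_629a14_nt.Mp.Fin

/-! The extremal sets, relative to an equidistributed sequence. -/

set_option autoImplicit false

namespace Pool.Agent.Lib.MP_629a14_nt.Ts

open Finset Filter Topology Pool.Agent.Lib.MP_629a14_nt Pool.Agent.Lib.MP_629a14_nt.Rob
open Pool.Agent.Lib.MP_629a14_nt.Kp (star adm adm_of_rep)
open Pool.Agent.Lib.MP_629a14_nt.Kp.R.Mp (best best_nonneg le_best)

/-- The numbers `n = p + q` with `p` in `star W u` and `q` in `star W v`. -/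
private theorem rep_cases {W c n : ℕ} (hW : 1 ≤ W) (hn1 : n ≡ c [MOD W]) (u v : ℕ → ℝ) {M : ℝ}
    (hM1 : M < 1) (hM : ∀ r ∈ adm W c, 0 < u r → 0 < v ((c + W - r) % W) →
      min 1 (u r + v ((c + W - r) % W)) ≤ M) (hn2 : 0 < Sm.repsIn (star W u) (star W v) n) :
    (0 ≤ Int.fract (Real.sqrt 2 * n) ∧ Int.fract (Real.sqrt 2 * n) < M / 2) ∨
    (1 - M / 2 ≤ Int.fract (Real.sqrt 2 * n) ∧ Int.fract (Real.sqrt 2 * n) < 1) ∨
    (∃ q ≤ W, q ≤ n ∧ (n - q).Prime) := by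
  by_cases hr : ∃ q ≤ W, q ≤ n ∧ (n - q).Prime
  · right; right
    exact hr
  classical
  unfold Sm.repsIn at hn2
  rw [card_pos] at hn2
  obtain ⟨p, hp⟩ := hn2
  rw [mem_filter, mem_range] at hp
  obtain ⟨hp0, h1, h2, h3, h4⟩ := hp
  have hpn : p ≤ n := by omega
  have hpW : W < p := by
    by_contra h
    exact hr ⟨p, not_lt.1 h, hpn, h2⟩
  have hqW : W < n - p := by
    by_contra h
    refine hr ⟨n - p, not_lt.1 h, Nat.sub_le _ _, ?_⟩
    rw [Nat.sub_sub_self hpn]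
    exact h1
  obtain ⟨h5, h6⟩ := adm_of_rep hW hn1 hpn h1 h2 hpW hqW
  have h7 : |Real.sqrt 2 * p - round (Real.sqrt 2 * p)| < u (p % W) / 2 := h3
  have h8 : |Real.sqrt 2 * ((n - p : ℕ) : ℝ) - round (Real.sqrt 2 * ((n - p : ℕ) : ℝ))| <
    v ((n - p) % W) / 2 := h4
  have h9 : |Real.sqrt 2 * n - round (Real.sqrt 2 * n)| <
      (u (p % W) + v ((n - p) % W)) / 2 := by
    have e1 := round_le (Real.sqrt 2 * n)
      (round (Real.sqrt 2 * p) + round (Real.sqrt 2 * ((n - p : ℕ) : ℝ)))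
    have e2 : Real.sqrt 2 * (n : ℝ) = Real.sqrt 2 * p + Real.sqrt 2 * ((n - p : ℕ) : ℝ) := by
      rw [Nat.cast_sub hpn]
      ring
    push_cast at e1
    have e3 := abs_add_le (Real.sqrt 2 * p - round (Real.sqrt 2 * p))
      (Real.sqrt 2 * ((n - p : ℕ) : ℝ) - round (Real.sqrt 2 * ((n - p : ℕ) : ℝ)))
    have e4 : Real.sqrt 2 * (n : ℝ) - (round (Real.sqrt 2 * p) +
        round (Real.sqrt 2 * ((n - p : ℕ) : ℝ))) =
        (Real.sqrt 2 * p - round (Real.sqrt 2 * p)) +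
        (Real.sqrt 2 * ((n - p : ℕ) : ℝ) - round (Real.sqrt 2 * ((n - p : ℕ) : ℝ))) := by
      rw [e2]
      ring
    rw [e4] at e1
    linarith
  have hpos : 0 < u (p % W) := by
    have := abs_nonneg (Real.sqrt 2 * p - round (Real.sqrt 2 * p))
    linarith
  have hpos' : 0 < v ((n - p) % W) := by
    have := abs_nonneg
      (Real.sqrt 2 * ((n - p : ℕ) : ℝ) - round (Real.sqrt 2 * ((n - p : ℕ) : ℝ)))
    linarith
  have h10 := hM (p % W) h5 hpos (by rw [h6]; exact hpos')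
  rw [h6] at h10
  have h11 : u (p % W) + v ((n - p) % W) ≤ M := by
    rcases min_le_iff.1 h10 with h | h
    · linarith
    · exact h
  have h12 : |Real.sqrt 2 * n - round (Real.sqrt 2 * n)| < M / 2 := by linarith
  rw [abs_sub_round_eq_min, min_lt_iff] at h12
  rcases h12 with h | h
  · left
    exact ⟨Int.fract_nonneg _, h⟩
  · right; left
    exact ⟨by linarith, Int.fract_lt_one _⟩

/-- The proportion of the sums of the extremal sets. -/
theorem star_prop {W c : ℕ} (hW : 1 ≤ W) {S : ℕ → Finset ℕ} (hE : Equi W c S) (u v : ℕ → ℝ)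
    (M : ℝ) (hM0 : 0 ≤ M) (hM : ∀ r ∈ adm W c, 0 < u r → 0 < v ((c + W - r) % W) →
      min 1 (u r + v ((c + W - r) % W)) ≤ M) (ε : ℝ) (hε : 0 < ε) :
    ∀ᶠ N : ℕ in atTop, prop (S N) {n | 0 < Sm.repsIn (star W u) (star W v) n} ≤ M + ε := by
  by_cases hM1 : 1 ≤ M
  · exact Eventually.of_forall fun N => (prop_le_one _ _).trans (by linarith)
  push Not at hM1
  have h1 := (share_arc hW hE (Real.sqrt 2) irrational_sqrt_two 0 (M / 2) le_rfl (by linarith)
    (by linarith)).eventually (gt_mem_nhds (show (M / 2 - 0 : ℝ) < M / 2 + ε / 3 by linarith))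
  have h2 := (share_arc hW hE (Real.sqrt 2) irrational_sqrt_two (1 - M / 2) 1 (by linarith)
    (by linarith) le_rfl).eventually
    (gt_mem_nhds (show (1 - (1 - M / 2) : ℝ) < M / 2 + ε / 3 by linarith))
  filter_upwards [h1, h2, share_rare hW hE W (ε / 3) (by positivity)] with N g1 g2 g3
  have h3 : prop (S N) {n | 0 < Sm.repsIn (star W u) (star W v) n} ≤
      prop (S N) ({n : ℕ | 0 ≤ Int.fract (Real.sqrt 2 * n) ∧
        Int.fract (Real.sqrt 2 * n) < M / 2} ∪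
      ({n : ℕ | 1 - M / 2 ≤ Int.fract (Real.sqrt 2 * n) ∧ Int.fract (Real.sqrt 2 * n) < 1} ∪
      {n | ∃ q ≤ W, q ≤ n ∧ (n - q).Prime})) := by
    refine prop_mono _ fun n hn hn2 => ?_
    rcases rep_cases hW (mem_cls.1 (hE.1 N hn)).2 u v hM1 hM hn2 with h | h | h
    · exact Or.inl h
    · exact Or.inr (Or.inl h)
    · exact Or.inr (Or.inr h)
  have h4 := prop_union (S N) {n : ℕ | 0 ≤ Int.fract (Real.sqrt 2 * n) ∧
        Int.fract (Real.sqrt 2 * n) < M / 2}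
      ({n : ℕ | 1 - M / 2 ≤ Int.fract (Real.sqrt 2 * n) ∧ Int.fract (Real.sqrt 2 * n) < 1} ∪
      {n | ∃ q ≤ W, q ≤ n ∧ (n - q).Prime})
  have h5 := prop_union (S N) {n : ℕ | 1 - M / 2 ≤ Int.fract (Real.sqrt 2 * n) ∧
    Int.fract (Real.sqrt 2 * n) < 1} {n | ∃ q ≤ W, q ≤ n ∧ (n - q).Prime}
  linarith

/-- The lower limit of the proportion of the sums of the extremal sets. -/
theorem star_up' {W c : ℕ} (hW : 1 ≤ W) {S : ℕ → Finset ℕ} (hE : Equi W c S) (u v : ℕ → ℝ) :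
    share S {n | 0 < Sm.repsIn (star W u) (star W v) n} ≤ best W c u v :=
  share_le fun ε hε => star_prop hW hE u v (best W c u v) (best_nonneg W c u v)
    (fun _ hr h1 h2 => le_best W c u v hr h1 h2) ε hε

end Pool.Agent.Lib.MP_629a14_nt.Ts
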