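import Pool.Agent.Lib.MP_629a14_nt.Ts.Defs
import Pool.Agent.Lib.MP_629a14_nt.En.Energy

/-! Members of the family of tame equidistributed sequences: the whole class, the sequences whose
exponential means differ from those of the class by `o(1/log^2 N)`, and the equidistributed
sequences of small additive energy. -/

set_option autoImplicit false

namespace Pool.Agent.Lib.MP_629a14_nt.Ts

open Finset Filter Topology Pool.Agent.Lib.MP_629a14_nt

/-- The number of pairs of `s`-tuples of elements of `S` with equal sums. -/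
def ener (S : Finset ℕ) (s : ℕ) : ℕ :=
  ((Fintype.piFinset (fun _ : Fin s => S) ×ˢ Fintype.piFinset (fun _ : Fin s => S)).filter
    (fun xy => ∑ j, xy.1 j = ∑ j, xy.2 j)).card

theorem mem_cls {W c N n : ℕ} : n ∈ cls W c N ↔ (1 ≤ n ∧ n ≤ N) ∧ n ≡ c [MOD W] := by
  simp [cls]

/-- A block of `W` consecutive integers contains a member of the class. -/
private theorem exists_class {W : ℕ} (hW : 1 ≤ W) (c a : ℕ) :
    ∃ n, a < n ∧ n ≤ a + W ∧ n ≡ c [MOD W] := by
  have hW0 : 0 < W := hW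
  refine ⟨a + 1 + (c + (W - 1) * (a + 1)) % W, by omega, ?_, ?_⟩
  · have := Nat.mod_lt (c + (W - 1) * (a + 1)) hW0
    omega
  · have h1 : a + 1 + (c + (W - 1) * (a + 1)) % W ≡ a + 1 + (c + (W - 1) * (a + 1)) [MOD W] :=
      Nat.ModEq.add_left _ (Nat.mod_modEq _ _)
    refine h1.trans ?_
    have h2 : a + 1 + (c + (W - 1) * (a + 1)) = c + W * (a + 1) := by
      obtain ⟨V, rfl⟩ : ∃ V, W = V + 1 := ⟨W - 1, by omega⟩
      simp only [Nat.add_sub_cancel]
      ring
    rw [h2]
    unfold Nat.ModEq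
    simp

/-- The class has at least `N / W` elements (rounded down). -/
theorem div_le_card_cls {W : ℕ} (hW : 1 ≤ W) (c N : ℕ) : N / W ≤ (cls W c N).card := by
  choose f hf1 hf2 hf3 using fun i : ℕ => exists_class hW c (i * W)
  have hinj : Set.InjOn f (range (N / W) : Set ℕ) := by
    intro i _ j _ hij
    rcases lt_trichotomy i j with h | h | h
    · exfalso
      have h1 := hf2 i
      have h2 := hf1 j
      have h3 : (i + 1) * W ≤ j * W := Nat.mul_le_mul_right _ h
      have h4 : (i + 1) * W = i * W + W := by ring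
      omega
    · exact h
    · exfalso
      have h1 := hf2 j
      have h2 := hf1 i
      have h3 : (j + 1) * W ≤ i * W := Nat.mul_le_mul_right _ h
      have h4 : (j + 1) * W = j * W + W := by ring
      omega
  have hsub : (range (N / W)).image f ⊆ cls W c N := by
    intro n hn
    obtain ⟨i, hi, rfl⟩ := mem_image.1 hn
    rw [mem_range] at hi
    rw [mem_cls]
    refine ⟨⟨by have := hf1 i; omega, ?_⟩, hf3 i⟩
    have h1 := hf2 i
    have h2 : (i + 1) * W ≤ N := (Nat.le_div_iff_mul_le (by omega)).1 hi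
    have h4 : (i + 1) * W = i * W + W := by ring
    omega
  calc N / W = ((range (N / W)).image f).card := by
        rw [card_image_of_injOn hinj, card_range]
    _ ≤ _ := card_le_card hsub

theorem card_cls_ge {W : ℕ} (hW : 1 ≤ W) (c N : ℕ) : (N : ℝ) / W - 1 ≤ ((cls W c N).card : ℝ) := by
  have h1 : (N : ℝ) / W < ((N / W : ℕ) : ℝ) + 1 := by
    have := Nat.lt_floor_add_one ((N : ℝ) / W)
    rwa [Nat.floor_div_eq_div] at this
  have h2 : ((N / W : ℕ) : ℝ) ≤ ((cls W c N).card : ℝ) := by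
    exact_mod_cast div_le_card_cls hW c N
  linarith

/-- The class has at least `N / (2 W)` elements. -/
private theorem card_cls_half {W : ℕ} (hW : 1 ≤ W) (c N : ℕ) (hN : 2 * W ≤ N) :
    (N : ℝ) ≤ 2 * W * ((cls W c N).card : ℝ) := by
  have h1 := card_cls_ge hW c N
  have hW' : (1 : ℝ) ≤ W := by exact_mod_cast hW
  have hN' : 2 * (W : ℝ) ≤ N := by exact_mod_cast hN
  have h2 : (N : ℝ) / W * W = N := by field_simp
  nlinarith [mul_le_mul_of_nonneg_right h1 (by linarith : (0 : ℝ) ≤ 2 * W)]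

theorem cls_nonempty {W : ℕ} (hW : 1 ≤ W) (c N : ℕ) (hN : W ≤ N) : (cls W c N).Nonempty := by
  rw [← card_pos]
  exact lt_of_lt_of_le (Nat.div_pos hN hW) (div_le_card_cls hW c N)

/-- Parseval for the means. -/
private theorem parseval_mu (S : Finset ℕ) (N : ℕ) (hS : ∀ n ∈ S, n ≤ N) (hne : S.Nonempty) :
    ∑ h ∈ range (2 * N + 1), ‖mu S ((h : ℝ) / (2 * N + 1))‖ ^ 2 = (2 * N + 1) / S.card := by
  have hc : (0 : ℝ) < S.card := by exact_mod_cast card_pos.2 hne
  have h1 := parseval (2 * N + 1) (by omega) S (fun a ha => by have := hS a ha; omega)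
  have h2 : ∀ h ∈ range (2 * N + 1), ‖mu S ((h : ℝ) / (2 * N + 1))‖ ^ 2 =
      ‖∑ a ∈ S, ee (-((h : ℝ) / (2 * N + 1 : ℕ) * a))‖ ^ 2 / (S.card : ℝ) ^ 2 := by
    intro h _
    unfold mu
    rw [norm_div, div_pow, Complex.norm_natCast]
    congr 2
    rw [← RCLike.norm_conj, map_sum]
    congr 1
    refine sum_congr rfl fun n _ => ?_
    rw [conj_ee]
    push_cast
    rfl
  rw [sum_congr rfl h2, ← sum_div, h1]
  push_cast
  field_simp

private theorem sum_sq_cls {W : ℕ} (hW : 1 ≤ W) (c N : ℕ) (hN : 2 * W ≤ N) :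
    ∑ h ∈ range (2 * N + 1), ‖mu (cls W c N) ((h : ℝ) / (2 * N + 1))‖ ^ 2 ≤ 6 * W := by
  have hne := cls_nonempty hW c N (by omega)
  rw [parseval_mu _ N (fun n hn => (mem_cls.1 hn).1.2) hne]
  have hc : (0 : ℝ) < (cls W c N).card := by exact_mod_cast card_pos.2 hne
  rw [div_le_iff₀ hc]
  have h1 := card_cls_half hW c N hN
  have hW' : (1 : ℝ) ≤ W := by exact_mod_cast hW
  have hN' : (1 : ℝ) ≤ N := by exact_mod_cast (by omega : 1 ≤ N)
  nlinarith

/-- (m1) The whole class is equidistributed. -/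
theorem cls_equi {W : ℕ} (hW : 1 ≤ W) (c : ℕ) : Equi W c (cls W c) := by
  refine ⟨fun N => subset_rfl, fun ε hε => ?_⟩
  filter_upwards [eventually_ge_atTop W] with N hN
  refine ⟨cls_nonempty hW c N hN, fun t => ?_⟩
  rw [sub_self, norm_zero]
  exact hε.le

/-- (m2) The sequences whose exponential means differ from those of the class by
`o(1 / log ^ 2 N)` are tame. -/
theorem tm_of_log {W : ℕ} (hW : 1 ≤ W) (c : ℕ) (S : ℕ → Finset ℕ)
    (h : ∀ ε : ℝ, 0 < ε → ∀ᶠ N : ℕ in atTop, (S N).Nonempty ∧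
      ∀ t : ℝ, ‖mu (S N) t - mu (cls W c N) t‖ ≤ ε / Real.log N ^ 2) : Tm S := by
  refine ⟨1, le_rfl, 24 * W, fun η hη => ?_⟩
  filter_upwards [h (η / 2) (by linarith), eventually_ge_atTop (2 * W)] with N hN hN2
  have key : ∀ x ∈ (range (2 * N + 1)).filter (fun h : ℕ =>
      η / Real.log N ^ 2 < ‖mu (S N) ((h : ℝ) / (2 * N + 1))‖),
      ‖mu (S N) ((x : ℝ) / (2 * N + 1))‖ ^ (2 * 1) ≤
        4 * ‖mu (cls W c N) ((x : ℝ) / (2 * N + 1))‖ ^ 2 := by
    intro x hx
    have hx1 := (mem_filter.1 hx).2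
    have h1 := hN.2 ((x : ℝ) / (2 * N + 1))
    have h2 : η / 2 / Real.log N ^ 2 = (η / Real.log N ^ 2) / 2 := by ring
    rw [h2] at h1
    have h3 := norm_sub_norm_le (mu (S N) ((x : ℝ) / (2 * N + 1)))
      (mu (cls W c N) ((x : ℝ) / (2 * N + 1)))
    have h4 : ‖mu (S N) ((x : ℝ) / (2 * N + 1))‖ ≤
        2 * ‖mu (cls W c N) ((x : ℝ) / (2 * N + 1))‖ := by linarith
    have h5 := pow_le_pow_left₀ (norm_nonneg _) h4 2
    rw [mul_pow] at h5
    norm_num at h5 ⊢
    exact h5
  refine (sum_le_sum key).trans ?_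
  refine (sum_le_sum_of_subset_of_nonneg (filter_subset _ _) fun _ _ _ => by positivity).trans ?_
  rw [← mul_sum]
  have := sum_sq_cls hW c N hN2
  linarith

theorem equi_of_log {W : ℕ} (c : ℕ) (S : ℕ → Finset ℕ) (hS : ∀ N, S N ⊆ cls W c N)
    (h : ∀ ε : ℝ, 0 < ε → ∀ᶠ N : ℕ in atTop, (S N).Nonempty ∧
      ∀ t : ℝ, ‖mu (S N) t - mu (cls W c N) t‖ ≤ ε / Real.log N ^ 2) : Equi W c S := by
  refine ⟨hS, fun ε hε => ?_⟩
  filter_upwards [h ε hε, eventually_ge_atTop 3] with N hN hN3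
  refine ⟨hN.1, fun t => (hN.2 t).trans ?_⟩
  refine div_le_self hε.le ?_
  have h1 : (1 : ℝ) ≤ Real.log N := by
    rw [Real.le_log_iff_exp_le (by exact_mod_cast (by omega : 0 < N))]
    have h2 := Real.exp_one_lt_d9
    have h3 : (3 : ℝ) ≤ N := by exact_mod_cast hN3
    linarith
  nlinarith

/-- (m1) The whole class is tame. -/
theorem cls_tm {W : ℕ} (hW : 1 ≤ W) (c : ℕ) : Tm (cls W c) := by
  refine tm_of_log hW c _ fun ε hε => ?_
  filter_upwards [eventually_ge_atTop W] with N hN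
  refine ⟨cls_nonempty hW c N hN, fun t => ?_⟩
  rw [sub_self, norm_zero]
  positivity

/-- The moment of order `2 s` of the means. -/
theorem moment_le (S : Finset ℕ) (N s : ℕ) (hs : 1 ≤ s) (hS : ∀ n ∈ S, n ≤ N)
    (hne : S.Nonempty) :
    ∑ h ∈ range (2 * N + 1), ‖mu S ((h : ℝ) / (2 * N + 1))‖ ^ (2 * s) ≤
      s * (2 * (N : ℝ) + 1) * ener S s / (S.card : ℝ) ^ (2 * s) := by
  classical
  have hc : (0 : ℝ) < S.card := by exact_mod_cast card_pos.2 hne
  let a : Fin S.card → ℕ := fun i => ((S.equivFin.symm i : S) : ℕ)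
  have hmem : ∀ i, a i ∈ S := fun i => (S.equivFin.symm i).2
  have hsum : ∀ t : ℝ, ∑ i, ee (a i * t) = ∑ n ∈ S, ee (n * t) := by
    intro t
    rw [← sum_coe_sort S (fun n => ee (n * t))]
    exact Equiv.sum_comp S.equivFin.symm (fun x : S => ee (((x : ℕ) : ℝ) * t))
  have hE : En.energy a s ≤ ener S s := by
    unfold En.energy ener
    refine card_le_card_of_injOn (fun xy => (fun j => a (xy.1 j), fun j => a (xy.2 j))) ?_ ?_
    · intro xy hxy
      have h1 := (mem_filter.1 hxy).2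
      refine mem_coe.2 (mem_filter.2 ⟨mem_product.2 ⟨?_, ?_⟩, h1⟩)
      · exact Fintype.mem_piFinset.2 fun j => hmem _
      · exact Fintype.mem_piFinset.2 fun j => hmem _
    · intro x _ y _ hxy
      have hinj : Function.Injective a := by
        intro i j hij
        exact S.equivFin.symm.injective (Subtype.ext hij)
      have h1 := congrArg Prod.fst hxy
      have h2 := congrArg Prod.snd hxy
      refine Prod.ext (funext fun j => hinj (congrFun h1 j)) (funext fun j => hinj (congrFun h2 j))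
  have h1 := En.moment_energy a s N hs (fun i => hS _ (hmem i)) (fun _ => 1) (fun _ => by simp)
  have h2 : ∀ h ∈ range (2 * N + 1), ‖mu S ((h : ℝ) / (2 * N + 1))‖ ^ (2 * s) =
      ‖∑ i, ((1 : ℝ) : ℂ) * ee (a i * Rob.fr N h)‖ ^ (2 * s) / (S.card : ℝ) ^ (2 * s) := by
    intro h _
    unfold mu
    rw [norm_div, div_pow, Complex.norm_natCast]
    congr 2
    simp only [Complex.ofReal_one, one_mul]
    rw [hsum, ← RCLike.norm_conj, map_sum]
    congr 1
    refine sum_congr rfl fun n _ => ?_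
    rw [conj_ee]
    congr 1
    unfold Rob.fr
    push_cast
    ring
  rw [sum_congr rfl h2, ← sum_div]
  refine div_le_div_of_nonneg_right (h1.trans ?_) (by positivity)
  refine mul_le_mul_of_nonneg_left ?_ (by positivity)
  exact_mod_cast hE

/-- (m3) Sequences of small additive energy are tame. -/
theorem tm_of_energy (S : ℕ → Finset ℕ) (hS : ∀ N, ∀ n ∈ S N, n ≤ N) (s : ℕ) (hs : 1 ≤ s) (K : ℝ)
    (h : ∀ᶠ N : ℕ in atTop, (S N).Nonempty ∧
      (N : ℝ) * ener (S N) s ≤ K * ((S N).card : ℝ) ^ (2 * s)) : Tm S := by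
  refine ⟨s, hs, 3 * s * K, fun η _ => ?_⟩
  filter_upwards [h, eventually_ge_atTop 1] with N hN hN1
  refine (sum_le_sum_of_subset_of_nonneg (filter_subset _ _) fun _ _ _ => by positivity).trans ?_
  refine (moment_le (S N) N s hs (hS N) hN.1).trans ?_
  have hc : (0 : ℝ) < (S N).card := by exact_mod_cast card_pos.2 hN.1
  rw [div_le_iff₀ (by positivity)]
  have hN' : (1 : ℝ) ≤ N := by exact_mod_cast hN1
  have hE : (0 : ℝ) ≤ ener (S N) s := by positivity
  have hs' : (0 : ℝ) ≤ s := by positivity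
  calc s * (2 * (N : ℝ) + 1) * (ener (S N) s : ℝ) ≤ s * (3 * N) * (ener (S N) s : ℝ) := by
        gcongr
        linarith
    _ = 3 * s * ((N : ℝ) * ener (S N) s) := by ring
    _ ≤ 3 * s * (K * ((S N).card : ℝ) ^ (2 * s)) :=
        mul_le_mul_of_nonneg_left hN.2 (by positivity)
    _ = _ := by ring

end Pool.Agent.Lib.MP_629a14_nt.Ts
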