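import Pool.Agent.Lib.MP_629a14_nt.Ts.ColUp
import Pool.Agent.Lib.MP_629a14_nt.Kp.PfClass
import Pool.Agent.Lib.MP_629a14_nt.En.WLog

/-! The sequences equidistributed in a residue class: arcs, and the numbers `q + p` with `q` bounded
and `p` prime. -/

set_option autoImplicit false

namespace Pool.Agent.Lib.MP_629a14_nt.Ts

open Finset Filter Topology Pool.Agent.Lib.MP_629a14_nt Pool.Agent.Lib.MP_629a14_nt.Rob
open Pool.Agent.Lib.MP_629a14_nt.Kp (wavg arc class_sum_le)

/-- The numbers `β n` for `n` in an equidistributed sequence of sets are equidistributed modulo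
one. -/
theorem share_arc {W c : ℕ} (hW : 1 ≤ W) {S : ℕ → Finset ℕ} (hE : Equi W c S) (β : ℝ)
    (hβ : Irrational β) (a b : ℝ) (ha : 0 ≤ a) (hab : a ≤ b) (hb : b ≤ 1) :
    Tendsto (fun N : ℕ => prop (S N) {n : ℕ | a ≤ Int.fract (β * n) ∧ Int.fract (β * n) < b}) atTop
      (𝓝 (b - a)) := by
  have hWr : (0 : ℝ) < W := by exact_mod_cast hW
  have h0 : ∀ᶠ N : ℕ in atTop, (S N).Nonempty := by
    filter_upwards [hE.2 1 one_pos] with N hN
    exact hN.1
  have hweyl : ∀ n : ℤ, n ≠ 0 → Tendsto (fun N => wavg (S N) (fun p => β * p) (fourier n)) atTop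
      (𝓝 0) := by
    intro n hn
    obtain ⟨C, hC0, hC⟩ := class_sum_le hW c β hβ n hn
    rw [Metric.tendsto_atTop']
    intro ε hε
    obtain ⟨N₀, h⟩ := eventually_atTop.1 (hE.2 (ε / 2) (by positivity))
    obtain ⟨N₁, hN₁⟩ := exists_nat_gt ((2 * C / ε + 1) * W)
    refine ⟨max N₀ N₁, fun N hN => ?_⟩
    have hNa : N₀ ≤ N := (le_max_left _ _).trans hN.le
    have hNb : N₁ < N := lt_of_le_of_lt (le_max_right _ _) hN
    have h1 := (h N hNa).2 (n * β)
    have h2 : wavg (S N) (fun p => β * p) (fourier n) = mu (S N) (n * β) := by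
      unfold wavg mu
      congr 1
      refine Finset.sum_congr rfl fun p _ => ?_
      rw [fourier_coe_apply]
      unfold ee
      congr 1
      push_cast
      ring
    have h3 : ‖mu (cls W c N) (n * β)‖ < ε / 2 := by
      have h5 := card_cls_ge hW c N
      have h6 : 2 * C / ε < (N : ℝ) / W - 1 := by
        rw [lt_sub_iff_add_lt, lt_div_iff₀ hWr]
        have : (N₁ : ℝ) ≤ N := by exact_mod_cast hNb.le
        linarith
      have h7 : 2 * C / ε < (cls W c N).card := by linarith
      have h8 : 0 ≤ 2 * C / ε := by positivity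
      have h9 : (0 : ℝ) < (cls W c N).card := by linarith
      unfold mu
      rw [norm_div, Complex.norm_natCast, div_lt_iff₀ h9]
      have h10 : ‖∑ m ∈ cls W c N, ee (n * β * m)‖ ≤ C := by
        refine le_trans (le_of_eq ?_) (hC N)
        congr 1
        refine sum_congr rfl fun m _ => ?_
        rw [mul_comm]
      rw [div_lt_iff₀ hε] at h7
      linarith
    rw [dist_zero_right, h2]
    have h4 := norm_sub_norm_le (mu (S N) (n * β)) (mu (cls W c N) (n * β))
    linarith
  have h1 := arc S (fun p => β * p) h0 hweyl ha hab hb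
  refine h1.congr fun N => ?_
  rw [prop_eq]

private theorem pf_primorial (P : ℕ) : (primorial P).primeFactors = (Icc 1 P).filter Nat.Prime := by
  ext p
  rw [Nat.mem_primeFactors, mem_filter, mem_Icc]
  constructor
  · rintro ⟨hp, hd, _⟩
    have := (prime_dvd_primorial_iff' hp).1 hd
    exact ⟨⟨hp.one_le, this⟩, hp⟩
  · rintro ⟨⟨_, hle⟩, hp⟩
    exact ⟨hp, (prime_dvd_primorial_iff' hp).2 hle, (primorial_sqf P).ne_zero⟩

private theorem ratio_primorial' (v : ℕ) : (primorial v : ℝ) / (primorial v).totient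
    = (∏ p ∈ (Icc 1 v).filter Nat.Prime, (1 - 1 / (p : ℝ)))⁻¹ := by
  rw [SigLow.ratio_eq _ (primorial_pos v), pf_primorial, ← prod_inv_distrib]
  refine prod_congr rfl fun p hp => ?_
  have hpp : p.Prime := (mem_filter.1 hp).2
  have h2 : (2 : ℝ) ≤ p := by exact_mod_cast hpp.two_le
  have h1 : (p : ℝ) ≠ 0 := by linarith
  have h3 : (p : ℝ) - 1 ≠ 0 := by linarith
  rw [one_sub_div h1, inv_div]

/-- The density of the integers without small prime factors is small. -/
theorem exists_primorial (δ : ℝ) (hδ : 0 < δ) :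
    ∃ z : ℕ, ((primorial z).totient : ℝ) ≤ δ * primorial z := by
  have h1 : Tendsto (fun x : ℕ => (Real.log x * ∏ p ∈ (Icc 1 x).filter Nat.Prime,
      (1 - 1 / (p : ℝ))) * (Real.log x)⁻¹) atTop
      (𝓝 (Real.exp (-Real.eulerMascheroniConstant) * 0)) :=
    mert_three.mul (tendsto_inv_atTop_zero.comp
      (Real.tendsto_log_atTop.comp tendsto_natCast_atTop_atTop))
  rw [mul_zero] at h1
  obtain ⟨z, hz1, hz2⟩ := ((h1.eventually_lt_const hδ).and (eventually_ge_atTop 2)).exists
  refine ⟨z, ?_⟩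
  have hlog : 0 < Real.log z := Real.log_pos (by
    have : (2 : ℝ) ≤ z := by exact_mod_cast hz2
    linarith)
  have h2 : (Real.log z * ∏ p ∈ (Icc 1 z).filter Nat.Prime, (1 - 1 / (p : ℝ))) * (Real.log z)⁻¹ =
      ∏ p ∈ (Icc 1 z).filter Nat.Prime, (1 - 1 / (p : ℝ)) := by
    field_simp
  rw [h2] at hz1
  have hp : (0 : ℝ) < primorial z := by exact_mod_cast primorial_pos z
  have ht : (0 : ℝ) < (primorial z).totient := by
    exact_mod_cast Nat.totient_pos.2 (primorial_pos z)
  have h3 := ratio_primorial' z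
  have h4 : ∏ p ∈ (Icc 1 z).filter Nat.Prime, (1 - 1 / (p : ℝ)) =
      ((primorial z).totient : ℝ) / primorial z := by
    rw [← inv_inj, ← h3, inv_div]
  rw [h4, div_lt_iff₀ hp] at hz1
  exact hz1.le

/-- The numbers `q + p` with `q ≤ K` and `p` prime are rare in every equidistributed sequence. -/
theorem share_rare {W c : ℕ} (hW : 1 ≤ W) {S : ℕ → Finset ℕ} (hE : Equi W c S) (K : ℕ) (ε : ℝ)
    (hε : 0 < ε) :
    ∀ᶠ N : ℕ in atTop, prop (S N) {n | ∃ q ≤ K, q ≤ n ∧ (n - q).Prime} ≤ ε := by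
  classical
  have hWr : (0 : ℝ) < W := by exact_mod_cast hW
  obtain ⟨z, hz⟩ := exists_primorial (ε / 4 / (2 * W * (K + 1))) (by positivity)
  set Q := primorial z with hQ
  have hQ0 : 0 < Q := primorial_pos z
  have hQr : (0 : ℝ) < Q := by exact_mod_cast hQ0
  have hKQ : K ≤ Q * K := Nat.le_mul_of_pos_left K hQ0
  set T : Set ℕ := {n | ∃ q ≤ K, Nat.Coprime Q (n + (Q * K - q))} with hT
  have hper : ∀ n m : ℕ, n ≡ m [MOD Q] → n ∈ T → m ∈ T := by
    rintro n m hnm ⟨q, hq, hc⟩
    refine ⟨q, hq, ?_⟩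
    have h1 : n + (Q * K - q) ≡ m + (Q * K - q) [MOD Q] := Nat.ModEq.add_right _ hnm
    unfold Nat.Coprime at hc ⊢
    rw [← hc, Nat.gcd_comm Q, Nat.gcd_comm Q]
    exact h1.symm.gcd_eq
  have hsub : {n : ℕ | ∃ q ≤ K, q ≤ n ∧ (n - q).Prime} ⊆ T ∪ {n | n ∈ range (z + K + 1)} := by
    rintro n ⟨q, hq, hqn, hp⟩
    by_cases hn : n < z + K + 1
    · right
      exact mem_range.2 hn
    · left
      refine ⟨q, hq, ?_⟩
      have h1 : n + (Q * K - q) = (n - q) + Q * K := by omega
      rw [h1, Nat.coprime_add_mul_left_right, Nat.coprime_comm,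
        Nat.Prime.coprime_iff_not_dvd hp]
      intro hd
      have := (prime_dvd_primorial_iff' hp).1 hd
      omega
  obtain ⟨N₁, hN₁⟩ := exists_nat_gt (4 * (2 * W * (K + 1)) * Q / ε)
  filter_upwards [per_diff hE Q hQ0 T hper (ε / 4) (by positivity),
    fin_small (by omega) hE (range (z + K + 1)) (ε / 4) (by positivity),
    eventually_ge_atTop N₁, eventually_ge_atTop (2 * W)] with N g1 g2 g3 g4
  have hN0 : (0 : ℝ) < N := by
    have : 0 < N := by omega
    exact_mod_cast this
  have h1 : prop (S N) {n | ∃ q ≤ K, q ≤ n ∧ (n - q).Prime} ≤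
      prop (S N) T + prop (S N) {n | n ∈ range (z + K + 1)} :=
    (prop_mono _ fun n _ hn => hsub hn).trans (prop_union _ _ _)
  have h2 := (abs_le.1 g1).2
  have h3 : prop (cls W c N) T ≤ ε / 2 := by
    have hcard : (N : ℝ) ≤ 2 * W * (cls W c N).card := by
      have h1 := card_cls_ge hW c N
      have hN' : 2 * (W : ℝ) ≤ N := by exact_mod_cast g4
      have h2 : (N : ℝ) / W * W = N := by field_simp
      nlinarith [mul_le_mul_of_nonneg_right h1 (by linarith : (0 : ℝ) ≤ 2 * W)]
    have hc0 : (0 : ℝ) < (cls W c N).card := by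
      by_contra h
      push Not at h
      nlinarith
    set F : Finset ℕ := (range (K + 1)).biUnion
      (fun q => (Ico 1 (1 + N)).filter (fun n => Nat.Coprime Q (n + (Q * K - q)))) with hF
    have h4 : prop (cls W c N) T ≤ (F.card : ℝ) / (cls W c N).card := by
      refine prop_le_card _ _ _ fun n hn hnT => ?_
      obtain ⟨q, hq, hc⟩ := hnT
      have hn1 := (mem_cls.1 hn).1
      rw [hF, mem_biUnion]
      refine ⟨q, mem_range.2 (by omega), mem_filter.2 ⟨mem_Ico.2 ⟨hn1.1, by omega⟩, hc⟩⟩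
    have h5 : F.card ≤ (K + 1) * (Q.totient * (N / Q + 1)) := by
      refine card_biUnion_le.trans ?_
      have h6 : ∀ q ∈ range (K + 1),
          ((Ico 1 (1 + N)).filter (fun n => Nat.Coprime Q (n + (Q * K - q)))).card ≤
            Q.totient * (N / Q + 1) := by
        intro q _
        refine le_trans ?_ (Nat.Ico_filter_coprime_le (1 + (Q * K - q)) N hQ0.ne')
        refine card_le_card_of_injOn (fun n => n + (Q * K - q)) ?_ ?_
        · intro n hn
          rw [mem_coe, mem_filter, mem_Ico] at hn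
          simp only [mem_coe, mem_filter, mem_Ico]
          exact ⟨by omega, hn.2⟩
        · intro n _ m _ hnm
          simp only at hnm
          omega
      refine (sum_le_sum h6).trans ?_
      rw [sum_const, card_range, smul_eq_mul]
    have h6 : (F.card : ℝ) ≤ (K + 1) * (Q.totient * ((N : ℝ) / Q + 1)) := by
      have h7 : (F.card : ℝ) ≤ (K + 1) * (Q.totient * (((N / Q : ℕ) : ℝ) + 1)) := by
        exact_mod_cast h5
      refine h7.trans ?_
      have h8 : ((N / Q : ℕ) : ℝ) ≤ (N : ℝ) / Q := Nat.cast_div_le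
      gcongr
    refine h4.trans ?_
    rw [div_le_iff₀ hc0]
    have h7 : (Q.totient : ℝ) * ((N : ℝ) / Q) ≤ ε / 4 / (2 * W * (K + 1)) * N := by
      have : (Q.totient : ℝ) * ((N : ℝ) / Q) = (Q.totient : ℝ) / Q * N := by ring
      rw [this]
      refine mul_le_mul_of_nonneg_right ?_ hN0.le
      rw [div_le_iff₀ hQr]
      exact hz
    have h8 : (Q.totient : ℝ) ≤ ε / 4 / (2 * W * (K + 1)) * N := by
      have h9 : (Q.totient : ℝ) ≤ Q := by exact_mod_cast Nat.totient_le Q
      refine h9.trans ?_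
      have h10 : 4 * (2 * W * (K + 1)) * Q / ε < N := lt_of_lt_of_le hN₁ (by exact_mod_cast g3)
      rw [div_lt_iff₀ hε] at h10
      rw [div_div, div_mul_eq_mul_div, le_div_iff₀ (by positivity)]
      linarith
    have h9 : (F.card : ℝ) ≤ ε / 4 / W * N := by
      refine h6.trans ?_
      have h10 : (K + 1 : ℝ) * (Q.totient * ((N : ℝ) / Q + 1)) ≤
          (K + 1) * (ε / 4 / (2 * W * (K + 1)) * N + ε / 4 / (2 * W * (K + 1)) * N) := by
        refine mul_le_mul_of_nonneg_left ?_ (by positivity)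
        linarith
      refine h10.trans (le_of_eq ?_)
      field_simp
      ring
    refine h9.trans ?_
    have h10 : ε / 4 / W * N ≤ ε / 4 / W * (2 * W * (cls W c N).card) :=
      mul_le_mul_of_nonneg_left hcard (by positivity)
    refine h10.trans (le_of_eq ?_)
    field_simp
    ring
  linarith

end Pool.Agent.Lib.MP_629a14_nt.Ts
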