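import Pool.Agent.Lib.MP_629a14_nt.Ts.PolyB

/-! The Fourier coefficients and the size of the set `res`. -/

set_option autoImplicit false

namespace Pool.Agent.Lib.MP_629a14_nt.Ts

open Finset Pool.Agent.Lib.MP_629a14_nt Pool.Agent.Lib.MP_629a14_nt.Th

/-- Few primes above `P` divide a given number. -/
theorem few_primes {P : ℕ} (hP : 2 ≤ P) (S : Finset ℕ) (hS : ∀ p ∈ S, p.Prime ∧ P < p) (n : ℕ)
    (hn : n ≠ 0) (hd : ∀ p ∈ S, p ∣ n) : (S.card : ℝ) * Real.log P ≤ Real.log n := by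
  have h1 : ∏ p ∈ S, p ∣ n :=
    Finset.prod_primes_dvd n (fun p hp => (hS p hp).1.prime) hd
  have h2 : P ^ S.card ≤ ∏ p ∈ S, p := by
    rw [← Finset.prod_const]
    exact Finset.prod_le_prod (fun _ _ => Nat.zero_le _) fun p hp => (hS p hp).2.le
  have h3 : P ^ S.card ≤ n := h2.trans (Nat.le_of_dvd (Nat.pos_of_ne_zero hn) h1)
  have h4 : ((P : ℝ)) ^ S.card ≤ n := by exact_mod_cast h3
  have hP0 : (0 : ℝ) < P := by exact_mod_cast (by omega : 0 < P)
  rw [← Real.log_pow]
  exact Real.log_le_log (pow_pos hP0 _) h4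

/-- The Fourier coefficients. -/
theorem bias {M P k : ℕ} (hP : 2 ≤ P) (hM : 4 * P * P < M) (hk : 1 ≤ k) (hkM : k < M) :
    ‖∑ j ∈ res M P, ee ((k : ℝ) * j / M)‖ ≤
      2 * Real.log ((2 * P + 1) * M) / Real.log P * (3 * P) * (1 + Real.log (2 * P + 1)) := by
  classical
  obtain ⟨q, hq, hsum, -⟩ := sum_res hM (fun j => ee ((k : ℝ) * j / M))
  rw [hsum]
  have hP0 : (0 : ℝ) < P := by exact_mod_cast (by omega : 0 < P)
  have hlogP : 0 < Real.log P := Real.log_pos (by exact_mod_cast (by omega : 1 < P))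
  have hMpos : 0 < M := by omega
  have hM0 : (0 : ℝ) < M := by exact_mod_cast hMpos
  have hex : ∀ p : ℕ, ∃ h : ℕ, p ∈ prs M P → h ≤ 2 * P ∧
      ‖∑ s ∈ Icc 1 P, ee ((k : ℝ) * q p s / M)‖ * (h + 1) ≤ 3 * P ∧
      (p : ℤ) ∣ ((k : ℤ) + h * M) * ((k : ℤ) - (h + 1) * M) := by
    intro p
    by_cases hp : p ∈ prs M P
    · obtain ⟨h, hh⟩ := one_prime hk hkM hp (q p) (hq p hp)
      exact ⟨h, fun _ => hh⟩
    · exact ⟨0, fun h => absurd h hp⟩
  choose h hh using hex
  obtain ⟨B, hB⟩ : ∃ B : ℝ, B = 2 * Real.log ((2 * P + 1) * M) / Real.log P := ⟨_, rfl⟩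
  -- the fibres
  have hfib : ∀ y ∈ range (2 * P + 1), (((prs M P).filter (fun p => h p = y)).card : ℝ) ≤ B := by
    intro y hy
    rw [Finset.mem_range] at hy
    obtain ⟨n, hn⟩ : ∃ n : ℤ, n = ((k : ℤ) + y * M) * ((k : ℤ) - (y + 1) * M) := ⟨_, rfl⟩
    have hkM' : (k : ℤ) < M := by exact_mod_cast hkM
    have hk' : (1 : ℤ) ≤ k := by exact_mod_cast hk
    have hy0 : (0 : ℤ) ≤ y := by positivity
    have hyP : (y : ℤ) ≤ 2 * P := by omega
    have hM' : (0 : ℤ) < M := by exact_mod_cast hMpos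
    have hn1 : 0 < (k : ℤ) + y * M := by positivity
    have hn2 : (k : ℤ) - (y + 1) * M < 0 := by nlinarith
    have hn0 : n ≠ 0 := by
      rw [hn]
      exact mul_ne_zero hn1.ne' hn2.ne
    have h1 := few_primes hP ((prs M P).filter (fun p => h p = y)) (fun p hp => by
      rw [Finset.mem_filter, mem_prs] at hp
      exact ⟨hp.1.2.2.1, hp.1.1⟩) n.natAbs (Int.natAbs_ne_zero.2 hn0) (fun p hp => by
      rw [Finset.mem_filter] at hp
      have h2 := (hh p hp.1).2.2
      rw [hp.2, ← hn] at h2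
      exact Int.natCast_dvd.1 h2)
    have h2 : ((n.natAbs : ℕ) : ℝ) ≤ ((2 * P + 1) * M) ^ 2 := by
      have h3 : |n| ≤ ((2 * P + 1) * M) ^ 2 := by
        rw [hn, abs_mul, abs_of_pos hn1, abs_of_neg hn2, sq]
        refine mul_le_mul ?_ ?_ (by linarith) (by positivity)
        · nlinarith
        · nlinarith
      have h4 : ((n.natAbs : ℕ) : ℝ) = ((|n| : ℤ) : ℝ) := Nat.cast_natAbs n
      rw [h4]
      exact_mod_cast h3
    have h3 : Real.log ((n.natAbs : ℕ) : ℝ) ≤ 2 * Real.log ((2 * P + 1) * M) := by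
      have h4 : (0 : ℝ) < ((n.natAbs : ℕ) : ℝ) := by
        exact_mod_cast Int.natAbs_pos.2 hn0
      have h5 := Real.log_le_log h4 h2
      rwa [Real.log_pow] at h5
    rw [hB, le_div_iff₀ hlogP]
    exact h1.trans h3
  have hB0 : 0 ≤ B := by
    rw [hB]
    have : (1 : ℝ) ≤ (2 * P + 1) * M := by
      have : (1 : ℝ) ≤ M := by exact_mod_cast hMpos
      nlinarith
    have := Real.log_nonneg this
    positivity
  calc ‖∑ p ∈ prs M P, ∑ s ∈ Icc 1 P, ee ((k : ℝ) * q p s / M)‖
      ≤ ∑ p ∈ prs M P, ‖∑ s ∈ Icc 1 P, ee ((k : ℝ) * q p s / M)‖ := norm_sum_le _ _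
    _ ≤ ∑ p ∈ prs M P, 3 * (P : ℝ) / ((h p : ℝ) + 1) := by
        refine Finset.sum_le_sum fun p hp => ?_
        rw [le_div_iff₀ (by positivity)]
        exact (hh p hp).2.1
    _ = ∑ y ∈ range (2 * P + 1), ∑ p ∈ (prs M P).filter (fun p => h p = y),
          3 * (P : ℝ) / ((h p : ℝ) + 1) := by
        rw [Finset.sum_fiberwise_of_maps_to]
        intro p hp
        rw [Finset.mem_range]
        have := (hh p hp).1
        omega
    _ ≤ ∑ y ∈ range (2 * P + 1), B * (3 * P) * (1 / ((y : ℝ) + 1)) := by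
        refine Finset.sum_le_sum fun y hy => ?_
        have h1 : ∑ p ∈ (prs M P).filter (fun p => h p = y), 3 * (P : ℝ) / ((h p : ℝ) + 1) =
            ((prs M P).filter (fun p => h p = y)).card * (3 * (P : ℝ) / ((y : ℝ) + 1)) := by
          rw [← nsmul_eq_mul, ← Finset.sum_const]
          refine Finset.sum_congr rfl fun p hp => ?_
          rw [(Finset.mem_filter.1 hp).2]
        rw [h1]
        calc ((prs M P).filter (fun p => h p = y)).card * (3 * (P : ℝ) / ((y : ℝ) + 1))
            ≤ B * (3 * (P : ℝ) / ((y : ℝ) + 1)) :=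
              mul_le_mul_of_nonneg_right (hfib y hy) (by positivity)
          _ = B * (3 * P) * (1 / ((y : ℝ) + 1)) := by ring
    _ = B * (3 * P) * ∑ y ∈ range (2 * P + 1), 1 / ((y : ℝ) + 1) := by rw [Finset.mul_sum]
    _ ≤ B * (3 * P) * (1 + Real.log (2 * P + 1)) := by
        refine mul_le_mul_of_nonneg_left ?_ (by positivity)
        have h1 := harmonic_le_one_add_log (2 * P + 1)
        have e : ((harmonic (2 * P + 1) : ℚ) : ℝ) = ∑ i ∈ range (2 * P + 1), (1 : ℝ) / ((i : ℝ) + 1) := by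
          unfold harmonic
          push_cast
          refine Finset.sum_congr rfl fun i _ => ?_
          rw [one_div]
        rw [← e]
        push_cast at h1 ⊢
        exact h1
    _ = _ := by rw [hB]

/-- Many primes. -/
theorem prs_card : ∃ P0 : ℕ, ∀ P : ℕ, P0 ≤ P → ∀ M : ℕ, 1 ≤ M → Real.log M ≤ P / 4 →
    (P : ℝ) ≤ (prs M P).card * Real.log (4 * P) := by
  -- the error term of the lower bound of Chebyshev
  have h1 : ∀ᶠ x : ℝ in Filter.atTop, Real.log (x + 1) + 2 * √x * Real.log x ≤ x / 40 := by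
    have e1 : (fun x : ℝ => Real.log (x + 1)) =o[Filter.atTop] (fun x : ℝ => x) := by
      have := (Real.isLittleO_log_id_atTop).comp_tendsto
        (Filter.tendsto_atTop_add_const_right Filter.atTop (1 : ℝ) Filter.tendsto_id)
      refine this.trans_isBigO ?_
      refine Asymptotics.IsBigO.of_bound 2 ?_
      filter_upwards [Filter.eventually_ge_atTop (1 : ℝ)] with x hx
      simp only [Function.comp, id]
      rw [Real.norm_of_nonneg (by linarith), Real.norm_of_nonneg (by linarith)]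
      linarith
    have e2 : (fun x : ℝ => √x * Real.log x) =o[Filter.atTop] (fun x : ℝ => x) := by
      have h2 : (fun x : ℝ => Real.log x) =o[Filter.atTop] (fun x : ℝ => √x) := by
        have := isLittleO_log_rpow_atTop (r := 1 / 2) (by norm_num)
        simpa only [Real.sqrt_eq_rpow] using this
      have h3 := (Asymptotics.isBigO_refl (fun x : ℝ => √x) Filter.atTop).mul_isLittleO h2
      refine h3.congr' (Filter.EventuallyEq.refl _ _) ?_
      filter_upwards [Filter.eventually_ge_atTop (0 : ℝ)] with x hx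
      exact Real.mul_self_sqrt hx
    have b1 := e1.bound (by norm_num : (0 : ℝ) < 1 / 100)
    have b2 := e2.bound (by norm_num : (0 : ℝ) < 1 / 200)
    filter_upwards [b1, b2, Filter.eventually_ge_atTop (1 : ℝ)] with x h3 h4 h5
    rw [Real.norm_of_nonneg (by linarith : 0 ≤ x)] at h3 h4
    have h6 := (le_abs_self _).trans (Real.norm_eq_abs _ ▸ h3)
    have h7 := (le_abs_self _).trans (Real.norm_eq_abs _ ▸ h4)
    linarith
  obtain ⟨x0, hx0⟩ := Filter.eventually_atTop.1 h1
  refine ⟨⌈|x0|⌉₊ + 1, fun P hP M hM hlog => ?_⟩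
  have hPx : x0 ≤ ((4 * P : ℕ) : ℝ) := by
    have h2 : |x0| ≤ ⌈|x0|⌉₊ := Nat.le_ceil _
    have h3 : ((⌈|x0|⌉₊ : ℕ) : ℝ) ≤ P := by exact_mod_cast (by omega : ⌈|x0|⌉₊ ≤ P)
    have h4 : (0 : ℝ) ≤ P := Nat.cast_nonneg P
    push_cast
    linarith [le_abs_self x0]
  have hP1 : 1 ≤ P := by omega
  have hP0 : (1 : ℝ) ≤ P := by exact_mod_cast hP1
  have hthe := Chebyshev.theta_ge (4 * P)
  have herr := hx0 _ hPx
  have hth2 := Chebyshev.theta_le_log4_mul_x (x := (P : ℝ)) (by linarith)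
  have hlog4 : Real.log 4 = 2 * Real.log 2 := by
    rw [show (4 : ℝ) = 2 ^ 2 by norm_num, Real.log_pow]
    norm_num
  have hlog2 := Real.log_two_gt_d9
  -- the difference of the theta functions
  have hdiff : Chebyshev.theta ((4 * P : ℕ) : ℝ) - Chebyshev.theta (P : ℝ) =
      ∑ p ∈ (Ioc P (4 * P)).filter Nat.Prime, Real.log p := by
    rw [Chebyshev.theta_eq_sum_primesLE_log, Chebyshev.theta_eq_sum_primesLE_log]
    have hsub : Nat.primesLE P ⊆ Nat.primesLE (4 * P) := by
      intro p hp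
      rw [Nat.mem_primesLE] at hp ⊢
      exact ⟨by omega, hp.2⟩
    rw [← Finset.sum_sdiff hsub, add_sub_cancel_right]
    refine Finset.sum_congr ?_ fun _ _ => rfl
    ext p
    rw [Finset.mem_sdiff, Nat.mem_primesLE, Nat.mem_primesLE, Finset.mem_filter, Finset.mem_Ioc]
    constructor
    · rintro ⟨⟨h2, h3⟩, h4⟩
      refine ⟨⟨?_, h2⟩, h3⟩
      by_contra h5
      exact h4 ⟨by omega, h3⟩
    · rintro ⟨⟨h2, h3⟩, h4⟩
      exact ⟨⟨h3, h4⟩, fun h5 => by omega⟩
  have hsplit : ∑ p ∈ (Ioc P (4 * P)).filter Nat.Prime, Real.log p ≤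
      (prs M P).card * Real.log (4 * P) + Real.log M := by
    have h2 : (Ioc P (4 * P)).filter Nat.Prime ⊆ prs M P ∪
        (M.primeFactors) := by
      intro p hp
      rw [Finset.mem_filter, Finset.mem_Ioc] at hp
      rw [Finset.mem_union, mem_prs, Nat.mem_primeFactors]
      by_cases hd : p ∣ M
      · exact Or.inr ⟨hp.2, hd, by omega⟩
      · exact Or.inl ⟨hp.1.1, hp.1.2, hp.2, hd⟩
    have hnn : ∀ p : ℕ, 0 ≤ Real.log p := fun p => Real.log_natCast_nonneg p
    calc ∑ p ∈ (Ioc P (4 * P)).filter Nat.Prime, Real.log p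
        ≤ ∑ p ∈ prs M P ∪ M.primeFactors, Real.log p :=
          Finset.sum_le_sum_of_subset_of_nonneg h2 fun p _ _ => hnn p
      _ ≤ ∑ p ∈ prs M P, Real.log p + ∑ p ∈ M.primeFactors, Real.log p := by
          rw [← Finset.sum_union_inter]
          exact le_add_of_nonneg_right (Finset.sum_nonneg fun p _ => hnn p)
      _ ≤ (prs M P).card * Real.log (4 * P) + Real.log M := by
          refine add_le_add ?_ ?_
          · rw [← nsmul_eq_mul]
            refine Finset.sum_le_card_nsmul _ _ _ fun p hp => ?_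
            have hp' := mem_prs.1 hp
            refine Real.log_le_log (by exact_mod_cast hp'.2.2.1.pos) ?_
            exact_mod_cast hp'.2.1
          · rw [← Real.log_prod (fun p hp => by
              exact_mod_cast (Nat.prime_of_mem_primeFactors hp).ne_zero)]
            have h3 : ∏ p ∈ M.primeFactors, p ≤ M :=
              Nat.le_of_dvd (by omega) (Nat.prod_primeFactors_dvd M)
            have h4 : (0 : ℕ) < ∏ p ∈ M.primeFactors, p :=
              Finset.prod_pos fun p hp => (Nat.prime_of_mem_primeFactors hp).pos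
            rw [← Nat.cast_prod]
            exact Real.log_le_log (Nat.cast_pos.2 h4) (Nat.cast_le.2 h3)
  push_cast at hthe herr hdiff
  rw [hlog4] at hth2
  nlinarith

end Pool.Agent.Lib.MP_629a14_nt.Ts
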