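import Pool.Agent.Lib.MP_629a14_nt.Ts.Defs
import Pool.Agent.Lib.MP_629a14_nt.Ts.PolyC

/-! An explicit sequence of sets of at most `(log N)^9` elements which is equidistributed with an
error `o(1 / (log N)^2)`. -/

set_option autoImplicit false

namespace Pool.Agent.Lib.MP_629a14_nt.Ts

open Finset Filter Topology Pool.Agent.Lib.MP_629a14_nt

/-- The parameter. -/
noncomputable def par (N : ℕ) : ℕ := ⌊Real.log N ^ (22 / 5 : ℝ)⌋₊

open Classical in
/-- The `n ≡ c (mod W)` in `[1, N]` such that, with `M` the number of all of them and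
`P = ⌊(log N)^(22/5)⌋`, the remainder of `p ⌊(n - 1)/W⌋` modulo `M` is one of `1, ..., P` for some
prime `p` in `(P, 4 P]` which does not divide `M`. -/
noncomputable def poly (W c N : ℕ) : Finset ℕ :=
  (cls W c N).filter (fun n => ∃ p ∈ Ioc (par N) (4 * par N), p.Prime ∧ ¬ p ∣ (cls W c N).card ∧
    1 ≤ (p * ((n - 1) / W)) % (cls W c N).card ∧ (p * ((n - 1) / W)) % (cls W c N).card ≤ par N)

theorem poly_subset (W c N : ℕ) : poly W c N ⊆ cls W c N := by
  intro n hn
  unfold poly at hn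
  simp only [Finset.mem_filter] at hn
  exact hn.1

/-- The class is a progression. -/
theorem cls_eq {W : ℕ} (hW : 1 ≤ W) (c N : ℕ) (hN : W ≤ N) : ∃ n0 : ℕ, 1 ≤ n0 ∧ n0 ≤ W ∧
    cls W c N = (range ((N - n0) / W + 1)).image (fun j => n0 + W * j) := by
  refine ⟨(c + W - 1) % W + 1, by omega, ?_, ?_⟩
  · have := Nat.mod_lt (c + W - 1) (show 0 < W by omega)
    omega
  obtain ⟨n0, hn0⟩ : ∃ n0, n0 = (c + W - 1) % W + 1 := ⟨_, rfl⟩
  rw [← hn0]
  have h1 : 1 ≤ n0 := by omega
  have h2 : n0 ≤ W := by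
    have := Nat.mod_lt (c + W - 1) (show 0 < W by omega)
    omega
  have h3 : n0 ≡ c [MOD W] := by
    rw [hn0]
    have h4 : (c + W - 1) % W ≡ c + W - 1 [MOD W] := Nat.mod_modEq _ _
    have h5 : (c + W - 1) % W + 1 ≡ c + W - 1 + 1 [MOD W] := h4.add_right 1
    have h6 : c + W - 1 + 1 = c + W := by omega
    rw [h6] at h5
    refine h5.trans ?_
    unfold Nat.ModEq
    rw [Nat.add_mod_right]
  ext n
  unfold cls
  rw [Finset.mem_filter, Finset.mem_Icc, Finset.mem_image]
  constructor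
  · rintro ⟨⟨h4, h5⟩, h6⟩
    have h7 : n0 ≤ n := by
      by_contra hlt
      have h8 : n ≡ n0 [MOD W] := h6.trans h3.symm
      have h9 : W ∣ n0 - n := (Nat.modEq_iff_dvd' (by omega)).1 h8
      have := Nat.le_of_dvd (by omega) h9
      omega
    have h8 : n0 ≡ n [MOD W] := h3.trans h6.symm
    obtain ⟨j, hj⟩ := (Nat.modEq_iff_dvd' h7).1 h8
    refine ⟨j, ?_, by omega⟩
    rw [Finset.mem_range, Nat.lt_succ_iff, Nat.le_div_iff_mul_le (by omega), mul_comm]
    omega
  · rintro ⟨j, hj, rfl⟩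
    rw [Finset.mem_range, Nat.lt_succ_iff, Nat.le_div_iff_mul_le (by omega), mul_comm] at hj
    refine ⟨⟨by omega, by omega⟩, ?_⟩
    have : n0 + W * j ≡ n0 + 0 [MOD W] := Nat.ModEq.add_left _ (by
      unfold Nat.ModEq
      simp)
    exact (this.trans (by simpa using h3))

/-- The indices. -/
theorem poly_eq {W : ℕ} (hW : 1 ≤ W) (c N : ℕ) (hN : W ≤ N) : ∃ n0 : ℕ, 1 ≤ n0 ∧ n0 ≤ W ∧
    (cls W c N).card = (N - n0) / W + 1 ∧
    (∀ f : ℕ → ℂ, ∑ n ∈ cls W c N, f n = ∑ j ∈ range (cls W c N).card, f (n0 + W * j)) ∧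
    (∀ f : ℕ → ℂ, ∑ n ∈ poly W c N, f n = ∑ j ∈ res (cls W c N).card (par N), f (n0 + W * j)) ∧
    (poly W c N).card = (res (cls W c N).card (par N)).card := by
  classical
  obtain ⟨n0, h1, h2, h3⟩ := cls_eq hW c N hN
  have hinj : Function.Injective (fun j : ℕ => n0 + W * j) := by
    intro a b hab
    simp only at hab
    have : W * a = W * b := by omega
    exact Nat.eq_of_mul_eq_mul_left (by omega) this
  have hcard : (cls W c N).card = (N - n0) / W + 1 := by
    rw [h3, Finset.card_image_of_injective _ hinj, Finset.card_range]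
  have himg : poly W c N = (res (cls W c N).card (par N)).image (fun j => n0 + W * j) := by
    have hidx : ∀ j : ℕ, (n0 + W * j - 1) / W = j := by
      intro j
      have e : n0 + W * j - 1 = (n0 - 1) + W * j := by omega
      rw [e, Nat.add_mul_div_left _ _ (by omega : 0 < W), Nat.div_eq_of_lt (by omega), zero_add]
    ext n
    unfold poly res
    simp only [Finset.mem_filter, Finset.mem_image, Finset.mem_range]
    constructor
    · rintro ⟨hn, hp⟩
      rw [h3, Finset.mem_image] at hn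
      obtain ⟨j, hj, rfl⟩ := hn
      rw [hidx] at hp
      rw [Finset.mem_range, ← hcard] at hj
      exact ⟨j, ⟨hj, hp⟩, rfl⟩
    · rintro ⟨j, ⟨hj, hp⟩, rfl⟩
      rw [hidx]
      refine ⟨?_, hp⟩
      rw [h3, Finset.mem_image]
      exact ⟨j, by rw [Finset.mem_range, ← hcard]; exact hj, rfl⟩
  refine ⟨n0, h1, h2, hcard, fun f => ?_, fun f => ?_, ?_⟩
  · conv_lhs => rw [h3]
    rw [Finset.sum_image (fun a _ b _ h => hinj h), ← hcard]
  · rw [himg, Finset.sum_image (fun a _ b _ h => hinj h)]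
  · rw [himg, Finset.card_image_of_injective _ hinj]

/-- Real parameters: `x = log N`. -/
theorem eventually_par (W : ℕ) (hW : 1 ≤ W) (K δ : ℝ) (hδ : 0 < δ) : ∀ᶠ N : ℕ in atTop,
    2 ≤ Real.log N ∧ (Real.log N) ^ (22 / 5 : ℝ) / 2 ≤ par N ∧
    (par N : ℝ) ≤ Real.log N ^ (22 / 5 : ℝ) ∧ K ≤ par N ∧ Real.log N ≤ par N / 4 ∧
    4 * (par N : ℝ) * par N + 1 ≤ (N : ℝ) / W - 1 ∧ 3 * (par N : ℝ) * par N ≤ Real.log N ^ 9 ∧
    Real.log (Real.log N) ≤ δ * Real.log N ^ (2 / 5 : ℝ) := by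
  have hlog : Tendsto (fun N : ℕ => Real.log N) atTop atTop :=
    Real.tendsto_log_atTop.comp tendsto_natCast_atTop_atTop
  have hW0 : (0 : ℝ) < W := by exact_mod_cast hW
  -- powers of the logarithm
  have hpow : ∀ a : ℝ, 0 < a → Tendsto (fun N : ℕ => Real.log N ^ a) atTop atTop := fun a ha =>
    (tendsto_rpow_atTop ha).comp hlog
  have h1 := hlog.eventually_ge_atTop 2
  have h2 := (hpow (22 / 5) (by norm_num)).eventually_ge_atTop (2 * |K| + 2)
  have h3 := (hpow (17 / 5) (by norm_num)).eventually_ge_atTop 8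
  have h4 := (hpow (1 / 5) (by norm_num)).eventually_ge_atTop 3
  have h5 : ∀ᶠ N : ℕ in atTop, Real.log N ^ (44 / 5 : ℝ) ≤ (1 / (8 * W)) * (N : ℝ) := by
    have h := isLittleO_log_rpow_rpow_atTop (44 / 5 : ℝ) (one_pos : (0 : ℝ) < 1)
    have hb := (h.comp_tendsto tendsto_natCast_atTop_atTop).bound
      (by positivity : (0 : ℝ) < 1 / (8 * W))
    filter_upwards [hb] with N hN
    simp only [Function.comp, Real.rpow_one] at hN
    rw [Real.norm_of_nonneg (Nat.cast_nonneg N)] at hN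
    exact (le_abs_self _).trans (Real.norm_eq_abs _ ▸ hN)
  have h6 : ∀ᶠ N : ℕ in atTop, Real.log (Real.log N) ≤ δ * Real.log N ^ (2 / 5 : ℝ) := by
    have h := isLittleO_log_rpow_atTop (r := 2 / 5) (by norm_num)
    have hb := (h.comp_tendsto hlog).bound hδ
    filter_upwards [hb, h1] with N hN hN1
    simp only [Function.comp] at hN
    rw [Real.norm_of_nonneg (Real.rpow_nonneg (by linarith) _)] at hN
    exact (le_abs_self _).trans (Real.norm_eq_abs _ ▸ hN)
  have h7 : ∀ᶠ N : ℕ in atTop, 4 * (W : ℝ) ≤ N := by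
    have := (tendsto_natCast_atTop_atTop (R := ℝ)).eventually_ge_atTop (4 * (W : ℝ))
    exact this
  filter_upwards [h1, h2, h3, h4, h5, h6, h7] with N a1 a2 a3 a4 a5 a6 a7
  obtain ⟨x, hx⟩ : ∃ x : ℝ, x = Real.log N := ⟨_, rfl⟩
  rw [← hx] at a1 a2 a3 a4 a5 a6 ⊢
  have hx0 : 0 < x := by linarith
  have hy0 : 0 ≤ x ^ (22 / 5 : ℝ) := Real.rpow_nonneg hx0.le _
  have hfl : (par N : ℝ) ≤ x ^ (22 / 5 : ℝ) := by
    unfold par
    rw [← hx]
    exact Nat.floor_le hy0
  have hfl2 : x ^ (22 / 5 : ℝ) - 1 ≤ par N := by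
    unfold par
    rw [← hx]
    linarith [Nat.lt_floor_add_one (x ^ (22 / 5 : ℝ))]
  have hhalf : x ^ (22 / 5 : ℝ) / 2 ≤ par N := by
    have := abs_nonneg K
    linarith
  have hprod : x ^ (22 / 5 : ℝ) = x * x ^ (17 / 5 : ℝ) := by
    rw [← Real.rpow_one_add' hx0.le (by norm_num)]
    norm_num
  have hsq : (par N : ℝ) * par N ≤ x ^ (44 / 5 : ℝ) := by
    have e : x ^ (44 / 5 : ℝ) = x ^ (22 / 5 : ℝ) * x ^ (22 / 5 : ℝ) := by
      rw [← Real.rpow_add hx0]
      norm_num
    rw [e]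
    exact mul_le_mul hfl hfl (Nat.cast_nonneg _) hy0
  refine ⟨a1, hhalf, hfl, ?_, ?_, ?_, ?_, a6⟩
  · have := le_abs_self K
    have := abs_nonneg K
    linarith
  · rw [hprod] at hhalf
    nlinarith
  · have h8 : x ^ (44 / 5 : ℝ) * (8 * W) ≤ N := by
      have := mul_le_mul_of_nonneg_right a5 (by positivity : (0 : ℝ) ≤ 8 * W)
      have e : 1 / (8 * (W : ℝ)) * N * (8 * W) = N := by field_simp
      rwa [e] at this
    have h9 : (2 : ℝ) ≤ (N : ℝ) / W / 2 := by
      rw [div_div, le_div_iff₀ (by positivity)]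
      linarith
    have h10 : 4 * (par N : ℝ) * par N ≤ (N : ℝ) / W / 2 := by
      rw [div_div, le_div_iff₀ (by positivity)]
      nlinarith
    linarith
  · have e : x ^ 9 = x ^ (44 / 5 : ℝ) * x ^ (1 / 5 : ℝ) := by
      rw [← Real.rpow_add hx0, ← Real.rpow_natCast]
      norm_num
    rw [e]
    have : 0 ≤ x ^ (44 / 5 : ℝ) := Real.rpow_nonneg hx0.le _
    nlinarith

/-- **(m5), the equidistribution.** -/
theorem poly_equi {W : ℕ} (hW : 1 ≤ W) (c : ℕ) (ε : ℝ) (hε : 0 < ε) : ∀ᶠ N : ℕ in atTop,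
    (poly W c N).Nonempty ∧ ∀ t : ℝ, ‖mu (poly W c N) t - mu (cls W c N) t‖ ≤
      ε / Real.log N ^ 2 := by
  obtain ⟨C, hC, hall⟩ := all_freq
  obtain ⟨P0, hP0⟩ := prs_card
  obtain ⟨δ, hδ⟩ : ∃ δ : ℝ, δ = ε / (1000 * C) := ⟨_, rfl⟩
  have hδ0 : 0 < δ := by rw [hδ]; positivity
  filter_upwards [eventually_par W hW (P0 + 20) δ hδ0, eventually_ge_atTop W] with N hN hNW
  obtain ⟨b1, b2, b3, b4, b5, b6, -, b8⟩ := hN
  obtain ⟨n0, h1, h2, hcard, hcls, hpoly, hpc⟩ := poly_eq hW c N hNW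
  obtain ⟨M, hM⟩ : ∃ M : ℕ, M = (cls W c N).card := ⟨_, rfl⟩
  obtain ⟨P, hP⟩ : ∃ P : ℕ, P = par N := ⟨_, rfl⟩
  obtain ⟨x, hx⟩ : ∃ x : ℝ, x = Real.log N := ⟨_, rfl⟩
  rw [← hM] at hcard hcls hpoly hpc
  rw [← hP] at b2 b3 b4 b5 b6 hpoly hpc
  rw [← hx] at b1 b2 b3 b5 b8 ⊢
  have hx0 : 0 < x := by linarith
  have hW0 : (0 : ℝ) < W := by exact_mod_cast hW
  have hP20 : (20 : ℝ) ≤ P := by
    have : (0 : ℝ) ≤ P0 := Nat.cast_nonneg _
    linarith
  have hPP0 : P0 ≤ P := by
    have : ((P0 : ℕ) : ℝ) ≤ P := by linarith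
    exact_mod_cast this
  have hP2 : 2 ≤ P := by
    have : ((2 : ℕ) : ℝ) ≤ P := by push_cast; linarith
    exact_mod_cast this
  have hP0r : (0 : ℝ) < P := by linarith
  have hMN : (N : ℝ) / W - 1 ≤ M := by
    have h3 : N - n0 < W * M := by
      rw [hcard]
      exact Nat.lt_mul_div_succ _ (by omega)
    have h4 : N < n0 + W * M := by omega
    have h5 : (N : ℝ) < n0 + W * M := by exact_mod_cast h4
    have h6 : (n0 : ℝ) ≤ W := by exact_mod_cast h2
    rw [sub_le_iff_le_add, div_le_iff₀ hW0]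
    nlinarith
  have hMle : M ≤ N := by
    rw [hM]
    unfold cls
    refine (Finset.card_filter_le _ _).trans ?_
    rw [Nat.card_Icc]
    omega
  have h4P : 4 * P * P < M := by
    have : ((4 * P * P : ℕ) : ℝ) < M := by
      push_cast
      linarith
    exact_mod_cast this
  have hMpos : 1 ≤ M := by omega
  have hM0 : (0 : ℝ) < M := by exact_mod_cast hMpos
  have hMNr : (M : ℝ) ≤ N := by exact_mod_cast hMle
  have hlogM : Real.log M ≤ x := by
    rw [hx]
    exact Real.log_le_log hM0 hMNr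
  have hlogM0 : 0 ≤ Real.log M := Real.log_natCast_nonneg M
  have hprs := hP0 P hPP0 M hMpos (by linarith)
  obtain ⟨q, hq, -, hres⟩ := sum_res h4P (fun _ => (0 : ℂ))
  have hlogP : 1 ≤ Real.log P := by
    rw [Real.le_log_iff_exp_le hP0r]
    have := Real.exp_one_lt_d9
    linarith
  -- logarithms
  have hl4P : Real.log (4 * P) ≤ 2 * Real.log P := by
    have : Real.log ((P : ℝ) ^ 2) = 2 * Real.log P := by rw [Real.log_pow]; norm_num
    rw [← this]
    exact Real.log_le_log (by positivity) (by nlinarith)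
  have hl2P : 1 + Real.log (2 * P + 1) ≤ 2 * Real.log P := by
    have h3 : Real.log ((P : ℝ) ^ 2) = 2 * Real.log P := by rw [Real.log_pow]; norm_num
    have h4 : 1 + Real.log (2 * P + 1) = Real.log (Real.exp 1 * (2 * P + 1)) := by
      rw [Real.log_mul (Real.exp_pos 1).ne' (by positivity), Real.log_exp]
    rw [← h3, h4]
    refine Real.log_le_log (by positivity) ?_
    have := Real.exp_one_lt_d9
    nlinarith
  have hlM : Real.log ((2 * P + 1) * M) ≤ 2 * x := by
    have h3 : Real.log ((N : ℝ) ^ 2) = 2 * x := by rw [Real.log_pow, hx]; norm_num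
    rw [← h3]
    refine Real.log_le_log (by positivity) ?_
    have h4 : (2 * (P : ℝ) + 1) ≤ N := by
      have h5 : 2 * P + 1 ≤ M := by nlinarith
      have h6 : ((2 * P + 1 : ℕ) : ℝ) ≤ N := by exact_mod_cast h5.trans hMle
      push_cast at h6
      exact h6
    rw [sq]
    exact mul_le_mul h4 hMNr hM0.le (Nat.cast_nonneg N)
  have hlM0 : 0 ≤ Real.log ((2 * P + 1) * M) := Real.log_nonneg (by
    have : (1 : ℝ) ≤ M := by exact_mod_cast hMpos
    nlinarith)
  have hcardpos : 0 < ((prs M P).card : ℝ) := by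
    by_contra hneg
    have h3 : ((prs M P).card : ℝ) = 0 := le_antisymm (not_lt.1 hneg) (Nat.cast_nonneg _)
    rw [h3, zero_mul] at hprs
    linarith
  have hrescard : ((res M P).card : ℝ) = (prs M P).card * P := by
    rw [hres]
    push_cast
    rfl
  have hresne : (res M P).Nonempty := by
    rw [← Finset.card_pos]
    have : (0 : ℝ) < (res M P).card := by
      rw [hrescard]
      positivity
    exact_mod_cast this
  -- the bias
  obtain ⟨η, hη⟩ : ∃ η : ℝ, η = 48 * x * Real.log P / P := ⟨_, rfl⟩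
  have hη0 : 0 ≤ η := by rw [hη]; positivity
  have hbias : ∀ k : ℕ, 1 ≤ k → k < M → ‖∑ j ∈ res M P, ee ((k : ℝ) * j / M)‖ ≤
      η * (res M P).card := by
    intro k hk hkM
    refine (bias hP2 h4P hk hkM).trans ?_
    rw [hrescard]
    have h3 : 2 * Real.log ((2 * P + 1) * M) / Real.log P ≤ 4 * x / Real.log P := by
      refine div_le_div_of_nonneg_right ?_ (by linarith)
      linarith
    have h4 : 2 * Real.log ((2 * P + 1) * M) / Real.log P * (3 * P) * (1 + Real.log (2 * P + 1)) ≤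
        4 * x / Real.log P * (3 * P) * (2 * Real.log P) := by
      refine mul_le_mul ?_ hl2P ?_ (by positivity)
      · exact mul_le_mul_of_nonneg_right h3 (by positivity)
      · have : 0 ≤ Real.log (2 * P + 1) := Real.log_nonneg (by linarith)
        linarith
    have h5 : 4 * x / Real.log P * (3 * P) * (2 * Real.log P) = 24 * x * P := by
      have hlne : Real.log P ≠ 0 := by linarith
      calc 4 * x / Real.log P * (3 * P) * (2 * Real.log P)
          = 24 * x * P * (Real.log P / Real.log P) := by ring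
        _ = 24 * x * P := by rw [div_self hlne, mul_one]
    rw [h5] at h4
    refine h4.trans ?_
    have h6 : (P : ℝ) ≤ (prs M P).card * (2 * Real.log P) :=
      hprs.trans (mul_le_mul_of_nonneg_left hl4P hcardpos.le)
    have h7 : η * ((prs M P).card * P) = 24 * x * ((prs M P).card * (2 * Real.log P)) := by
      rw [hη]
      calc 48 * x * Real.log P / P * ((prs M P).card * P)
          = 48 * x * Real.log P * (prs M P).card * (P / P) := by ring
        _ = 24 * x * ((prs M P).card * (2 * Real.log P)) := by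
            rw [div_self hP0r.ne']
            ring
    rw [h7]
    exact mul_le_mul_of_nonneg_left h6 (by positivity)
  have hsub : res M P ⊆ range M := by
    intro j hj
    unfold res at hj
    simp only [Finset.mem_filter] at hj
    exact hj.1
  refine ⟨?_, fun t => ?_⟩
  · rw [← Finset.card_pos, hpc]
    exact hresne.card_pos
  have h3 := hall M (res M P) η hMpos hsub hresne hbias hη0 (t * W)
  have h4 : mu (poly W c N) t - mu (cls W c N) t = ee (t * n0) *
      ((∑ j ∈ res M P, ee (t * W * j)) / ((res M P).card : ℂ) -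
        (∑ j ∈ range M, ee (t * W * j)) / (M : ℂ)) := by
    unfold mu
    have e : ∀ j : ℕ, ee (t * ((n0 + W * j : ℕ) : ℝ)) = ee (t * n0) * ee (t * W * j) := by
      intro j
      rw [← ee_add]
      congr 1
      push_cast
      ring
    rw [hcls, hpoly, hpc, ← hM]
    simp only [e]
    rw [← Finset.mul_sum, ← Finset.mul_sum]
    ring
  rw [h4, norm_mul, norm_ee, one_mul]
  refine h3.trans ?_
  -- numbers
  rw [le_div_iff₀ (by positivity)]
  have hlogP2 : Real.log P ≤ 22 / 5 * Real.log x := by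
    rw [← Real.log_rpow hx0]
    exact Real.log_le_log hP0r b3
  have hxx : x ^ (22 / 5 : ℝ) = x ^ 4 * x ^ (2 / 5 : ℝ) := by
    rw [← Real.rpow_natCast, ← Real.rpow_add hx0]
    norm_num
  have h5 : C * (2 + Real.log M) * η ≤ C * (2 * x) * η :=
    mul_le_mul_of_nonneg_right (mul_le_mul_of_nonneg_left (by linarith) (by linarith)) hη0
  have h6 : C * (2 * x) * η * x ^ 2 = 96 * C * x ^ 4 * Real.log P / P := by
    rw [hη]
    ring
  have h7 : 96 * C * x ^ 4 * Real.log P ≤ ε * P := by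
    have h8 : Real.log P ≤ 22 / 5 * (δ * x ^ (2 / 5 : ℝ)) := by linarith
    have h9 : 96 * C * x ^ 4 * Real.log P ≤ 96 * C * x ^ 4 * (22 / 5 * (δ * x ^ (2 / 5 : ℝ))) :=
      mul_le_mul_of_nonneg_left h8 (by positivity)
    have h10 : 96 * C * x ^ 4 * (22 / 5 * (δ * x ^ (2 / 5 : ℝ))) =
        (96 * 22 / 5 / 1000) * ε * (x ^ 4 * x ^ (2 / 5 : ℝ)) := by
      have hCne : C ≠ 0 := by linarith
      rw [hδ]
      calc 96 * C * x ^ 4 * (22 / 5 * (ε / (1000 * C) * x ^ (2 / 5 : ℝ)))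
          = (96 * 22 / 5 / 1000) * ε * (x ^ 4 * x ^ (2 / 5 : ℝ)) * (C / C) := by ring
        _ = _ := by rw [div_self hCne, mul_one]
    rw [h10, ← hxx] at h9
    have h11 : 0 ≤ x ^ (22 / 5 : ℝ) := Real.rpow_nonneg hx0.le _
    nlinarith
  calc C * (2 + Real.log M) * η * x ^ 2 ≤ C * (2 * x) * η * x ^ 2 :=
        mul_le_mul_of_nonneg_right h5 (by positivity)
    _ = 96 * C * x ^ 4 * Real.log P / P := h6
    _ ≤ ε := by
        rw [div_le_iff₀ hP0r]
        exact h7

/-- **(m5), the size.** -/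
theorem poly_card {W : ℕ} (hW : 1 ≤ W) (c : ℕ) : ∀ᶠ N : ℕ in atTop,
    ((poly W c N).card : ℝ) ≤ Real.log N ^ 9 := by
  filter_upwards [eventually_par W hW 2 1 one_pos, eventually_ge_atTop W] with N hN hNW
  obtain ⟨-, -, -, -, -, b6, b7, -⟩ := hN
  obtain ⟨n0, h1, h2, hcard, -, -, hpc⟩ := poly_eq hW c N hNW
  have hW0 : (0 : ℝ) < W := by exact_mod_cast hW
  have hMN : (N : ℝ) / W - 1 ≤ (cls W c N).card := by
    have h3 : N - n0 < W * (cls W c N).card := by
      rw [hcard]
      exact Nat.lt_mul_div_succ _ (by omega)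
    have h4 : N < n0 + W * (cls W c N).card := by omega
    have h5 : (N : ℝ) < n0 + W * (cls W c N).card := by exact_mod_cast h4
    have h6 : (n0 : ℝ) ≤ W := by exact_mod_cast h2
    rw [sub_le_iff_le_add, div_le_iff₀ hW0]
    nlinarith
  have h4P : 4 * par N * par N < (cls W c N).card := by
    have : ((4 * par N * par N : ℕ) : ℝ) < (cls W c N).card := by
      push_cast
      linarith
    exact_mod_cast this
  obtain ⟨q, hq, -, hres⟩ := sum_res h4P (fun _ => (0 : ℂ))
  rw [hpc, hres]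
  have h3 : (prs (cls W c N).card (par N)).card ≤ 3 * par N := by
    unfold prs
    refine (Finset.card_filter_le _ _).trans ?_
    rw [Nat.card_Ioc]
    omega
  have h4 : (((prs (cls W c N).card (par N)).card : ℕ) : ℝ) ≤ 3 * par N := by exact_mod_cast h3
  push_cast
  exact (mul_le_mul_of_nonneg_right h4 (Nat.cast_nonneg _)).trans b7

end Pool.Agent.Lib.MP_629a14_nt.Ts
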