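import Pool.Agent.Lib.MP_629a14_nt.Th.VMin

/-! Exponential sums over a subset of `[0, M)`: from the frequencies `k / M` to all frequencies. -/

set_option autoImplicit false

namespace Pool.Agent.Lib.MP_629a14_nt.Ts

open Finset Pool.Agent.Lib.MP_629a14_nt Pool.Agent.Lib.MP_629a14_nt.Th

theorem dn_le_int (x : ℝ) (n : ℤ) : dn x ≤ |x - n| := round_le x n

theorem dn_nonneg (x : ℝ) : 0 ≤ dn x := abs_nonneg _

theorem dn_neg_le (x : ℝ) : dn (-x) ≤ dn x := by
  have h := dn_le_int (-x) (-round x)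
  have e : |-x - ((-round x : ℤ) : ℝ)| = dn x := by
    unfold dn
    push_cast
    rw [← abs_neg]
    congr 1
    ring
  rwa [e] at h

theorem dn_add_le (x y : ℝ) (z : ℤ) : dn (x + y) ≤ dn x + |y - z| := by
  have h := dn_le_int (x + y) (round x + z)
  refine h.trans ?_
  have e : x + y - ((round x + z : ℤ) : ℝ) = (x - round x) + (y - z) := by
    push_cast
    ring
  rw [e]
  exact abs_add_le _ _

/-- small numbers are their distance to the nearest integer -/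
theorem abs_le_dn (x : ℝ) (hx : |x| ≤ 1 / 2) : |x| ≤ dn x := by
  unfold dn
  rcases eq_or_ne (round x) 0 with h | h
  · rw [h]; simp
  · have h1 : (1 : ℝ) ≤ |((round x : ℤ) : ℝ)| := by
      rw [← Int.cast_abs]
      exact_mod_cast Int.one_le_abs h
    have h2 : |((round x : ℤ) : ℝ)| ≤ |x| + |x - round x| := by
      have : ((round x : ℤ) : ℝ) = x - (x - round x) := by ring
      conv_lhs => rw [this]
      exact abs_sub _ _
    linarith

theorem geom_range (M : ℕ) (x : ℝ) : ‖∑ i ∈ range M, ee (x * i)‖ * dn x ≤ 1 / 2 := by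
  have h := geom_dn 0 M x
  have e : ∑ m ∈ Ioc 0 M, ee (m * x) = ee x * ∑ i ∈ range M, ee (x * i) := by
    rw [Finset.mul_sum, ← Finset.Ico_add_one_add_one_eq_Ioc, Finset.sum_Ico_eq_sum_range]
    have : M + 1 - (0 + 1) = M := by omega
    rw [this]
    refine Finset.sum_congr rfl fun i _ => ?_
    rw [← ee_add]
    congr 1
    push_cast
    ring
  rw [e, norm_mul, norm_ee, one_mul] at h
  exact h

theorem geom_Icc (P : ℕ) (x : ℝ) : ‖∑ s ∈ Icc 1 P, ee (x * s)‖ * dn x ≤ 1 / 2 := by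
  have h := geom_dn 0 P x
  have e : ∑ m ∈ Ioc 0 P, ee (m * x) = ∑ s ∈ Icc 1 P, ee (x * s) := by
    refine Finset.sum_congr rfl fun i _ => ?_
    rw [mul_comm]
  rwa [e] at h

/-- The `ℓ¹` norm of the finite Fourier coefficients of `i ↦ ee (θ i)` on `[0, M)`. -/
theorem coef_sum : ∃ C : ℝ, 1 ≤ C ∧ ∀ (M : ℕ) (θ : ℝ), 1 ≤ M →
    ∑ k ∈ range M, ‖∑ i ∈ range M, ee ((θ - k / M) * i)‖ ≤ C * M * (2 + Real.log M) := by
  obtain ⟨C, hC, h⟩ := sum_min_block
  refine ⟨2 * C, by linarith, fun M θ hM => ?_⟩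
  have hM0 : (0 : ℝ) < M := by exact_mod_cast hM
  have hMz : (0 : ℤ) < M := by exact_mod_cast hM
  -- the shift
  obtain ⟨A, z, hA⟩ : ∃ (A : ℕ) (z : ℤ), ((A : ℤ) + 1) = round (-θ * M) + z * M := by
    refine ⟨((round (-θ * M) - 1) % (M : ℤ)).toNat, -((round (-θ * M) - 1) / (M : ℤ)), ?_⟩
    rw [Int.toNat_of_nonneg (Int.emod_nonneg _ hMz.ne')]
    have := Int.emod_add_mul_ediv (round (-θ * M) - 1) (M : ℤ)
    linarith
  have hshift : |((A : ℝ) + 1) / M + θ - z| ≤ 1 / (2 * M) := by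
    have h1 : |(-θ * M) - round (-θ * M)| ≤ 1 / 2 := abs_sub_round _
    have h2 : ((A : ℝ) + 1) = round (-θ * M) + z * M := by exact_mod_cast hA
    have h3 : ((A : ℝ) + 1) / M + θ - z = -((-θ * M) - round (-θ * M)) / M := by
      rw [h2]
      field_simp
      ring
    rw [h3, abs_div, abs_neg, abs_of_pos hM0, div_le_div_iff₀ hM0 (by positivity)]
    nlinarith
  set g : ℕ → ℝ := fun n => ‖∑ i ∈ range M, ee ((θ - ((n - (A + 1) : ℕ) : ℝ) / M) * i)‖ with hg
  have h1 := h M A M 1 (1 / M) M g hM isCoprime_one_left (by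
    have : (1 : ℝ) / M - ((1 : ℤ) : ℝ) / M = 0 := by push_cast; ring
    rw [this, abs_zero]
    positivity) hM0.le (by
    intro n hn
    rw [Finset.mem_Ioc] at hn
    obtain ⟨k, rfl⟩ : ∃ k, n = k + (A + 1) := ⟨n - (A + 1), by omega⟩
    have hk : k + (A + 1) - (A + 1) = k := by omega
    have hgn : g (k + (A + 1)) = ‖∑ i ∈ range M, ee ((θ - (k : ℝ) / M) * i)‖ := by
      rw [hg]
      simp only [hk]
    rw [hgn]
    have hle : ‖∑ i ∈ range M, ee ((θ - (k : ℝ) / M) * i)‖ ≤ M := by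
      refine (norm_sum_le _ _).trans ?_
      simp [norm_ee]
    refine ⟨norm_nonneg _, hle, ?_⟩
    have h2 := geom_range M (θ - (k : ℝ) / M)
    have h3 : dn (((k + (A + 1) : ℕ) : ℝ) * (1 / M)) ≤ dn (θ - (k : ℝ) / M) + 1 / (2 * M) := by
      have e : ((k + (A + 1) : ℕ) : ℝ) * (1 / M) = -(θ - (k : ℝ) / M) +
          (((A : ℝ) + 1) / M + θ) := by
        push_cast
        field_simp
        ring
      rw [e]
      exact (dn_add_le _ _ z).trans (add_le_add (dn_neg_le _) hshift)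
    calc ‖∑ i ∈ range M, ee ((θ - (k : ℝ) / M) * i)‖ * dn (((k + (A + 1) : ℕ) : ℝ) * (1 / M))
        ≤ ‖∑ i ∈ range M, ee ((θ - (k : ℝ) / M) * i)‖ * (dn (θ - (k : ℝ) / M) + 1 / (2 * M)) :=
          mul_le_mul_of_nonneg_left h3 (norm_nonneg _)
      _ = ‖∑ i ∈ range M, ee ((θ - (k : ℝ) / M) * i)‖ * dn (θ - (k : ℝ) / M) +
          ‖∑ i ∈ range M, ee ((θ - (k : ℝ) / M) * i)‖ * (1 / (2 * M)) := by ring
      _ ≤ 1 / 2 + M * (1 / (2 * M)) :=
          add_le_add h2 (mul_le_mul_of_nonneg_right hle (by positivity))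
      _ = 1 := by field_simp; norm_num)
  have h2 : ∑ n ∈ Ioc A (A + M), g n = ∑ k ∈ range M, ‖∑ i ∈ range M, ee ((θ - k / M) * i)‖ := by
    rw [← Finset.Ico_add_one_add_one_eq_Ioc, Finset.sum_Ico_eq_sum_range]
    have : A + M + 1 - (A + 1) = M := by omega
    rw [this]
    refine Finset.sum_congr rfl fun k _ => ?_
    have hk : A + 1 + k - (A + 1) = k := by omega
    rw [hg]
    simp only [hk]
  rw [h2] at h1
  refine h1.trans (le_of_eq ?_)
  field_simp
  ring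

/-- From the frequencies `k / M` to all frequencies. -/
theorem all_freq : ∃ C : ℝ, 1 ≤ C ∧ ∀ (M : ℕ) (J : Finset ℕ) (δ : ℝ), 1 ≤ M → J ⊆ range M →
    J.Nonempty → (∀ k : ℕ, 1 ≤ k → k < M → ‖∑ j ∈ J, ee ((k : ℝ) * j / M)‖ ≤ δ * J.card) →
    0 ≤ δ → ∀ θ : ℝ, ‖(∑ j ∈ J, ee (θ * j)) / (J.card : ℂ) - (∑ j ∈ range M, ee (θ * j)) / (M : ℂ)‖ ≤
      C * (2 + Real.log M) * δ := by
  obtain ⟨C, hC, h⟩ := coef_sum
  refine ⟨C, hC, fun M J δ hM hJ hne hδ hδ0 θ => ?_⟩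
  have hM0 : (0 : ℝ) < M := by exact_mod_cast hM
  have hMC : (M : ℂ) ≠ 0 := by exact_mod_cast hM0.ne'
  have hJ0 : (0 : ℝ) < J.card := by exact_mod_cast hne.card_pos
  have hJC : (J.card : ℂ) ≠ 0 := by exact_mod_cast hJ0.ne'
  set c : ℕ → ℂ := fun k => (∑ i ∈ range M, ee ((θ - k / M) * i)) / M with hc
  -- inversion
  have hinv : ∀ j ∈ range M, ee (θ * j) = ∑ k ∈ range M, c k * ee ((k : ℝ) * j / M) := by
    intro j hj
    have hj' := Finset.mem_range.1 hj
    have e1 : ∑ k ∈ range M, c k * ee ((k : ℝ) * j / M) =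
        (∑ i ∈ range M, ee (θ * i) * ∑ k ∈ range M, ee ((k : ℝ) * (((j : ℤ) - i : ℤ) / M))) / M := by
      rw [hc]
      simp only [div_mul_eq_mul_div, Finset.sum_mul]
      rw [← Finset.sum_div]
      congr 1
      rw [Finset.sum_comm]
      refine Finset.sum_congr rfl fun i _ => ?_
      rw [Finset.mul_sum]
      refine Finset.sum_congr rfl fun k _ => ?_
      rw [← ee_add, ← ee_add]
      congr 1
      push_cast
      field_simp
      ring
    rw [e1, Finset.sum_eq_single j]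
    · rw [sum_ee_range M hM, if_pos (by simp)]
      field_simp
    · intro i hi hij
      rw [sum_ee_range M hM, if_neg, mul_zero]
      intro hd
      have hi' := Finset.mem_range.1 hi
      have := Int.eq_zero_of_abs_lt_dvd hd (by rw [abs_lt]; constructor <;> omega)
      omega
    · intro hn
      exact absurd hj hn
  have h1 : (∑ j ∈ J, ee (θ * j)) / (J.card : ℂ) =
      ∑ k ∈ range M, c k * ((∑ j ∈ J, ee ((k : ℝ) * j / M)) / J.card) := by
    rw [Finset.sum_congr rfl fun j hj => hinv j (hJ hj), Finset.sum_comm, Finset.sum_div]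
    refine Finset.sum_congr rfl fun k _ => ?_
    rw [← Finset.mul_sum, mul_div_assoc]
  have h2 : c 0 = (∑ j ∈ range M, ee (θ * j)) / (M : ℂ) := by
    rw [hc]
    simp
  obtain ⟨M', rfl⟩ : ∃ M', M = M' + 1 := ⟨M - 1, by omega⟩
  rw [h1, ← h2, Finset.sum_range_succ']
  have h3 : (∑ j ∈ J, ee (((0 : ℕ) : ℝ) * j / ((M' + 1 : ℕ) : ℝ))) / (J.card : ℂ) = 1 := by
    simp [ee_zero, hJC]
  rw [h3, mul_one, add_sub_cancel_right]
  have h4 : ∀ k ∈ range M', ‖c (k + 1) * ((∑ j ∈ J, ee (((k + 1 : ℕ) : ℝ) * j / ((M' + 1 : ℕ) : ℝ))) /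
      J.card)‖ ≤ ‖c (k + 1)‖ * δ := by
    intro k hk
    have hk' := Finset.mem_range.1 hk
    rw [norm_mul]
    refine mul_le_mul_of_nonneg_left ?_ (norm_nonneg _)
    rw [norm_div, Complex.norm_natCast, div_le_iff₀ hJ0]
    exact hδ (k + 1) (by omega) (by omega)
  have h5 : ∑ k ∈ range (M' + 1), ‖c k‖ ≤ C * (2 + Real.log ((M' + 1 : ℕ) : ℝ)) := by
    have h6 := h (M' + 1) θ hM
    have e : ∀ k ∈ range (M' + 1), ‖c k‖ =
        ‖∑ i ∈ range (M' + 1), ee ((θ - k / ((M' + 1 : ℕ) : ℝ)) * i)‖ / ((M' + 1 : ℕ) : ℝ) := by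
      intro k _
      rw [hc]
      simp only
      rw [norm_div, Complex.norm_natCast]
    rw [Finset.sum_congr rfl e, ← Finset.sum_div, div_le_iff₀ hM0]
    refine h6.trans (le_of_eq ?_)
    ring
  calc ‖∑ k ∈ range M', c (k + 1) * ((∑ j ∈ J, ee (((k + 1 : ℕ) : ℝ) * j / ((M' + 1 : ℕ) : ℝ))) /
      J.card)‖ ≤ ∑ k ∈ range M', ‖c (k + 1)‖ * δ :=
        (norm_sum_le _ _).trans (Finset.sum_le_sum h4)
    _ = (∑ k ∈ range M', ‖c (k + 1)‖) * δ := by rw [Finset.sum_mul]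
    _ ≤ (∑ k ∈ range (M' + 1), ‖c k‖) * δ := by
        refine mul_le_mul_of_nonneg_right ?_ hδ0
        rw [Finset.sum_range_succ']
        linarith [norm_nonneg (c 0)]
    _ ≤ C * (2 + Real.log ((M' + 1 : ℕ) : ℝ)) * δ := mul_le_mul_of_nonneg_right h5 hδ0

end Pool.Agent.Lib.MP_629a14_nt.Ts
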