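import Pool.Agent.Lib.MP_629a14_nt.Ts.PolyA

/-! Small sets with small Fourier coefficients modulo `M`: the residues `s / p`. -/

set_option autoImplicit false

namespace Pool.Agent.Lib.MP_629a14_nt.Ts

open Finset Pool.Agent.Lib.MP_629a14_nt Pool.Agent.Lib.MP_629a14_nt.Th

open Classical in
/-- The residues `j` modulo `M` with `p j ≡ 1, ..., P` for some prime `p` in `(P, 4 P]` which does
not divide `M`. -/
noncomputable def res (M P : ℕ) : Finset ℕ :=
  (range M).filter (fun j => ∃ p ∈ Ioc P (4 * P), p.Prime ∧ ¬ p ∣ M ∧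
    1 ≤ (p * j) % M ∧ (p * j) % M ≤ P)

/-- The primes. -/
def prs (M P : ℕ) : Finset ℕ := (Ioc P (4 * P)).filter (fun p => p.Prime ∧ ¬ p ∣ M)

theorem mem_prs {M P p : ℕ} : p ∈ prs M P ↔ P < p ∧ p ≤ 4 * P ∧ p.Prime ∧ ¬ p ∣ M := by
  unfold prs
  rw [Finset.mem_filter, Finset.mem_Ioc]
  tauto

theorem prs_coprime {M P p : ℕ} (hp : p ∈ prs M P) : Nat.Coprime p M := by
  rw [mem_prs] at hp
  exact (Nat.Prime.coprime_iff_not_dvd hp.2.2.1).2 hp.2.2.2

/-- cancellation of `p` -/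
theorem cancel {M p i j : ℕ} (hp : Nat.Coprime p M) (hi : i < M) (hj : j < M)
    (h : (p * i) % M = (p * j) % M) : i = j := by
  have h1 : p * i ≡ p * j [MOD M] := h
  have h2 : i ≡ j [MOD M] := Nat.ModEq.cancel_left_of_coprime (by rwa [Nat.coprime_comm] at hp) h1
  have h3 : i % M = j % M := h2
  rwa [Nat.mod_eq_of_lt hi, Nat.mod_eq_of_lt hj] at h3

/-- The residues, listed by the primes and by `s`. -/
theorem sum_res {M P : ℕ} (hM : 4 * P * P < M) (f : ℕ → ℂ) :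
    ∃ q : ℕ → ℕ → ℕ, (∀ p ∈ prs M P, ∀ s ∈ Icc 1 P, q p s < M ∧ (p * q p s) % M = s) ∧
      ∑ j ∈ res M P, f j = ∑ p ∈ prs M P, ∑ s ∈ Icc 1 P, f (q p s) ∧
      (res M P).card = (prs M P).card * P := by
  classical
  have hex : ∀ p s : ℕ, ∃ j, p ∈ prs M P → s ∈ Icc 1 P → j < M ∧ (p * j) % M = s := by
    intro p s
    by_cases h : p ∈ prs M P ∧ s ∈ Icc 1 P
    · obtain ⟨hp, hs⟩ := h
      rw [Finset.mem_Icc] at hs
      have hP : 1 ≤ P := hs.1.trans hs.2
      have hsM : s < M := by nlinarith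
      obtain ⟨j, hj, hj'⟩ := Nat.exists_mul_mod_eq_of_coprime s (prs_coprime hp) (by omega)
      refine ⟨j, fun _ _ => ⟨hj, ?_⟩⟩
      rw [hj', Nat.mod_eq_of_lt hsM]
    · exact ⟨0, fun h1 h2 => absurd ⟨h1, h2⟩ h⟩
  choose q hq using hex
  have hq' : ∀ p ∈ prs M P, ∀ s ∈ Icc 1 P, q p s < M ∧ (p * q p s) % M = s :=
    fun p hp s hs => hq p s hp hs
  have himg : res M P = (prs M P ×ˢ Icc 1 P).image (fun x => q x.1 x.2) := by
    ext j
    rw [Finset.mem_image]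
    unfold res
    simp only [Finset.mem_filter, Finset.mem_range]
    constructor
    · rintro ⟨hj, p, h0, hp, h3, h4, h5⟩
      rw [Finset.mem_Ioc] at h0
      have hpm : p ∈ prs M P := mem_prs.2 ⟨h0.1, h0.2, hp, h3⟩
      have hs : (p * j) % M ∈ Icc 1 P := Finset.mem_Icc.2 ⟨h4, h5⟩
      refine ⟨(p, (p * j) % M), Finset.mem_product.2 ⟨hpm, hs⟩, ?_⟩
      obtain ⟨h6, h7⟩ := hq' p hpm _ hs
      exact cancel (prs_coprime hpm) h6 hj h7
    · rintro ⟨⟨p, s⟩, hps, rfl⟩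
      rw [Finset.mem_product] at hps
      obtain ⟨hp, hs⟩ := hps
      obtain ⟨h6, h7⟩ := hq' p hp s hs
      rw [Finset.mem_Icc] at hs
      have hp' := mem_prs.1 hp
      refine ⟨h6, p, Finset.mem_Ioc.2 ⟨hp'.1, hp'.2.1⟩, hp'.2.2.1, hp'.2.2.2, ?_⟩
      rw [h7]
      exact hs
  have hinj : Set.InjOn (fun x : ℕ × ℕ => q x.1 x.2) (prs M P ×ˢ Icc 1 P : Finset (ℕ × ℕ)) := by
    rintro ⟨p, s⟩ hx ⟨p', s'⟩ hx' he
    rw [Finset.mem_coe, Finset.mem_product] at hx hx'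
    obtain ⟨hp, hs⟩ := hx
    obtain ⟨hp', hs'⟩ := hx'
    obtain ⟨h1, h2⟩ := hq' p hp s hs
    obtain ⟨h1', h2'⟩ := hq' p' hp' s' hs'
    simp only at he
    have hp1 := mem_prs.1 hp
    have hp1' := mem_prs.1 hp'
    simp only at hs hs' hp hp'
    rw [Finset.mem_Icc] at hs hs'
    -- s p' = s' p
    have h3 : (s * p') % M = (s' * p) % M := by
      calc (s * p') % M = (p * q p s % M * p') % M := by rw [h2]
        _ = (p * q p s * p') % M := Nat.mod_mul_mod _ _ _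
        _ = (p' * q p' s' * p) % M := by
            rw [he]
            congr 1
            ring
        _ = (p' * q p' s' % M * p) % M := (Nat.mod_mul_mod _ _ _).symm
        _ = (s' * p) % M := by rw [h2']
    have h4 : s * p' < M := lt_of_le_of_lt (Nat.mul_le_mul hs.2 hp1'.2.1) (by nlinarith)
    have h5 : s' * p < M := lt_of_le_of_lt (Nat.mul_le_mul hs'.2 hp1.2.1) (by nlinarith)
    rw [Nat.mod_eq_of_lt h4, Nat.mod_eq_of_lt h5] at h3
    have hpp : p = p' := by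
      by_contra hne
      have h6 : p ∣ s * p' := by rw [h3]; exact Dvd.intro_left _ rfl
      rcases (Nat.Prime.dvd_mul hp1.2.2.1).1 h6 with h7 | h7
      · have := Nat.le_of_dvd (by omega) h7
        omega
      · rw [Nat.prime_dvd_prime_iff_eq hp1.2.2.1 hp1'.2.2.1] at h7
        exact hne h7
    subst hpp
    have h7 : s = s' := Nat.eq_of_mul_eq_mul_right hp1.2.2.1.pos h3
    rw [h7]
  refine ⟨q, hq', ?_, ?_⟩
  · rw [himg, Finset.sum_image hinj, Finset.sum_product]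
  · rw [himg, Finset.card_image_of_injOn hinj, Finset.card_product, Nat.card_Icc]
    congr 1

/-- One prime. -/
theorem one_prime {M P p k : ℕ} (hk : 1 ≤ k) (hkM : k < M) (hp : p ∈ prs M P)
    (q : ℕ → ℕ) (hq : ∀ s ∈ Icc 1 P, q s < M ∧ (p * q s) % M = s) :
    ∃ h : ℕ, h ≤ 2 * P ∧
      ‖∑ s ∈ Icc 1 P, ee ((k : ℝ) * q s / M)‖ * (h + 1) ≤ 3 * P ∧
      (p : ℤ) ∣ ((k : ℤ) + h * M) * ((k : ℤ) - (h + 1) * M) := by
  have hp' := mem_prs.1 hp
  have hM : 0 < M := by omega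
  have hM0 : (0 : ℝ) < M := by exact_mod_cast hM
  obtain ⟨u, hu, hu'⟩ := Nat.exists_mul_mod_eq_of_coprime k (prs_coprime hp) (by omega)
  rw [Nat.mod_eq_of_lt hkM] at hu'
  -- the exponential sum
  have hsum : ∑ s ∈ Icc 1 P, ee ((k : ℝ) * q s / M) = ∑ s ∈ Icc 1 P, ee ((u : ℝ) / M * s) := by
    refine Finset.sum_congr rfl fun s hs => ?_
    obtain ⟨h1, h2⟩ := hq s hs
    have h3 : (M : ℤ) ∣ (k : ℤ) * q s - u * s := by
      have h4 : k * q s ≡ u * s [MOD M] := by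
        have h5 : k ≡ p * u [MOD M] := by
          rw [← hu']
          exact Nat.mod_modEq _ _
        have h6 : p * q s ≡ s [MOD M] := by
          conv_rhs => rw [← h2]
          exact (Nat.mod_modEq _ _).symm
        calc k * q s ≡ p * u * q s [MOD M] := h5.mul_right _
          _ = u * (p * q s) := by ring
          _ ≡ u * s [MOD M] := h6.mul_left _
      have h7 := (Nat.modEq_iff_dvd.1 h4.symm)
      push_cast at h7
      exact h7
    obtain ⟨z, hz⟩ := h3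
    have h4 : (k : ℝ) * q s / M = (u : ℝ) / M * s + z := by
      have h5 : (k : ℝ) * q s - u * s = M * z := by exact_mod_cast hz
      field_simp
      linarith
    rw [h4, ee_add, ee_int, mul_one]
  rw [hsum]
  obtain ⟨T, hT⟩ : ∃ T : ℝ, T = ‖∑ s ∈ Icc 1 P, ee ((u : ℝ) / M * s)‖ := ⟨_, rfl⟩
  have hT0 : 0 ≤ T := by rw [hT]; exact norm_nonneg _
  have hTP : T ≤ P := by
    rw [hT]
    refine (norm_sum_le _ _).trans ?_
    simp [norm_ee]
  have hTd : T * dn ((u : ℝ) / M) ≤ 1 / 2 := by rw [hT]; exact geom_Icc P _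
  rw [← hT]
  -- the integer
  obtain ⟨R, hR⟩ : ∃ R : ℤ, R = round ((u : ℝ) / M) := ⟨_, rfl⟩
  obtain ⟨l, hl⟩ : ∃ l : ℤ, l = ((p * u / M : ℕ) : ℤ) - p * R := ⟨_, rfl⟩
  have hpu : (p : ℤ) * (u - M * R) = k + l * M := by
    have h1 := Nat.mod_add_div (p * u) M
    rw [hu'] at h1
    have h2 : (p : ℤ) * u = k + M * ((p * u / M : ℕ) : ℤ) := by exact_mod_cast h1.symm
    rw [hl]
    linear_combination h2
  have hdn : (M : ℝ) * dn ((u : ℝ) / M) = |(u : ℝ) - M * R| := by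
    unfold dn
    rw [← hR, ← abs_of_pos hM0, ← abs_mul, abs_of_pos hM0]
    congr 1
    field_simp
  have habs : (p : ℝ) * |(u : ℝ) - M * R| = |(k : ℝ) + l * M| := by
    have h1 : (p : ℝ) * ((u : ℝ) - M * R) = k + l * M := by exact_mod_cast hpu
    rw [← h1, abs_mul, Nat.abs_cast]
  have hp4 : (p : ℝ) ≤ 4 * P := by exact_mod_cast hp'.2.1
  have hp0 : (0 : ℝ) ≤ p := Nat.cast_nonneg p
  have hkl : T * |(k : ℝ) + l * M| ≤ 2 * P * M := by
    rw [← habs, ← hdn]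
    have h1 : T * ((p : ℝ) * (M * dn ((u : ℝ) / M))) = (p : ℝ) * M * (T * dn ((u : ℝ) / M)) := by ring
    rw [h1]
    have h2 : (p : ℝ) * M * (T * dn ((u : ℝ) / M)) ≤ (p : ℝ) * M * (1 / 2) :=
      mul_le_mul_of_nonneg_left hTd (by positivity)
    nlinarith
  have hkl2 : |(k : ℝ) + l * M| ≤ 2 * P * M := by
    rw [← habs, ← hdn]
    have h1 : dn ((u : ℝ) / M) ≤ 1 / 2 := abs_sub_round _
    have h2 : (p : ℝ) * (M * dn ((u : ℝ) / M)) ≤ (p : ℝ) * (M * (1 / 2)) :=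
      mul_le_mul_of_nonneg_left (mul_le_mul_of_nonneg_left h1 hM0.le) hp0
    nlinarith
  have hk0 : (1 : ℝ) ≤ k := by exact_mod_cast hk
  have hkM' : (k : ℝ) < M := by exact_mod_cast hkM
  obtain ⟨h, hh⟩ : ∃ h : ℕ, (l = h ∨ l = -(h + 1)) ∧ (h : ℝ) * M ≤ |(k : ℝ) + l * M| := by
    rcases le_or_gt 0 l with h0 | h0
    · obtain ⟨h, rfl⟩ := Int.eq_ofNat_of_zero_le h0
      refine ⟨h, Or.inl rfl, ?_⟩
      have : (0 : ℝ) ≤ (h : ℝ) * M := by positivity
      rw [abs_of_nonneg (by push_cast; linarith)]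
      push_cast
      linarith
    · obtain ⟨h, hh⟩ := Int.eq_ofNat_of_zero_le (show 0 ≤ -l - 1 by omega)
      have hl' : l = -((h : ℤ) + 1) := by omega
      refine ⟨h, Or.inr hl', ?_⟩
      rw [hl', ← abs_neg]
      refine le_trans ?_ (le_abs_self _)
      push_cast
      nlinarith
  obtain ⟨hl', hhM⟩ := hh
  refine ⟨h, ?_, ?_, ?_⟩
  · have h1 : (h : ℝ) * M ≤ 2 * P * M := hhM.trans hkl2
    have h2 : (h : ℝ) ≤ 2 * P := le_of_mul_le_mul_right h1 hM0
    exact_mod_cast h2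
  · have h1 : T * ((h : ℝ) * M) ≤ 2 * P * M := (mul_le_mul_of_nonneg_left hhM hT0).trans hkl
    have h2 : T * h ≤ 2 * P := by
      have : T * h * M ≤ 2 * P * M := by linarith
      exact le_of_mul_le_mul_right this hM0
    linarith
  · have h1 : (p : ℤ) ∣ (k : ℤ) + l * M := ⟨_, hpu.symm⟩
    rcases hl' with rfl | rfl
    · exact Dvd.dvd.mul_right h1 _
    · refine Dvd.dvd.mul_left ?_ _
      have : (k : ℤ) - (h + 1) * M = k + -(h + 1) * M := by ring
      rw [this]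
      exact h1

end Pool.Agent.Lib.MP_629a14_nt.Ts
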