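import Pool.Agent.Lib.MP_629a14_nt.Ts.Law
import Pool.Agent.Lib.MP_629a14_nt.Ts.Share

/-! Definitions for the localised laws on equidistributed tame sequences. -/

set_option autoImplicit false

namespace Pool.Agent.Lib.MP_629a14_nt.Ts

open Finset Filter Topology Pool.Agent.Lib.MP_629a14_nt

/-- `n` is in `[M₁, M₂]` and in the class `b` modulo `q`. -/
def In (M₁ M₂ q b n : ℕ) : Prop := (M₁ ≤ n ∧ n ≤ M₂) ∧ n ≡ b [MOD q]

instance (M₁ M₂ q b : ℕ) : DecidablePred (In M₁ M₂ q b) := fun n => by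
  unfold In
  infer_instance

/-- The mean over `U` of the function which is `f` on `In M₁ M₂ q b` and `0` elsewhere. -/
noncomputable def mf (U : Finset ℕ) (M₁ M₂ q b : ℕ) (f : ℕ → ℝ) : ℝ :=
  (∑ n ∈ U.filter (In M₁ M₂ q b), f n) / U.card

end Pool.Agent.Lib.MP_629a14_nt.Ts
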