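import Pool.Agent.Lib.MP_629a14_nt.Ts.Int
import Pool.Agent.Lib.MP_629a14_nt.Ts.Lay
import Pool.Agent.Lib.MP_629a14_nt.Ts.Share
import Pool.Agent.Lib.MP_629a14_nt.Kr.Val
import Pool.Agent.Lib.MP_629a14_nt.Kr.ValReg

/-! The means of the extremal value over an equidistributed sequence and over the even numbers. -/

set_option autoImplicit false

namespace Pool.Agent.Lib.MP_629a14_nt.Ts

open Finset Filter Topology Pool.Agent.Lib.MP_629a14_nt
open Pool.Agent.Lib.MP_629a14_nt.Kp Pool.Agent.Lib.MP_629a14_nt.Kp.R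

/-- a cell is an interval -/
private theorem cell_iff {H N j n : ℕ} (hR : 1 ≤ H) : Kp.R.cell H N n = j ↔
    (j * (N + 1) + H - 1) / H ≤ n ∧ n ≤ ((j + 1) * (N + 1) - 1) / H := by
  unfold Kp.R.cell
  rw [Nat.div_le_iff_le_mul_add_pred (by omega), Nat.le_div_iff_mul_le (by omega),
    Nat.div_eq_iff (by omega)]
  have h1 : 1 ≤ (j + 1) * (N + 1) := Nat.mul_pos (by omega) (by omega)
  have h2 : (j + 1) * (N + 1) = j * (N + 1) + (N + 1) := by ring
  rw [mul_comm H n, mul_comm j (N + 1)] at *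
  omega

/-- the intersection of a localisation with a cell and a class is a localisation or empty -/
private theorem in_cell {H N m q : ℕ} (hR : 1 ≤ H) (hqm : q ∣ m) (M₁ M₂ c j ρ : ℕ) :
    {n | In M₁ M₂ q c n ∧ Kp.R.cell H N n = j ∧ n ≡ ρ [MOD m]} =
      if ρ ≡ c [MOD q] then {n | In (max M₁ ((j * (N + 1) + H - 1) / H))
        (min M₂ (((j + 1) * (N + 1) - 1) / H)) m ρ n} else ∅ := by
  ext n
  split_ifs with h
  · simp only [Set.mem_ofPred_eq, In, cell_iff hR, max_le_iff, le_min_iff]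
    constructor
    · rintro ⟨⟨⟨h1, h2⟩, h3⟩, ⟨h4, h5⟩, h6⟩
      exact ⟨⟨⟨h1, h4⟩, h2, h5⟩, h6⟩
    · rintro ⟨⟨⟨h1, h4⟩, h2, h5⟩, h6⟩
      exact ⟨⟨⟨h1, h2⟩, (h6.of_dvd hqm).trans h⟩, ⟨h4, h5⟩, h6⟩
  · simp only [Set.mem_ofPred_eq, Set.mem_empty_iff_false, iff_false]
    rintro ⟨h1, -, h2⟩
    exact h ((h2.of_dvd hqm).symm.trans h1.2)

private theorem prop_d (U : Finset ℕ) (T : Set ℕ) [DecidablePred (fun n => n ∈ T)] :
    prop U T = ((U.filter (fun n => n ∈ T)).card : ℝ) / U.card := by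
  rw [prop_eq']
  congr!

/-- The means of a function which is almost constant on the cells and classes. -/
private theorem step {H N m q : ℕ} (hR : 1 ≤ H) (hm : 1 ≤ m) (hqm : q ∣ m) {F : ℕ → ℝ}
    {Λ e δ θ : ℝ} (hΛ : 0 ≤ Λ) {U V : Finset ℕ} (hU : ∀ n ∈ U, 1 ≤ n ∧ n ≤ N)
    (hV : ∀ n ∈ V, 1 ≤ n ∧ n ≤ N) (hUn : U.Nonempty) (hVn : V.Nonempty) {J : ℕ}
    (hF : ∀ n, 1 ≤ n → n ≤ N → |F n| ≤ Λ)
    (hreg : ∀ n n', 1 ≤ n → n ≤ N → 1 ≤ n' → n' ≤ N → n ≡ n' [MOD m] →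
      Kp.R.cell H N n = Kp.R.cell H N n' → J ≤ Kp.R.cell H N n → |F n - F n'| ≤ Λ * e)
    (he : 0 ≤ e) (hδ0 : 0 ≤ δ)
    (hδ : ∀ M₁ M₂ b : ℕ, |prop U {n | In M₁ M₂ m b n} - prop V {n | In M₁ M₂ m b n}| ≤ δ)
    (hθU : prop U {n | Kp.R.cell H N n < J} ≤ θ) (hθV : prop V {n | Kp.R.cell H N n < J} ≤ θ)
    (M₁ M₂ c : ℕ) :
    |mf U M₁ M₂ q c F - mf V M₁ M₂ q c F| ≤ Λ * (H * m * δ + 2 * e + 4 * θ) := by
  classical
  -- the set of a cell and a class
  let T : ℕ × ℕ → Set ℕ := fun x =>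
    {n | In M₁ M₂ q c n ∧ Kp.R.cell H N n = x.1 ∧ n ≡ x.2 [MOD m]}
  -- the value at a representative
  have hrep : ∀ x : ℕ × ℕ, ∃ v : ℝ, |v| ≤ Λ ∧ ∀ n, 1 ≤ n → n ≤ N → n ∈ T x →
      |F n - v| ≤ Λ * e + if Kp.R.cell H N n < J then 2 * Λ else 0 := by
    intro x
    by_cases hx : ∃ n, 1 ≤ n ∧ n ≤ N ∧ n ∈ T x
    · obtain ⟨n₀, h1, h2, h3⟩ := hx
      refine ⟨F n₀, hF n₀ h1 h2, fun n hn1 hn2 hn3 => ?_⟩
      split_ifs with hJ
      · have h4 := abs_le.1 (hF n hn1 hn2)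
        have h5 := abs_le.1 (hF n₀ h1 h2)
        have h6 : 0 ≤ Λ * e := mul_nonneg hΛ he
        rw [abs_le]
        constructor <;> linarith [h4.1, h4.2, h5.1, h5.2]
      · rw [add_zero]
        exact hreg n n₀ hn1 hn2 h1 h2 (hn3.2.2.trans h3.2.2.symm) (hn3.2.1.trans h3.2.1.symm)
          (not_lt.1 hJ)
    · refine ⟨0, by rw [abs_zero]; exact hΛ, fun n hn1 hn2 hn3 => absurd ⟨n, hn1, hn2, hn3⟩ hx⟩
  choose v hv1 hv2 using hrep
  -- the mean over `U` is a combination of proportions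
  have key : ∀ U : Finset ℕ, (∀ n ∈ U, 1 ≤ n ∧ n ≤ N) → U.Nonempty →
      prop U {n | Kp.R.cell H N n < J} ≤ θ →
      |mf U M₁ M₂ q c F - ∑ x ∈ range H ×ˢ range m, v x * prop U (T x)| ≤
        Λ * (e + 2 * θ) := by
    intro U hU hUn hθ
    have hUr : (0 : ℝ) < U.card := by exact_mod_cast hUn.card_pos
    have h1 : ∀ G : ℕ → ℝ, ∑ n ∈ U.filter (In M₁ M₂ q c), G n =
        ∑ x ∈ range H ×ˢ range m, ∑ n ∈ U.filter (fun n => n ∈ T x), G n := by
      intro G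
      rw [← sum_fiberwise_of_maps_to (s := U.filter (In M₁ M₂ q c)) (t := range H ×ˢ range m)
        (g := fun n => (Kp.R.cell H N n, n % m))]
      · refine sum_congr rfl fun x hx => ?_
        rw [filter_filter]
        refine sum_congr ?_ fun _ _ => rfl
        refine filter_congr fun n hn => ?_
        have hx2 := mem_range.1 (mem_product.1 hx).2
        have h2 : n ≡ x.2 [MOD m] ↔ n % m = x.2 := by
          unfold Nat.ModEq
          rw [Nat.mod_eq_of_lt hx2]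
        change _ ↔ (In M₁ M₂ q c n ∧ Kp.R.cell H N n = x.1 ∧ n ≡ x.2 [MOD m])
        rw [h2, Prod.ext_iff]
      · intro n hn
        have hn' := hU n (mem_filter.1 hn).1
        exact mem_product.2 ⟨mem_range.2 (Kp.R.cell_lt hR hn'.2), mem_range.2 (Nat.mod_lt _ hm)⟩
    have h2 : mf U M₁ M₂ q c F - ∑ x ∈ range H ×ˢ range m, v x * prop U (T x) =
        (∑ x ∈ range H ×ˢ range m, ∑ n ∈ U.filter (fun n => n ∈ T x), (F n - v x)) / U.card := by
      have hp : ∀ x, prop U (T x) = ((U.filter (fun n => n ∈ T x)).card : ℝ) / U.card :=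
        fun x => prop_d _ _
      unfold mf
      rw [h1]
      simp only [hp, sum_sub_distrib, sum_const, nsmul_eq_mul]
      rw [sub_div, sum_div (s := range H ×ˢ range m) (f := fun x =>
        (((U.filter (fun n => n ∈ T x)).card : ℕ) : ℝ) * v x)]
      congr 1
      refine sum_congr rfl fun x _ => ?_
      ring
    rw [h2, abs_div, abs_of_pos hUr, div_le_iff₀ hUr]
    refine (abs_sum_le_sum_abs _ _).trans ?_
    calc ∑ x ∈ range H ×ˢ range m, |∑ n ∈ U.filter (fun n => n ∈ T x), (F n - v x)|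
        ≤ ∑ x ∈ range H ×ˢ range m, ∑ n ∈ U.filter (fun n => n ∈ T x),
            (Λ * e + if Kp.R.cell H N n < J then 2 * Λ else 0) := by
          refine sum_le_sum fun x _ => (abs_sum_le_sum_abs _ _).trans (sum_le_sum fun n hn => ?_)
          obtain ⟨h3, h4⟩ := mem_filter.1 hn
          exact hv2 x n (hU n h3).1 (hU n h3).2 h4
      _ = ∑ n ∈ U.filter (In M₁ M₂ q c), (Λ * e + if Kp.R.cell H N n < J then 2 * Λ else 0) :=
          (h1 _).symm
      _ ≤ ∑ n ∈ U, (Λ * e + if Kp.R.cell H N n < J then 2 * Λ else 0) := by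
          refine sum_le_sum_of_subset_of_nonneg (filter_subset _ _) fun n _ _ => ?_
          have h5 : 0 ≤ Λ * e := mul_nonneg hΛ he
          split_ifs <;> linarith
      _ = U.card * (Λ * e) + 2 * Λ * (U.filter (fun n => Kp.R.cell H N n < J)).card := by
          rw [sum_add_distrib, sum_const, nsmul_eq_mul, ← sum_filter, sum_const, nsmul_eq_mul]
          ring
      _ ≤ Λ * (e + 2 * θ) * U.card := by
          rw [prop_d U {n | Kp.R.cell H N n < J}, div_le_iff₀ hUr] at hθ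
          change ((U.filter (fun n => Kp.R.cell H N n < J)).card : ℝ) ≤ θ * U.card at hθ
          have h6 := mul_le_mul_of_nonneg_left hθ (mul_nonneg zero_le_two hΛ)
          linarith
  have kU := key U hU hUn hθU
  have kV := key V hV hVn hθV
  have hd : |∑ x ∈ range H ×ˢ range m, v x * prop U (T x) -
      ∑ x ∈ range H ×ˢ range m, v x * prop V (T x)| ≤ Λ * (H * m * δ) := by
    rw [← sum_sub_distrib]
    refine (abs_sum_le_sum_abs _ _).trans ?_
    calc ∑ x ∈ range H ×ˢ range m, |v x * prop U (T x) - v x * prop V (T x)|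
        ≤ ∑ x ∈ range H ×ˢ range m, Λ * δ := by
          refine sum_le_sum fun x _ => ?_
          rw [← mul_sub, abs_mul]
          refine mul_le_mul (hv1 x) ?_ (abs_nonneg _) hΛ
          change |prop U {n | In M₁ M₂ q c n ∧ Kp.R.cell H N n = x.1 ∧ n ≡ x.2 [MOD m]} -
            prop V {n | In M₁ M₂ q c n ∧ Kp.R.cell H N n = x.1 ∧ n ≡ x.2 [MOD m]}| ≤ δ
          rw [in_cell hR hqm]
          split_ifs with h
          · exact hδ _ _ _
          · rw [prop_eq', prop_eq']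
            simpa using hδ0
      _ = Λ * (H * m * δ) := by
          rw [sum_const, card_product, card_range, card_range, nsmul_eq_mul]
          push_cast
          ring
  have e1 : mf U M₁ M₂ q c F - mf V M₁ M₂ q c F =
      (mf U M₁ M₂ q c F - ∑ x ∈ range H ×ˢ range m, v x * prop U (T x)) +
      (∑ x ∈ range H ×ˢ range m, v x * prop U (T x) -
        ∑ x ∈ range H ×ˢ range m, v x * prop V (T x)) -
      (mf V M₁ M₂ q c F - ∑ x ∈ range H ×ˢ range m, v x * prop V (T x)) := by ring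
  rw [e1]
  have h7 := abs_le.1 kU
  have h8 := abs_le.1 kV
  have h9 := abs_le.1 hd
  rw [abs_le]
  constructor <;> nlinarith [h7.1, h7.2, h8.1, h8.2, h9.1, h9.2]

/-- in a cell of index at least `J` the relative differences are at most `1 / J` -/
private theorem reg_cell {H N J n h : ℕ} (hH : 1 ≤ H)
    (h1 : Kp.R.cell H N n = Kp.R.cell H N (n + h)) (hJ : J ≤ Kp.R.cell H N n) :
    J * h ≤ n + h := by
  obtain ⟨j, hj⟩ : ∃ j, j = Kp.R.cell H N n := ⟨_, rfl⟩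
  rw [← hj] at h1 hJ
  unfold Kp.R.cell at hj h1
  have h2 : j * (N + 1) ≤ n * H := (Nat.le_div_iff_mul_le (show 0 < N + 1 by omega)).1 hj.le
  have h3 : (n + h) * H < (j + 1) * (N + 1) := (Nat.div_lt_iff_lt_mul (show 0 < N + 1 by omega)).1 (by omega)
  have h4 : h * H ≤ N + 1 := by nlinarith
  have h5 : J * (N + 1) ≤ j * (N + 1) := Nat.mul_le_mul_right _ hJ
  have h6 : J * (h * H) ≤ J * (N + 1) := Nat.mul_le_mul_left _ h4
  have h7 : J * h * H ≤ (n + h) * H := by nlinarith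
  exact Nat.le_of_mul_le_mul_right h7 (by omega)

/-- R-c. `Val W K N a b φ n` as a function of `n` (in a fixed class modulo `W`) changes by at most
`Λ (K + 2) |n - n'| / n`; cut `[0, N]` into short intervals and use `int_close` with modulus `W * q`
(or `lcm`), for the finitely many `W ≤ L`. -/
theorem val_close {S : ℕ → Finset ℕ} (hE : Equi 2 0 S) (q : ℕ) (hq : 1 ≤ q) (L : ℕ) {C : ℝ}
    (hC : 1 ≤ C) (ε : ℝ) (hε : 0 < ε) : ∀ᶠ N : ℕ in atTop, ∀ W K : ℕ, 1 ≤ W → W ≤ L → 1 ≤ K →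
      K ≤ L → ∀ a b : ℕ → ℕ → ℝ, (∀ k r, 0 ≤ a k r ∧ a k r ≤ 1) → (∀ k r, 0 ≤ b k r ∧ b k r ≤ 1) →
      ∀ (φ : ℝ → ℝ) (Λ : ℝ), (∀ x ∈ Set.Icc 0 C, ∀ y ∈ Set.Icc 0 C, |φ x - φ y| ≤ Λ * |x - y|) →
      ∀ M₁ M₂ c : ℕ, |mf (S N) M₁ M₂ q c (fun n => Val W K N a b φ n - φ 0) -
        mf (cls 2 0 N) M₁ M₂ q c (fun n => Val W K N a b φ n - φ 0)| ≤ Λ * ε := by
  classical
  obtain ⟨e, he⟩ : ∃ e : ℝ, e = ε / 8 := ⟨_, rfl⟩
  have he0 : 0 < e := by rw [he]; positivity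
  obtain ⟨θ, hθ⟩ : ∃ θ : ℝ, θ = ε / 64 := ⟨_, rfl⟩
  have hθ0 : 0 < θ := by rw [hθ]; positivity
  obtain ⟨J, hJ⟩ : ∃ J : ℕ, J = ⌈((L : ℝ) + 2) / e⌉₊ := ⟨_, rfl⟩
  have hJ0 : 1 ≤ J := by
    rw [hJ]
    exact Nat.ceil_pos.2 (by positivity)
  have hJr : (0 : ℝ) < J := by exact_mod_cast hJ0
  have hJ1 : ((L : ℝ) + 2) / J ≤ e := by
    have h1 := Nat.le_ceil (((L : ℝ) + 2) / e)
    rw [← hJ, div_le_iff₀ he0] at h1
    rw [div_le_iff₀ hJr]
    linarith
  obtain ⟨H, hH⟩ : ∃ H : ℕ, H = ⌈8 * (J : ℝ) / θ⌉₊ := ⟨_, rfl⟩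
  have hH0 : 1 ≤ H := by
    rw [hH]
    exact Nat.ceil_pos.2 (by positivity)
  have hHr : (0 : ℝ) < H := by exact_mod_cast hH0
  have hH1 : 8 * (J : ℝ) / H ≤ θ := by
    have h1 := Nat.le_ceil (8 * (J : ℝ) / θ)
    rw [← hH, div_le_iff₀ hθ0] at h1
    rw [div_le_iff₀ hHr]
    linarith
  obtain ⟨δ, hδ⟩ : ∃ δ : ℝ, δ = ε / (4 * H * (q * L + 1)) := ⟨_, rfl⟩
  have hδ0 : 0 < δ := by rw [hδ]; positivity
  have hδ1 : (H : ℝ) * (q * L) * δ ≤ ε / 4 := by
    have h1 : (H : ℝ) * (q * L + 1) * δ = ε / 4 := by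
      rw [hδ]
      field_simp
    have h2 : (0 : ℝ) ≤ H * δ := by positivity
    nlinarith
  have hall : ∀ᶠ N : ℕ in atTop, ∀ W ∈ Icc 1 L, ∀ M₁ M₂ b : ℕ,
      |prop (S N) {n | In M₁ M₂ (q * W) b n} - prop (cls 2 0 N) {n | In M₁ M₂ (q * W) b n}| ≤ δ := by
    rw [eventually_all_finset]
    intro W hW
    exact int_close (by norm_num) hE (q * W) (Nat.mul_pos hq (mem_Icc.1 hW).1) δ hδ0
  filter_upwards [hall, int_close (by norm_num) hE 1 le_rfl θ hθ0,
    cls_card (W := 2) (by norm_num) 0, hE.2 1 one_pos] with N h1 h2 h3 h4 W K hW hWL hK hKL a b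
    ha hb φ Λ hφ M₁ M₂ c
  obtain ⟨hN, hcard⟩ := h3
  have hNr : (1 : ℝ) ≤ N := by exact_mod_cast hN
  have hΛ0 : 0 ≤ Λ := lip_nonneg (by linarith) hφ
  have hSm : ∀ n ∈ S N, 1 ≤ n ∧ n ≤ N := fun n hn => cls_mem (hE.1 N hn)
  have hCm : ∀ n ∈ cls 2 0 N, 1 ≤ n ∧ n ≤ N := fun n hn => cls_mem hn
  have hcr : (0 : ℝ) < (cls 2 0 N).card := lt_of_lt_of_le (by positivity) hcard
  have hCne : (cls 2 0 N).Nonempty := card_pos.1 (by exact_mod_cast hcr)
  -- the first cells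
  have hset : {n | Kp.R.cell H N n < J} = {n | In 0 ((J * (N + 1) - 1) / H) 1 0 n} := by
    ext n
    simp only [Set.mem_ofPred_eq, In]
    unfold Kp.R.cell
    rw [Nat.div_lt_iff_lt_mul (show 0 < N + 1 by omega), Nat.le_div_iff_mul_le (by omega)]
    have h5 : 1 ≤ J * (N + 1) := Nat.mul_pos hJ0 (show 0 < N + 1 by omega)
    constructor
    · intro h
      exact ⟨⟨Nat.zero_le _, by omega⟩, Nat.modEq_one⟩
    · rintro ⟨⟨-, h⟩, -⟩
      omega
  have hθV : prop (cls 2 0 N) {n | Kp.R.cell H N n < J} ≤ θ := by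
    rw [prop_d, div_le_iff₀ hcr]
    have h5 : (((cls 2 0 N).filter (fun n => n ∈ {n | Kp.R.cell H N n < J})).card : ℝ) ≤
        J * (N + 1) / H := by
      have h6 : (cls 2 0 N).filter (fun n => n ∈ {n | Kp.R.cell H N n < J}) ⊆
          Icc 1 ((J * (N + 1) - 1) / H) := by
        intro n hn
        obtain ⟨h7, h8⟩ := mem_filter.1 hn
        rw [hset] at h8
        exact mem_Icc.2 ⟨(hCm n h7).1, h8.1.2⟩
      have h7 := card_le_card h6
      rw [Nat.card_Icc, Nat.add_sub_cancel] at h7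
      have h8 : ((((J * (N + 1) - 1) / H : ℕ)) : ℝ) ≤ ((J * (N + 1) - 1 : ℕ) : ℝ) / H :=
        Nat.cast_div_le
      have h9 : ((J * (N + 1) - 1 : ℕ) : ℝ) ≤ J * (N + 1) := by
        have : ((J * (N + 1) - 1 : ℕ) : ℝ) ≤ ((J * (N + 1) : ℕ) : ℝ) := by
          exact_mod_cast Nat.sub_le _ _
        push_cast at this
        exact this
      calc (((cls 2 0 N).filter (fun n => n ∈ {n | Kp.R.cell H N n < J})).card : ℝ)
          ≤ (((J * (N + 1) - 1) / H : ℕ) : ℝ) := by exact_mod_cast h7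
        _ ≤ ((J * (N + 1) - 1 : ℕ) : ℝ) / H := h8
        _ ≤ J * (N + 1) / H := div_le_div_of_nonneg_right h9 hHr.le
    refine h5.trans ?_
    have h6 : (J : ℝ) * (N + 1) / H ≤ 8 * J / H * (N / 4) := by
      rw [div_mul_eq_mul_div]
      refine div_le_div_of_nonneg_right ?_ hHr.le
      nlinarith
    refine h6.trans ?_
    have h7 : (N : ℝ) / 4 ≤ (cls 2 0 N).card := by
      refine le_trans (le_of_eq ?_) hcard
      push_cast
      ring
    exact mul_le_mul hH1 h7 (by positivity) hθ0.le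
  have hθU : prop (S N) {n | Kp.R.cell H N n < J} ≤ 2 * θ := by
    have h5 := (abs_le.1 (h2 0 ((J * (N + 1) - 1) / H) 0)).2
    rw [hset] at hθV ⊢
    linarith
  have hreg0 : ∀ n h, 1 ≤ n → n + h ≤ N → W ∣ h →
      Kp.R.cell H N n = Kp.R.cell H N (n + h) → J ≤ Kp.R.cell H N n →
      |Val W K N a b φ (n + h) - Val W K N a b φ n| ≤ Λ * e := by
    intro n h hn hnh hWh hcell hJc
    refine (val_reg hK ha hb hn hnh hWh hC hΛ0 hφ).trans (mul_le_mul_of_nonneg_left ?_ hΛ0)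
    have h5 := reg_cell hH0 hcell hJc
    have h6 : (J : ℝ) * h ≤ n + h := by exact_mod_cast h5
    have h7 : (0 : ℝ) < (n : ℝ) + h := by
      have : (1 : ℝ) ≤ n := by exact_mod_cast hn
      positivity
    have h8 : ((K : ℝ) + 2) ≤ e * J := by
      rw [div_le_iff₀ hJr] at hJ1
      have : (K : ℝ) ≤ L := by exact_mod_cast hKL
      linarith
    rw [div_le_iff₀ h7]
    have h9 : (0 : ℝ) ≤ h := Nat.cast_nonneg h
    calc ((K : ℝ) + 2) * h ≤ e * J * h := mul_le_mul_of_nonneg_right h8 h9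
      _ = e * (J * h) := by ring
      _ ≤ e * (n + h) := mul_le_mul_of_nonneg_left h6 he0.le
  have hstep := step (N := N) (m := q * W) (q := q) hH0 (Nat.mul_pos hq hW) (dvd_mul_right q W)
    (F := fun n => Val W K N a b φ n - φ 0) (Λ := Λ) (e := e) (δ := δ) (θ := 2 * θ) hΛ0 hSm hCm
    h4.1 hCne (J := J)
    (fun n _ _ => by
      have h5 := val_bdd (W := W) (K := K) (N := N) (n := n) ha hb (le_refl (1 : ℝ)) hΛ0
        (fun x hx y hy => hφ x ⟨hx.1, hx.2.trans hC⟩ y ⟨hy.1, hy.2.trans hC⟩)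
      rwa [mul_one] at h5)
    (fun n n' hn hnN hn' hnN' hmod hcell hJc => by
      have e1 : Val W K N a b φ n - φ 0 - (Val W K N a b φ n' - φ 0) =
        Val W K N a b φ n - Val W K N a b φ n' := by ring
      rw [e1]
      have hmW : n ≡ n' [MOD W] := hmod.of_dvd (dvd_mul_left W q)
      rcases le_total n n' with h5 | h5
      · obtain ⟨h, rfl⟩ := Nat.exists_eq_add_of_le h5
        rw [abs_sub_comm]
        refine hreg0 n h hn hnN' ?_ hcell hJc
        have h6 := (Nat.modEq_iff_dvd' h5).1 hmW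
        rwa [Nat.add_sub_cancel_left] at h6
      · obtain ⟨h, rfl⟩ := Nat.exists_eq_add_of_le h5
        refine hreg0 n' h hn' hnN ?_ hcell.symm (hcell ▸ hJc)
        have h6 := (Nat.modEq_iff_dvd' h5).1 hmW.symm
        rwa [Nat.add_sub_cancel_left] at h6)
    he0.le hδ0.le (fun M₁ M₂ b => h1 W (mem_Icc.2 ⟨hW, hWL⟩) M₁ M₂ b) hθU
    (hθV.trans (by linarith)) M₁ M₂ c
  refine hstep.trans (mul_le_mul_of_nonneg_left ?_ hΛ0)
  have h5 : (H : ℝ) * ((q * W : ℕ) : ℝ) * δ ≤ ε / 4 := by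
    refine le_trans ?_ hδ1
    have h6 : ((q * W : ℕ) : ℝ) ≤ q * L := by exact_mod_cast Nat.mul_le_mul_left q hWL
    have h7 : (H : ℝ) * ((q * W : ℕ) : ℝ) ≤ H * (q * L) := mul_le_mul_of_nonneg_left h6 hHr.le
    exact mul_le_mul_of_nonneg_right h7 hδ0.le
  rw [he, hθ]
  linarith

end Pool.Agent.Lib.MP_629a14_nt.Ts
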