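import Pool.Agent.Lib.MP_629a14_nt.Ts.LawJ
import Pool.Agent.Lib.MP_629a14_nt.Ts.Reg
import Pool.Agent.Lib.MP_629a14_nt.Kr.Fin

/-! The rearrangement inequality on equidistributed tame sequences. -/

set_option autoImplicit false

namespace Pool.Agent.Lib.MP_629a14_nt.Ts

open Finset Filter Topology Pool.Agent.Lib.MP_629a14_nt
open Pool.Agent.Lib.MP_629a14_nt.Kp Pool.Agent.Lib.MP_629a14_nt.Kp.R

/-- The rearrangement inequality for arbitrary sets of primes, with `C ≥ 1` (compare `Kr/Fin`). -/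
theorem main1 : ∃ C : ℝ, 1 ≤ C ∧ (∀ (A B : Set ℕ) (n : ℕ), rho A B n ≤ C) ∧
    ∀ q : ℕ, 1 ≤ q → ∀ ε : ℝ, 0 < ε → ∃ L : ℕ, ∀ N : ℕ, L ≤ N → ∀ A B : Set ℕ, ∃ W K : ℕ,
      1 ≤ W ∧ W ≤ L ∧ 1 ≤ K ∧ K ≤ L ∧ q ∣ W ∧
      (∀ k r : ℕ, k < K → r < W → r.Coprime W →
        |dns (rea W K N A) W K N k r - dns A W K N k r| ≤ ε ∧
        |dns (rea W K N B) W K N k r - dns B W K N k r| ≤ ε) ∧
      ∀ (φ : ℝ → ℝ) (Λ : ℝ), ConvexOn ℝ (Set.Icc 0 C) φ →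
        (∀ x ∈ Set.Icc 0 C, ∀ y ∈ Set.Icc 0 C, |φ x - φ y| ≤ Λ * |x - y|) →
        ∀ c M₁ M₂ : ℕ, M₂ ≤ N →
          ∑ n ∈ (Icc M₁ M₂).filter (fun n => Even n ∧ n ≡ c [MOD q]), φ (rho A B n) ≤
            ∑ n ∈ (Icc M₁ M₂).filter (fun n => Even n ∧ n ≡ c [MOD q]),
              φ (rho (rea W K N A) (rea W K N B) n) + Λ * ε * N ∧
          |∑ n ∈ (Icc M₁ M₂).filter (fun n => Even n ∧ n ≡ c [MOD q]),
              φ (rho (rea W K N A) (rea W K N B) n) -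
            ∑ n ∈ (Icc M₁ M₂).filter (fun n => Even n ∧ n ≡ c [MOD q]),
              Val W K N (dns A W K N) (dns B W K N) φ n| ≤ Λ * ε * N := by
  classical
  obtain ⟨C₀, hC₀, hC₀'⟩ := rho_le'
  obtain ⟨C, hCe⟩ : ∃ C : ℝ, C = max C₀ 1 := ⟨_, rfl⟩
  have hC1 : 1 ≤ C := by
    rw [hCe]
    exact le_max_right _ _
  have hC : 0 < C := lt_of_lt_of_le one_pos hC1
  have hC' : ∀ (A B : Set ℕ) (n : ℕ), rho A B n ≤ C := fun A B n => by
    rw [hCe]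
    exact (hC₀' A B n).trans (le_max_left _ _)
  refine ⟨C, hC1, hC', fun q hq ε hε => ?_⟩
  obtain ⟨H, hH⟩ := exists_nat_gt (32 * (C + 1) / ε)
  have hH0 : (0 : ℝ) < H := lt_trans (by positivity) hH
  have hH1 : 1 ≤ H := by exact_mod_cast hH0
  obtain ⟨L₁, hL₁⟩ := main_wS q H hq hH1 hC1 hC' (ε / 2) (by positivity)
  obtain ⟨L₂, hL₂⟩ := exists_nat_gt (32 * (C + 1) / ε)
  refine ⟨max L₁ (max L₂ 1), fun N hN A B => ?_⟩
  have hNa : L₁ ≤ N := (le_max_left _ _).trans hN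
  have hNb : L₂ ≤ N := (le_max_left _ _).trans ((le_max_right _ _).trans hN)
  have hNc : 1 ≤ N := (le_max_right _ _).trans ((le_max_right _ _).trans hN)
  obtain ⟨W, K, h1, h2, h3, h4, h5, hd, h6⟩ := hL₁ N hNa A B
  refine ⟨W, K, h1, h2.trans (le_max_left _ _), h3, h4.trans (le_max_left _ _), h5,
    fun k r hk hr hrc => ?_, fun φ Λ hφ hΛ c M₁ M₂ hM₂ => ?_⟩
  · obtain ⟨e1, e2⟩ := hd k r hk hr hrc
    exact ⟨e1.trans (by linarith), e2.trans (by linarith)⟩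
  have hΛ0 : 0 ≤ Λ := by
    have e1 := hΛ 0 ⟨le_rfl, hC.le⟩ C ⟨hC.le, le_rfl⟩
    rw [zero_sub, abs_neg, abs_of_pos hC] at e1
    have e2 := (abs_nonneg _).trans e1
    by_contra e3
    push Not at e3
    nlinarith
  have hs : ∀ l r, 0 ≤ wt H N q c M₁ M₂ l r ∧ wt H N q c M₁ M₂ l r ≤ 1 := by
    intro l r
    unfold wt
    split_ifs <;> norm_num
  obtain ⟨g1, g1'⟩ := h6 (wt H N q c M₁ M₂) hs φ Λ hφ hΛ
  have hb : ∀ A B : Set ℕ, ∀ n, |φ (rho A B n) - φ 0| ≤ Λ * C := fun A B n => by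
    refine (hΛ _ ⟨rho_nonneg A B n, hC' A B n⟩ 0 ⟨le_rfl, hC.le⟩).trans ?_
    rw [sub_zero, abs_of_nonneg (rho_nonneg A B n)]
    exact mul_le_mul_of_nonneg_left (hC' A B n) hΛ0
  have g2 := (abs_le.1 (sum_close (W := W) hH1 h5 (fun n => φ (rho A B n) - φ 0) (hb A B) c M₁ M₂
    hM₂)).2
  have g3 := (abs_le.1 (sum_close (W := W) hH1 h5
    (fun n => φ (rho (rea W K N A) (rea W K N B) n) - φ 0) (hb _ _) c M₁ M₂ hM₂)).1
  have g3' := (abs_le.1 (sum_close (W := W) hH1 h5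
    (fun n => φ (rho (rea W K N A) (rea W K N B) n) - φ 0) (hb _ _) c M₁ M₂ hM₂)).2
  have hb' : ∀ n, |Val W K N (dns A W K N) (dns B W K N) φ n - φ 0| ≤ Λ * C := fun n =>
    val_bdd (fun k r => dns_mem A W K N k r) (fun k r => dns_mem B W K N k r) hC1 hΛ0 hΛ
  have g9 := abs_le.1 (sum_close (W := W) hH1 h5
    (fun n => Val W K N (dns A W K N) (dns B W K N) φ n - φ 0) hb' c M₁ M₂ hM₂)
  obtain ⟨g9, g9'⟩ := g9
  rw [wS_sub, sum_sub_distrib] at g2 g3 g3' g9 g9'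
  have hNr : (1 : ℝ) ≤ N := by exact_mod_cast hNc
  have g4 : C * (2 * (((N : ℝ) + 1) / H + 1) + 1) ≤ ε / 4 * N := by
    have e1 : (C + 1) / H ≤ ε / 32 := by
      rw [div_le_iff₀ hH0]
      rw [div_lt_iff₀ hε] at hH
      linarith
    have e2 : C + 1 ≤ ε / 32 * N := by
      have e3 : (L₂ : ℝ) ≤ N := by exact_mod_cast hNb
      rw [div_lt_iff₀ hε] at hL₂
      nlinarith
    have e3 : C * (((N : ℝ) + 1) / H) ≤ ε / 16 * N := by
      calc C * (((N : ℝ) + 1) / H) = C / H * (N + 1) := by ring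
        _ ≤ (C + 1) / H * (N + 1) := by gcongr; linarith
        _ ≤ ε / 32 * (N + 1) := mul_le_mul_of_nonneg_right e1 (by positivity)
        _ ≤ ε / 16 * N := by nlinarith
    have e4 : C * (2 * (((N : ℝ) + 1) / H + 1) + 1) =
        2 * (C * (((N : ℝ) + 1) / H)) + 3 * C := by ring
    rw [e4]
    linarith
  have g5 := mul_le_mul_of_nonneg_left g4 hΛ0
  refine ⟨by linarith, ?_⟩
  rw [abs_le] at g1' ⊢
  obtain ⟨g10, g11⟩ := g1'
  have e5 : ∀ x : ℝ, wS W H N (wt H N q c M₁ M₂) (fun n => x) =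
      wS W H N (wt H N q c M₁ M₂) (fun _ => x) := fun _ => rfl
  constructor <;> linarith


theorem mf_const {U : Finset ℕ} (hU : U.Nonempty) (M₁ M₂ q b : ℕ) (f : ℕ → ℝ) (x : ℝ) :
    mf U M₁ M₂ q b (fun n => f n - x) * U.card =
      ∑ n ∈ U.filter (In M₁ M₂ q b), f n - x * ((U.filter (In M₁ M₂ q b)).card : ℝ) := by
  have hc : (0 : ℝ) < U.card := by exact_mod_cast hU.card_pos
  unfold mf
  rw [div_mul_cancel₀ _ hc.ne', sum_sub_distrib, sum_const, nsmul_eq_mul, mul_comm x]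

theorem cls_filter {N M₁ M₂ q c : ℕ} (hM : M₂ ≤ N) :
    (cls 2 0 N).filter (In M₁ M₂ q c) =
      (Icc (max M₁ 1) M₂).filter (fun n => Even n ∧ n ≡ c [MOD q]) := by
  ext n
  unfold cls
  simp only [mem_filter, mem_Icc, In]
  rw [show (n ≡ 0 [MOD 2]) ↔ Even n from by
    rw [Nat.even_iff]
    rfl]
  constructor
  · rintro ⟨⟨⟨h1, h2⟩, h3⟩, ⟨h4, h5⟩, h6⟩
    exact ⟨⟨by omega, h5⟩, h3, h6⟩
  · rintro ⟨⟨h1, h2⟩, h3, h4⟩
    exact ⟨⟨⟨by omega, by omega⟩, h3⟩, ⟨by omega, h2⟩, h4⟩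

theorem rmain : ∃ C : ℝ, 0 < C ∧ (∀ (A B : Set ℕ) (n : ℕ), rho A B n ≤ C) ∧
    ∀ q : ℕ, 1 ≤ q → ∀ ε : ℝ, 0 < ε → ∃ L : ℕ, ∀ S : ℕ → Finset ℕ, Equi 2 0 S → Tm S →
      ∀ᶠ N : ℕ in atTop, ∀ A B : Set ℕ, ∃ W K : ℕ,
      1 ≤ W ∧ W ≤ L ∧ 1 ≤ K ∧ K ≤ L ∧ q ∣ W ∧
      (∀ k r : ℕ, k < K → r < W → r.Coprime W →
        |dns (rea W K N A) W K N k r - dns A W K N k r| ≤ ε ∧
        |dns (rea W K N B) W K N k r - dns B W K N k r| ≤ ε) ∧
      ∀ (φ : ℝ → ℝ) (Λ : ℝ), ConvexOn ℝ (Set.Icc 0 C) φ →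
        (∀ x ∈ Set.Icc 0 C, ∀ y ∈ Set.Icc 0 C, |φ x - φ y| ≤ Λ * |x - y|) →
        ∀ c M₁ M₂ : ℕ, M₂ ≤ N →
          ∑ n ∈ (S N).filter (In M₁ M₂ q c), φ (rho A B n) ≤
            ∑ n ∈ (S N).filter (In M₁ M₂ q c),
              φ (rho (rea W K N A) (rea W K N B) n) + Λ * ε * (S N).card ∧
          |∑ n ∈ (S N).filter (In M₁ M₂ q c), φ (rho (rea W K N A) (rea W K N B) n) -
            ∑ n ∈ (S N).filter (In M₁ M₂ q c),
              Val W K N (dns A W K N) (dns B W K N) φ n| ≤ Λ * ε * (S N).card := by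
  classical
  obtain ⟨C, hC1, hC', hmain⟩ := main1
  have hC : 0 < C := lt_of_lt_of_le one_pos hC1
  refine ⟨C, hC, hC', fun q hq ε hε => ?_⟩
  obtain ⟨L, hL⟩ := hmain q hq (ε / 12) (by positivity)
  refine ⟨L, fun S hE hT => ?_⟩
  filter_upwards [eventually_ge_atTop L, rho_close (le_refl 1 |>.trans one_le_two) hE hT q hq hC
    hC' (ε / 4) (by positivity), val_close hE q hq L hC1 (ε / 4) (by positivity),
    cls_card one_le_two 0, cls_pos one_le_two 0, hE.2 1 one_pos] with N hN h1 h2 h3 h4 h5 A B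
  obtain ⟨W, K, w1, w2, w3, w4, w5, hd, h6⟩ := hL N hN A B
  refine ⟨W, K, w1, w2, w3, w4, w5, fun k r hk hr hrc => ?_, fun φ Λ hφ hΛ c M₁ M₂ hM₂ => ?_⟩
  · obtain ⟨e1, e2⟩ := hd k r hk hr hrc
    exact ⟨e1.trans (by linarith), e2.trans (by linarith)⟩
  have hΛ0 := lip_nonneg hC hΛ
  have hcl : (0 : ℝ) < (cls 2 0 N).card := by exact_mod_cast h4
  have hSc : (0 : ℝ) < (S N).card := by exact_mod_cast h5.1.card_pos
  have hNc : (N : ℝ) / 4 ≤ (cls 2 0 N).card := by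
    have := h3.2
    norm_num at this ⊢
    exact this
  obtain ⟨g1, g2⟩ := h6 φ Λ hφ hΛ c (max M₁ 1) M₂ hM₂
  rw [← cls_filter hM₂] at g1 g2
  -- means over the class
  have hN0 : (N : ℝ) ≤ 4 * (cls 2 0 N).card := by linarith
  have hN1 : Λ * (ε / 12) * N ≤ Λ * (ε / 3) * (cls 2 0 N).card := by
    calc Λ * (ε / 12) * N ≤ Λ * (ε / 12) * (4 * (cls 2 0 N).card) :=
          mul_le_mul_of_nonneg_left hN0 (by positivity)
      _ = _ := by ring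
  have a1 : mf (cls 2 0 N) M₁ M₂ q c (fun n => φ (rho A B n) - φ 0) ≤
      mf (cls 2 0 N) M₁ M₂ q c (fun n => φ (rho (rea W K N A) (rea W K N B) n) - φ 0) +
        Λ * (ε / 3) := by
    have e1 := mf_const (card_pos.1 h4) M₁ M₂ q c (fun n => φ (rho A B n)) (φ 0)
    have e2 := mf_const (card_pos.1 h4) M₁ M₂ q c
      (fun n => φ (rho (rea W K N A) (rea W K N B) n)) (φ 0)
    refine le_of_mul_le_mul_right ?_ hcl
    rw [add_mul, e1, e2]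
    linarith
  have a2 : |mf (cls 2 0 N) M₁ M₂ q c (fun n => φ (rho (rea W K N A) (rea W K N B) n) - φ 0) -
      mf (cls 2 0 N) M₁ M₂ q c (fun n => Val W K N (dns A W K N) (dns B W K N) φ n - φ 0)| ≤
        Λ * (ε / 3) := by
    have e1 := mf_const (card_pos.1 h4) M₁ M₂ q c
      (fun n => φ (rho (rea W K N A) (rea W K N B) n)) (φ 0)
    have e2 := mf_const (card_pos.1 h4) M₁ M₂ q c
      (fun n => Val W K N (dns A W K N) (dns B W K N) φ n) (φ 0)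
    rw [abs_le] at g2 ⊢
    constructor
    · refine le_of_mul_le_mul_right ?_ hcl
      rw [sub_mul, e1, e2]
      linarith [g2.1]
    · refine le_of_mul_le_mul_right ?_ hcl
      rw [sub_mul, e1, e2]
      linarith [g2.2]
  -- the transfer
  have b1 := h1 A B φ Λ hΛ M₁ M₂ c
  have b2 := h1 (rea W K N A) (rea W K N B) φ Λ hΛ M₁ M₂ c
  have b3 := h2 W K w1 w2 w3 w4 (dns A W K N) (dns B W K N) (fun k r => dns_mem A W K N k r)
    (fun k r => dns_mem B W K N k r) φ Λ hΛ M₁ M₂ c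
  have e1 := mf_const h5.1 M₁ M₂ q c (fun n => φ (rho A B n)) (φ 0)
  have e2 := mf_const h5.1 M₁ M₂ q c (fun n => φ (rho (rea W K N A) (rea W K N B) n)) (φ 0)
  have e3 := mf_const h5.1 M₁ M₂ q c
    (fun n => Val W K N (dns A W K N) (dns B W K N) φ n) (φ 0)
  rw [abs_le] at b1 b2 b3 a2
  constructor
  · have f1 : mf (S N) M₁ M₂ q c (fun n => φ (rho A B n) - φ 0) ≤
        mf (S N) M₁ M₂ q c (fun n => φ (rho (rea W K N A) (rea W K N B) n) - φ 0) + Λ * ε := by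
      nlinarith [b1.1, b1.2, b2.1, b2.2]
    have f2 := mul_le_mul_of_nonneg_right f1 hSc.le
    rw [add_mul, e1, e2] at f2
    linarith
  · have f1 : |mf (S N) M₁ M₂ q c (fun n => φ (rho (rea W K N A) (rea W K N B) n) - φ 0) -
        mf (S N) M₁ M₂ q c (fun n => Val W K N (dns A W K N) (dns B W K N) φ n - φ 0)| ≤
          Λ * ε := by
      rw [abs_le]
      constructor <;> nlinarith [b2.1, b2.2, b3.1, b3.2, a2.1, a2.2]
    rw [abs_le] at f1 ⊢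
    have f2 := mul_le_mul_of_nonneg_right f1.1 hSc.le
    have f3 := mul_le_mul_of_nonneg_right f1.2 hSc.le
    rw [sub_mul, e2, e3] at f2 f3
    constructor <;> linarith

end Pool.Agent.Lib.MP_629a14_nt.Ts
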