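import Pool.Agent.Lib.MP_629a14_nt.Ts.SidonA
import Pool.Agent.Lib.MP_629a14_nt.Ts.Mem

/-! (m4) Every sequence of asymptotically densest Sidon sets in a residue class is equidistributed
and tame. -/

set_option autoImplicit false

namespace Pool.Agent.Lib.MP_629a14_nt.Ts

open Finset Filter Topology Pool.Agent.Lib.MP_629a14_nt

namespace Sd

/-- The length of the window. -/
noncomputable def win (M : ℕ) : ℕ := ⌈(M : ℝ) ^ (3 / 4 : ℝ)⌉₊

private theorem small_pow : Tendsto (fun M : ℕ => (M : ℝ) ^ (-(1 / 4) : ℝ)) atTop (𝓝 0) :=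
  (tendsto_rpow_neg_atTop (by norm_num : (0 : ℝ) < 1 / 4)).comp tendsto_natCast_atTop_atTop

private theorem one_div_tendsto : Tendsto (fun M : ℕ => 1 / (M : ℝ)) atTop (𝓝 0) :=
  tendsto_one_div_atTop_nhds_zero_nat

private theorem lim_x : Tendsto (fun M : ℕ => (win M : ℝ) / M) atTop (𝓝 0) := by
  have h1 : Tendsto (fun M : ℕ => (M : ℝ) ^ (-(1 / 4) : ℝ) + 1 / (M : ℝ)) atTop (𝓝 (0 + 0)) :=
    small_pow.add one_div_tendsto
  rw [add_zero] at h1
  refine squeeze_zero' (Eventually.of_forall fun M => by positivity) ?_ h1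
  filter_upwards [eventually_ge_atTop 1] with M hM
  have hM0 : (0 : ℝ) < M := by exact_mod_cast hM
  have h2 : (win M : ℝ) ≤ (M : ℝ) ^ (3 / 4 : ℝ) + 1 :=
    (Nat.ceil_lt_add_one (by positivity)).le
  have h3 : (M : ℝ) ^ (-(1 / 4) : ℝ) = (M : ℝ) ^ (3 / 4 : ℝ) / M := by
    rw [show (-(1 / 4) : ℝ) = 3 / 4 - 1 by norm_num, Real.rpow_sub_one hM0.ne']
  rw [h3, ← add_div]
  exact div_le_div_of_nonneg_right h2 hM0.le

private theorem lim_y : Tendsto (fun M : ℕ => Real.sqrt M / (win M : ℝ)) atTop (𝓝 0) := by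
  refine squeeze_zero' (Eventually.of_forall fun M => by positivity) ?_ small_pow
  filter_upwards [eventually_ge_atTop 1] with M hM
  have hM0 : (0 : ℝ) < M := by exact_mod_cast hM
  have h2 : (M : ℝ) ^ (3 / 4 : ℝ) ≤ win M := Nat.le_ceil _
  have h3 : (0 : ℝ) < (M : ℝ) ^ (3 / 4 : ℝ) := by positivity
  calc Real.sqrt M / (win M : ℝ) ≤ Real.sqrt M / (M : ℝ) ^ (3 / 4 : ℝ) :=
        div_le_div_of_nonneg_left (Real.sqrt_nonneg _) h3 h2
    _ = _ := by
        rw [Real.sqrt_eq_rpow, ← Real.rpow_sub hM0]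
        norm_num

private theorem lim_sqrt : Tendsto (fun M : ℕ => Real.sqrt (1 / (M : ℝ))) atTop (𝓝 0) := by
  have h1 : Tendsto (fun M : ℕ => Real.sqrt (1 / (M : ℝ))) atTop (𝓝 (Real.sqrt 0)) :=
    (Real.continuous_sqrt.tendsto 0).comp one_div_tendsto
  rwa [Real.sqrt_zero] at h1

private theorem lim_w : Tendsto (fun M : ℕ =>
    2 * (1 + Real.sqrt (2 * (win M : ℝ) + 1)) / Real.sqrt M) atTop (𝓝 0) := by
  have h1 : Tendsto (fun M : ℕ => 2 * (Real.sqrt (1 / (M : ℝ)) +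
      Real.sqrt (2 * ((win M : ℝ) / M) + 1 / (M : ℝ)))) atTop (𝓝 (2 * (0 + Real.sqrt (2 * 0 + 0)))) := by
    refine Tendsto.const_mul 2 (lim_sqrt.add ?_)
    exact (Real.continuous_sqrt.tendsto _).comp ((lim_x.const_mul 2).add one_div_tendsto)
  have h2 : 2 * ((0 : ℝ) + Real.sqrt (2 * 0 + 0)) = 0 := by simp
  rw [h2] at h1
  refine h1.congr' ?_
  filter_upwards [eventually_ge_atTop 1] with M hM
  have hM0 : (0 : ℝ) < M := by exact_mod_cast hM
  have h3 : 2 * ((win M : ℝ) / M) + 1 / (M : ℝ) = (2 * (win M : ℝ) + 1) / M := by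
    field_simp
  rw [h3, Real.sqrt_div (by positivity) (M : ℝ), Real.sqrt_div (by positivity) (M : ℝ),
    Real.sqrt_one]
  ring

/-- The bound of `core`, normalised. -/
noncomputable def bnd (x y w q : ℝ) : ℝ :=
  (1 + x) / q ^ 2 * (2 * (q * y) + (1 + (|1 - q ^ 2| + 2 * (q * w) + q ^ 2 * x))) - 1

theorem bnd_tendsto {ι : Type*} {l : Filter ι} {x y w q : ι → ℝ} (hx : Tendsto x l (𝓝 0))
    (hy : Tendsto y l (𝓝 0)) (hw : Tendsto w l (𝓝 0)) (hq : Tendsto q l (𝓝 1)) :
    Tendsto (fun i => bnd (x i) (y i) (w i) (q i)) l (𝓝 0) := by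
  have hq2 : Tendsto (fun i => q i ^ 2) l (𝓝 1) := by simpa using hq.pow 2
  have h1 : Tendsto (fun i => (1 + x i) / q i ^ 2) l (𝓝 ((1 + 0) / 1)) :=
    (hx.const_add 1).div hq2 one_ne_zero
  have h2 : Tendsto (fun i => 2 * (q i * y i)) l (𝓝 (2 * (1 * 0))) := (hq.mul hy).const_mul 2
  have h3 : Tendsto (fun i => |1 - q i ^ 2|) l (𝓝 |1 - 1|) := (hq2.const_sub 1).abs
  have h4 : Tendsto (fun i => 2 * (q i * w i)) l (𝓝 (2 * (1 * 0))) := (hq.mul hw).const_mul 2
  have h5 : Tendsto (fun i => q i ^ 2 * x i) l (𝓝 (1 * 0)) := hq2.mul hx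
  have h6 := (h1.mul (h2.add (((h3.add h4).add h5).const_add 1))).sub_const 1
  have h7 : (1 + 0) / 1 * (2 * (1 * 0) + (1 + (|(1 : ℝ) - 1| + 2 * (1 * 0) + 1 * 0))) - 1 =
      (0 : ℝ) := by simp
  rw [h7] at h6
  exact h6

/-- `core` divided by `u ^ 2 a ^ 2`. -/
theorem core_bnd (M : ℕ) (hM : 1 ≤ M) {A : Finset ℕ} (hA : Sidon A) (h : ∀ n ∈ A, n < M)
    (hne : A.Nonempty) (t : ℝ) :
    (‖∑ n ∈ A, ee (t * n) - ((A.card : ℝ) / M : ℝ) * ∑ n ∈ range M, ee (t * n)‖ / A.card) ^ 2 ≤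
      bnd ((win M : ℝ) / M) (Real.sqrt M / (win M : ℝ))
        (2 * (1 + Real.sqrt (2 * (win M : ℝ) + 1)) / Real.sqrt M)
        ((A.card : ℝ) / Real.sqrt M) := by
  have hM0 : (0 : ℝ) < M := by exact_mod_cast hM
  have ha0 : (0 : ℝ) < A.card := by exact_mod_cast card_pos.2 hne
  have hu0 : (0 : ℝ) < win M := by
    have h2 : (M : ℝ) ^ (3 / 4 : ℝ) ≤ win M := Nat.le_ceil _
    have h3 : (0 : ℝ) < (M : ℝ) ^ (3 / 4 : ℝ) := by positivity
    linarith
  have h1 := core M (win M) hM hA h t A.card _ _ rfl rfl rfl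
  set a : ℝ := (A.card : ℝ)
  set u : ℝ := (win M : ℝ)
  set B : ℝ := 2 * (1 + Real.sqrt (2 * u + 1))
  set X : ℝ := ‖∑ n ∈ A, ee (t * n) - (a / M : ℝ) * ∑ n ∈ range M, ee (t * n)‖
  have hs0 : 0 < Real.sqrt M := Real.sqrt_pos.2 hM0
  have hs2 : Real.sqrt M ^ 2 = M := Real.sq_sqrt hM0.le
  have h2 : bnd (u / M) (Real.sqrt M / u) (B / Real.sqrt M) (a / Real.sqrt M) =
      (((M : ℝ) + u) * (2 * u * a + (1 + (|1 - a ^ 2 / M| + 2 * a * B / M + a ^ 2 * u / M ^ 2)) *
        u ^ 2) - a ^ 2 * u ^ 2) / (u ^ 2 * a ^ 2) := by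
    unfold bnd
    have e1 : (a / Real.sqrt M) ^ 2 = a ^ 2 / M := by rw [div_pow, hs2]
    have e2 : a / Real.sqrt M * (Real.sqrt M / u) = a / u := by field_simp
    have e3 : a / Real.sqrt M * (B / Real.sqrt M) = a * B / M := by
      rw [div_mul_div_comm, ← sq, hs2]
    rw [e1, e2, e3]
    field_simp
  rw [h2, le_div_iff₀ (by positivity), div_pow]
  have h3 : X ^ 2 / a ^ 2 * (u ^ 2 * a ^ 2) = u ^ 2 * X ^ 2 := by field_simp
  rw [h3]
  exact h1

/-- The least positive member of the class. -/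
private def c0 (W c : ℕ) : ℕ := (c + (W - 1)) % W + 1

private theorem c0_mod {W : ℕ} (hW : 1 ≤ W) (c : ℕ) : c0 W c ≡ c [MOD W] := by
  unfold c0
  have h1 : (c + (W - 1)) % W + 1 ≡ c + (W - 1) + 1 [MOD W] :=
    Nat.ModEq.add_right _ (Nat.mod_modEq _ _)
  refine h1.trans ?_
  have h2 : c + (W - 1) + 1 = c + W := by omega
  rw [h2]
  unfold Nat.ModEq
  simp

private theorem c0_le {W : ℕ} (hW : 1 ≤ W) (c : ℕ) : 1 ≤ c0 W c ∧ c0 W c ≤ W := by
  unfold c0
  have := Nat.mod_lt (c + (W - 1)) hW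
  omega

private theorem cls_image {W : ℕ} (hW : 1 ≤ W) (c N : ℕ) :
    cls W c N = (range ((N + W - c0 W c) / W)).image (fun i => c0 W c + W * i) := by
  have h1 := c0_le hW c
  ext n
  rw [mem_cls, mem_image]
  constructor
  · rintro ⟨⟨h2, h3⟩, h4⟩
    have h5 : c0 W c ≡ n [MOD W] := (c0_mod hW c).trans h4.symm
    have h6 : c0 W c ≤ n := by
      by_contra h7
      push Not at h7
      have h8 := (Nat.modEq_iff_dvd' h7.le).1 h5.symm
      have h9 := Nat.le_of_dvd (by omega) h8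
      omega
    obtain ⟨i, hi⟩ := (Nat.modEq_iff_dvd' h6).1 h5
    refine ⟨i, ?_, by omega⟩
    rw [mem_range, Nat.lt_iff_add_one_le, Nat.le_div_iff_mul_le (by omega)]
    have : (i + 1) * W = W * i + W := by ring
    omega
  · rintro ⟨i, hi, rfl⟩
    rw [mem_range, Nat.lt_iff_add_one_le, Nat.le_div_iff_mul_le (by omega)] at hi
    have h2 : (i + 1) * W = W * i + W := by ring
    refine ⟨⟨by omega, by omega⟩, ?_⟩
    have h3 : c0 W c + W * i ≡ c0 W c [MOD W] := by
      unfold Nat.ModEq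
      simp
    exact h3.trans (c0_mod hW c)

private theorem inj_aff {W : ℕ} (hW : 1 ≤ W) (b : ℕ) :
    Function.Injective (fun i : ℕ => b + W * i) := by
  intro i j hij
  simp only at hij
  exact Nat.eq_of_mul_eq_mul_left hW (by omega : W * i = W * j)

private theorem card_cls_eq {W : ℕ} (hW : 1 ≤ W) (c N : ℕ) :
    (cls W c N).card = (N + W - c0 W c) / W := by
  rw [cls_image hW c N, card_image_of_injective _ (inj_aff hW _), card_range]

private theorem card_cls_le {W : ℕ} (hW : 1 ≤ W) (c N : ℕ) :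
    ((cls W c N).card : ℝ) ≤ (N : ℝ) / W + 1 := by
  rw [card_cls_eq hW c N]
  have hW0 : (0 : ℝ) < W := by exact_mod_cast hW
  calc (((N + W - c0 W c) / W : ℕ) : ℝ) ≤ ((N + W - c0 W c : ℕ) : ℝ) / W := Nat.cast_div_le
    _ ≤ ((N + W : ℕ) : ℝ) / W := by
        refine div_le_div_of_nonneg_right ?_ hW0.le
        exact_mod_cast Nat.sub_le _ _
    _ = _ := by
        push_cast
        field_simp

/-- The means of a Sidon subset of the class. -/
theorem mu_bnd {W : ℕ} (hW : 1 ≤ W) (c N : ℕ) {S : Finset ℕ} (hS : S ⊆ cls W c N)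
    (hSid : Sidon S) (hne : S.Nonempty) (t : ℝ) :
    ‖mu S t - mu (cls W c N) t‖ ^ 2 ≤
      bnd ((win (cls W c N).card : ℝ) / (cls W c N).card)
        (Real.sqrt (cls W c N).card / (win (cls W c N).card : ℝ))
        (2 * (1 + Real.sqrt (2 * (win (cls W c N).card : ℝ) + 1)) /
          Real.sqrt (cls W c N).card)
        ((S.card : ℝ) / Real.sqrt (cls W c N).card) := by
  classical
  set M := (cls W c N).card with hMdef
  have hM1 : 1 ≤ M := card_pos.2 (hne.mono hS)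
  have hM0 : (0 : ℝ) < M := by exact_mod_cast hM1
  set b := c0 W c with hb
  have himg : cls W c N = (range M).image (fun i => b + W * i) := by
    rw [hMdef, card_cls_eq hW c N]
    exact cls_image hW c N
  set A := (range M).filter (fun i => b + W * i ∈ S) with hA
  have hSA : S = A.image (fun i => b + W * i) := by
    ext n
    rw [mem_image]
    constructor
    · intro hn
      have h1 := hS hn
      rw [himg, mem_image] at h1
      obtain ⟨i, hi, rfl⟩ := h1
      exact ⟨i, mem_filter.2 ⟨hi, hn⟩, rfl⟩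
    · rintro ⟨i, hi, rfl⟩
      exact (mem_filter.1 hi).2
  have hinj := inj_aff hW b
  have hcard : S.card = A.card := by
    conv_lhs => rw [hSA]
    exact card_image_of_injective _ hinj
  have hAne : A.Nonempty := by
    rw [← card_pos, ← hcard]
    exact card_pos.2 hne
  have ha0 : (0 : ℝ) < A.card := by exact_mod_cast card_pos.2 hAne
  have hASid : Sidon A := by
    intro x hx y hy z hz v hv hs
    have h1 : ∀ i ∈ A, b + W * i ∈ S := fun i hi => (mem_filter.1 hi).2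
    have h2 : b + W * x + (b + W * y) = b + W * z + (b + W * v) := by
      have : W * (x + y) = W * (z + v) := by rw [hs]
      rw [mul_add, mul_add] at this
      omega
    rcases hSid _ (h1 x hx) _ (h1 y hy) _ (h1 z hz) _ (h1 v hv) h2 with h | h
    · exact Or.inl ⟨hinj h.1, hinj h.2⟩
    · exact Or.inr ⟨hinj h.1, hinj h.2⟩
  have hsum : ∀ (T : Finset ℕ) , ∑ n ∈ T.image (fun i => b + W * i), ee (t * n) =
      ee (t * b) * ∑ i ∈ T, ee (t * W * i) := by
    intro T
    rw [sum_image (fun x _ y _ h => hinj h), mul_sum]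
    refine sum_congr rfl fun i _ => ?_
    rw [← ee_add]
    congr 1
    push_cast
    ring
  have h1 := core_bnd M hM1 hASid (fun n hn => mem_range.1 (mem_filter.1 hn).1) hAne (t * W)
  rw [hcard]
  refine le_trans (le_of_eq ?_) h1
  congr 1
  have h2 : mu S t - mu (cls W c N) t = ee (t * b) *
      ((∑ n ∈ A, ee (t * W * n) - ((A.card : ℝ) / M : ℝ) * ∑ n ∈ range M, ee (t * W * n)) /
        (A.card : ℂ)) := by
    unfold mu
    rw [← hMdef, hcard]
    conv_lhs => rw [hSA, himg]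
    rw [hsum, hsum]
    have hac : (A.card : ℂ) ≠ 0 := by exact_mod_cast ha0.ne'
    have hMc : (M : ℂ) ≠ 0 := by exact_mod_cast hM0.ne'
    push_cast
    field_simp
  rw [h2, norm_mul, norm_ee, one_mul, norm_div, Complex.norm_natCast]

private theorem card_ratio {W : ℕ} (hW : 1 ≤ W) (c : ℕ) :
    Tendsto (fun N : ℕ => ((cls W c N).card : ℝ) / ((N : ℝ) / W)) atTop (𝓝 1) := by
  have hW0 : (0 : ℝ) < W := by exact_mod_cast hW
  have h1 : Tendsto (fun N : ℕ => 1 - W * (1 / (N : ℝ))) atTop (𝓝 (1 - W * 0)) :=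
    (one_div_tendsto.const_mul (W : ℝ)).const_sub 1
  have h2 : Tendsto (fun N : ℕ => 1 + W * (1 / (N : ℝ))) atTop (𝓝 (1 + W * 0)) :=
    (one_div_tendsto.const_mul (W : ℝ)).const_add 1
  rw [mul_zero, sub_zero] at h1
  rw [mul_zero, add_zero] at h2
  refine tendsto_of_tendsto_of_tendsto_of_le_of_le' h1 h2 ?_ ?_
  · filter_upwards [eventually_ge_atTop 1] with N hN
    have hN0 : (0 : ℝ) < N := by exact_mod_cast hN
    rw [le_div_iff₀ (by positivity)]
    have h3 := card_cls_ge hW c N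
    have h4 : (1 - W * (1 / (N : ℝ))) * (N / W) = N / W - 1 := by field_simp
    rw [h4]
    exact h3
  · filter_upwards [eventually_ge_atTop 1] with N hN
    have hN0 : (0 : ℝ) < N := by exact_mod_cast hN
    rw [div_le_iff₀ (by positivity)]
    have h3 := card_cls_le hW c N
    have h4 : (1 + W * (1 / (N : ℝ))) * (N / W) = N / W + 1 := by field_simp
    rw [h4]
    exact h3

private theorem card_tendsto {W : ℕ} (hW : 1 ≤ W) (c : ℕ) :
    Tendsto (fun N : ℕ => (cls W c N).card) atTop atTop := by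
  refine tendsto_atTop_mono (fun N => div_le_card_cls hW c N) ?_
  exact Nat.tendsto_div_const_atTop (by omega)

private theorem ratio_tendsto {W : ℕ} (hW : 1 ≤ W) (c : ℕ) {S : ℕ → Finset ℕ}
    (hd : Tendsto (fun N : ℕ => ((S N).card : ℝ) / Real.sqrt ((N : ℝ) / W)) atTop (𝓝 1)) :
    Tendsto (fun N : ℕ => ((S N).card : ℝ) / Real.sqrt (cls W c N).card) atTop (𝓝 1) := by
  have hW0 : (0 : ℝ) < W := by exact_mod_cast hW
  have h1 : Tendsto (fun N : ℕ => Real.sqrt (((cls W c N).card : ℝ) / ((N : ℝ) / W))) atTop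
      (𝓝 (Real.sqrt 1)) := (Real.continuous_sqrt.tendsto 1).comp (card_ratio hW c)
  rw [Real.sqrt_one] at h1
  have h2 := hd.div h1 one_ne_zero
  rw [div_one] at h2
  refine h2.congr' ?_
  filter_upwards [eventually_ge_atTop W, eventually_ge_atTop 1] with N hN hN1
  have hN0 : (0 : ℝ) < N := by exact_mod_cast hN1
  have hc : (0 : ℝ) < (cls W c N).card := by
    exact_mod_cast card_pos.2 (cls_nonempty hW c N hN)
  simp only [Pi.div_apply]
  rw [Real.sqrt_div hc.le]
  have h3 : 0 < Real.sqrt ((N : ℝ) / W) := Real.sqrt_pos.2 (by positivity)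
  have h4 : 0 < Real.sqrt ((cls W c N).card : ℝ) := Real.sqrt_pos.2 hc
  field_simp

private theorem ener_sidon {S : Finset ℕ} (hS : Sidon S) : ener S 2 ≤ 2 * S.card ^ 2 := by
  classical
  unfold ener
  set P := Fintype.piFinset (fun _ : Fin 2 => S) with hP
  have hcard : P.card = S.card ^ 2 := by
    rw [hP, Fintype.card_piFinset]
    simp
  have hsub : (P ×ˢ P).filter (fun xy : (Fin 2 → ℕ) × (Fin 2 → ℕ) => ∑ j, xy.1 j = ∑ j, xy.2 j) ⊆
      P.image (fun x => (x, x)) ∪ P.image (fun x => (x, fun j => x (Equiv.swap 0 1 j))) := by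
    rintro ⟨x, y⟩ hxy
    rw [mem_filter, mem_product] at hxy
    obtain ⟨⟨hx, hy⟩, hs⟩ := hxy
    simp only [Fin.sum_univ_two] at hs
    have hx' := Fintype.mem_piFinset.1 hx
    have hy' := Fintype.mem_piFinset.1 hy
    rw [mem_union, mem_image, mem_image]
    rcases hS (x 0) (hx' 0) (x 1) (hx' 1) (y 0) (hy' 0) (y 1) (hy' 1) hs with h | h
    · left
      refine ⟨x, hx, Prod.ext rfl ?_⟩
      funext j
      fin_cases j
      · exact h.1
      · exact h.2
    · right
      refine ⟨x, hx, Prod.ext rfl ?_⟩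
      funext j
      fin_cases j
      · simpa using h.2
      · simpa using h.1
  calc _ ≤ _ := card_le_card hsub
    _ ≤ (P.image (fun x => (x, x))).card +
        (P.image (fun x => (x, fun j => x (Equiv.swap 0 1 j)))).card := card_union_le _ _
    _ ≤ P.card + P.card := add_le_add card_image_le card_image_le
    _ = _ := by rw [hcard]; ring

end Sd

/-- (m4) Every sequence of asymptotically densest Sidon sets in a residue class is equidistributed
and tame. -/
theorem sidon_equi_tm {W : ℕ} (hW : 1 ≤ W) (c : ℕ) (S : ℕ → Finset ℕ)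
    (hS : ∀ N, S N ⊆ cls W c N) (hSid : ∀ N, Sidon (S N))
    (hd : Tendsto (fun N : ℕ => ((S N).card : ℝ) / Real.sqrt ((N : ℝ) / W)) atTop (𝓝 1)) :
    Equi W c S ∧ Tm S := by
  have hW0 : (0 : ℝ) < W := by exact_mod_cast hW
  have hne : ∀ᶠ N : ℕ in atTop, (S N).Nonempty := by
    filter_upwards [hd.eventually_const_lt (zero_lt_one)] with N hN
    rw [← card_pos]
    by_contra h
    have h0 : (S N).card = 0 := by omega
    rw [h0] at hN
    simp at hN
  constructor
  · refine ⟨hS, fun ε hε => ?_⟩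
    have hM := Sd.card_tendsto hW c
    have hb := Sd.bnd_tendsto (Sd.lim_x.comp hM) (Sd.lim_y.comp hM) (Sd.lim_w.comp hM)
      (Sd.ratio_tendsto hW c hd)
    filter_upwards [hne, hb.eventually_lt_const (by positivity : (0 : ℝ) < ε ^ 2)] with N hN1 hN2
    refine ⟨hN1, fun t => ?_⟩
    have h1 := Sd.mu_bnd hW c N (hS N) (hSid N) hN1 t
    have h2 : ‖mu (S N) t - mu (cls W c N) t‖ ^ 2 ≤ ε ^ 2 := h1.trans hN2.le
    exact (pow_le_pow_iff_left₀ (norm_nonneg _) hε.le two_ne_zero).1 h2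
  · refine tm_of_energy S (fun N n hn => (mem_cls.1 (hS N hn)).1.2) 2 (by norm_num) (4 * W) ?_
    filter_upwards [hne, hd.eventually_const_lt (by norm_num : (3 / 4 : ℝ) < 1),
      eventually_ge_atTop 1] with N hN1 hN2 hN3
    refine ⟨hN1, ?_⟩
    have hN0 : (0 : ℝ) < N := by exact_mod_cast hN3
    have h3 : 0 < Real.sqrt ((N : ℝ) / W) := Real.sqrt_pos.2 (by positivity)
    rw [lt_div_iff₀ h3] at hN2
    have h4 : Real.sqrt ((N : ℝ) / W) ^ 2 = N / W := Real.sq_sqrt (by positivity)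
    have h5 : (3 / 4 : ℝ) ^ 2 * (N / W) ≤ ((S N).card : ℝ) ^ 2 := by
      rw [← h4, ← mul_pow]
      exact pow_le_pow_left₀ (by positivity) hN2.le 2
    have h6 : (N : ℝ) ≤ 2 * W * ((S N).card : ℝ) ^ 2 := by
      have h7 : (N : ℝ) / W * W = N := by field_simp
      nlinarith [mul_le_mul_of_nonneg_right h5 hW0.le]
    have h7 : (ener (S N) 2 : ℝ) ≤ 2 * ((S N).card : ℝ) ^ 2 := by
      exact_mod_cast Sd.ener_sidon (hSid N)
    calc (N : ℝ) * ener (S N) 2 ≤ N * (2 * ((S N).card : ℝ) ^ 2) :=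
          mul_le_mul_of_nonneg_left h7 hN0.le
      _ ≤ 2 * W * ((S N).card : ℝ) ^ 2 * (2 * ((S N).card : ℝ) ^ 2) :=
          mul_le_mul_of_nonneg_right h6 (by positivity)
      _ = 4 * W * ((S N).card : ℝ) ^ (2 * 2) := by ring

end Pool.Agent.Lib.MP_629a14_nt.Ts
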