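import Pool.Agent.Lib.MP_629a14_nt.Ts.Defs

/-! Dense Sidon sets are uniformly distributed: the exponential sums of a Sidon subset of `[0, M)`
with about `sqrt M` elements (inequality of van der Corput). -/

set_option autoImplicit false

namespace Pool.Agent.Lib.MP_629a14_nt.Ts

open Finset Filter Topology Pool.Agent.Lib.MP_629a14_nt

/-- A Sidon set: all sums of two elements are different. -/
def Sidon (A : Finset ℕ) : Prop :=
  ∀ a ∈ A, ∀ b ∈ A, ∀ c ∈ A, ∀ d ∈ A, a + b = c + d → (a = c ∧ b = d) ∨ (a = d ∧ b = c)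

namespace Sd

/-- The kernel of Fejer. -/
def ker (u : ℕ) (d : ℤ) : ℕ := u - d.natAbs

private theorem ker_sum (u : ℕ) : ∑ d ∈ Icc (-(u : ℤ)) u, ker u d = u ^ 2 := by
  induction u with
  | zero => simp [ker]
  | succ u ih =>
    have h1 : ∑ d ∈ Icc (-((u + 1 : ℕ) : ℤ)) ((u + 1 : ℕ) : ℤ), ker (u + 1) d =
        ∑ d ∈ Icc (-(u : ℤ)) u, ker (u + 1) d := by
      symm
      apply sum_subset
      · intro d hd
        rw [mem_Icc] at hd ⊢
        push_cast
        omega
      · intro d _ hd
        rw [mem_Icc] at hd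
        unfold ker
        omega
    have h2 : ∑ d ∈ Icc (-(u : ℤ)) u, ker (u + 1) d = ∑ d ∈ Icc (-(u : ℤ)) u, (ker u d + 1) := by
      refine sum_congr rfl fun d hd => ?_
      rw [mem_Icc] at hd
      unfold ker
      omega
    rw [h1, h2, sum_add_distrib, ih, sum_const, smul_eq_mul, mul_one, Int.card_Icc]
    have h3 : ((u : ℤ) + 1 - -(u : ℤ)).toNat = 2 * u + 1 := by omega
    rw [h3]
    ring

theorem ker_sum_le (M u : ℕ) : ∑ d ∈ Icc (-(M : ℤ)) M, ker u d ≤ u ^ 2 := by
  rw [← ker_sum u]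
  calc ∑ d ∈ Icc (-(M : ℤ)) M, ker u d
      ≤ ∑ d ∈ (Icc (-(M : ℤ)) M) ∪ (Icc (-(u : ℤ)) u), ker u d :=
        sum_le_sum_of_subset subset_union_left
    _ = ∑ d ∈ Icc (-(u : ℤ)) u, ker u d := by
        symm
        apply sum_subset subset_union_right
        intro d _ hd
        rw [mem_Icc] at hd
        unfold ker
        omega

/-- The pairs of difference `d`. -/
def pairs (M : ℕ) (d : ℤ) : Finset (ℕ × ℕ) :=
  (range M ×ˢ range M).filter (fun x => (x.1 : ℤ) - x.2 = d)

/-- The correlation. -/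
def cor (M : ℕ) (c : ℕ → ℝ) (d : ℤ) : ℝ := ∑ x ∈ pairs M d, c x.1 * c x.2

/-- The inequality of van der Corput. -/
theorem vdc (M u : ℕ) (c : ℕ → ℝ) (t : ℝ) :
    (u : ℝ) ^ 2 * ‖∑ n ∈ range M, (c n : ℂ) * ee (t * n)‖ ^ 2 ≤
      ((M : ℝ) + u) * ∑ d ∈ Icc (-(M : ℤ)) M, (ker u d : ℝ) * |cor M c d| := by
  set z : ℕ → ℂ := fun n => (c n : ℂ) * ee (t * n) with hz
  set F : ℕ → ℂ := fun x => ∑ n ∈ range M, if n ≤ x ∧ x < n + u then z n else 0 with hF
  have h1 : ∑ x ∈ range (M + u), F x = u * ∑ n ∈ range M, z n := by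
    rw [hF]
    simp only
    rw [sum_comm, mul_sum]
    refine sum_congr rfl fun n hn => ?_
    rw [← sum_filter, sum_const, nsmul_eq_mul]
    congr 2
    have : (range (M + u)).filter (fun x => n ≤ x ∧ x < n + u) = Ico n (n + u) := by
      ext x
      rw [mem_range] at hn
      simp only [mem_filter, mem_range, mem_Ico]
      omega
    rw [this, Nat.card_Ico]
    omega
  have h2 : (u : ℝ) ^ 2 * ‖∑ n ∈ range M, z n‖ ^ 2 ≤ ((M : ℝ) + u) *
      ∑ x ∈ range (M + u), ‖F x‖ ^ 2 := by
    calc (u : ℝ) ^ 2 * ‖∑ n ∈ range M, z n‖ ^ 2 = ‖∑ x ∈ range (M + u), F x‖ ^ 2 := by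
          rw [h1, norm_mul, mul_pow, Complex.norm_natCast]
      _ ≤ (∑ x ∈ range (M + u), ‖F x‖) ^ 2 :=
          pow_le_pow_left₀ (norm_nonneg _) (norm_sum_le _ _) 2
      _ ≤ ((range (M + u)).card : ℝ) * ∑ x ∈ range (M + u), ‖F x‖ ^ 2 :=
          sq_sum_le_card_mul_sum_sq
      _ = _ := by
          rw [card_range]
          push_cast
          rfl
  have h3 : ((∑ x ∈ range (M + u), ‖F x‖ ^ 2 : ℝ) : ℂ) =
      ∑ d ∈ Icc (-(M : ℤ)) M, (ker u d : ℂ) * (ee (t * d) * (cor M c d : ℂ)) := by
    have e1 : ((∑ x ∈ range (M + u), ‖F x‖ ^ 2 : ℝ) : ℂ) = ∑ x ∈ range (M + u),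
        ∑ p ∈ range M ×ˢ range M, if (p.1 ≤ x ∧ x < p.1 + u) ∧ (p.2 ≤ x ∧ x < p.2 + u) then
          z p.1 * (starRingEnd ℂ) (z p.2) else 0 := by
      push_cast
      refine sum_congr rfl fun x _ => ?_
      rw [← Complex.mul_conj', hF]
      simp only
      rw [map_sum, sum_mul_sum, ← sum_product']
      refine sum_congr rfl fun p _ => ?_
      by_cases hp : p.1 ≤ x ∧ x < p.1 + u
      · by_cases hq : p.2 ≤ x ∧ x < p.2 + u
        · rw [if_pos hp, if_pos hq, if_pos ⟨hp, hq⟩]
        · rw [if_neg hq, map_zero, mul_zero, if_neg]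
          rintro ⟨_, h⟩
          exact hq h
      · rw [if_neg hp, zero_mul, if_neg]
        rintro ⟨h, _⟩
        exact hp h
    rw [e1, sum_comm]
    have e2 : ∀ p ∈ range M ×ˢ range M, ∑ x ∈ range (M + u),
        (if (p.1 ≤ x ∧ x < p.1 + u) ∧ (p.2 ≤ x ∧ x < p.2 + u) then
          z p.1 * (starRingEnd ℂ) (z p.2) else 0) =
        (ker u ((p.1 : ℤ) - p.2) : ℂ) * (ee (t * (((p.1 : ℤ) - p.2 : ℤ) : ℝ)) *
          ((c p.1 * c p.2 : ℝ) : ℂ)) := by
      intro p hp
      rw [mem_product, mem_range, mem_range] at hp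
      rw [← sum_filter, sum_const, nsmul_eq_mul]
      have : (range (M + u)).filter (fun x => (p.1 ≤ x ∧ x < p.1 + u) ∧ (p.2 ≤ x ∧ x < p.2 + u)) =
          Ico (max p.1 p.2) (min p.1 p.2 + u) := by
        ext x
        simp only [mem_filter, mem_range, mem_Ico]
        omega
      rw [this, Nat.card_Ico]
      have h4 : min p.1 p.2 + u - max p.1 p.2 = ker u ((p.1 : ℤ) - p.2) := by
        unfold ker
        omega
      rw [h4]
      congr 1
      rw [hz]
      simp only [map_mul, Complex.conj_ofReal, conj_ee]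
      have h5 : t * (((p.1 : ℤ) - p.2 : ℤ) : ℝ) = t * p.1 + -(t * p.2) := by
        push_cast
        ring
      rw [h5, ee_add]
      push_cast
      ring
    rw [sum_congr rfl e2, ← sum_fiberwise_of_maps_to (t := Icc (-(M : ℤ)) M)
      (g := fun p : ℕ × ℕ => (p.1 : ℤ) - p.2)]
    · refine sum_congr rfl fun d _ => ?_
      unfold cor pairs
      push_cast
      rw [mul_sum, mul_sum]
      refine sum_congr rfl fun p hp => ?_
      have := (mem_filter.1 hp).2
      rw [← this]
      push_cast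
      ring
    · intro p hp
      rw [mem_product, mem_range, mem_range] at hp
      simp only [mem_Icc]
      omega
  have h4 : ∑ x ∈ range (M + u), ‖F x‖ ^ 2 ≤
      ∑ d ∈ Icc (-(M : ℤ)) M, (ker u d : ℝ) * |cor M c d| := by
    have h5 : ∑ x ∈ range (M + u), ‖F x‖ ^ 2 = ‖((∑ x ∈ range (M + u), ‖F x‖ ^ 2 : ℝ) : ℂ)‖ := by
      rw [Complex.norm_real, Real.norm_eq_abs, abs_of_nonneg (by positivity)]
    rw [h5, h3]
    refine (norm_sum_le _ _).trans (sum_le_sum fun d _ => ?_)
    rw [norm_mul, norm_mul, norm_ee, one_mul, Complex.norm_natCast, Complex.norm_real,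
      Real.norm_eq_abs]
  exact h2.trans (mul_le_mul_of_nonneg_left h4 (by positivity))

/-- The number of pairs of elements of `A` with difference `d`. -/
def rr (A : Finset ℕ) (d : ℤ) : ℕ := ((A ×ˢ A).filter (fun x => (x.1 : ℤ) - x.2 = d)).card

theorem rr_le_one {A : Finset ℕ} (hA : Sidon A) {d : ℤ} (hd : d ≠ 0) : rr A d ≤ 1 := by
  unfold rr
  rw [card_le_one]
  intro x hx y hy
  rw [mem_filter, mem_product] at hx hy
  obtain ⟨⟨hx1, hx2⟩, hx3⟩ := hx
  obtain ⟨⟨hy1, hy2⟩, hy3⟩ := hy
  rcases hA x.1 hx1 y.2 hy2 y.1 hy1 x.2 hx2 (by omega) with h | h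
  · exact Prod.ext h.1 h.2.symm
  · exfalso
    apply hd
    omega

/-- A Sidon set in an interval of length `u` has at most about `sqrt (2 u)` elements. -/
theorem card_interval {A : Finset ℕ} (hA : Sidon A) (x u : ℕ) (h : ∀ n ∈ A, x ≤ n ∧ n < x + u) :
    A.card * A.card ≤ A.card + (2 * u + 1) := by
  have h1 : A.offDiag.card ≤ (Icc (-(u : ℤ)) u).card := by
    refine card_le_card_of_injOn (fun p => (p.1 : ℤ) - p.2) ?_ ?_
    · intro p hp
      rw [mem_coe, mem_offDiag] at hp
      have h1 := h _ hp.1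
      have h2 := h _ hp.2.1
      simp only [coe_Icc, Set.mem_Icc]
      omega
    · intro p hp q hq hpq
      rw [mem_coe, mem_offDiag] at hp hq
      simp only at hpq
      rcases hA p.1 hp.1 q.2 hq.2.1 q.1 hq.1 p.2 hp.2.1 (by omega) with h | h
      · exact Prod.ext h.1 h.2.symm
      · exact absurd h.1 hp.2.2
  rw [offDiag_card, Int.card_Icc] at h1
  have h3 : ((u : ℤ) + 1 - -(u : ℤ)).toNat = 2 * u + 1 := by omega
  rw [h3] at h1
  omega

theorem card_interval_real {A : Finset ℕ} (hA : Sidon A) (x u : ℕ)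
    (h : ∀ n ∈ A, x ≤ n ∧ n < x + u) : (A.card : ℝ) ≤ 1 + Real.sqrt (2 * u + 1) := by
  have h1 : (A.card : ℝ) * A.card ≤ A.card + (2 * u + 1) := by
    exact_mod_cast card_interval hA x u h
  have h2 := Real.sq_sqrt (by positivity : (0 : ℝ) ≤ 2 * u + 1)
  have h3 := Real.sqrt_nonneg (2 * (u : ℝ) + 1)
  by_contra h4
  push Not at h4
  nlinarith

theorem sidon_subset {A B : Finset ℕ} (hA : Sidon A) (h : B ⊆ A) : Sidon B :=
  fun a ha b hb c hc d hd hs => hA a (h ha) b (h hb) c (h hc) d (h hd) hs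

/-- Number of elements near the two ends. -/
theorem card_ends {A : Finset ℕ} (hA : Sidon A) (M u : ℕ) (h : ∀ n ∈ A, n < M) :
    ((A.filter (fun n => n < u ∨ M ≤ n + u)).card : ℝ) ≤ 2 * (1 + Real.sqrt (2 * u + 1)) := by
  have h1 : A.filter (fun n => n < u ∨ M ≤ n + u) =
      A.filter (fun n => n < u) ∪ A.filter (fun n => M ≤ n + u) := filter_or _ _ _
  have h2 := card_union_le (A.filter (fun n => n < u)) (A.filter (fun n => M ≤ n + u))
  rw [← h1] at h2
  have h3 := card_interval_real (sidon_subset hA (filter_subset (fun n => n < u) A)) 0 u (by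
    intro n hn
    have := (mem_filter.1 hn).2
    omega)
  have h4 := card_interval_real (sidon_subset hA (filter_subset (fun n => M ≤ n + u) A)) (M - u) u
    (by
      intro n hn
      have h5 := (mem_filter.1 hn).2
      have h6 := h n (mem_filter.1 hn).1
      omega)
  have h5 : ((A.filter (fun n => n < u ∨ M ≤ n + u)).card : ℝ) ≤
      (A.filter (fun n => n < u)).card + (A.filter (fun n => M ≤ n + u)).card := by
    exact_mod_cast h2
  linarith

/-- The indicator function of `A`. -/
def ind (A : Finset ℕ) (n : ℕ) : ℝ := if n ∈ A then 1 else 0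

theorem sum_pairs_ind {A : Finset ℕ} {M : ℕ} (h : ∀ n ∈ A, n < M) (d : ℤ) :
    ∑ x ∈ pairs M d, ind A x.1 * ind A x.2 = rr A d := by
  unfold rr
  have h1 : ∀ x ∈ pairs M d, ind A x.1 * ind A x.2 = if x ∈ A ×ˢ A then 1 else 0 := by
    intro x _
    unfold ind
    by_cases hx : x.1 ∈ A
    · by_cases hy : x.2 ∈ A
      · rw [if_pos hx, if_pos hy, if_pos (mem_product.2 ⟨hx, hy⟩), mul_one]
      · rw [if_neg hy, mul_zero, if_neg]
        intro h
        exact hy (mem_product.1 h).2
    · rw [if_neg hx, zero_mul, if_neg]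
      intro h
      exact hx (mem_product.1 h).1
  rw [sum_congr rfl h1, ← sum_filter, sum_const, nsmul_eq_mul, mul_one]
  congr 2
  ext x
  unfold pairs
  simp only [mem_filter, mem_product, mem_range]
  constructor
  · rintro ⟨⟨_, h2⟩, h3⟩
    exact ⟨h3, h2⟩
  · rintro ⟨h2, h3⟩
    exact ⟨⟨⟨h _ h2.1, h _ h2.2⟩, h3⟩, h2⟩

theorem card_pairs_le (M : ℕ) (d : ℤ) : (pairs M d).card ≤ M := by
  calc (pairs M d).card ≤ (range M).card := by
        refine card_le_card_of_injOn (fun x => x.1) ?_ ?_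
        · intro x hx
          exact (mem_product.1 (mem_filter.1 hx).1).1
        · intro x hx y hy hxy
          have h1 := (mem_filter.1 hx).2
          have h2 := (mem_filter.1 hy).2
          simp only at hxy
          exact Prod.ext hxy (by omega)
    _ = M := card_range M

theorem card_pairs_ge (M : ℕ) (d : ℤ) : M ≤ (pairs M d).card + d.natAbs := by
  have h1 : (range (M - d.natAbs)).card ≤ (pairs M d).card := by
    refine card_le_card_of_injOn
      (fun n => if 0 ≤ d then (n + d.natAbs, n) else (n, n + d.natAbs)) ?_ ?_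
    · intro n hn
      rw [mem_coe, mem_range] at hn
      by_cases hd : 0 ≤ d
      · simp only [if_pos hd]
        unfold pairs
        simp only [mem_coe, mem_filter, mem_product, mem_range]
        omega
      · simp only [if_neg hd]
        unfold pairs
        simp only [mem_coe, mem_filter, mem_product, mem_range]
        omega
    · intro n _ m _ hnm
      by_cases hd : 0 ≤ d
      · simp only [if_pos hd] at hnm
        exact congrArg Prod.snd hnm
      · simp only [if_neg hd] at hnm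
        exact congrArg Prod.fst hnm
  rw [card_range] at h1
  omega

theorem sum_ind_fst {A : Finset ℕ} {M : ℕ} (d : ℤ) :
    ∑ x ∈ pairs M d, ind A x.1 ≤ A.card := by
  unfold ind
  rw [← sum_filter, sum_const, nsmul_eq_mul, mul_one]
  have : ((pairs M d).filter (fun x => x.1 ∈ A)).card ≤ A.card := by
    refine card_le_card_of_injOn (fun x => x.1) ?_ ?_
    · intro x hx
      exact (mem_filter.1 hx).2
    · intro x hx y hy hxy
      have h1 := (mem_filter.1 (mem_filter.1 hx).1).2
      have h2 := (mem_filter.1 (mem_filter.1 hy).1).2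
      simp only at hxy
      exact Prod.ext hxy (by omega)
  exact_mod_cast this

theorem sum_ind_snd {A : Finset ℕ} {M : ℕ} (d : ℤ) :
    ∑ x ∈ pairs M d, ind A x.2 ≤ A.card := by
  unfold ind
  rw [← sum_filter, sum_const, nsmul_eq_mul, mul_one]
  have : ((pairs M d).filter (fun x => x.2 ∈ A)).card ≤ A.card := by
    refine card_le_card_of_injOn (fun x => x.2) ?_ ?_
    · intro x hx
      exact (mem_filter.1 hx).2
    · intro x hx y hy hxy
      have h1 := (mem_filter.1 (mem_filter.1 hx).1).2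
      have h2 := (mem_filter.1 (mem_filter.1 hy).1).2
      simp only at hxy
      exact Prod.ext (by omega) hxy
  exact_mod_cast this

theorem sum_ind_fst_ge {A : Finset ℕ} {M u : ℕ} (h : ∀ n ∈ A, n < M) (d : ℤ)
    (hd : d.natAbs ≤ u) :
    (A.card : ℝ) - (A.filter (fun n => n < u ∨ M ≤ n + u)).card ≤
      ∑ x ∈ pairs M d, ind A x.1 := by
  unfold ind
  rw [← sum_filter, sum_const, nsmul_eq_mul, mul_one]
  have h1 : (A.filter (fun n => ¬ (n < u ∨ M ≤ n + u))).card ≤
      ((pairs M d).filter (fun x => x.1 ∈ A)).card := by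
    refine card_le_card_of_injOn (fun n => (n, ((n : ℤ) - d).toNat)) ?_ ?_
    · intro n hn
      rw [mem_coe, mem_filter] at hn
      have h2 := h n hn.1
      have h3 := hn.2
      unfold pairs
      simp only [mem_coe, mem_filter, mem_product, mem_range]
      refine ⟨⟨⟨h2, ?_⟩, ?_⟩, hn.1⟩ <;> omega
    · intro n _ m _ hnm
      exact congrArg Prod.fst hnm
  have h2 := card_filter_add_card_filter_not (s := A) (fun n => n < u ∨ M ≤ n + u)
  have h3 : ((A.filter (fun n => n < u ∨ M ≤ n + u)).card : ℝ) +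
      (A.filter (fun n => ¬ (n < u ∨ M ≤ n + u))).card = A.card := by exact_mod_cast h2
  have h4 : ((A.filter (fun n => ¬ (n < u ∨ M ≤ n + u))).card : ℝ) ≤
      ((pairs M d).filter (fun x => x.1 ∈ A)).card := by exact_mod_cast h1
  linarith

theorem sum_ind_snd_ge {A : Finset ℕ} {M u : ℕ} (h : ∀ n ∈ A, n < M) (d : ℤ)
    (hd : d.natAbs ≤ u) :
    (A.card : ℝ) - (A.filter (fun n => n < u ∨ M ≤ n + u)).card ≤
      ∑ x ∈ pairs M d, ind A x.2 := by
  unfold ind
  rw [← sum_filter, sum_const, nsmul_eq_mul, mul_one]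
  have h1 : (A.filter (fun n => ¬ (n < u ∨ M ≤ n + u))).card ≤
      ((pairs M d).filter (fun x => x.2 ∈ A)).card := by
    refine card_le_card_of_injOn (fun n => (((n : ℤ) + d).toNat, n)) ?_ ?_
    · intro n hn
      rw [mem_coe, mem_filter] at hn
      have h2 := h n hn.1
      have h3 := hn.2
      unfold pairs
      simp only [mem_coe, mem_filter, mem_product, mem_range]
      refine ⟨⟨⟨?_, h2⟩, ?_⟩, hn.1⟩ <;> omega
    · intro n _ m _ hnm
      exact congrArg Prod.snd hnm
  have h2 := card_filter_add_card_filter_not (s := A) (fun n => n < u ∨ M ≤ n + u)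
  have h3 : ((A.filter (fun n => n < u ∨ M ≤ n + u)).card : ℝ) +
      (A.filter (fun n => ¬ (n < u ∨ M ≤ n + u))).card = A.card := by exact_mod_cast h2
  have h4 : ((A.filter (fun n => ¬ (n < u ∨ M ≤ n + u))).card : ℝ) ≤
      ((pairs M d).filter (fun x => x.2 ∈ A)).card := by exact_mod_cast h1
  linarith

theorem cor_eq {A : Finset ℕ} {M : ℕ} (h : ∀ n ∈ A, n < M) (q : ℝ) (d : ℤ) :
    cor M (fun n => ind A n - q) d = rr A d - q * (∑ x ∈ pairs M d, ind A x.1 +
      ∑ x ∈ pairs M d, ind A x.2) + q ^ 2 * (pairs M d).card := by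
  unfold cor
  rw [← sum_pairs_ind h d, mul_add, mul_sum, mul_sum]
  have h1 : ∀ x ∈ pairs M d, (ind A x.1 - q) * (ind A x.2 - q) =
      ind A x.1 * ind A x.2 - (q * ind A x.1 + q * ind A x.2) + q ^ 2 := by
    intro x _
    ring
  rw [sum_congr rfl h1, sum_add_distrib, sum_sub_distrib, sum_add_distrib, sum_const,
    nsmul_eq_mul]
  ring

theorem rr_zero (A : Finset ℕ) : rr A 0 = A.card := by
  unfold rr
  have : (A ×ˢ A).filter (fun x => (x.1 : ℤ) - x.2 = 0) = A.image (fun n => (n, n)) := by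
    ext x
    simp only [mem_filter, mem_product, mem_image]
    constructor
    · rintro ⟨⟨h1, h2⟩, h3⟩
      exact ⟨x.1, h1, Prod.ext rfl (by simp only; omega)⟩
    · rintro ⟨n, hn, rfl⟩
      exact ⟨⟨hn, hn⟩, by simp⟩
  rw [this, card_image_of_injective]
  intro n m h
  exact congrArg Prod.fst h

/-- The main inequality. -/
theorem core (M u : ℕ) (hM : 1 ≤ M) {A : Finset ℕ} (hA : Sidon A) (h : ∀ n ∈ A, n < M)
    (t a B κ : ℝ) (ha : a = A.card) (hB : B = 2 * (1 + Real.sqrt (2 * u + 1)))
    (hκ : κ = |1 - a ^ 2 / M| + 2 * a * B / M + a ^ 2 * u / M ^ 2) :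
    (u : ℝ) ^ 2 * ‖∑ n ∈ A, ee (t * n) - (a / M : ℝ) * ∑ n ∈ range M, ee (t * n)‖ ^ 2 ≤
      ((M : ℝ) + u) * (2 * u * a + (1 + κ) * u ^ 2) - a ^ 2 * u ^ 2 := by
  have hM0 : (0 : ℝ) < M := by exact_mod_cast hM
  have ha0 : 0 ≤ a := by rw [ha]; positivity
  set b : ℝ := ((A.filter (fun n => n < u ∨ M ≤ n + u)).card : ℝ) with hb
  have hbB : b ≤ B := by rw [hB]; exact card_ends hA M u h
  have hb0 : 0 ≤ b := by rw [hb]; positivity
  have hB0 : 0 ≤ B := hb0.trans hbB
  have hκ0 : 0 ≤ κ := by rw [hκ]; positivity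
  have h1 := vdc M u (fun n => ind A n - a / M) t
  have e1 : ∑ n ∈ range M, ((ind A n - a / M : ℝ) : ℂ) * ee (t * n) =
      ∑ n ∈ A, ee (t * n) - (a / M : ℝ) * ∑ n ∈ range M, ee (t * n) := by
    have e2 : ∑ n ∈ A, ee (t * n) = ∑ n ∈ range M, (ind A n : ℂ) * ee (t * n) := by
      have e3 : ∀ n ∈ range M, (ind A n : ℂ) * ee (t * n) = if n ∈ A then ee (t * n) else 0 := by
        intro n _
        unfold ind
        split_ifs <;> simp
      rw [sum_congr rfl e3, ← sum_filter]
      congr 1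
      ext n
      rw [mem_filter, mem_range]
      exact ⟨fun hn => ⟨h n hn, hn⟩, fun hn => hn.2⟩
    rw [e2, mul_sum, ← sum_sub_distrib]
    refine sum_congr rfl fun n _ => ?_
    push_cast
    ring
  rw [e1] at h1
  have h2 := vdc M u (ind A) 0
  have e4 : ∑ n ∈ range M, (ind A n : ℂ) * ee (0 * n) = (a : ℂ) := by
    have e3 : ∀ n ∈ range M, (ind A n : ℂ) * ee (0 * n) = if n ∈ A then 1 else 0 := by
      intro n _
      rw [zero_mul, ee_zero]
      unfold ind
      split_ifs <;> simp
    rw [sum_congr rfl e3, ← sum_filter, sum_const, nsmul_eq_mul, mul_one, ha]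
    congr 2
    ext n
    rw [mem_filter, mem_range]
    exact ⟨fun hn => hn.2, fun hn => ⟨h n hn, hn⟩⟩
  rw [e4, Complex.norm_real, Real.norm_eq_abs, sq_abs] at h2
  have e5 : ∀ d ∈ Icc (-(M : ℤ)) M, (ker u d : ℝ) * |cor M (ind A) d| =
      (ker u d : ℝ) * rr A d := by
    intro d _
    congr 1
    have : cor M (ind A) d = rr A d := sum_pairs_ind h d
    rw [this, abs_of_nonneg (by positivity)]
  rw [sum_congr rfl e5] at h2
  have key : ∀ d ∈ Icc (-(M : ℤ)) M, (ker u d : ℝ) * |cor M (fun n => ind A n - a / M) d| ≤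
      (ker u d : ℝ) * (1 + κ) - (ker u d : ℝ) * rr A d + if d = 0 then 2 * u * a else 0 := by
    intro d _
    by_cases hdu : u ≤ d.natAbs
    · have : ker u d = 0 := by unfold ker; omega
      rw [this]
      split_ifs <;> simp; positivity
    push Not at hdu
    have hk0 : (0 : ℝ) ≤ ker u d := by positivity
    set α := ∑ x ∈ pairs M d, ind A x.1 with hα
    set β := ∑ x ∈ pairs M d, ind A x.2 with hβ
    have g1 : α ≤ a := by rw [ha]; exact sum_ind_fst d
    have g2 : β ≤ a := by rw [ha]; exact sum_ind_snd d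
    have g3 : a - b ≤ α := by rw [ha]; exact sum_ind_fst_ge h d hdu.le
    have g4 : a - b ≤ β := by rw [ha]; exact sum_ind_snd_ge h d hdu.le
    have g5 : ((pairs M d).card : ℝ) ≤ M := by exact_mod_cast card_pairs_le M d
    have g6 : (M : ℝ) - u ≤ (pairs M d).card := by
      have := card_pairs_ge M d
      have h7 : M ≤ (pairs M d).card + u := by omega
      have h8 : (M : ℝ) ≤ (pairs M d).card + u := by exact_mod_cast h7
      linarith
    have hc : cor M (fun n => ind A n - a / M) d = rr A d - (a / M) * (α + β) +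
        (a / M) ^ 2 * (pairs M d).card := cor_eq h (a / M) d
    have hq0 : 0 ≤ a / M := by positivity
    by_cases hd : d = 0
    · subst hd
      rw [if_pos rfl, rr_zero]
      have hk : (ker u 0 : ℝ) = u := by simp [ker]
      rw [hk, hc, rr_zero, ← ha]
      have p0 : ((pairs M 0).card : ℝ) = M := by
        have := card_pairs_ge M 0
        have h9 := card_pairs_le M 0
        have h8 : (pairs M 0).card = M := by
          simp only [Int.natAbs_zero] at this
          omega
        exact_mod_cast h8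
      have h10 : α = a := by
        refine le_antisymm g1 ?_
        have := sum_ind_fst_ge (A := A) (u := 0) h 0 (by simp)
        have h11 : A.filter (fun n => n < 0 ∨ M ≤ n + 0) = ∅ := by
          apply filter_eq_empty_iff.2
          intro n hn
          have := h n hn
          omega
        rw [h11] at this
        simp only [card_empty, Nat.cast_zero, sub_zero] at this
        rw [ha]
        exact this
      have h12 : β = a := by
        refine le_antisymm g2 ?_
        have := sum_ind_snd_ge (A := A) (u := 0) h 0 (by simp)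
        have h11 : A.filter (fun n => n < 0 ∨ M ≤ n + 0) = ∅ := by
          apply filter_eq_empty_iff.2
          intro n hn
          have := h n hn
          omega
        rw [h11] at this
        simp only [card_empty, Nat.cast_zero, sub_zero] at this
        rw [ha]
        exact this
      rw [h10, h12, p0]
      have h13 : a - a / M * (a + a) + (a / M) ^ 2 * M = a * (1 - a / M) := by
        field_simp
        ring
      have haM : a ≤ M := by
        have h14 : A ⊆ range M := fun n hn => mem_range.2 (h n hn)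
        have := card_le_card h14
        rw [card_range] at this
        rw [ha]
        exact_mod_cast this
      have h15 : a / M ≤ 1 := by
        rw [div_le_one hM0]
        exact haM
      rw [h13, abs_of_nonneg (mul_nonneg ha0 (by linarith))]
      have hu0 : (0 : ℝ) ≤ u := by positivity
      have h16 : a * (1 - a / M) ≤ a := by
        have := mul_nonneg ha0 hq0
        linarith
      have h17 := mul_le_mul_of_nonneg_left h16 hu0
      have h18 := mul_nonneg hu0 hκ0
      linarith
    · rw [if_neg hd, add_zero, ← mul_sub]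
      refine mul_le_mul_of_nonneg_left ?_ hk0
      have hr : (rr A d : ℝ) ≤ 1 := by exact_mod_cast rr_le_one hA hd
      have hsq : 0 ≤ (a / M) ^ 2 := by positivity
      have f1 : 2 * (a / M) * a = 2 * (a ^ 2 / M) := by ring
      have f2 : (a / M) ^ 2 * M = a ^ 2 / M := by field_simp
      have f3 : (a / M) ^ 2 * u = a ^ 2 * u / M ^ 2 := by ring
      have f4 : 2 * (a / M) * b ≤ 2 * a * B / M := by
        have : 2 * a * B / M = 2 * (a / M) * B := by ring
        rw [this]
        exact mul_le_mul_of_nonneg_left hbB (by positivity)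
      have f5 := neg_abs_le (1 - a ^ 2 / M)
      have f6 := le_abs_self (1 - a ^ 2 / M)
      have f7 : (a / M) * (α + β) ≤ 2 * (a / M) * a := by
        have := mul_le_mul_of_nonneg_left (add_le_add g1 g2) hq0
        linarith
      have f8 : 2 * (a / M) * a - 2 * (a / M) * b ≤ (a / M) * (α + β) := by
        have := mul_le_mul_of_nonneg_left (add_le_add g3 g4) hq0
        linarith
      have f9 : (a / M) ^ 2 * (pairs M d).card ≤ (a / M) ^ 2 * M :=
        mul_le_mul_of_nonneg_left g5 hsq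
      have f10 : (a / M) ^ 2 * M - (a / M) ^ 2 * u ≤ (a / M) ^ 2 * (pairs M d).card := by
        rw [← mul_sub]
        exact mul_le_mul_of_nonneg_left g6 hsq
      have f11 : 0 ≤ a ^ 2 * u / (M : ℝ) ^ 2 := by positivity
      have f12 : 0 ≤ 2 * (a / M) * b := by positivity
      rw [hc, abs_le]
      constructor
      · rw [hκ]
        linarith
      · rw [hκ]
        linarith
  have h3 := sum_le_sum key
  rw [sum_add_distrib, sum_sub_distrib, ← sum_mul, sum_ite_eq' (Icc (-(M : ℤ)) M) 0
    (fun _ => 2 * (u : ℝ) * a), if_pos (by rw [mem_Icc]; omega)] at h3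
  have h4 : (∑ d ∈ Icc (-(M : ℤ)) M, (ker u d : ℝ)) ≤ (u : ℝ) ^ 2 := by
    exact_mod_cast ker_sum_le M u
  have h5 : (∑ d ∈ Icc (-(M : ℤ)) M, (ker u d : ℝ)) * (1 + κ) ≤ (u : ℝ) ^ 2 * (1 + κ) :=
    mul_le_mul_of_nonneg_right h4 (by linarith)
  have hMu : (0 : ℝ) ≤ (M : ℝ) + u := by positivity
  have h6 := mul_le_mul_of_nonneg_left (h3.trans (add_le_add_left (sub_le_sub_right h5
    (∑ d ∈ Icc (-(M : ℤ)) M, (ker u d : ℝ) * (rr A d : ℝ))) (2 * u * a))) hMu
  have h7 := h1.trans h6
  have h8 : ((M : ℝ) + u) * (u ^ 2 * (1 + κ) - ∑ d ∈ Icc (-(M : ℤ)) M,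
      (ker u d : ℝ) * (rr A d : ℝ) + 2 * u * a) = ((M : ℝ) + u) * (2 * u * a + (1 + κ) * u ^ 2) -
      ((M : ℝ) + u) * ∑ d ∈ Icc (-(M : ℤ)) M, (ker u d : ℝ) * (rr A d : ℝ) := by ring
  rw [h8] at h7
  linarith

end Sd

end Pool.Agent.Lib.MP_629a14_nt.Ts
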